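import Mathlib
import Pool.Agent.Work.MP_4329d7_ag.FDefs

/-!
Theorem U: abelian covers of products of projective spaces branched along hyperplanes in general
position in every factor have a nonzero pluricanonical form or are uniruled.  Definitions.

* `Pt` (points `p`): the branch hyperplanes of all factors; `f : Pt → I` the factor;
* `Q`, `g : Q → I`: the linear relations between the forms of a factor;
* `a q p : k`: the coefficients of the relation `q`, already multiplied by the value at the general
  point: `∑ p, a q p = 0`, `a q p ≠ 0 → f p = g q`;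
* a block is a vector `b : Pt → ℕ`; roots `t : ι → F` carry blocks `β : ι → Pt → ℕ`.
-/

namespace Pool.Agent.Work.Uni

open Polynomial

/-- `∏ i, (X - t i) ^ (β i p)` -/
noncomputable def rootPoly {ι Pt F : Type*} [Fintype ι] [CommRing F] (β : ι → Pt → ℕ) (t : ι → F)
    (p : Pt) : F[X] :=
  ∏ i, (X - C (t i)) ^ β i p

/-- the roots `t` solve all relations: `∑ p, a q p * ∏ i, (X - t i) ^ (β i p) = 0` for all `q` -/
def IsSol {ι Pt Q k : Type*} [Fintype ι] [Fintype Pt] [CommRing k]
    (a : Q → Pt → k) (β : ι → Pt → ℕ) (t : ι → k) : Prop :=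
  ∀ q, ∑ p, C (a q p) * rootPoly β t p = 0

/-- the coefficient system: the relation `q` involves only points of the factor `g q`, and the
general point is a solution -/
structure Coef {Pt Q I k : Type*} [Fintype Pt] [Field k] (f : Pt → I) (g : Q → I)
    (a : Q → Pt → k) : Prop where
  fac : ∀ q p, a q p ≠ 0 → f p = g q
  sum : ∀ q, ∑ p, a q p = 0

/-- the blocks: nonzero vectors with `b ∈ Λ` whose support is small -/
structure BlockData (Pt : Type*) where
  /-- the group of the vectors with trivial monodromy -/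
  L : AddSubgroup (Pt → ℤ)
  /-- the possible supports -/
  Small : Finset Pt → Prop
  mono : ∀ s t, s ⊆ t → Small t → Small s

variable {Pt : Type*}

/-- `b` is a block -/
def BlockData.IsBlock [Fintype Pt] (B : BlockData Pt) (b : Pt → ℕ) : Prop :=
  b ≠ 0 ∧ (fun p => (b p : ℤ)) ∈ B.L ∧ B.Small (Finset.univ.filter fun p => b p ≠ 0)

/-- all rational curves given by roots in `k` are constant.  (Holds if `K` is not uniruled and `k`
is an algebraic closure of `K`.) -/
def Star {Pt Q I k : Type} [Fintype Pt] [Field k] (B : BlockData Pt) (f : Pt → I)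
    (a : Q → Pt → k) : Prop :=
  ∀ (ι : Type) [Fintype ι] (β : ι → Pt → ℕ) (m : I → ℕ), (∀ i, B.IsBlock (β i)) →
    (∀ p, ∑ i, β i p = m (f p)) → ∀ t : ι → k,
      IsSol a β t → ∀ p p', f p = f p' → rootPoly β t p = rootPoly β t p'

/-- multiplicities `lam` of the types `b` form a packing of degrees `m` -/
def IsPack {Ty Pt I : Type*} [Fintype Ty] (f : Pt → I) (b : Ty → Pt → ℕ) (lam : Ty → ℕ)
    (m : I → ℕ) : Prop :=
  ∀ p, ∑ t, lam t * b t p = m (f p)

/-- an extreme packing: all types are used, and every packing with the same types is a multiple -/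
structure IsExt {Ty Pt I : Type*} [Fintype Ty] (f : Pt → I) (b : Ty → Pt → ℕ) (lam : Ty → ℕ)
    (m : I → ℕ) : Prop where
  pack : IsPack f b lam m
  pos : ∀ t, 1 ≤ lam t
  uniq : ∀ (nu : Ty → ℕ) (m' : I → ℕ), IsPack f b nu m' → ∃ j : ℕ, ∀ t, nu t = j * lam t

/-- the conclusion of the Bezout count: every extreme packing of blocks has
`δ = ∑ lam - ∑ m ≤ 1`, and if `δ = 1` then `∑ min (lam) J = ∑ min m J + 1` for all `J ≥ 1`. -/
def Crit {Pt Q I : Type} [Fintype Pt] [Fintype Q] (B : BlockData Pt) (f : Pt → I) (g : Q → I) :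
    Prop :=
  ∀ (Ty : Type) [Fintype Ty] (b : Ty → Pt → ℕ) (lam : Ty → ℕ) (m : I → ℕ),
    (∀ t, B.IsBlock (b t)) → IsExt f b lam m →
      (∑ t, lam t ≤ ∑ q, m (g q) + 1) ∧
      (∑ t, lam t = ∑ q, m (g q) + 1 →
        ∀ J, 1 ≤ J → ∑ t, min (lam t) J = ∑ q, min (m (g q)) J + 1)

/-- `K` is uniruled: there are a finitely generated field `E` over `ℂ` (the function field of a
variety `B`) and a homomorphism `φ` from `K` to the rational function field `E(t)` (a dominant
rational map from `B × ℙ¹` to `X`) whose image is not contained in `E`. -/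
def Uniruled (K : Type) [Field K] [Algebra ℂ K] : Prop :=
  ∃ (E : Type) (_ : Field E) (_ : Algebra ℂ E) (φ : K →ₐ[ℂ] RatFunc E),
    Algebra.EssFiniteType ℂ E ∧ ∃ y : K, ∀ e : E, φ y ≠ RatFunc.C e

/-- the linear form `α 0 + α 1 * x 1 + ... + α n * x n` -/
noncomputable def lin {K : Type*} [Field K] [Algebra ℂ K] {n : ℕ} (α : Fin (n + 1) → ℂ)
    (x : Fin n → K) : K :=
  ∑ j, algebraMap ℂ K (α j) * (Fin.cons 1 x : Fin (n + 1) → K) j

/-- The data of an abelian cover of a product of projective spaces branched along hyperplanes in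
general position in every factor.  `I` = the factors, `n a` = the dimension of the factor `a`,
`E a` = the hyperplanes of the factor `a`, `x` = affine coordinates, `S` = radicals: pairs `(z, c)`
with `z ^ N = ∏ l ^ c`. -/
structure CoverData (K : Type) [Field K] [Algebra ℂ K] (I : Type) [Fintype I] (n : I → ℕ)
    (E : I → Type) [∀ i, Fintype (E i)] (α : (i : I) → E i → Fin (n i + 1) → ℂ)
    (N : ℕ) (x : (i : I) → Fin (n i) → K) (S : Set (K × ((i : I) → E i → ℕ))) : Prop where
  N_pos : 0 < N
  n_pos : ∀ i, 0 < n i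
  card : ∀ i, n i + 1 ≤ Fintype.card (E i)
  gen_pos : ∀ i (s : Finset (E i)), s.card = n i + 1 →
    LinearIndependent ℂ (fun e : s => α i e)
  alg_indep : AlgebraicIndependent ℂ (fun p : Σ i, Fin (n i) => x p.1 p.2)
  rad : ∀ z c, (z, c) ∈ S → z ^ N = ∏ i, ∏ e, lin (α i e) (x i) ^ c i e
  deg : ∀ z c, (z, c) ∈ S → ∀ i, N ∣ ∑ e, c i e
  gen : IntermediateField.adjoin ℂ
    (Set.range (fun p : Σ i, Fin (n i) => x p.1 p.2) ∪ {z | ∃ c, (z, c) ∈ S}) = ⊤
  branch : ∀ i (e : E i), ∃ z c, (z, c) ∈ S ∧ ¬ N ∣ c i e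

/-- the block data of a cover -/
def coverBlocks {K : Type} {I : Type} {n : I → ℕ} {E : I → Type} [∀ i, Fintype (E i)]
    [∀ i, DecidableEq (E i)] [DecidableEq I] [Fintype I]
    (N : ℕ) (S : Set (K × ((i : I) → E i → ℕ))) : BlockData (Σ i, E i) where
  L :=
    { carrier := {b | ∀ z c, (z, c) ∈ S → (N : ℤ) ∣ ∑ p : Σ i, E i, b p * (c p.1 p.2 : ℤ)}
      zero_mem' := fun z c _ => by simp
      add_mem' := fun {u v} hu hv z c h => by
        have := dvd_add (hu z c h) (hv z c h)
        rw [← Finset.sum_add_distrib] at this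
        simpa [add_mul] using this
      neg_mem' := fun {u} hu z c h => by
        have := (dvd_neg (α := ℤ)).2 (hu z c h)
        rw [← Finset.sum_neg_distrib] at this
        simpa [neg_mul] using this }
  Small := fun s => ∀ i, (s.filter fun p => p.1 = i).card ≤ n i
  mono := fun s t hst h i => (Finset.card_le_card (Finset.filter_subset_filter _ hst)).trans (h i)

end Pool.Agent.Work.Uni
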