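import Mathlib
import Pool.Agent.Work.MP_4329d7_ag_uni.Defs
import Pool.Agent.Work.MP_4329d7_ag_sq.RMap

/-!
Tools for M3: reduction of uniruledness to arbitrary coefficient fields, evaluation of rational
functions at `0`, extension of homomorphisms to Kummer extensions.
-/

namespace Pool.Agent.Work.Uni

open Polynomial Pool.Agent.Work.MP_4329d7_ag_sq

/-- polynomials with coefficients in a subfield. -/
theorem exists_lift_poly' {F : Type} [Field F] [Algebra ℂ F] (E : IntermediateField ℂ F) (p : F[X])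
    (hp : ∀ n, p.coeff n ∈ E) : ∃ q : E[X], q.map (E.val : E →+* F) = p := by
  have h1 : p ∈ Polynomial.lifts (E.val : E →+* F) := by
    rw [Polynomial.lifts_iff_coeff_lifts]
    intro n
    exact ⟨⟨p.coeff n, hp n⟩, rfl⟩
  rw [Polynomial.mem_lifts] at h1
  exact h1

theorem uniruled_of_hom {K F : Type} [Field K] [Algebra ℂ K] [hfg : Algebra.EssFiniteType ℂ K]
    [Field F] [Algebra ℂ F] (φ : K →ₐ[ℂ] RatFunc F) (y : K) (hy : ∀ e : F, φ y ≠ RatFunc.C e) :
    Uniruled K := by
  classical
  obtain ⟨s, hs⟩ := (IntermediateField.essFiniteType_iff (F := ℂ) (E := K) (K := ⊤)).1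
    (by
      rw [← IntermediateField.fg_top_iff] at hfg
      exact IntermediateField.essFiniteType_iff.2 hfg)
  -- the finitely many coefficients
  let c : Finset F := s.biUnion (fun g => (φ g).num.coeffs ∪ (φ g).denom.coeffs)
  let E : IntermediateField ℂ F := IntermediateField.adjoin ℂ (c : Set F)
  have hE : Algebra.EssFiniteType ℂ E :=
    IntermediateField.essFiniteType_iff.2 ⟨c, rfl⟩
  let ι : RatFunc E →ₐ[ℂ] RatFunc F := rmapA E.val
  have hι : ∀ g ∈ s, φ g ∈ ι.fieldRange := by
    intro g hg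
    have hnum : ∀ n, (φ g).num.coeff n ∈ E := by
      intro n
      by_cases h0 : (φ g).num.coeff n = 0
      · rw [h0]; exact zero_mem _
      · refine IntermediateField.subset_adjoin ℂ _ ?_
        rw [Finset.mem_coe, Finset.mem_biUnion]
        exact ⟨g, hg, Finset.mem_union_left _ (Polynomial.coeff_mem_coeffs h0)⟩
    have hden : ∀ n, (φ g).denom.coeff n ∈ E := by
      intro n
      by_cases h0 : (φ g).denom.coeff n = 0
      · rw [h0]; exact zero_mem _
      · refine IntermediateField.subset_adjoin ℂ _ ?_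
        rw [Finset.mem_coe, Finset.mem_biUnion]
        exact ⟨g, hg, Finset.mem_union_right _ (Polynomial.coeff_mem_coeffs h0)⟩
    obtain ⟨p, hp⟩ := exists_lift_poly' E _ hnum
    obtain ⟨q, hq⟩ := exists_lift_poly' E _ hden
    refine ⟨algebraMap E[X] (RatFunc E) p / algebraMap E[X] (RatFunc E) q, ?_⟩
    change ι _ = _
    have h1 : ∀ r : E[X], ι (algebraMap E[X] (RatFunc E) r) =
        algebraMap F[X] (RatFunc F) (r.map (E.val : E →+* F)) := fun r => rmap_algebraMap _ r
    rw [map_div₀, h1, h1, hp, hq, RatFunc.num_div_denom]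
  have hrange : ∀ a : K, φ a ∈ ι.fieldRange := by
    intro a
    have h1 : (⊤ : IntermediateField ℂ K) ≤ ι.fieldRange.comap φ := by
      rw [← hs, IntermediateField.adjoin_le_iff]
      intro g hg
      exact hι g hg
    exact h1 (IntermediateField.mem_top (x := a))
  let φ₀ : K →ₐ[ℂ] RatFunc E :=
    ((AlgEquiv.ofInjectiveField ι).symm.toAlgHom).comp
      (φ.codRestrict ι.fieldRange.toSubalgebra hrange)
  have hφ₀ : ∀ a, ι (φ₀ a) = φ a := by
    intro a
    have h1 := (AlgEquiv.ofInjectiveField ι).apply_symm_apply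
      (φ.codRestrict ι.fieldRange.toSubalgebra hrange a)
    exact congrArg Subtype.val h1
  refine ⟨E, inferInstance, inferInstance, φ₀, hE, y, fun e he => ?_⟩
  refine hy (e : F) ?_
  rw [← hφ₀, he]
  exact rmap_C _ e

/-- the value of a rational function at `0` is `v` -/
def Pl {F : Type} [Field F] (y : RatFunc F) (v : F) : Prop :=
  ∃ p q : F[X], q.eval 0 ≠ 0 ∧ y * algebraMap F[X] (RatFunc F) q = algebraMap F[X] (RatFunc F) p ∧
    p.eval 0 = v * q.eval 0

section Pl

variable {F : Type} [Field F]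

theorem Pl.add {y y' : RatFunc F} {v v' : F} (h : Pl y v) (h' : Pl y' v') :
    Pl (y + y') (v + v') := by
  obtain ⟨p, q, h1, h2, h3⟩ := h
  obtain ⟨p', q', h1', h2', h3'⟩ := h'
  refine ⟨p * q' + p' * q, q * q', ?_, ?_, ?_⟩
  · rw [eval_mul]; exact mul_ne_zero h1 h1'
  · rw [map_add, map_mul, map_mul, map_mul, ← h2, ← h2']; ring
  · rw [eval_add, eval_mul, eval_mul, eval_mul, h3, h3']; ring

theorem Pl.mul {y y' : RatFunc F} {v v' : F} (h : Pl y v) (h' : Pl y' v') :
    Pl (y * y') (v * v') := by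
  obtain ⟨p, q, h1, h2, h3⟩ := h
  obtain ⟨p', q', h1', h2', h3'⟩ := h'
  refine ⟨p * p', q * q', ?_, ?_, ?_⟩
  · rw [eval_mul]; exact mul_ne_zero h1 h1'
  · rw [map_mul, map_mul, ← h2, ← h2']; ring
  · rw [eval_mul, eval_mul, h3, h3']; ring

theorem pl_C (c : F) : Pl (RatFunc.C c) c :=
  ⟨C c, 1, by simp, by simp [RatFunc.algebraMap_C], by simp⟩

theorem Pl.eq_zero {v : F} (h : Pl (0 : RatFunc F) v) : v = 0 := by
  obtain ⟨p, q, h1, h2, h3⟩ := h
  rw [zero_mul] at h2
  have h4 : p = 0 := by
    refine IsFractionRing.injective F[X] (RatFunc F) ?_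
    rw [← h2, map_zero]
  rw [h4, eval_zero] at h3
  exact (mul_eq_zero.1 h3.symm).resolve_right h1

theorem algebraicIndependent_of_pl [Algebra ℂ F] {σ : Type} {x : σ → F} {y : σ → RatFunc F}
    (hx : AlgebraicIndependent ℂ x) (h : ∀ s, Pl (y s) (x s)) : AlgebraicIndependent ℂ y := by
  rw [algebraicIndependent_iff] at hx ⊢
  intro p hp
  have key : ∀ p : MvPolynomial σ ℂ, Pl (MvPolynomial.aeval y p) (MvPolynomial.aeval x p) := by
    intro p
    induction p using MvPolynomial.induction_on with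
    | C a =>
      rw [MvPolynomial.aeval_C, MvPolynomial.aeval_C, algebraMap_ratFunc]
      exact pl_C _
    | add p q hp hq => rw [map_add, map_add]; exact hp.add hq
    | mul_X p n hp =>
      rw [map_mul, map_mul, MvPolynomial.aeval_X, MvPolynomial.aeval_X]
      exact hp.mul (h n)
  have h1 := key p
  rw [hp] at h1
  exact hx p h1.eq_zero

end Pl

theorem exists_ext_kummer {K R σ : Type} [Field K] [Algebra ℂ K] [Field R] [Algebra ℂ R]
    {x : σ → K} {y : σ → R} (hx : AlgebraicIndependent ℂ x) (hy : AlgebraicIndependent ℂ y)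
    (Z : Set K) {N : ℕ} (hN : 0 < N)
    (hZ : ∀ z ∈ Z, ∃ g : MvPolynomial σ ℂ, z ^ N = MvPolynomial.aeval x g ∧
      ∃ w : R, w ^ N = MvPolynomial.aeval y g)
    (htop : IntermediateField.adjoin ℂ (Set.range x ∪ Z) = ⊤) :
    ∃ φ : K →ₐ[ℂ] R, ∀ s, φ (x s) = y s := by
  classical
  set L : IntermediateField ℂ K := IntermediateField.adjoin ℂ (Set.range x) with hL
  let f : L →ₐ[ℂ] R := (IntermediateField.val _).comp
    (hy.aevalEquivField.toAlgHom.comp hx.aevalEquivField.symm.toAlgHom)
  have hmem : ∀ g : MvPolynomial σ ℂ, MvPolynomial.aeval x g ∈ L := by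
    intro g
    rw [← hx.aevalEquivField_algebraMap_apply_coe g]
    exact Subtype.property _
  have hf : ∀ g : MvPolynomial σ ℂ, f ⟨MvPolynomial.aeval x g, hmem g⟩ =
      MvPolynomial.aeval y g := by
    intro g
    have h1 : (⟨MvPolynomial.aeval x g, hmem g⟩ : L) =
        hx.aevalEquivField (algebraMap _ _ g) := by
      apply Subtype.ext
      rw [hx.aevalEquivField_algebraMap_apply_coe g]
    rw [h1]
    change ((hy.aevalEquivField (hx.aevalEquivField.symm (hx.aevalEquivField
      (algebraMap _ _ g))) : _) : R) = _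
    rw [AlgEquiv.symm_apply_apply, hy.aevalEquivField_algebraMap_apply_coe g]
  obtain ⟨φ, hφ⟩ := IntermediateField.exists_algHom_of_adjoin_splits' (F := ℂ) (E := K) (K := R)
    (L := L) (S := Z) f (by
      intro z hz
      obtain ⟨g, h1, w, h2⟩ := hZ z hz
      set G : L := ⟨MvPolynomial.aeval x g, hmem g⟩ with hG
      have hroot : aeval z (X ^ N - C G) = 0 := by
        rw [map_sub, map_pow, aeval_X, aeval_C, h1]
        exact sub_self _
      have hint : IsIntegral L z := ⟨X ^ N - C G, monic_X_pow_sub_C G hN.ne', by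
        rw [← aeval_def]; exact hroot⟩
      refine ⟨hint, ?_⟩
      have hdvd : minpoly L z ∣ X ^ N - C G := minpoly.dvd L z hroot
      have hζ : IsPrimitiveRoot (algebraMap ℂ R (Complex.exp (2 * Real.pi * Complex.I / N))) N :=
        (Complex.isPrimitiveRoot_exp N hN.ne').map_of_injective (algebraMap ℂ R).injective
      have hsp : ((X ^ N - C G).map (f.toRingHom)).Splits := by
        rw [Polynomial.map_sub, Polynomial.map_pow, map_X, map_C]
        refine X_pow_sub_C_splits_of_isPrimitiveRoot hζ (α := w) ?_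
        rw [h2, ← hf g]
        rfl
      refine hsp.of_dvd ?_ (Polynomial.map_dvd _ hdvd)
      rw [Polynomial.map_sub, Polynomial.map_pow, map_X, map_C]
      exact X_pow_sub_C_ne_zero hN _) (by
      have h1 := IntermediateField.adjoin_adjoin_left ℂ (Set.range x) Z
      rw [htop] at h1
      rw [← IntermediateField.restrictScalars_eq_top_iff (K := ℂ)]
      exact h1)
  refine ⟨φ, fun s => ?_⟩
  have h1 := hf (MvPolynomial.X s)
  rw [← hφ] at h1
  have h2 : φ (MvPolynomial.aeval x (MvPolynomial.X s)) =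
      MvPolynomial.aeval y (MvPolynomial.X s) := h1
  rwa [MvPolynomial.aeval_X, MvPolynomial.aeval_X] at h2

end Pool.Agent.Work.Uni
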