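import Mathlib
import Pool.Agent.Work.MP_4329d7_ag_uni.Defs

/-!
Tools for M3: reflection of `rootPoly`, linear forms, the curve in one factor.
-/

namespace Pool.Agent.Work.Uni

open Polynomial

section reflect

variable {F : Type} [Field F]

theorem reflect_X_sub_C_pow (t : F) (e : ℕ) :
    reflect e ((X - C t) ^ e) = (1 - C t * X) ^ e := by
  induction e with
  | zero => simp
  | succ e ih =>
    rw [pow_succ, pow_succ, reflect_mul, ih]
    · congr 1
      rw [reflect_sub, reflect_C, reflect_one_X, pow_one]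
    · refine (natDegree_pow_le).trans ?_
      rw [natDegree_X_sub_C, mul_one]
    · rw [natDegree_X_sub_C]

theorem reflect_prod_X_sub_C {ι : Type} (t : ι → F) (e : ι → ℕ) (s : Finset ι) :
    reflect (∑ i ∈ s, e i) (∏ i ∈ s, (X - C (t i)) ^ e i) = ∏ i ∈ s, (1 - C (t i) * X) ^ e i := by
  classical
  induction s using Finset.induction_on with
  | empty => simp
  | insert i s hi ih =>
    rw [Finset.sum_insert hi, Finset.prod_insert hi, Finset.prod_insert hi, reflect_mul, ih,
      reflect_X_sub_C_pow]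
    · refine (natDegree_pow_le).trans ?_
      rw [natDegree_X_sub_C, mul_one]
    · refine (natDegree_prod_le _ _).trans (Finset.sum_le_sum fun j _ => ?_)
      refine (natDegree_pow_le).trans ?_
      rw [natDegree_X_sub_C, mul_one]

/-- the reversed root polynomials -/
noncomputable def revPoly {ι Pt F : Type} [Fintype ι] [Field F] (β : ι → Pt → ℕ) (t : ι → F)
    (p : Pt) : F[X] :=
  ∏ i, (1 - C (t i) * X) ^ β i p

theorem reflect_rootPoly {ι Pt : Type} [Fintype ι] (β : ι → Pt → ℕ) (t : ι → F)
    (p : Pt) : reflect (∑ i, β i p) (rootPoly β t p) = revPoly β t p :=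
  reflect_prod_X_sub_C t (fun i => β i p) Finset.univ

theorem reflect_revPoly {ι Pt : Type} [Fintype ι] (β : ι → Pt → ℕ) (t : ι → F)
    (p : Pt) : reflect (∑ i, β i p) (revPoly β t p) = rootPoly β t p := by
  rw [← reflect_rootPoly, reflect_reflect]

theorem eval_revPoly {ι Pt : Type} [Fintype ι] (β : ι → Pt → ℕ) (t : ι → F)
    (p : Pt) : (revPoly β t p).eval 0 = 1 := by
  rw [revPoly, eval_prod]
  exact Finset.prod_eq_one fun i _ => by simp

theorem reflect_sum' {ι : Type} (N : ℕ) (s : Finset ι) (f : ι → F[X]) :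
    reflect N (∑ i ∈ s, f i) = ∑ i ∈ s, reflect N (f i) := by
  classical
  induction s using Finset.induction_on with
  | empty => simp
  | insert i s hi ih => rw [Finset.sum_insert hi, Finset.sum_insert hi, reflect_add, ih]

end reflect

/-- the linear form as a function of its coefficients -/
noncomputable def linL {K : Type} [Field K] [Algebra ℂ K] {n : ℕ} (x : Fin n → K) :
    (Fin (n + 1) → ℂ) →ₗ[ℂ] K where
  toFun α := lin α x
  map_add' α β := by
    simp only [lin, Pi.add_apply, map_add, add_mul, Finset.sum_add_distrib]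
  map_smul' c α := by
    simp only [lin, Pi.smul_apply, smul_eq_mul, map_mul, RingHom.id_apply, Algebra.smul_def,
      Finset.mul_sum, mul_assoc]

theorem linL_apply {K : Type} [Field K] [Algebra ℂ K] {n : ℕ} (x : Fin n → K)
    (α : Fin (n + 1) → ℂ) : linL x α = lin α x := rfl

theorem lin_hom {K F : Type} [Field K] [Algebra ℂ K] [Field F] [Algebra ℂ F] (h : K →ₐ[ℂ] F)
    {n : ℕ} (α : Fin (n + 1) → ℂ) (x : Fin n → K) :
    lin α (fun j => h (x j)) = h (lin α x) := by
  rw [lin, lin, map_sum]
  refine Finset.sum_congr rfl fun j _ => ?_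
  rw [map_mul, AlgHom.commutes]
  congr 1
  refine Fin.cases ?_ (fun j => ?_) j
  · simp
  · simp

theorem factor_curve {F : Type} [Field F] [Algebra ℂ F] {n : ℕ} {E : Type}
    {α : E → Fin (n + 1) → ℂ} {B : Finset E} (b : Module.Basis B ℂ (Fin (n + 1) → ℂ))
    (hb : ∀ e : B, b e = α e) (x : Fin n → F) (U : E → F[X])
    (hU0 : ∀ e, (U e).eval 0 = lin (α e) x)
    (hrel : ∀ e, e ∉ B → U e = ∑ e' : B, C (algebraMap ℂ F (b.repr (α e) e')) * U e') :
    ∃ Y : Fin (n + 1) → F[X], (∀ j, (Y j).eval 0 = (Fin.cons 1 x : Fin (n + 1) → F) j) ∧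
      ∀ e, ∑ j, C (algebraMap ℂ F (α e j)) * Y j = U e := by
  classical
  let Φ : (Fin (n + 1) → ℂ) →ₗ[ℂ] F[X] := b.constr ℂ (fun e' => U e')
  have hsm : ∀ (c : ℂ) (p : F[X]), c • p = C (algebraMap ℂ F c) * p := by
    intro c p
    rw [Algebra.smul_def, Polynomial.algebraMap_apply]
  have hΦ : ∀ e, Φ (α e) = U e := by
    intro e
    by_cases he : e ∈ B
    · have h1 := b.constr_basis ℂ (fun e' : B => U e') ⟨e, he⟩
      rw [hb] at h1
      exact h1
    · rw [hrel e he]
      change b.constr ℂ (fun e' => U e') (α e) = _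
      rw [Module.Basis.constr_apply_fintype]
      refine Finset.sum_congr rfl fun e' _ => ?_
      rw [hsm, Module.Basis.equivFun_apply]
  have hev : ((Polynomial.leval (0 : F)).restrictScalars ℂ).comp Φ = linL x := by
    refine b.ext fun e => ?_
    rw [LinearMap.comp_apply, hb, hΦ]
    exact hU0 e
  refine ⟨fun j => Φ (Pi.single j 1), fun j => ?_, fun e => ?_⟩
  · have h1 := congrArg (fun f => f (Pi.single j (1 : ℂ))) hev
    change (Φ (Pi.single j 1)).eval 0 = lin (Pi.single j 1) x at h1
    rw [h1, lin, Finset.sum_eq_single j]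
    · simp
    · intro k _ hk
      rw [Pi.single_eq_of_ne hk]
      simp
    · intro h
      exact absurd (Finset.mem_univ _) h
  · rw [← hΦ e]
    conv_rhs => rw [pi_eq_sum_univ' (α e)]
    rw [map_sum]
    refine Finset.sum_congr rfl fun j _ => ?_
    rw [map_smul, hsm]

end Pool.Agent.Work.Uni
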