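import Mathlib
import Pool.Agent.Work.MP_4329d7_ag.FF.RatExt
import Pool.Agent.Work.MP_4329d7_ag.FF.Rep_det

/-!
M2, part 1: the `M`-fold canonical form and logarithmic determinants with Euler rows.
-/

set_option linter.style.haveILetI false

open scoped WithZero

namespace Pool.Agent.Work.Uni

open Pool.Agent.Work.MP_4329d7_ag.FF

section mform

variable {K : Type} [Field K] [Algebra ℂ K] {ι : Type} [Fintype ι] [DecidableEq ι]

/-- `c (dx_1 ∧ … ∧ dx_n)^{⊗ M}`. -/
noncomputable def mForm {L M : ℕ} (e : Fin L ≃ Fin M × ι) (x : ι → K) (c : K) : TensorForm K L :=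
  ∑ ρ : Fin M → Equiv.Perm ι, (c * ∏ a, ((Equiv.Perm.sign (ρ a) : ℤ) : K)) •
    (MultilinearMap.mkPiAlgebra K (Fin L) K).compLinearMap
      (fun s => ratExt_ev (x (ρ (e s).1 (e s).2)))

theorem mForm_apply {L M : ℕ} (e : Fin L ≃ Fin M × ι) (x : ι → K) (c : K)
    (D : Fin L → Derivation ℂ K K) :
    mForm e x c D = c * ∏ a : Fin M, Matrix.det (Matrix.of fun i j : ι =>
      D (e.symm (a, i)) (x j)) := by
  have h1 : ∀ a : Fin M, Matrix.det (Matrix.of fun i j : ι => D (e.symm (a, i)) (x j)) =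
      ∑ σ : Equiv.Perm ι, ((Equiv.Perm.sign σ : ℤ) : K) *
        ∏ i, D (e.symm (a, i)) (x (σ i)) := by
    intro a
    rw [← Matrix.det_transpose, Matrix.det_apply']
    rfl
  simp only [h1]
  rw [Finset.prod_univ_sum, Fintype.piFinset_univ, Finset.mul_sum, mForm, _root_.sum_apply]
  refine Finset.sum_congr rfl fun ρ _ => ?_
  rw [_root_.smul_apply, MultilinearMap.compLinearMap_apply,
    MultilinearMap.mkPiAlgebra_apply, smul_eq_mul, Finset.prod_mul_distrib, ← mul_assoc]
  congr 1
  rw [← Equiv.prod_comp e.symm, Fintype.prod_prod_type]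
  refine Finset.prod_congr rfl fun a _ => Finset.prod_congr rfl fun i _ => ?_
  rw [Equiv.apply_symm_apply]
  rfl

theorem mForm_ne_zero {L M : ℕ} (e : Fin L ≃ Fin M × ι) (x : ι → K)
    (hx : IsTranscendenceBasis ℂ x) (c : K) (hc : c ≠ 0) : mForm e x c ≠ 0 := by
  intro h0
  obtain ⟨Fr, hFr⟩ := ratExt_exists_frame x hx
  have h1 := congrArg (fun T : TensorForm K L => T (fun s => Fr.d (e s).2)) h0
  rw [mForm_apply] at h1
  have h2 : ∀ a : Fin M, Matrix.det (Matrix.of fun i j : ι =>
      (Fr.d (e (e.symm (a, i))).2) (x j)) = 1 := by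
    intro a
    have h3 : (Matrix.of fun i j : ι => (Fr.d (e (e.symm (a, i))).2) (x j)) = 1 := by
      ext i j
      rw [Matrix.of_apply, Equiv.apply_symm_apply, ← hFr, Fr.dual, Matrix.one_apply]
    rw [h3, Matrix.det_one]
  simp only [h2, Finset.prod_const_one, mul_one] at h1
  exact hc h1

end mform

section det

variable {K : Type} [Field K] [Algebra ℂ K] {I : Type} [Fintype I] [DecidableEq I] {n : I → ℕ}

/-- rows: `⟨i, 0⟩` is an Euler row, `⟨i, k + 1⟩` the row of the derivation `⟨i, k⟩`. -/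
def rowOf (r : Σ i, Fin (n i + 1)) : Option (Σ i, Fin (n i)) :=
  Fin.cases (motive := fun _ => Option (Σ i, Fin (n i))) none (fun k => some ⟨r.1, k⟩) r.2

omit [Fintype I] [DecidableEq I] in
@[simp] theorem rowOf_zero (i : I) : rowOf (n := n) ⟨i, 0⟩ = none := rfl

omit [Fintype I] [DecidableEq I] in
@[simp] theorem rowOf_succ (i : I) (k : Fin (n i)) : rowOf (n := n) ⟨i, k.succ⟩ = some ⟨i, k⟩ := rfl

omit [Fintype I] [DecidableEq I] in
theorem rowOf_unique (p : Σ i, Fin (n i)) : ∃! r, rowOf (n := n) r = some p := by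
  refine ⟨⟨p.1, p.2.succ⟩, rfl, ?_⟩
  rintro ⟨i, k⟩ h
  obtain ⟨i', k'⟩ := p
  refine Fin.cases (motive := fun k => rowOf (n := n) ⟨i, k⟩ = some ⟨i', k'⟩ →
    (⟨i, k⟩ : Σ i, Fin (n i + 1)) = ⟨i', k'.succ⟩) ?_ ?_ k h
  · intro h
    simp at h
  · intro k h
    rw [rowOf_succ] at h
    have := Option.some_injective _ h
    cases this
    rfl

/-- the matrix with Euler rows -/
def wm (g : (Σ i, Fin (n i + 1)) → K) (D : (Σ i, Fin (n i)) → Derivation ℂ K K) :
    Matrix (Σ i, Fin (n i + 1)) (Σ i, Fin (n i + 1)) K :=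
  Matrix.of fun r s => match rowOf r with
    | some p => D p (g s)
    | none => if r.1 = s.1 then g s else 0

/-- the logarithmic matrix with Euler rows -/
def lm (g : (Σ i, Fin (n i + 1)) → K) (D : (Σ i, Fin (n i)) → Derivation ℂ K K) :
    Matrix (Σ i, Fin (n i + 1)) (Σ i, Fin (n i + 1)) K :=
  Matrix.of fun r s => match rowOf r with
    | some p => D p (g s) / g s
    | none => if r.1 = s.1 then 1 else 0

/-- `(Σ i, Fin (n i + 1)) ≃ I ⊕ Σ i, Fin (n i)` -/
def splitEquiv (n : I → ℕ) : (I ⊕ Σ i, Fin (n i)) ≃ (Σ i, Fin (n i + 1)) where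
  toFun := Sum.elim (fun i => ⟨i, 0⟩) (fun p => ⟨p.1, p.2.succ⟩)
  invFun := fun r => Fin.cases (motive := fun _ => I ⊕ Σ i, Fin (n i)) (Sum.inl r.1)
    (fun k => Sum.inr ⟨r.1, k⟩) r.2
  left_inv := by
    rintro (i | ⟨i, k⟩) <;> rfl
  right_inv := by
    rintro ⟨i, k⟩
    refine Fin.cases ?_ (fun k => ?_) k <;> rfl

/-- the homogeneous coordinates -/
def hom (x : (i : I) → Fin (n i) → K) (s : Σ i, Fin (n i + 1)) : K :=
  (Fin.cons 1 (x s.1) : Fin (n s.1 + 1) → K) s.2

theorem det_wm_hom (x : (i : I) → Fin (n i) → K) (D : (Σ i, Fin (n i)) → Derivation ℂ K K) :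
    (wm (hom x) D).det = Matrix.det (Matrix.of fun p q : (Σ i, Fin (n i)) => D p (x q.1 q.2)) := by
  rw [← Matrix.det_submatrix_equiv_self (splitEquiv n)]
  have h1 : (wm (hom x) D).submatrix (splitEquiv n) (splitEquiv n) =
      Matrix.fromBlocks 1 (Matrix.of fun (i : I) (q : Σ i, Fin (n i)) =>
        if i = q.1 then x q.1 q.2 else 0) 0
        (Matrix.of fun p q : (Σ i, Fin (n i)) => D p (x q.1 q.2)) := by
    ext r s
    rcases r with i | p
    · rcases s with i' | q
      · simp only [Matrix.submatrix_apply, splitEquiv, Equiv.coe_fn_mk, Sum.elim_inl,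
          Matrix.fromBlocks_apply₁₁, Matrix.one_apply, wm, Matrix.of_apply, rowOf_zero, hom,
          Fin.cons_zero]
      · simp only [Matrix.submatrix_apply, splitEquiv, Equiv.coe_fn_mk, Sum.elim_inl, Sum.elim_inr,
          Matrix.fromBlocks_apply₁₂, wm, Matrix.of_apply, rowOf_zero, hom, Fin.cons_succ]
    · rcases s with i' | q
      · simp only [Matrix.submatrix_apply, splitEquiv, Equiv.coe_fn_mk, Sum.elim_inl, Sum.elim_inr,
          Matrix.fromBlocks_apply₂₁, wm, Matrix.of_apply, rowOf_succ, hom,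
          Fin.cons_zero, Derivation.map_one_eq_zero, Matrix.zero_apply]
      · simp only [Matrix.submatrix_apply, splitEquiv, Equiv.coe_fn_mk, Sum.elim_inr,
          Matrix.fromBlocks_apply₂₂, wm, Matrix.of_apply, rowOf_succ, hom, Fin.cons_succ]
  rw [h1, Matrix.det_fromBlocks_zero₂₁, Matrix.det_one, one_mul]

omit [Algebra ℂ K] in
theorem det_blockDiagonal'_aux (B : (i : I) → Matrix (Fin (n i + 1)) (Fin (n i + 1)) K) :
    (Matrix.blockDiagonal' B).det = ∏ i, (B i).det := by
  letI : LinearOrder I := LinearOrder.lift' (Fintype.equivFin I) (Equiv.injective _)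
  have h1 : (Matrix.blockDiagonal' B).BlockTriangular Sigma.fst := by
    rintro ⟨i, i'⟩ ⟨j, j'⟩ h
    have hne : i ≠ j := fun h' => ne_of_lt h h'.symm
    exact Matrix.blockDiagonal'_apply_ne B i' j' hne
  rw [h1.det_fintype]
  refine Finset.prod_congr rfl fun k _ => ?_
  let e : Fin (n k + 1) ≃ {s : Σ i, Fin (n i + 1) // s.1 = k} :=
    { toFun := fun j => ⟨⟨k, j⟩, rfl⟩
      invFun := fun s => s.2 ▸ s.1.2
      left_inv := fun j => rfl
      right_inv := by
        rintro ⟨⟨i, j⟩, h⟩
        cases h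
        rfl }
  rw [← Matrix.det_submatrix_equiv_self e]
  congr 1
  ext j j'
  exact Matrix.blockDiagonal'_apply_eq B k j j'

/-- a linear change of the coordinates with constant coefficients -/
theorem det_wm_linear (A : (i : I) → Matrix (Fin (n i + 1)) (Fin (n i + 1)) ℂ)
    (f g : (Σ i, Fin (n i + 1)) → K)
    (hfg : ∀ i j, g ⟨i, j⟩ = ∑ j', algebraMap ℂ K (A i j j') * f ⟨i, j'⟩)
    (D : (Σ i, Fin (n i)) → Derivation ℂ K K) :
    (wm g D).det = (wm f D).det * ∏ i, algebraMap ℂ K (A i).det := by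
  have h1 : wm g D = wm f D * Matrix.blockDiagonal' (fun i =>
      ((A i).transpose.map (algebraMap ℂ K))) := by
    ext r s
    obtain ⟨i, j⟩ := s
    rw [Matrix.mul_apply, Fintype.sum_sigma]
    rw [Finset.sum_eq_single i]
    · simp only [Matrix.blockDiagonal'_apply_eq, Matrix.map_apply, Matrix.transpose_apply]
      obtain ⟨i0, k⟩ := r
      refine Fin.cases ?_ (fun k => ?_) k
      · simp only [wm, Matrix.of_apply, rowOf_zero]
        by_cases hi : i0 = i
        · simp only [hi, if_true]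
          rw [hfg]
          exact Finset.sum_congr rfl fun j' _ => mul_comm _ _
        · simp [hi]
      · simp only [wm, Matrix.of_apply, rowOf_succ]
        rw [hfg, map_sum]
        refine Finset.sum_congr rfl fun j' _ => ?_
        rw [Derivation.leibniz, Derivation.map_algebraMap, smul_zero, add_zero, smul_eq_mul,
          mul_comm]
    · intro i' _ hi'
      refine Finset.sum_eq_zero fun j' _ => ?_
      rw [Matrix.blockDiagonal'_apply_ne _ _ _ hi', mul_zero]
    · intro h
      exact absurd (Finset.mem_univ i) h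
  rw [h1, Matrix.det_mul, det_blockDiagonal'_aux]
  congr 1
  refine Finset.prod_congr rfl fun i _ => ?_
  rw [← Matrix.det_transpose (A i), RingHom.map_det]
  rfl

theorem det_wm_log (g : (Σ i, Fin (n i + 1)) → K) (hg : ∀ s, g s ≠ 0)
    (D : (Σ i, Fin (n i)) → Derivation ℂ K K) :
    (wm g D).det = (∏ s, g s) * (lm g D).det := by
  rw [← Matrix.det_mul_row]
  congr 1
  ext r s
  obtain ⟨i0, k⟩ := r
  refine Fin.cases ?_ (fun k => ?_) k
  · simp only [wm, lm, Matrix.of_apply, rowOf_zero]
    split_ifs <;> simp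
  · simp only [wm, lm, Matrix.of_apply, rowOf_succ]
    rw [mul_div_cancel₀ _ (hg s)]

/-- scaling the coordinates of every factor -/
theorem det_lm_scale (h : I → K) (hh : ∀ i, h i ≠ 0) (g : (Σ i, Fin (n i + 1)) → K)
    (hg : ∀ s, g s ≠ 0) (D : (Σ i, Fin (n i)) → Derivation ℂ K K) :
    (lm (fun s => h s.1 * g s) D).det = (lm g D).det := by
  set V : Matrix (Σ i, Fin (n i)) I K := Matrix.of fun p i => D p (h i) / h i with hV
  set U : Matrix (I ⊕ Σ i, Fin (n i)) (I ⊕ Σ i, Fin (n i)) K := Matrix.fromBlocks 1 0 V 1 with hU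
  rw [← Matrix.det_submatrix_equiv_self (splitEquiv n), ← Matrix.det_submatrix_equiv_self
    (splitEquiv n) (lm g D)]
  have h1 : (lm (fun s => h s.1 * g s) D).submatrix (splitEquiv n) (splitEquiv n) =
      U * (lm g D).submatrix (splitEquiv n) (splitEquiv n) := by
    ext r s
    rw [Matrix.mul_apply, Fintype.sum_sum_type]
    set s' := splitEquiv n s with hs'
    rcases r with i | p
    · have e1 : ∑ x, U (Sum.inl i) (Sum.inr x) *
          ((lm g D).submatrix (splitEquiv n) (splitEquiv n)) (Sum.inr x) s = 0 := by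
        refine Finset.sum_eq_zero fun x _ => ?_
        simp [hU]
      rw [e1, add_zero, Finset.sum_eq_single i]
      · simp only [hU, Matrix.fromBlocks_apply₁₁, Matrix.one_apply_eq, one_mul,
          Matrix.submatrix_apply, splitEquiv, Equiv.coe_fn_mk, Sum.elim_inl, lm, Matrix.of_apply,
          rowOf_zero]
      · intro i' _ hi'
        simp [hU, Matrix.one_apply_ne hi'.symm]
      · intro h
        exact absurd (Finset.mem_univ i) h
    · have e1 : ∑ x, U (Sum.inr p) (Sum.inr x) *
          ((lm g D).submatrix (splitEquiv n) (splitEquiv n)) (Sum.inr x) s =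
          D p (g s') / g s' := by
        rw [Finset.sum_eq_single p]
        · simp only [hU, Matrix.fromBlocks_apply₂₂, Matrix.one_apply_eq, one_mul,
            Matrix.submatrix_apply, ← hs']
          simp only [splitEquiv, Equiv.coe_fn_mk, Sum.elim_inr, lm, Matrix.of_apply, rowOf_succ]
        · intro q _ hq
          simp [hU, Matrix.one_apply_ne hq.symm]
        · intro h
          exact absurd (Finset.mem_univ p) h
      have e2 : ∑ x, U (Sum.inr p) (Sum.inl x) *
          ((lm g D).submatrix (splitEquiv n) (splitEquiv n)) (Sum.inl x) s =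
          D p (h s'.1) / h s'.1 := by
        rw [Finset.sum_eq_single s'.1]
        · simp only [hU, hV, Matrix.fromBlocks_apply₂₁, Matrix.submatrix_apply, ← hs',
            Matrix.of_apply]
          simp only [splitEquiv, Equiv.coe_fn_mk, Sum.elim_inl, lm, Matrix.of_apply, rowOf_zero,
            if_true, mul_one]
        · intro i' _ hi'
          simp only [Matrix.submatrix_apply, ← hs']
          simp only [splitEquiv, Equiv.coe_fn_mk, Sum.elim_inl, lm, Matrix.of_apply, rowOf_zero,
            hi', if_false, mul_zero]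
        · intro h
          exact absurd (Finset.mem_univ _) h
      rw [e1, e2, Matrix.submatrix_apply, ← hs']
      simp only [splitEquiv, Equiv.coe_fn_mk, Sum.elim_inr, lm, Matrix.of_apply, rowOf_succ]
      rw [Derivation.leibniz]
      have e3 := hh s'.1
      have e4 := hg s'
      simp only [smul_eq_mul]
      field_simp
      ring
  rw [h1, Matrix.det_mul, hU, Matrix.det_fromBlocks_zero₁₂, Matrix.det_one, Matrix.det_one,
    one_mul, one_mul]

/-- the main formula -/
theorem det_main (x : (i : I) → Fin (n i) → K)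
    (A : (i : I) → Matrix (Fin (n i + 1)) (Fin (n i + 1)) ℂ) (hA : ∀ i, (A i).det ≠ 0)
    (h : I → K) (hh : ∀ i, h i ≠ 0) (g : (Σ i, Fin (n i + 1)) → K) (hg : ∀ s, g s ≠ 0)
    (hxg : ∀ i j, h i * g ⟨i, j⟩ = ∑ j', algebraMap ℂ K (A i j j') *
      (Fin.cons 1 (x i) : Fin (n i + 1) → K) j')
    (D : (Σ i, Fin (n i)) → Derivation ℂ K K) :
    Matrix.det (Matrix.of fun p q : (Σ i, Fin (n i)) => D p (x q.1 q.2)) =
      ((∏ i, algebraMap ℂ K (A i).det)⁻¹ * ∏ s, (h (Sigma.fst s) * g s)) * (lm g D).det := by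
  have h1 := det_wm_linear A (hom x) (fun s => h s.1 * g s) (fun i j => hxg i j) D
  have h2 := det_wm_log (fun s => h s.1 * g s) (fun s => mul_ne_zero (hh _) (hg s)) D
  have h3 : (∏ i, algebraMap ℂ K (A i).det) ≠ 0 := Finset.prod_ne_zero_iff.2 fun i _ h0 =>
    hA i ((algebraMap ℂ K).injective (by rw [h0, map_zero]))
  rw [← det_wm_hom]
  rw [h2, det_lm_scale h hh g hg] at h1
  field_simp
  rw [h1]

end det

end Pool.Agent.Work.Uni
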