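import Mathlib
import Pool.Agent.Work.MP_4329d7_ag_uni.FormsDet

/-!
M2, part 2: regularity in local coordinates; the local coordinates of one factor.
-/

set_option linter.style.haveILetI false

open scoped WithZero

namespace Pool.Agent.Work.Uni

open Pool.Agent.Work.MP_4329d7_ag.FF

section reg

variable {K : Type} [Field K] [Algebra ℂ K] {I : Type} [Fintype I] [DecidableEq I] {n : I → ℕ}

theorem rep_lm_unit (v : Valuation K ℤᵐ⁰) (g : (Σ i, Fin (n i + 1)) → K) (hg : ∀ s, v (g s) = 1) :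
    Rep v (fun D : (Σ i, Fin (n i)) → Derivation ℂ K K => (lm g D).det) := by
  have h := det_log_unit v (rowOf (n := n)) rowOf_unique g hg
    (fun r s => if r.1 = s.1 then (1 : K) else 0) (fun r s => by split_ifs <;> simp)
  convert h using 3 with D
  ext r s
  simp only [lm, Matrix.of_apply]
  cases rowOf r <;> rfl

theorem rep_lm (v : Valuation K ℤᵐ⁰) (t : K) (ht0 : t ≠ 0) (ht1 : v t < 1)
    (htmax : ∀ x, v x < 1 → v x ≤ v t) (g : (Σ i, Fin (n i + 1)) → K) (hg : ∀ s, g s ≠ 0) :
    Rep v (fun D : (Σ i, Fin (n i)) → Derivation ℂ K K => t * (lm g D).det) := by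
  have h := det_log v (rowOf (n := n)) rowOf_unique t ht0 ht1 htmax g hg
    (fun r s => if r.1 = s.1 then (1 : K) else 0) (fun r s => by split_ifs <;> simp)
  convert h using 4 with D
  ext r s
  simp only [lm, Matrix.of_apply]
  cases rowOf r <;> rfl

/-- Regularity of the form at `v` in local coordinates. -/
theorem mForm_regularAt {L M : ℕ} (e : Fin L ≃ Fin M × (Σ i, Fin (n i))) (v : Valuation K ℤᵐ⁰)
    (hv : ∀ c : ℂ, v (algebraMap ℂ K c) ≤ 1) (x : (i : I) → Fin (n i) → K) (c : K)
    (A : (i : I) → Matrix (Fin (n i + 1)) (Fin (n i + 1)) ℂ) (hA : ∀ i, (A i).det ≠ 0)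
    (h : I → K) (hh : ∀ i, h i ≠ 0) (g : (Σ i, Fin (n i + 1)) → K) (hg : ∀ s, g s ≠ 0)
    (hxg : ∀ i j, h i * g ⟨i, j⟩ = ∑ j', algebraMap ℂ K (A i j j') *
      (Fin.cons 1 (x i) : Fin (n i + 1) → K) j')
    (hreg : ((∀ s, v (g s) = 1) ∧ v (c * (∏ s, (h (Sigma.fst s) * g s)) ^ M) ≤ 1) ∨
      ∃ t, t ≠ 0 ∧ v t < 1 ∧ (∀ x, v x < 1 → v x ≤ v t) ∧
        v (c * (∏ s, (h (Sigma.fst s) * g s)) ^ M) ≤ v t ^ M) :
    IsRegularAt v (mForm e (fun p : Σ i, Fin (n i) => x p.1 p.2) c) := by
  refine Rep.regularAt v _ ?_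
  set k0 : K := ∏ i, algebraMap ℂ K (A i).det with hk0
  have hk0' : v (k0⁻¹ ^ M) ≤ 1 := by
    have h1 : k0⁻¹ = algebraMap ℂ K (∏ i, (A i).det)⁻¹ := by
      rw [map_inv₀, map_prod]
    rw [h1, ← map_pow]
    exact hv _
  set P : K := ∏ s, (h (Sigma.fst s) * g s) with hP
  have hkey : ∀ D : Fin L → Derivation ℂ K K,
      mForm e (fun p : Σ i, Fin (n i) => x p.1 p.2) c D =
      (k0⁻¹ ^ M * (c * P ^ M)) * ∏ a : Fin M, (lm g (fun p => D (e.symm (a, p)))).det := by
    intro D
    rw [mForm_apply]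
    have h1 : ∀ a : Fin M, Matrix.det (Matrix.of fun p q : (Σ i, Fin (n i)) =>
        D (e.symm (a, p)) (x q.1 q.2)) = (k0⁻¹ * P) *
          (lm g (fun p => D (e.symm (a, p)))).det := fun a =>
      det_main x A hA h hh g hg hxg (fun p => D (e.symm (a, p)))
    simp only [h1]
    rw [Finset.prod_mul_distrib, Finset.prod_const, Finset.card_univ, Fintype.card_fin]
    ring
  rcases hreg with ⟨h1, h2⟩ | ⟨t, ht0, ht1, htmax, h2⟩
  · have h4 := (Rep.block (S := Fin M) v (T := fun _ => _)
      (fun _ => rep_lm_unit v g h1)).reindex v e.symm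
    have h6 : v (k0⁻¹ ^ M * (c * P ^ M)) ≤ 1 := by
      rw [map_mul]
      exact mul_le_one' hk0' h2
    have h5 := Rep.smul v _ h6 h4
    convert h5 using 2 with D
    exact hkey D
  · have h4 := (Rep.block (S := Fin M) v (T := fun _ => _)
      (fun _ => rep_lm v t ht0 ht1 htmax g hg)).reindex v e.symm
    have hvt : v t ≠ 0 := (v.ne_zero_iff).2 ht0
    have h6 : v (k0⁻¹ ^ M * (c * P ^ M) / t ^ M) ≤ 1 := by
      rw [map_div₀, map_pow, map_mul]
      refine div_le_one_of_le₀ ?_ zero_le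
      exact (mul_le_of_le_one_left' hk0').trans h2
    have h5 := Rep.smul v _ h6 h4
    convert h5 using 2 with D
    rw [hkey D]
    simp only [Finset.prod_mul_distrib, Finset.prod_const, Finset.card_univ, Fintype.card_fin]
    field_simp

end reg

section local_factor

variable {K : Type} [Field K] [Algebra ℂ K]

/-- The local coordinates of one factor at a valuation. -/
theorem exists_local_factor (v : Valuation K ℤᵐ⁰) (hv : ∀ c : ℂ, v (algebraMap ℂ K c) ≤ 1)
    {n : ℕ} {E : Type} [Fintype E] [DecidableEq E] (α : E → Fin (n + 1) → ℂ)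
    (hcard : n + 1 ≤ Fintype.card E)
    (hgen : ∀ s : Finset E, s.card = n + 1 → LinearIndependent ℂ (fun e : s => α e))
    (X : Fin (n + 1) → K) (hX : X 0 = 1) :
    ∃ (h : K) (β : Fin (n + 1) → E), h ≠ 0 ∧ (Matrix.of fun j j' => α (β j) j').det ≠ 0 ∧
      (∀ e, v (∑ j, algebraMap ℂ K (α e j) * X j) ≤ v h) ∧
      (∏ e, v (∑ j, algebraMap ℂ K (α e j) * X j) =
        (∏ j', v (∑ j, algebraMap ℂ K (α (β j') j) * X j)) *
          v h ^ (Fintype.card E - (n + 1))) ∧
      (Finset.univ.filter fun e => v (∑ j, algebraMap ℂ K (α e j) * X j) < v h).card ≤ n := by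
  classical
  set l : E → K := fun e => ∑ j, algebraMap ℂ K (α e j) * X j with hl
  obtain ⟨j0, hj0⟩ := Finite.exists_max (fun j => v (X j))
  have hv0 : v (X j0) ≠ 0 := by
    have h1 := hj0 0
    rw [hX, map_one] at h1
    exact (lt_of_lt_of_le zero_lt_one h1).ne'
  have hX0 : X j0 ≠ 0 := (v.ne_zero_iff).1 hv0
  have hle : ∀ e, v (l e) ≤ v (X j0) := by
    intro e
    refine v.map_sum_le fun j _ => ?_
    rw [map_mul]
    exact (mul_le_of_le_one_left' (hv _)).trans (hj0 j)
  have hdet : ∀ β : Fin (n + 1) → E, Function.Injective β →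
      (Matrix.of fun j j' => α (β j) j').det ≠ 0 := by
    intro β hβ
    have h1 : (Finset.univ.image β).card = n + 1 := by
      rw [Finset.card_image_of_injective _ hβ, Finset.card_univ, Fintype.card_fin]
    have h2 := hgen _ h1
    have h3 : LinearIndependent ℂ (fun j => α (β j)) :=
      h2.comp (fun j => (⟨β j, Finset.mem_image_of_mem _ (Finset.mem_univ j)⟩ :
        (Finset.univ.image β : Finset E))) (fun a b hab => hβ (congrArg Subtype.val hab))
    have h4 : LinearIndependent ℂ (Matrix.of fun j j' => α (β j) j').row := h3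
    rw [Matrix.linearIndependent_rows_iff_isUnit, Matrix.isUnit_iff_isUnit_det] at h4
    exact h4.ne_zero
  have hkey : ∀ β : Fin (n + 1) → E, Function.Injective β → ¬ ∀ j, v (l (β j)) < v (X j0) := by
    intro β hβ hlt
    set A : Matrix (Fin (n + 1)) (Fin (n + 1)) ℂ := Matrix.of fun j j' => α (β j) j' with hA
    have hA1 : A⁻¹ * A = 1 := Matrix.nonsing_inv_mul _ (hdet β hβ).isUnit
    have h1 : X j0 = ∑ j, algebraMap ℂ K (A⁻¹ j0 j) * l (β j) := by
      have h2 : ∀ j, l (β j) = ∑ j', algebraMap ℂ K (A j j') * X j' := fun j => rfl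
      simp only [h2, Finset.mul_sum]
      rw [Finset.sum_comm]
      have h3 : ∀ j', ∑ j, algebraMap ℂ K (A⁻¹ j0 j) * (algebraMap ℂ K (A j j') * X j') =
          algebraMap ℂ K ((A⁻¹ * A) j0 j') * X j' := by
        intro j'
        rw [Matrix.mul_apply, map_sum, Finset.sum_mul]
        refine Finset.sum_congr rfl fun j _ => ?_
        rw [map_mul, mul_assoc]
      simp only [h3, hA1, Matrix.one_apply]
      simp
    have h2 : v (X j0) < v (X j0) := by
      conv_lhs => rw [h1]
      refine v.map_sum_lt hv0 fun j _ => ?_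
      rw [map_mul]
      exact lt_of_le_of_lt (mul_le_of_le_one_left' (hv _)) (hlt j)
    exact lt_irrefl _ h2
  set V : Finset E := Finset.univ.filter fun e => v (l e) < v (X j0) with hV
  have hVcard : V.card ≤ n := by
    by_contra hcon
    obtain ⟨s, hsV, hs⟩ := Finset.exists_subset_card_eq (s := V) (n := n + 1) (by omega)
    let e := (s.equivFinOfCardEq hs).symm
    refine hkey (fun j => (e j : E)) (fun a b hab => e.injective (Subtype.ext hab)) fun j => ?_
    exact (Finset.mem_filter.1 (hsV (e j).2)).2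
  obtain ⟨B, hVB, -, hB⟩ := Finset.exists_subsuperset_card_eq (Finset.subset_univ V)
    (n := n + 1) (by omega) (by rw [Finset.card_univ]; exact hcard)
  let e := (B.equivFinOfCardEq hB).symm
  refine ⟨X j0, fun j => (e j : E), hX0, hdet _ (fun a b hab => e.injective (Subtype.ext hab)),
    hle, ?_, hVcard⟩
  rw [← Finset.prod_mul_prod_compl B]
  congr 1
  · rw [← Finset.prod_coe_sort B]
    exact (Equiv.prod_comp e (fun x : B => v (l x))).symm
  · rw [Finset.prod_congr rfl (g := fun _ => v (X j0)), Finset.prod_const, Finset.card_compl, hB]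
    intro e he
    have h1 : e ∉ V := fun h => (Finset.mem_compl.1 he) (hVB h)
    refine le_antisymm (hle e) ?_
    by_contra hcon
    exact h1 (Finset.mem_filter.2 ⟨Finset.mem_univ _, not_le.1 hcon⟩)

end local_factor

end Pool.Agent.Work.Uni
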