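import Mathlib
import Pool.Agent.Work.MP_4329d7_ag_uni.FormsDet

/-!
Pluricanonical tensor forms.
-/

namespace Pool.Agent.Work.Uni

open Pool.Agent.Work.MP_4329d7_ag.FF

/-- `T` is a pluricanonical form (a section of `(Λ^d Ω)^{⊗ M}`, where `d` is the transcendence
degree of `K`): `T` vanishes as soon as two arguments of the same block of `d` arguments agree. -/
def IsPluricanonical {K : Type} [Field K] [Algebra ℂ K] (M d : ℕ) (T : TensorForm K (M * d)) :
    Prop :=
  ∀ (D : Fin (M * d) → Derivation ℂ K K) (a : Fin M) (i j : Fin d), i ≠ j →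
    D (finProdFinEquiv (a, i)) = D (finProdFinEquiv (a, j)) → T D = 0

theorem mForm_isPluricanonical {K : Type} [Field K] [Algebra ℂ K] {ι : Type} [Fintype ι]
    [DecidableEq ι] (M d : ℕ) (u : ι ≃ Fin d) (x : ι → K) (c : K) :
    IsPluricanonical M d (mForm (finProdFinEquiv.symm.trans
      (Equiv.prodCongr (Equiv.refl (Fin M)) u.symm)) x c) := by
  intro D a i j hij hD
  rw [mForm_apply]
  refine mul_eq_zero_of_right _ (Finset.prod_eq_zero (Finset.mem_univ a) ?_)
  refine Matrix.det_zero_of_row_eq (i := u.symm i) (j := u.symm j)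
    (fun h => hij (u.symm.injective h)) ?_
  funext k
  simp only [Matrix.of_apply, Equiv.symm_trans_apply, Equiv.symm_symm, Equiv.prodCongr_symm,
    Equiv.refl_symm, Equiv.prodCongr_apply, Prod.map_apply, Equiv.refl_apply,
    Equiv.apply_symm_apply]
  rw [hD]

end Pool.Agent.Work.Uni
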