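import Mathlib

/-!
M8: the numerical inequality and the number of splittings.
-/

open scoped Nat

namespace Pool.Agent.Work.Uni

/-- second summation by parts for a function vanishing at `0` -/
theorem abel_min (G : ℕ → ℝ) (h0 : G 0 = 0) (X x : ℕ) (hx : x ≤ X) :
    G x = (G (X + 1) - G X) * x + ∑ J ∈ Finset.range X,
      ((G (J + 1) - G J) - (G (J + 2) - G (J + 1))) * (min x (J + 1) : ℕ) := by
  induction X generalizing x with
  | zero =>
    obtain rfl : x = 0 := by omega
    simp [h0]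
  | succ X ih =>
    rcases Nat.lt_or_ge X x with h | h
    · obtain rfl : x = X + 1 := by omega
      have h1 := ih X le_rfl
      rw [Finset.sum_range_succ]
      have h2 : ∑ J ∈ Finset.range X, ((G (J + 1) - G J) - (G (J + 2) - G (J + 1))) *
            ((min (X + 1) (J + 1) : ℕ) : ℝ) =
          ∑ J ∈ Finset.range X, ((G (J + 1) - G J) - (G (J + 2) - G (J + 1))) *
            ((min X (J + 1) : ℕ) : ℝ) := by
        refine Finset.sum_congr rfl fun J hJ => ?_
        have hJ' := Finset.mem_range.1 hJ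
        rw [min_eq_right (by omega), min_eq_right (by omega)]
      rw [h2, min_self]
      generalize ∑ J ∈ Finset.range X, ((G (J + 1) - G J) - (G (J + 2) - G (J + 1))) *
            ((min X (J + 1) : ℕ) : ℝ) = S at h1
      rw [Nat.cast_add, Nat.cast_one]
      linarith
    · rw [Finset.sum_range_succ, min_eq_left (show x ≤ X + 1 by omega)]
      have h1 := ih x h
      linarith

/-- `log (2 x choose x)` -/
noncomputable def logCB (x : ℕ) : ℝ := Real.log (Nat.centralBinom x)

theorem logCB_zero : logCB 0 = 0 := by simp [logCB]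

theorem logCB_one : logCB 1 = Real.log 2 := by
  simp [logCB, Nat.centralBinom_eq_two_mul_choose]

theorem logCB_succ_sub (j : ℕ) :
    logCB (j + 1) - logCB j = Real.log (4 - 2 / ((j : ℝ) + 1)) := by
  have h := Nat.succ_mul_centralBinom_succ j
  have hp : (0 : ℝ) < Nat.centralBinom j := by exact_mod_cast Nat.centralBinom_pos j
  have hp' : (0 : ℝ) < Nat.centralBinom (j + 1) := by exact_mod_cast Nat.centralBinom_pos (j + 1)
  have hj : (0 : ℝ) < (j : ℝ) + 1 := by positivity
  have h' : ((j : ℝ) + 1) * Nat.centralBinom (j + 1) = 2 * (2 * j + 1) * Nat.centralBinom j := by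
    exact_mod_cast h
  rw [logCB, logCB, ← Real.log_div hp'.ne' hp.ne']
  congr 1
  field_simp
  linarith

theorem logCB_conc (j : ℕ) :
    (logCB (j + 1) - logCB j) - (logCB (j + 2) - logCB (j + 1)) < 0 := by
  rw [logCB_succ_sub j, logCB_succ_sub (j + 1), sub_neg]
  have hj : (0 : ℝ) < (j : ℝ) + 1 := by positivity
  apply Real.log_lt_log
  · have : 2 / ((j : ℝ) + 1) ≤ 2 := by
      rw [div_le_iff₀ hj]
      nlinarith [(Nat.cast_nonneg j : (0 : ℝ) ≤ (j : ℝ))]
    linarith
  · have : 2 / (((j + 1 : ℕ) : ℝ) + 1) < 2 / ((j : ℝ) + 1) := by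
      apply div_lt_div_of_pos_left (by norm_num) hj
      push_cast
      linarith
    linarith

theorem sum_logCB_lt {Ty Q : Type*} [Fintype Ty] [Fintype Q] (lam : Ty → ℕ) (mq : Q → ℕ)
    (hsum : ∑ y, lam y = ∑ q, mq q + 1)
    (hR : ∀ J, 1 ≤ J → ∑ q, min (mq q) J + 1 ≤ ∑ y, min (lam y) J)
    (hstrict : ∃ J, 1 ≤ J ∧ ∑ q, min (mq q) J + 2 ≤ ∑ y, min (lam y) J) :
    ∑ y, logCB (lam y) < logCB 1 + ∑ q, logCB (mq q) := by
  classical
  obtain ⟨X, hX⟩ : ∃ X, X = ∑ y, lam y + ∑ q, mq q + 1 := ⟨_, rfl⟩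
  have hXl : ∀ y, lam y ≤ X := fun y => by
    have := Finset.single_le_sum (f := lam) (fun i _ => Nat.zero_le _) (Finset.mem_univ y)
    omega
  have hXm : ∀ q, mq q ≤ X := fun q => by
    have := Finset.single_le_sum (f := mq) (fun i _ => Nat.zero_le _) (Finset.mem_univ q)
    omega
  have e1 : ∑ y, logCB (lam y) = (logCB (X + 1) - logCB X) * (∑ y, lam y : ℕ) +
      ∑ J ∈ Finset.range X, ((logCB (J + 1) - logCB J) - (logCB (J + 2) - logCB (J + 1))) *
        ((∑ y, min (lam y) (J + 1) : ℕ) : ℝ) := by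
    rw [Finset.sum_congr rfl fun y _ => abel_min logCB logCB_zero X (lam y) (hXl y),
      Finset.sum_add_distrib, Finset.sum_comm, ← Finset.mul_sum]
    push_cast
    simp only [Finset.mul_sum]
  have e2 : ∑ q, logCB (mq q) = (logCB (X + 1) - logCB X) * (∑ q, mq q : ℕ) +
      ∑ J ∈ Finset.range X, ((logCB (J + 1) - logCB J) - (logCB (J + 2) - logCB (J + 1))) *
        ((∑ q, min (mq q) (J + 1) : ℕ) : ℝ) := by
    rw [Finset.sum_congr rfl fun y _ => abel_min logCB logCB_zero X (mq y) (hXm y),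
      Finset.sum_add_distrib, Finset.sum_comm, ← Finset.mul_sum]
    push_cast
    simp only [Finset.mul_sum]
  have e3 := abel_min logCB logCB_zero X 1 (by omega)
  rw [e1, e2, e3, hsum]
  push_cast
  have key : ∑ J ∈ Finset.range X, ((logCB (J + 1) - logCB J) - (logCB (J + 2) - logCB (J + 1))) *
        ((∑ y, min (lam y) (J + 1) : ℕ) : ℝ) <
      ∑ J ∈ Finset.range X, (((logCB (J + 1) - logCB J) - (logCB (J + 2) - logCB (J + 1))) *
        ((min 1 (J + 1) : ℕ) : ℝ) +
      ((logCB (J + 1) - logCB J) - (logCB (J + 2) - logCB (J + 1))) *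
        ((∑ q, min (mq q) (J + 1) : ℕ) : ℝ)) := by
    apply Finset.sum_lt_sum
    · intro J _
      have h1 := hR (J + 1) (by omega)
      have h2 := logCB_conc J
      rw [min_eq_left (show 1 ≤ J + 1 by omega), ← mul_add]
      apply mul_le_mul_of_nonpos_left _ h2.le
      have h1' : ((∑ q, min (mq q) (J + 1) + 1 : ℕ) : ℝ) ≤ ((∑ y, min (lam y) (J + 1) : ℕ) : ℝ) := by
        exact_mod_cast h1
      push_cast at h1' ⊢
      linarith
    · obtain ⟨J, hJ1, hJ⟩ := hstrict
      have hJX : J < X + 1 := by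
        by_contra hcon
        have a1 : ∑ y, min (lam y) J = ∑ y, lam y :=
          Finset.sum_congr rfl fun y _ => min_eq_left ((hXl y).trans (by omega))
        have a2 : ∑ q, min (mq q) J = ∑ q, mq q :=
          Finset.sum_congr rfl fun y _ => min_eq_left ((hXm y).trans (by omega))
        omega
      refine ⟨J - 1, Finset.mem_range.2 (by omega), ?_⟩
      obtain ⟨J', rfl⟩ : ∃ J', J = J' + 1 := ⟨J - 1, by omega⟩
      simp only [Nat.add_sub_cancel]
      have h2 := logCB_conc J'
      rw [min_eq_left (show 1 ≤ J' + 1 by omega), ← mul_add]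
      apply mul_lt_mul_of_neg_left _ h2
      have h1' : ((∑ q, min (mq q) (J' + 1) + 2 : ℕ) : ℝ) ≤
          ((∑ y, min (lam y) (J' + 1) : ℕ) : ℝ) := by
        exact_mod_cast hJ
      push_cast at h1' ⊢
      linarith
  rw [Finset.sum_add_distrib] at key
  push_cast at key ⊢
  linarith

theorem num_ineq {Ty Q : Type*} [Fintype Ty] [Fintype Q] (lam : Ty → ℕ) (mq : Q → ℕ)
    (hsum : ∑ y, lam y = ∑ q, mq q + 1)
    (hR : ∀ J, 1 ≤ J → ∑ q, min (mq q) J + 1 ≤ ∑ y, min (lam y) J)
    (hstrict : ∃ J, 1 ≤ J ∧ ∑ q, min (mq q) J + 2 ≤ ∑ y, min (lam y) J) :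
    (∏ y, (2 * lam y).choose (lam y)) * (∏ q, (mq q)!) ^ 2 < 2 * ∏ q, (2 * mq q)! := by
  have h := sum_logCB_lt lam mq hsum hR hstrict
  have hp : ∀ x, (0 : ℝ) < Nat.centralBinom x := fun x => by
    exact_mod_cast Nat.centralBinom_pos x
  have h1 : ∏ y, (Nat.centralBinom (lam y) : ℝ) < 2 * ∏ q, (Nat.centralBinom (mq q) : ℝ) := by
    have h2 : Real.log (∏ y, (Nat.centralBinom (lam y) : ℝ)) <
        Real.log (2 * ∏ q, (Nat.centralBinom (mq q) : ℝ)) := by
      rw [Real.log_mul (by norm_num) (Finset.prod_pos fun q _ => hp _).ne',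
        Real.log_prod (fun y _ => (hp _).ne'), Real.log_prod (fun y _ => (hp _).ne'), ← logCB_one]
      exact h
    exact (Real.log_lt_log_iff (Finset.prod_pos fun q _ => hp _)
      (mul_pos (by norm_num) (Finset.prod_pos fun q _ => hp _))).1 h2
  have h3 : ∏ y, Nat.centralBinom (lam y) < 2 * ∏ q, Nat.centralBinom (mq q) := by
    exact_mod_cast h1
  have h4 : ∀ q, (2 * mq q)! = Nat.centralBinom (mq q) * (mq q)! ^ 2 := fun q => by
    have := Nat.choose_mul_factorial_mul_factorial (show mq q ≤ 2 * mq q by omega)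
    rw [show 2 * mq q - mq q = mq q by omega] at this
    rw [← this, Nat.centralBinom_eq_two_mul_choose]
    ring
  rw [Finset.prod_congr rfl fun q _ => h4 q, Finset.prod_mul_distrib, Finset.prod_pow,
    ← mul_assoc]
  apply Nat.mul_lt_mul_of_pos_right
  · simpa only [Nat.centralBinom_eq_two_mul_choose] using h3
  · exact pow_pos (Finset.prod_pos fun q _ => Nat.factorial_pos _) 2

/-- the number of splittings -/
theorem card_splittings {Ty : Type*} [Fintype Ty] [DecidableEq Ty] (lam : Ty → ℕ) :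
    (Finset.univ.filter fun G : Finset (Σ y, Fin (2 * lam y)) =>
      ∀ y, (G.filter fun i => i.1 = y).card = lam y).card = ∏ y, (2 * lam y).choose (lam y) := by
  have hcard : ∀ (G : Finset (Σ y, Fin (2 * lam y))) (y : Ty),
      (G.filter fun i => i.1 = y).card =
        (Finset.univ.filter fun j : Fin (2 * lam y) => (⟨y, j⟩ : Σ y, Fin (2 * lam y)) ∈ G).card := by
    intro G y
    refine Eq.trans (congrArg Finset.card ?_) (Finset.card_map
      (Function.Embedding.sigmaMk (β := fun y => Fin (2 * lam y)) y))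
    ext ⟨y', j⟩
    simp only [Finset.mem_filter, Finset.mem_map, Finset.mem_univ, true_and,
      Function.Embedding.sigmaMk_apply]
    constructor
    · rintro ⟨h1, rfl⟩
      exact ⟨j, h1, rfl⟩
    · rintro ⟨j', h1, h2⟩
      obtain ⟨rfl, h3⟩ := Sigma.mk.inj_iff.1 h2
      obtain rfl := eq_of_heq h3
      exact ⟨h1, rfl⟩
  have h1 : (Fintype.piFinset fun y =>
      Finset.powersetCard (lam y) (Finset.univ : Finset (Fin (2 * lam y)))).card =
        ∏ y, (2 * lam y).choose (lam y) := by
    rw [Fintype.card_piFinset]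
    simp
  rw [← h1]
  refine Finset.card_bij'
    (fun G _ => fun y => Finset.univ.filter fun j : Fin (2 * lam y) =>
      (⟨y, j⟩ : Σ y, Fin (2 * lam y)) ∈ G)
    (fun t _ => Finset.univ.sigma t) ?_ ?_ ?_ ?_
  · intro G hG
    rw [Fintype.mem_piFinset]
    intro y
    rw [Finset.mem_powersetCard]
    refine ⟨Finset.subset_univ _, ?_⟩
    rw [← hcard]
    exact (Finset.mem_filter.1 hG).2 y
  · intro t ht
    rw [Fintype.mem_piFinset] at ht
    refine Finset.mem_filter.2 ⟨Finset.mem_univ _, fun y => ?_⟩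
    rw [hcard]
    refine Eq.trans (congrArg Finset.card ?_) (Finset.mem_powersetCard.1 (ht y)).2
    ext j
    simp
  · intro G _
    ext ⟨y, j⟩
    simp
  · intro t _
    funext y
    ext j
    simp

end Pool.Agent.Work.Uni
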