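import Pool.Agent.Work.MP_4329d7_ag_uni.BezC

/-!
M5 (helper8, helper30): an elementary Bezout inequality.
-/

namespace Pool.Agent.Work.Uni

open MvPolynomial

/-- `p ↦ P(p + X)`: the expansion of `P` at the point `p` -/
noncomputable def shift {k σ : Type*} [CommRing k] (p : σ → k) (P : MvPolynomial σ k) :
    MvPolynomial σ k :=
  aeval (fun i => X i + C (p i)) P

/-- BEZOUT INEQUALITY.  `Φ` and `Ψ` generate the same subalgebra; `Φ` is good at infinity: the
components of degree `D i` have only the trivial common zero; `Ψ` is good at all its zeros `p ∈ Z`: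
the expansions at `p` start in degree `d i`, with initial forms which have only the trivial common
zero.  (`Φ` = the coefficients of the relations, `Ψ` = their Taylor coefficients at `1` and `-1`.)
PROOF (helper8, note 2965): compare growth of dimensions at infinity and at the zeros. -/
theorem bezout_ineq {k σ : Type} [Field k] [IsAlgClosed k] [Fintype σ] [DecidableEq σ]
    (Φ Ψ : σ → MvPolynomial σ k) (D d : σ → ℕ) (hd1 : ∀ i, 1 ≤ d i) (hD1 : ∀ i, 1 ≤ D i)
    (hgen : Algebra.adjoin k (Set.range Φ) = Algebra.adjoin k (Set.range Ψ))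
    (hD : ∀ i, (Φ i).totalDegree ≤ D i)
    (htop : ∀ x : σ → k, (∀ i, eval x (homogeneousComponent (D i) (Φ i)) = 0) → x = 0)
    (Z : Finset (σ → k)) (hZ : ∀ x : σ → k, (∀ i, eval x (Ψ i) = 0) → x ∈ Z)
    (hlow : ∀ p ∈ Z, ∀ i, ∀ e < d i, homogeneousComponent e (shift p (Ψ i)) = 0)
    (hloc : ∀ p ∈ Z, ∀ x : σ → k,
      (∀ i, eval x (homogeneousComponent (d i) (shift p (Ψ i))) = 0) → x = 0) :
    ∏ i, D i ≤ Z.card * ∏ i, d i := by
  have h1 := Pool.Agent.Work.Bezout.finite_alg hD1 hD htop
  have h2 := Pool.Agent.Work.Bezout.prod_le_finrank hD1 hD htop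
  rw [hgen] at h1 h2
  exact h2.trans (Pool.Agent.Uni8.finrank_le Ψ d hd1 Z hZ hlow hloc)

end Pool.Agent.Work.Uni
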