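import Mathlib
import Pool.Agent.Work.MP_4329d7_ag_uni.Defs
import Pool.Agent.Work.MP_b62148_ag.HS

/-!
M4: the root system as a system of homogeneous polynomials in the roots; existence of solutions.
-/

namespace Pool.Agent.Work.Uni

open Polynomial

/-- the coefficient of `X ^ d` in the relation `q`, as a polynomial in the roots -/
noncomputable def coefPoly {ι Pt Q k : Type*} [Fintype ι] [Fintype Pt] [CommRing k]
    (a : Q → Pt → k) (β : ι → Pt → ℕ) (q : Q) (d : ℕ) : MvPolynomial ι k :=
  (∑ p, C (MvPolynomial.C (a q p)) *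
    rootPoly β (fun i => (MvPolynomial.X i : MvPolynomial ι k)) p).coeff d

section

variable {ι Pt Q I k : Type} [Fintype ι] [Fintype Pt] [Field k]

theorem map_rootPoly {ι Pt R S : Type*} [Fintype ι] [CommRing R] [CommRing S] (φ : R →+* S)
    (β : ι → Pt → ℕ) (t : ι → R) (p : Pt) :
    (rootPoly β t p).map φ = rootPoly β (fun i => φ (t i)) p := by
  unfold rootPoly
  rw [Polynomial.map_prod]
  refine Finset.prod_congr rfl fun i _ => ?_
  rw [Polynomial.map_pow, Polynomial.map_sub, map_X, map_C]

theorem eval_coefPoly (a : Q → Pt → k) (β : ι → Pt → ℕ) (q : Q) (d : ℕ) (t : ι → k) :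
    MvPolynomial.eval t (coefPoly a β q d) = (∑ p, C (a q p) * rootPoly β t p).coeff d := by
  unfold coefPoly
  rw [← Polynomial.coeff_map (MvPolynomial.eval t)]
  congr 1
  rw [Polynomial.map_sum]
  refine Finset.sum_congr rfl fun p _ => ?_
  rw [Polynomial.map_mul, map_C, map_rootPoly]
  simp

/-- all coefficients of `X ^ d` are homogeneous of degree `n - d` -/
def HP {ι k : Type*} [CommSemiring k] (n : ℕ) (P : (MvPolynomial ι k)[X]) : Prop :=
  ∀ d, (d ≤ n → (P.coeff d).IsHomogeneous (n - d)) ∧ (n < d → P.coeff d = 0)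

theorem HP.mul {ι k : Type*} [CommSemiring k] {n m : ℕ} {P R : (MvPolynomial ι k)[X]}
    (hP : HP n P) (hR : HP m R) : HP (n + m) (P * R) := by
  intro d
  constructor
  · intro hd
    rw [Polynomial.coeff_mul]
    refine MvPolynomial.IsHomogeneous.sum _ _ _ fun x hx => ?_
    rw [Finset.HasAntidiagonal.mem_antidiagonal] at hx
    by_cases h1 : x.1 ≤ n
    · by_cases h2 : x.2 ≤ m
      · have := ((hP x.1).1 h1).mul ((hR x.2).1 h2)
        have e : n - x.1 + (m - x.2) = n + m - d := by omega
        rwa [e] at this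
      · rw [(hR x.2).2 (by omega), mul_zero]
        exact MvPolynomial.isHomogeneous_zero _ _ _
    · rw [(hP x.1).2 (by omega), zero_mul]
      exact MvPolynomial.isHomogeneous_zero _ _ _
  · intro hd
    rw [Polynomial.coeff_mul]
    refine Finset.sum_eq_zero fun x hx => ?_
    rw [Finset.HasAntidiagonal.mem_antidiagonal] at hx
    by_cases h1 : x.1 ≤ n
    · rw [(hR x.2).2 (by omega), mul_zero]
    · rw [(hP x.1).2 (by omega), zero_mul]

theorem HP.one {ι k : Type*} [CommSemiring k] : HP 0 (1 : (MvPolynomial ι k)[X]) := by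
  intro d
  constructor
  · intro hd
    obtain rfl : d = 0 := by omega
    rw [Polynomial.coeff_one_zero]
    exact MvPolynomial.isHomogeneous_one _ _
  · intro hd
    rw [Polynomial.coeff_one, if_neg (by omega)]

theorem HP.X_sub {ι k : Type*} [CommRing k] (i : ι) :
    HP 1 (X - C (MvPolynomial.X i) : (MvPolynomial ι k)[X]) := by
  intro d
  constructor
  · intro hd
    rcases (by omega : d = 0 ∨ d = 1) with rfl | rfl
    · rw [Polynomial.coeff_sub, Polynomial.coeff_X_zero, Polynomial.coeff_C_zero, zero_sub]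
      exact (MvPolynomial.isHomogeneous_X _ _).neg
    · rw [Polynomial.coeff_sub, Polynomial.coeff_X_one, Polynomial.coeff_C, if_neg (by omega),
        sub_zero]
      exact MvPolynomial.isHomogeneous_one _ _
  · intro hd
    rw [Polynomial.coeff_sub, Polynomial.coeff_X, if_neg (by omega), Polynomial.coeff_C,
      if_neg (by omega), sub_zero]

theorem HP.pow {ι k : Type*} [CommSemiring k] {n : ℕ} {P : (MvPolynomial ι k)[X]}
    (hP : HP n P) (e : ℕ) : HP (e * n) (P ^ e) := by
  induction e with
  | zero => simpa using HP.one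
  | succ e ih =>
    rw [pow_succ, add_mul, one_mul]
    exact ih.mul hP

theorem HP.prod {ι k κ : Type*} [CommSemiring k] (s : Finset κ) (n : κ → ℕ)
    (P : κ → (MvPolynomial ι k)[X]) (hP : ∀ j ∈ s, HP (n j) (P j)) :
    HP (∑ j ∈ s, n j) (∏ j ∈ s, P j) := by
  classical
  induction s using Finset.induction_on with
  | empty => simpa using HP.one
  | insert j s hj ih =>
    rw [Finset.sum_insert hj, Finset.prod_insert hj]
    exact (hP j (Finset.mem_insert_self _ _)).mul
      (ih fun i hi => hP i (Finset.mem_insert_of_mem hi))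

theorem HP.C_mul {ι k : Type*} [CommSemiring k] {n : ℕ} {P : (MvPolynomial ι k)[X]}
    (hP : HP n P) (c : k) : HP n (C (MvPolynomial.C c) * P) := by
  intro d
  constructor
  · intro hd
    rw [Polynomial.coeff_C_mul]
    have := (MvPolynomial.isHomogeneous_C ι c).mul ((hP d).1 hd)
    rwa [zero_add] at this
  · intro hd
    rw [Polynomial.coeff_C_mul, (hP d).2 hd, mul_zero]

theorem HP.sum {ι k κ : Type*} [CommSemiring k] (s : Finset κ) (n : ℕ)
    (P : κ → (MvPolynomial ι k)[X]) (hP : ∀ j ∈ s, HP n (P j)) :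
    HP n (∑ j ∈ s, P j) := by
  intro d
  constructor
  · intro hd
    rw [Polynomial.finsetSum_coeff]
    exact MvPolynomial.IsHomogeneous.sum _ _ _ fun j hj => (hP j hj d).1 hd
  · intro hd
    rw [Polynomial.finsetSum_coeff]
    exact Finset.sum_eq_zero fun j hj => (hP j hj d).2 hd

omit [Fintype Pt] in
theorem HP.rootPoly (β : ι → Pt → ℕ) (p : Pt) :
    HP (∑ i, β i p) (rootPoly β (fun i => (MvPolynomial.X i : MvPolynomial ι k)) p) := by
  refine HP.prod _ _ _ fun i _ => ?_
  simpa using (HP.X_sub (k := k) i).pow (β i p)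

theorem coefPoly_homogeneous (a : Q → Pt → k) (β : ι → Pt → ℕ) (q : Q) (M : ℕ)
    (hM : ∀ p, a q p ≠ 0 → ∑ i, β i p = M) (d : ℕ) (hd : d ≤ M) :
    (coefPoly a β q d).IsHomogeneous (M - d) := by
  unfold coefPoly
  refine ((HP.sum _ M _ fun p _ => ?_) d).1 hd
  by_cases h : a q p = 0
  · rw [h, map_zero, map_zero, zero_mul]
    intro d
    exact ⟨fun _ => by simpa using MvPolynomial.isHomogeneous_zero _ _ _, fun _ => by simp⟩
  · rw [← hM p h]
    exact (HP.rootPoly β p).C_mul _

theorem rootPoly_monic {ι Pt F : Type*} [Fintype ι] [CommRing F] (β : ι → Pt → ℕ) (t : ι → F)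
    (p : Pt) : (rootPoly β t p).Monic :=
  monic_prod_of_monic _ _ fun i _ => (monic_X_sub_C _).pow _

omit [Fintype Pt] in
theorem rootPoly_natDegree (β : ι → Pt → ℕ) (t : ι → k) (p : Pt) :
    (rootPoly β t p).natDegree = ∑ i, β i p := by
  unfold rootPoly
  rw [natDegree_prod_of_monic _ _ fun _ _ => (monic_X_sub_C _).pow _]
  refine Finset.sum_congr rfl fun i _ => ?_
  rw [natDegree_pow, natDegree_X_sub_C, mul_one]

/-- `t` is a solution iff the coefficients of `X ^ d`, `d < mq q`, vanish. -/
theorem isSol_iff (a : Q → Pt → k) (hsum : ∀ q, ∑ p, a q p = 0) (β : ι → Pt → ℕ) (mq : Q → ℕ)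
    (hm : ∀ q p, a q p ≠ 0 → ∑ i, β i p = mq q) (t : ι → k) :
    IsSol a β t ↔ ∀ q, ∀ d < mq q, MvPolynomial.eval t (coefPoly a β q d) = 0 := by
  constructor
  · intro h q d _
    rw [eval_coefPoly, h q, coeff_zero]
  · intro h q
    ext d
    rw [coeff_zero]
    rcases lt_trichotomy d (mq q) with hd | hd | hd
    · rw [← eval_coefPoly]
      exact h q d hd
    · rw [Polynomial.finsetSum_coeff]
      rw [← hsum q]
      refine Finset.sum_congr rfl fun p _ => ?_
      rw [coeff_C_mul]
      by_cases hp : a q p = 0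
      · rw [hp, zero_mul]
      · have h1 := (rootPoly_monic β t p).coeff_natDegree
        rw [rootPoly_natDegree, hm q p hp, ← hd] at h1
        rw [h1, mul_one]
    · rw [Polynomial.finsetSum_coeff]
      refine Finset.sum_eq_zero fun p _ => ?_
      rw [coeff_C_mul]
      by_cases hp : a q p = 0
      · rw [hp, zero_mul]
      · rw [coeff_eq_zero_of_natDegree_lt, mul_zero]
        rw [rootPoly_natDegree, hm q p hp]
        exact hd

/-- `exists_common_zero` for arbitrary finite index types -/
theorem exists_zero' [IsAlgClosed k] {κ : Type} [Fintype κ] (F : κ → MvPolynomial ι k)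
    (h0 : ∀ j, MvPolynomial.eval 0 (F j) = 0) (hcard : Fintype.card κ < Fintype.card ι) :
    ∃ x : ι → k, x ≠ 0 ∧ ∀ j, MvPolynomial.eval x (F j) = 0 := by
  classical
  let e := Fintype.equivFin ι
  let e' := Fintype.equivFin κ
  obtain ⟨x, hx, hF⟩ := Pool.Agent.Work.PD.exists_common_zero hcard
    (fun j => MvPolynomial.rename e (F (e'.symm j))) (by
      intro j
      rw [MvPolynomial.eval_rename]
      exact h0 _)
  refine ⟨x ∘ e, ?_, ?_⟩
  · intro h
    apply hx
    funext i
    have := congrFun h (e.symm i)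
    simpa using this
  · intro j
    have := hF (e' j)
    rw [MvPolynomial.eval_rename, Equiv.symm_apply_apply] at this
    exact this

theorem eval_zero_coefPoly (a : Q → Pt → k) (β : ι → Pt → ℕ) (q : Q) (M : ℕ)
    (hM : ∀ p, a q p ≠ 0 → ∑ i, β i p = M) (d : ℕ) (hd : d < M) :
    MvPolynomial.eval 0 (coefPoly a β q d) = 0 := by
  have h := coefPoly_homogeneous a β q M hM d hd.le
  have h2 : MvPolynomial.eval (0 : ι → k) (coefPoly a β q d)
      = MvPolynomial.constantCoeff (coefPoly a β q d) := by
    rw [← MvPolynomial.eval_zero]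
  rw [h2, MvPolynomial.constantCoeff_eq]
  refine h.coeff_eq_zero ?_
  simp
  omega

theorem sum_const_ne (t : ι → k) [CharZero k] (h0 : t ≠ 0) (hs : ∑ i, t i = 0) :
    ∃ i j, t i ≠ t j := by
  by_contra hcon
  push Not at hcon
  obtain ⟨i0, hi0⟩ : ∃ i, t i ≠ 0 := by
    by_contra h
    push Not at h
    exact h0 (funext h)
  have h1 : ∑ i, t i = (Fintype.card ι : k) * t i0 := by
    rw [Finset.sum_congr rfl fun i _ => hcon i i0, Finset.sum_const, Finset.card_univ,
      nsmul_eq_mul]
  rw [h1] at hs
  rcases mul_eq_zero.1 hs with h | h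
  · have : Fintype.card ι = 0 := by exact_mod_cast h
    exact (Fintype.card_eq_zero_iff.1 this).elim i0
  · exact hi0 h

/-- HINT: `Pool.Agent.Work.PD.exists_common_zero` for the `coefPoly a β q d`, `d < mq q`, and
`∑ i, X i`. -/
theorem exists_nonconst_sol [IsAlgClosed k] [CharZero k] [Fintype Q] (a : Q → Pt → k)
    (hsum : ∀ q, ∑ p, a q p = 0) (β : ι → Pt → ℕ) (mq : Q → ℕ)
    (hm : ∀ q p, a q p ≠ 0 → ∑ i, β i p = mq q)
    (hcard : ∑ q, mq q + 2 ≤ Fintype.card ι) :
    ∃ t : ι → k, IsSol a β t ∧ ∃ i j, t i ≠ t j := by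
  obtain ⟨x, hx, hF⟩ := exists_zero' (k := k) (ι := ι) (κ := (Σ q, Fin (mq q)) ⊕ Unit)
    (Sum.elim (fun j => coefPoly a β j.1 j.2) fun _ => ∑ i, MvPolynomial.X i) (by
      rintro (⟨q, d⟩ | u)
      · exact eval_zero_coefPoly a β q _ (hm q) d d.2
      · simp) (by
      simp only [Fintype.card_sum, Fintype.card_sigma, Fintype.card_fin, Fintype.card_unit]
      omega)
  refine ⟨x, ?_, sum_const_ne x hx ?_⟩
  · rw [isSol_iff a hsum β mq hm]
    intro q d hd
    exact hF (Sum.inl ⟨q, ⟨d, hd⟩⟩)
  · have := hF (Sum.inr ())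
    simpa using this

/-- the linear equations -/
theorem eval_coefPoly_lin (a : Q → Pt → k) (β : ι → Pt → ℕ) (q : Q) (M : ℕ) (hM1 : 1 ≤ M)
    (hM : ∀ p, a q p ≠ 0 → ∑ i, β i p = M) (t : ι → k) :
    MvPolynomial.eval t (coefPoly a β q (M - 1)) = - ∑ i, (∑ p, a q p * (β i p : k)) * t i := by
  rw [eval_coefPoly, Polynomial.finsetSum_coeff]
  have h1 : ∀ p, (C (a q p) * rootPoly β t p).coeff (M - 1)
      = a q p * -∑ i, (β i p : k) * t i := by
    intro p
    rw [coeff_C_mul]
    by_cases hp : a q p = 0
    · rw [hp, zero_mul, zero_mul]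
    · congr 1
      have h2 : (rootPoly β t p).nextCoeff = -∑ i, (β i p : k) * t i := by
        unfold rootPoly
        rw [Monic.nextCoeff_prod _ _ fun i _ => (monic_X_sub_C _).pow _, ← Finset.sum_neg_distrib]
        refine Finset.sum_congr rfl fun i _ => ?_
        rw [Monic.nextCoeff_pow (monic_X_sub_C _), nextCoeff_X_sub_C, nsmul_eq_mul, mul_neg]
      rw [← h2, nextCoeff_of_natDegree_pos, rootPoly_natDegree, hM p hp]
      rw [rootPoly_natDegree, hM p hp]
      omega
  rw [Finset.sum_congr rfl fun p _ => h1 p]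
  simp only [mul_neg, Finset.sum_neg_distrib, Finset.mul_sum, Finset.sum_mul]
  rw [Finset.sum_comm]
  simp only [mul_assoc]

/-- A sharper version: the linear equations (`d = mq q - 1`, `1 ≤ mq q`) are
`∑ i, (∑ p, a q p * β i p) * t i = 0`; if they are dependent one of them can be dropped. -/
theorem exists_nonconst_sol_of_dep [IsAlgClosed k] [CharZero k] [Fintype Q] (a : Q → Pt → k)
    (hsum : ∀ q, ∑ p, a q p = 0) (β : ι → Pt → ℕ) (mq : Q → ℕ)
    (hm : ∀ q p, a q p ≠ 0 → ∑ i, β i p = mq q)
    (hcard : ∑ q, mq q + 1 ≤ Fintype.card ι) (c : Q → k) (hc : ∃ q, c q ≠ 0)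
    (hc0 : ∀ q, c q ≠ 0 → 1 ≤ mq q)
    (hdep : ∀ i, ∑ q, c q * ∑ p, a q p * (β i p : k) = 0) :
    ∃ t : ι → k, IsSol a β t ∧ ∃ i j, t i ≠ t j := by
  classical
  obtain ⟨q0, hq0⟩ := hc
  have h10 := hc0 q0 hq0
  let κ := {j : Σ q, Fin (mq q) // j ≠ ⟨q0, ⟨mq q0 - 1, by omega⟩⟩}
  have hκ : Fintype.card κ + 1 = ∑ q, mq q := by
    have : Fintype.card κ = Fintype.card (Σ q, Fin (mq q)) - 1 := by
      rw [Fintype.card_subtype_compl, Fintype.card_subtype_eq]
    rw [this, Fintype.card_sigma]
    simp only [Fintype.card_fin]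
    have : mq q0 ≤ ∑ q, mq q := Finset.single_le_sum (fun _ _ => Nat.zero_le _)
      (Finset.mem_univ q0)
    omega
  obtain ⟨x, hx, hF⟩ := exists_zero' (k := k) (ι := ι) (κ := κ ⊕ Unit)
    (Sum.elim (fun j => coefPoly a β j.1.1 j.1.2) fun _ => ∑ i, MvPolynomial.X i) (by
      rintro (⟨⟨q, d⟩, h⟩ | u)
      · exact eval_zero_coefPoly a β q _ (hm q) d d.2
      · simp) (by
      rw [Fintype.card_sum, Fintype.card_unit]
      omega)
  refine ⟨x, ?_, sum_const_ne x hx ?_⟩
  · rw [isSol_iff a hsum β mq hm]
    intro q d hd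
    by_cases hqd : (⟨q, ⟨d, hd⟩⟩ : Σ q, Fin (mq q)) = ⟨q0, ⟨mq q0 - 1, by omega⟩⟩
    · obtain rfl : q = q0 := congrArg Sigma.fst hqd
      obtain rfl : d = mq q - 1 := by
        have := eq_of_heq (Sigma.mk.inj hqd).2
        exact congrArg Fin.val this
      -- the dropped equation
      have hlin : ∀ q', c q' * MvPolynomial.eval x (coefPoly a β q' (mq q' - 1))
          = - (c q' * ∑ i, (∑ p, a q' p * (β i p : k)) * x i) := by
        intro q'
        by_cases hc' : c q' = 0
        · rw [hc', zero_mul, zero_mul, neg_zero]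
        · rw [eval_coefPoly_lin a β q' _ (hc0 q' hc') (hm q'), mul_neg]
      have htot : ∑ q', c q' * MvPolynomial.eval x (coefPoly a β q' (mq q' - 1)) = 0 := by
        rw [Finset.sum_congr rfl fun q' _ => hlin q', Finset.sum_neg_distrib, neg_eq_zero]
        simp only [Finset.mul_sum]
        rw [Finset.sum_comm]
        refine Finset.sum_eq_zero fun i _ => ?_
        have := congrArg (fun y => y * x i) (hdep i)
        simp only [zero_mul, Finset.sum_mul, Finset.mul_sum] at this ⊢
        rw [← this]
        refine Finset.sum_congr rfl fun q' _ => ?_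
        refine Finset.sum_congr rfl fun p _ => ?_
        ring
      rw [Finset.sum_eq_single q] at htot
      · exact (mul_eq_zero.1 htot).resolve_left hq0
      · intro q' _ hne
        by_cases hc' : c q' = 0
        · rw [hc', zero_mul]
        · have := hF (Sum.inl ⟨⟨q', ⟨mq q' - 1, by have := hc0 q' hc'; omega⟩⟩, by
            intro h
            exact hne (congrArg Sigma.fst h)⟩)
          simp only [Sum.elim_inl] at this
          rw [this, mul_zero]
      · simp
    · exact hF (Sum.inl ⟨⟨q, ⟨d, hd⟩⟩, hqd⟩)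
  · have := hF (Sum.inr ())
    simpa using this

/-- HINT: put `min (lam y) J` of the roots of type `y` equal to `0`; then the relation `q` is
divisible by `X ^ (min (mq q) J)` (for `a q p ≠ 0` either some type `y` with `b y p ≠ 0` has
`J ≤ lam y`, or all of them have all their roots equal to `0`); if there are more free roots than
remaining coefficients then there is a nonconstant solution. -/
theorem truncated [IsAlgClosed k] [CharZero k] [Fintype Q] {Ty : Type} [Fintype Ty]
    (a : Q → Pt → k) (hsum : ∀ q, ∑ p, a q p = 0) (b : Ty → Pt → ℕ) (lam : Ty → ℕ) (mq : Q → ℕ)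
    (hm : ∀ q p, a q p ≠ 0 → ∑ y, lam y * b y p = mq q) (J : ℕ) (hJ : 1 ≤ J)
    (hconst : ∀ t : (Σ y, Fin (lam y)) → k, IsSol a (fun i => b i.1) t → ∀ i j, t i = t j) :
    ∑ y, (lam y - min (lam y) J) ≤ ∑ q, (mq q - min (mq q) J) := by
  classical
  by_contra hcon
  push Not at hcon
  let ι' := Σ y, Fin (lam y)
  let free := {i : ι' // J ≤ i.2.1}
  have hsum' : ∀ p, ∑ i : ι', b i.1 p = ∑ y, lam y * b y p := by
    intro p
    rw [Fintype.sum_sigma]
    refine Finset.sum_congr rfl fun y _ => ?_
    show ∑ _j : Fin (lam y), b y p = _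
    rw [Finset.sum_const, Finset.card_univ, Fintype.card_fin, smul_eq_mul]
  have hm' : ∀ q p, a q p ≠ 0 → ∑ i : ι', b i.1 p = mq q := by
    intro q p h
    rw [hsum', hm q p h]
  -- number of free roots
  have hfree : Fintype.card free = ∑ y, (lam y - min (lam y) J) := by
    have e : free ≃ Σ y, {j : Fin (lam y) // J ≤ j.1} :=
      { toFun := fun i => ⟨i.1.1, ⟨i.1.2, i.2⟩⟩
        invFun := fun i => ⟨⟨i.1, i.2.1⟩, i.2.2⟩
        left_inv := fun _ => rfl
        right_inv := fun _ => rfl }
    rw [Fintype.card_congr e, Fintype.card_sigma]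
    refine Finset.sum_congr rfl fun y _ => ?_
    have e2 : {j : Fin (lam y) // J ≤ j.1} ≃ Fin (lam y - min (lam y) J) :=
      { toFun := fun j => ⟨j.1.1 - J, by have := j.1.2; have := j.2; omega⟩
        invFun := fun j => ⟨⟨j.1 + J, by have := j.2; omega⟩, by simp⟩
        left_inv := fun j => by
          apply Subtype.ext
          apply Fin.ext
          have := j.2
          simp
          omega
        right_inv := fun j => by
          apply Fin.ext
          simp }
    rw [Fintype.card_congr e2, Fintype.card_fin]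
  -- extension by zero
  let ext : (free → k) → ι' → k := fun x i => if h : J ≤ i.2.1 then x ⟨i, h⟩ else 0
  let sub : ι' → MvPolynomial free k := fun i =>
    if h : J ≤ i.2.1 then MvPolynomial.X ⟨i, h⟩ else 0
  let F : (Σ q, Fin (mq q - min (mq q) J)) → MvPolynomial free k := fun j =>
    MvPolynomial.aeval sub (coefPoly a (fun i : ι' => b i.1) j.1 (min (mq j.1) J + j.2))
  have hev : ∀ (x : free → k) (P : MvPolynomial ι' k),
      MvPolynomial.eval x (MvPolynomial.aeval sub P) = MvPolynomial.eval (ext x) P := by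
    intro x P
    have h : (MvPolynomial.aeval x : MvPolynomial free k →ₐ[k] k).comp (MvPolynomial.aeval sub)
        = MvPolynomial.aeval (ext x) := by
      apply MvPolynomial.algHom_ext
      intro i
      simp only [AlgHom.comp_apply, MvPolynomial.aeval_X, sub, ext]
      split_ifs <;> simp
    have := DFunLike.congr_fun h P
    rw [AlgHom.comp_apply, MvPolynomial.aeval_eq_eval, MvPolynomial.aeval_eq_eval] at this
    exact this
  obtain ⟨x, hx, hF⟩ := exists_zero' (k := k) (ι := free) F (by
      rintro ⟨q, d⟩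
      show MvPolynomial.eval 0 (MvPolynomial.aeval sub _) = 0
      rw [hev]
      have : ext 0 = 0 := by
        funext i
        simp [ext]
      rw [this]
      exact eval_zero_coefPoly a _ q _ (hm' q) _ (by have := d.2; simp only; omega)) (by
      rw [hfree, Fintype.card_sigma]
      simpa using hcon)
  have hsol : IsSol a (fun i : ι' => b i.1) (ext x) := by
    rw [isSol_iff a hsum _ mq hm']
    intro q d hd
    by_cases hdJ : d < min (mq q) J
    · rw [eval_coefPoly, Polynomial.finsetSum_coeff]
      refine Finset.sum_eq_zero fun p _ => ?_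
      rw [coeff_C_mul]
      by_cases hp : a q p = 0
      · rw [hp, zero_mul]
      · have hdvd : (X : k[X]) ^ (min (mq q) J) ∣ rootPoly (fun i : ι' => b i.1) (ext x) p := by
          unfold rootPoly
          have h1 : (X : k[X]) ^ (∑ i : ι' with ¬ J ≤ i.2.1, b i.1 p)
              ∣ ∏ i : ι', (X - C (ext x i)) ^ b i.1 p := by
            rw [← Finset.prod_pow_eq_pow_sum]
            rw [← Finset.prod_filter_mul_prod_filter_not Finset.univ (fun i : ι' => ¬ J ≤ i.2.1)]
            refine Dvd.dvd.mul_right (dvd_of_eq ?_) _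
            refine Finset.prod_congr rfl fun i hi => ?_
            rw [Finset.mem_filter] at hi
            have : ext x i = 0 := by
              simp only [ext]
              rw [dif_neg hi.2]
            rw [this, map_zero, sub_zero]
          refine (pow_dvd_pow _ ?_).trans h1
          rw [← hm q p hp]
          have h2 : ∑ i : ι' with ¬ J ≤ i.2.1, b i.1 p = ∑ y, min (lam y) J * b y p := by
            rw [Finset.sum_filter, Fintype.sum_sigma]
            refine Finset.sum_congr rfl fun y _ => ?_
            rw [← Finset.sum_filter]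
            show ∑ j : Fin (lam y) with ¬ J ≤ j.1, b y p = _
            rw [Finset.sum_const, smul_eq_mul]
            congr 1
            have : (Finset.univ.filter fun j : Fin (lam y) => ¬ J ≤ j.1).card
                = (Finset.univ.filter fun j : Fin (lam y) => j.1 < J).card := by
              congr 1
              ext j
              simp
            rw [this, Fin.card_filter_val_lt]
          rw [h2]
          by_cases hex : ∃ y, b y p ≠ 0 ∧ J ≤ lam y
          · obtain ⟨y, hy, hyJ⟩ := hex
            refine (min_le_right _ _).trans ?_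
            calc J = min (lam y) J * 1 := by rw [min_eq_right hyJ, mul_one]
              _ ≤ min (lam y) J * b y p := Nat.mul_le_mul_left _ (by omega)
              _ ≤ _ := Finset.single_le_sum (f := fun y => min (lam y) J * b y p)
                (fun _ _ => Nat.zero_le _) (Finset.mem_univ y)
          · push Not at hex
            refine (min_le_left _ _).trans (le_of_eq ?_)
            refine Finset.sum_congr rfl fun y _ => ?_
            by_cases hy : b y p = 0
            · rw [hy, mul_zero, mul_zero]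
            · rw [min_eq_left (hex y hy).le]
        rw [Polynomial.X_pow_dvd_iff.1 hdvd d hdJ, mul_zero]
    · have := hF ⟨q, ⟨d - min (mq q) J, by omega⟩⟩
      change MvPolynomial.eval x (MvPolynomial.aeval sub _) = 0 at this
      rw [hev] at this
      have e : min (mq q) J + (d - min (mq q) J) = d := by omega
      rwa [e] at this
  obtain ⟨i, hi⟩ : ∃ i, x i ≠ 0 := by
    by_contra h
    push Not at h
    exact hx (funext h)
  have h3 := hconst _ hsol i.1 ⟨i.1.1, ⟨0, by have := i.1.2.2; omega⟩⟩
  have h4 : ext x i.1 = x i := by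
    simp only [ext]
    rw [dif_pos i.2]
  have h5 : ext x ⟨i.1.1, ⟨0, by have := i.1.2.2; omega⟩⟩ = 0 := by
    simp only [ext]
    rw [dif_neg (by simp; omega)]
  rw [h4, h5] at h3
  exact hi h3

omit [Fintype Pt] in
/-- if `rootPoly β t` depends only on the factor, then the groups of equal roots are packings -/
theorem group_pack [DecidableEq k] (f : Pt → I) (β : ι → Pt → ℕ)
    (t : ι → k) (h : ∀ p p', f p = f p' → rootPoly β t p = rootPoly β t p') (s : k) (p p' : Pt)
    (hp : f p = f p') :
    ∑ i with t i = s, β i p = ∑ i with t i = s, β i p' := by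
  have h1 : ∀ p, (rootPoly β t p).rootMultiplicity s = ∑ i with t i = s, β i p := by
    intro p
    have hne : rootPoly β t p ≠ 0 := (rootPoly_monic β t p).ne_zero
    rw [← count_roots]
    unfold rootPoly at hne ⊢
    rw [roots_prod _ _ hne, Multiset.count_bind]
    show ∑ i, Multiset.count s ((X - C (t i)) ^ β i p).roots = _
    rw [Finset.sum_filter]
    refine Finset.sum_congr rfl fun i _ => ?_
    rw [roots_pow, roots_X_sub_C, Multiset.count_nsmul, Multiset.count_singleton]
    by_cases h : t i = s
    · simp [h]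
    · rw [if_neg (Ne.symm h), if_neg h, mul_zero]
  rw [← h1, ← h1, h p p' hp]

end

end Pool.Agent.Work.Uni
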