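import Mathlib
import Pool.Agent.Work.MP_4329d7_ag_uni.Sys
import Pool.Agent.Work.MP_4329d7_ag_uni.Bezout

/-!
M7, part 1: the local expansion of the Taylor coefficients.
-/

namespace Pool.Agent.Work.Uni



open Polynomial

section filt

variable {ι k : Type*} [CommRing k]

/-- all terms of `F` have weight at least `w` (the variables and `X` have weight one) -/
def InW (w : ℕ) (F : Polynomial (MvPolynomial ι k)) : Prop :=
  ∀ j (c : ι →₀ ℕ), c.degree + j < w → (F.coeff j).coeff c = 0

theorem InW.zero (w : ℕ) : InW w (0 : Polynomial (MvPolynomial ι k)) := by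
  intro j c _
  rw [coeff_zero, MvPolynomial.coeff_zero]

theorem InW.triv (F : Polynomial (MvPolynomial ι k)) : InW 0 F := by
  intro j c h
  exact absurd h (Nat.not_lt_zero _)

theorem InW.add {w : ℕ} {F G : Polynomial (MvPolynomial ι k)} (hF : InW w F) (hG : InW w G) :
    InW w (F + G) := by
  intro j c h
  rw [coeff_add, MvPolynomial.coeff_add, hF j c h, hG j c h, add_zero]

theorem InW.sum {κ : Type*} {s : Finset κ} {w : ℕ} {F : κ → Polynomial (MvPolynomial ι k)}
    (hF : ∀ i ∈ s, InW w (F i)) : InW w (∑ i ∈ s, F i) := by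
  classical
  induction s using Finset.induction_on with
  | empty => rw [Finset.sum_empty]; exact InW.zero w
  | insert a s ha ih =>
    rw [Finset.sum_insert ha]
    exact (hF a (Finset.mem_insert_self a s)).add
      (ih fun i hi => hF i (Finset.mem_insert_of_mem hi))

theorem InW.mono {w w' : ℕ} (h : w' ≤ w) {F : Polynomial (MvPolynomial ι k)} (hF : InW w F) :
    InW w' F := fun j c hc => hF j c (lt_of_lt_of_le hc h)

theorem InW.mul {w w' : ℕ} {F G : Polynomial (MvPolynomial ι k)} (hF : InW w F)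
    (hG : InW w' G) : InW (w + w') (F * G) := by
  classical
  intro j c h
  rw [coeff_mul, MvPolynomial.coeff_sum]
  apply Finset.sum_eq_zero
  rintro ⟨x, y⟩ hxy
  rw [Finset.HasAntidiagonal.mem_antidiagonal] at hxy
  rw [MvPolynomial.coeff_mul]
  apply Finset.sum_eq_zero
  rintro ⟨u, v⟩ huv
  rw [Finset.HasAntidiagonal.mem_antidiagonal] at huv
  have hdeg : u.degree + v.degree = c.degree := by rw [← huv, map_add]
  simp only at hxy ⊢
  by_cases h1 : u.degree + x < w
  · rw [hF x u h1, zero_mul]
  · have h2 : v.degree + y < w' := by omega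
    rw [hG y v h2, mul_zero]

theorem InW.pow {w : ℕ} {F : Polynomial (MvPolynomial ι k)} (hF : InW w F) (n : ℕ) :
    InW (n * w) (F ^ n) := by
  induction n with
  | zero => rw [zero_mul]; exact InW.triv _
  | succ n ih =>
    rw [pow_succ, Nat.succ_mul]
    exact ih.mul hF

theorem InW.prod {κ : Type*} {s : Finset κ} {w : κ → ℕ} {F : κ → Polynomial (MvPolynomial ι k)}
    (hF : ∀ i ∈ s, InW (w i) (F i)) : InW (∑ i ∈ s, w i) (∏ i ∈ s, F i) := by
  classical
  induction s using Finset.induction_on with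
  | empty => rw [Finset.sum_empty]; exact InW.triv _
  | insert a s ha ih =>
    rw [Finset.sum_insert ha, Finset.prod_insert ha]
    exact (hF a (Finset.mem_insert_self a s)).mul
      (ih fun i hi => hF i (Finset.mem_insert_of_mem hi))

theorem InW.const_mul (a : Polynomial (MvPolynomial ι k)) {w : ℕ}
    {F : Polynomial (MvPolynomial ι k)} (hF : InW w F) : InW w (a * F) := by
  have := (InW.triv a).mul hF
  rwa [zero_add] at this

/-- evaluation at the origin -/
noncomputable def ev0 (ι k : Type*) [CommRing k] : Polynomial (MvPolynomial ι k) →+* k :=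
  MvPolynomial.constantCoeff.comp Polynomial.constantCoeff

theorem inW_one {F : Polynomial (MvPolynomial ι k)} : InW 1 F ↔ ev0 ι k F = 0 := by
  constructor
  · intro h
    exact h 0 0 (by simp)
  · intro h j c hc
    have h1 : c.degree = 0 := by omega
    have h2 : j = 0 := by omega
    rw [Finsupp.degree_eq_zero_iff] at h1
    rw [h1, h2]
    exact h

theorem inW_lin (i : ι) :
    InW 1 (X - C (MvPolynomial.X i) : Polynomial (MvPolynomial ι k)) := by
  rw [inW_one]
  simp [ev0]

theorem ev0_lin (c : k) (i : ι) :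
    ev0 ι k (X + C (MvPolynomial.C c) - C (MvPolynomial.X i)) = c := by
  simp [ev0]

theorem ev0_const (c : k) : ev0 ι k (C (MvPolynomial.C c)) = c := by
  simp [ev0]

end filt

section main

variable {ι Pt Q k : Type} [Fintype ι] [DecidableEq ι] [Fintype Pt] [Field k]

/-- restriction of the exponents to a subset of the roots -/
def restr (H : Finset ι) (β : ι → Pt → ℕ) (i : ι) (p : Pt) : ℕ := if i ∈ H then β i p else 0

theorem sum_restr (H : Finset ι) (β : ι → Pt → ℕ) (p : Pt) :
    ∑ i, restr H β i p = ∑ i ∈ H, β i p := by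
  unfold restr
  rw [Finset.sum_ite_mem, Finset.univ_inter]

/-- the relation at a split point, expanded at the position of the roots of `H` -/
noncomputable def locPoly (a : Pt → k) (β : ι → Pt → ℕ) (H : Finset ι) (c : k) :
    Polynomial (MvPolynomial ι k) :=
  ∑ p, C (MvPolynomial.C (a p)) * ((∏ i ∈ H, (X - C (MvPolynomial.X i)) ^ β i p) *
    ∏ i ∈ Hᶜ, (X + C (MvPolynomial.C c) - C (MvPolynomial.X i)) ^ β i p)

/-- the relation of the roots of `H` -/
noncomputable def halfPoly (a : Pt → k) (β : ι → Pt → ℕ) (H : Finset ι) :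
    Polynomial (MvPolynomial ι k) :=
  ∑ p, C (MvPolynomial.C (a p)) * ∏ i ∈ H, (X - C (MvPolynomial.X i)) ^ β i p

theorem inW_half_prod (β : ι → Pt → ℕ) (H : Finset ι) (p : Pt) :
    InW (∑ i ∈ H, β i p) (∏ i ∈ H, (X - C (MvPolynomial.X i : MvPolynomial ι k)) ^ β i p) := by
  apply InW.prod
  intro i _
  have := (inW_lin (k := k) i).pow (β i p)
  rwa [mul_one] at this

theorem inW_half (a : Pt → k) (β : ι → Pt → ℕ) (H : Finset ι) (m : ℕ)
    (hH : ∀ p, a p ≠ 0 → ∑ i ∈ H, β i p = m) : InW m (halfPoly a β H) := by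
  unfold halfPoly
  apply InW.sum
  intro p _
  by_cases hp : a p = 0
  · rw [hp, map_zero, map_zero, zero_mul]
    exact InW.zero m
  · rw [← hH p hp]
    exact InW.const_mul _ (inW_half_prod β H p)

theorem inW_loc (a : Pt → k) (β : ι → Pt → ℕ) (H : Finset ι) (c : k) (m : ℕ)
    (hH : ∀ p, a p ≠ 0 → ∑ i ∈ H, β i p = m) (hHc : ∀ p, a p ≠ 0 → ∑ i ∈ Hᶜ, β i p = m) :
    InW (m + 1) (locPoly a β H c - C (MvPolynomial.C (c ^ m)) * halfPoly a β H) := by
  have h1 : locPoly a β H c - C (MvPolynomial.C (c ^ m)) * halfPoly a β H =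
      ∑ p, C (MvPolynomial.C (a p)) * ((∏ i ∈ H, (X - C (MvPolynomial.X i)) ^ β i p) *
        ((∏ i ∈ Hᶜ, (X + C (MvPolynomial.C c) - C (MvPolynomial.X i)) ^ β i p)
          - C (MvPolynomial.C (c ^ m)))) := by
    unfold locPoly halfPoly
    rw [Finset.mul_sum, ← Finset.sum_sub_distrib]
    apply Finset.sum_congr rfl
    intro p _
    ring
  rw [h1]
  apply InW.sum
  intro p _
  by_cases hp : a p = 0
  · rw [hp, map_zero, map_zero, zero_mul]
    exact InW.zero _
  · apply InW.const_mul
    have h2 : InW m (∏ i ∈ H, (X - C (MvPolynomial.X i : MvPolynomial ι k)) ^ β i p) := by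
      rw [← hH p hp]
      exact inW_half_prod β H p
    apply h2.mul
    rw [inW_one, map_sub, ev0_const, map_prod]
    have h3 : ∀ i ∈ Hᶜ, ev0 ι k ((X + C (MvPolynomial.C c) - C (MvPolynomial.X i)) ^ β i p)
        = c ^ β i p := by
      intro i _
      rw [map_pow, ev0_lin]
    rw [Finset.prod_congr rfl h3, Finset.prod_pow_eq_pow_sum, hHc p hp, sub_self]

theorem rootPoly_restr {F : Type*} [CommRing F] (β : ι → Pt → ℕ) (H : Finset ι) (t : ι → F)
    (p : Pt) : rootPoly (restr H β) t p = ∏ i ∈ H, (X - C (t i)) ^ β i p := by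
  have h1 : rootPoly (restr H β) t p = ∏ i, (X - C (t i)) ^ restr H β i p := rfl
  rw [h1, ← Finset.prod_subset (Finset.subset_univ H)]
  · apply Finset.prod_congr rfl
    intro i hi
    have h2 : restr H β i p = β i p := if_pos hi
    rw [h2]
  · intro i _ hi
    have h2 : restr H β i p = 0 := if_neg hi
    rw [h2, pow_zero]

theorem half_coeff (a : Q → Pt → k) (β : ι → Pt → ℕ) (H : Finset ι) (q : Q) (d : ℕ) :
    (halfPoly (a q) β H).coeff d = coefPoly a (restr H β) q d := by
  have h1 : halfPoly (a q) β H = ∑ p, C (MvPolynomial.C (a q p)) *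
      rootPoly (restr H β) (fun i => (MvPolynomial.X i : MvPolynomial ι k)) p := by
    have h2 : halfPoly (a q) β H = ∑ p, C (MvPolynomial.C (a q p)) *
      ∏ i ∈ H, (X - C (MvPolynomial.X i)) ^ β i p := rfl
    rw [h2]
    apply Finset.sum_congr rfl
    intro p _
    rw [rootPoly_restr]
  rw [h1]
  rfl

/-- low components vanish and the initial form -/
theorem loc_low (a : Q → Pt → k) (β : ι → Pt → ℕ) (H : Finset ι) (c : k) (q : Q) (m : ℕ)
    (hH : ∀ p, a q p ≠ 0 → ∑ i ∈ H, β i p = m) (hHc : ∀ p, a q p ≠ 0 → ∑ i ∈ Hᶜ, β i p = m)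
    (j e : ℕ) (he : e + j < m) :
    MvPolynomial.homogeneousComponent e ((locPoly (a q) β H c).coeff j) = 0 := by
  have h1 := inW_loc (a q) β H c m hH hHc
  have h2 := inW_half (a q) β H m hH
  have h3 : InW m (locPoly (a q) β H c) := by
    have h4 : locPoly (a q) β H c = (locPoly (a q) β H c
        - C (MvPolynomial.C (c ^ m)) * halfPoly (a q) β H)
        + C (MvPolynomial.C (c ^ m)) * halfPoly (a q) β H := by ring
    rw [h4]
    exact (h1.mono (Nat.le_succ m)).add (InW.const_mul _ h2)
  ext s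
  rw [MvPolynomial.coeff_homogeneousComponent, MvPolynomial.coeff_zero]
  split_ifs with hs
  · exact h3 j s (by omega)
  · rfl

theorem loc_init (a : Q → Pt → k) (β : ι → Pt → ℕ) (H : Finset ι) (c : k) (q : Q) (m : ℕ)
    (hH : ∀ p, a q p ≠ 0 → ∑ i ∈ H, β i p = m) (hHc : ∀ p, a q p ≠ 0 → ∑ i ∈ Hᶜ, β i p = m)
    (j : ℕ) (hj : j < m) :
    MvPolynomial.homogeneousComponent (m - j) ((locPoly (a q) β H c).coeff j)
      = MvPolynomial.C (c ^ m) * coefPoly a (restr H β) q j := by
  have h1 := inW_loc (a q) β H c m hH hHc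
  have h5 : (coefPoly a (restr H β) q j).IsHomogeneous (m - j) := by
    apply coefPoly_homogeneous a (restr H β) q m _ j hj.le
    intro p hp
    rw [sum_restr]
    exact hH p hp
  have h6 : (locPoly (a q) β H c).coeff j = (locPoly (a q) β H c
        - C (MvPolynomial.C (c ^ m)) * halfPoly (a q) β H).coeff j
        + MvPolynomial.C (c ^ m) * coefPoly a (restr H β) q j := by
    rw [coeff_sub, coeff_C_mul, half_coeff]
    ring
  rw [h6, map_add, MvPolynomial.homogeneousComponent_C_mul,
    MvPolynomial.homogeneousComponent_eq_self h5]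
  have h7 : MvPolynomial.homogeneousComponent (m - j) ((locPoly (a q) β H c
        - C (MvPolynomial.C (c ^ m)) * halfPoly (a q) β H).coeff j) = 0 := by
    ext s
    rw [MvPolynomial.coeff_homogeneousComponent, MvPolynomial.coeff_zero]
    split_ifs with hs
    · exact h1 j s (by omega)
    · rfl
  rw [h7, zero_add]

end main

end Pool.Agent.Work.Uni
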