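import Mathlib
import Pool.Agent.Work.MP_4329d7_ag_uni.SpecLoc

/-!
M7, part 2: Taylor coefficients at two points and coefficients generate the same algebra.
-/

namespace Pool.Agent.Work.Uni

open Polynomial

section hermite

variable {k : Type*} [Field k] [CharZero k]

/-- the Taylor functionals at `1` and `-1` -/
noncomputable def tay (m : ℕ) (s : Fin m ⊕ Fin m) (d : ℕ) : k :=
  match s with
  | Sum.inl j => ((X + C (1 : k)) ^ d).coeff j
  | Sum.inr j => ((X + C (-1 : k)) ^ d).coeff j

omit [CharZero k] in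
theorem sub_pow_dvd {m : ℕ} {P : k[X]} {r : k} (h : ∀ j < m, (P.comp (X + C r)).coeff j = 0) :
    (X - C r) ^ m ∣ P := by
  have h1 : X ^ m ∣ P.comp (X + C r) := by
    rw [X_pow_dvd_iff]
    exact h
  obtain ⟨R, hR⟩ := h1
  refine ⟨R.comp (X - C r), ?_⟩
  have h2 : P = (P.comp (X + C r)).comp (X - C r) := by
    rw [comp_assoc]
    simp
  rw [h2, hR]
  simp

theorem exists_left_inverse (m : ℕ) : ∃ g : Fin (2 * m) → (Fin m ⊕ Fin m) → k,
    ∀ d d' : Fin (2 * m), ∑ s, g d s * tay m s (d' : ℕ) = if d = d' then 1 else 0 := by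
  classical
  let f : (Fin (2 * m) → k) →ₗ[k] ((Fin m ⊕ Fin m) → k) :=
    { toFun := fun v s => ∑ d : Fin (2 * m), v d * tay m s (d : ℕ)
      map_add' := by
        intro u v
        funext s
        simp only [Pi.add_apply, add_mul, Finset.sum_add_distrib]
      map_smul' := by
        intro r v
        funext s
        simp only [Pi.smul_apply, smul_eq_mul, RingHom.id_apply, Finset.mul_sum, mul_assoc] }
  have hf : LinearMap.ker f = ⊥ := by
    rw [LinearMap.ker_eq_bot']
    intro v hv
    let P : k[X] := ∑ d : Fin (2 * m), C (v d) * X ^ (d : ℕ)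
    have hPr : ∀ r : k, ∀ j, (P.comp (X + C r)).coeff j
        = ∑ d : Fin (2 * m), v d * ((X + C r) ^ (d : ℕ)).coeff j := by
      intro r j
      have h1 : P.comp (X + C r) = ∑ d : Fin (2 * m), C (v d) * (X + C r) ^ (d : ℕ) := by
        show (∑ d : Fin (2 * m), C (v d) * X ^ (d : ℕ)).comp (X + C r) = _
        rw [← Polynomial.coe_compRingHom_apply, map_sum]
        apply Finset.sum_congr rfl
        intro d _
        rw [Polynomial.coe_compRingHom_apply]
        simp
      rw [h1, finsetSum_coeff]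
      apply Finset.sum_congr rfl
      intro d _
      rw [coeff_C_mul]
    have h1 : (X - C (1 : k)) ^ m ∣ P := by
      apply sub_pow_dvd
      intro j hj
      rw [hPr]
      exact congrFun hv (Sum.inl ⟨j, hj⟩)
    have h2 : (X - C (-1 : k)) ^ m ∣ P := by
      apply sub_pow_dvd
      intro j hj
      rw [hPr]
      exact congrFun hv (Sum.inr ⟨j, hj⟩)
    have hcop : IsCoprime ((X - C (1 : k)) ^ m) ((X - C (-1 : k)) ^ m) := by
      apply IsCoprime.pow
      apply isCoprime_X_sub_C_of_isUnit_sub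
      have h3 : (1 : k) - (-1) = 2 := by norm_num
      rw [h3]
      exact IsUnit.mk0 _ two_ne_zero
    have h3 := hcop.mul_dvd h1 h2
    have hP : P = 0 := by
      by_contra hne
      have h4 := Polynomial.natDegree_le_of_dvd h3 hne
      rw [natDegree_mul (pow_ne_zero _ (X_sub_C_ne_zero _)) (pow_ne_zero _ (X_sub_C_ne_zero _)),
        natDegree_pow, natDegree_pow, natDegree_X_sub_C, natDegree_X_sub_C] at h4
      rcases Nat.eq_zero_or_pos m with hm | hm
      · apply hne
        show ∑ d : Fin (2 * m), C (v d) * X ^ (d : ℕ) = 0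
        apply Finset.sum_eq_zero
        intro d _
        have := d.2
        omega
      · have h5 : P.natDegree ≤ 2 * m - 1 := by
          apply Polynomial.natDegree_sum_le_of_forall_le
          intro d _
          refine (natDegree_C_mul_X_pow_le _ _).trans ?_
          have := d.2
          omega
        omega
    funext d
    have h6 : P.coeff (d : ℕ) = v d := by
      show (∑ d : Fin (2 * m), C (v d) * X ^ (d : ℕ)).coeff (d : ℕ) = v d
      rw [finsetSum_coeff, Finset.sum_eq_single d]
      · rw [coeff_C_mul, coeff_X_pow, if_pos rfl, mul_one]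
      · intro e _ he
        rw [coeff_C_mul, coeff_X_pow, if_neg, mul_zero]
        intro h
        exact he (Fin.ext h.symm)
      · intro h
        exact absurd (Finset.mem_univ _) h
    rw [← h6, hP]
    rfl
  obtain ⟨g, hg⟩ := f.exists_leftInverse_of_injective hf
  refine ⟨fun d s => g (Pi.single s 1) d, ?_⟩
  intro d d'
  have h1 : g (f (Pi.single d' 1)) = Pi.single d' 1 := by
    have := congrArg (fun h : (Fin (2 * m) → k) →ₗ[k] (Fin (2 * m) → k) => h (Pi.single d' 1)) hg
    exact this
  have h2 : f (Pi.single d' 1)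
      = ∑ s, tay (k := k) m s (d' : ℕ) • (Pi.single s (1 : k) : (Fin m ⊕ Fin m) → k) := by
    funext s
    rw [Finset.sum_apply]
    have h3 : ∀ s', (tay (k := k) m s' (d' : ℕ) • (Pi.single s' (1 : k) : (Fin m ⊕ Fin m) → k)) s
        = if s' = s then tay (k := k) m s' (d' : ℕ) else 0 := by
      intro s'
      rw [Pi.smul_apply, smul_eq_mul, Pi.single_apply]
      by_cases h : s' = s
      · rw [if_pos h, if_pos h.symm, mul_one]
      · rw [if_neg h, if_neg (fun h' => h h'.symm), mul_zero]
    rw [Finset.sum_congr rfl fun s' _ => h3 s', Finset.sum_ite_eq' Finset.univ s,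
      if_pos (Finset.mem_univ _)]
    show ∑ e : Fin (2 * m), (Pi.single d' (1 : k) : Fin (2 * m) → k) e * tay m s (e : ℕ) = _
    rw [Finset.sum_eq_single d']
    · rw [Pi.single_eq_same, one_mul]
    · intro e _ he
      rw [Pi.single_eq_of_ne he, zero_mul]
    · intro h
      exact absurd (Finset.mem_univ _) h
  rw [h2, map_sum] at h1
  have h4 := congrFun h1 d
  rw [Finset.sum_apply] at h4
  have h5 : ∀ s, (g (tay (k := k) m s (d' : ℕ) • (Pi.single s (1 : k) : (Fin m ⊕ Fin m) → k))) d
      = g (Pi.single s 1) d * tay m s (d' : ℕ) := by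
    intro s
    rw [map_smul, Pi.smul_apply, smul_eq_mul, mul_comm]
  rw [Finset.sum_congr rfl fun s _ => h5 s, Pi.single_apply] at h4
  exact h4

end hermite

section TQ

variable {ι Pt Q k : Type} [Fintype ι] [Fintype Pt] [Field k]

/-- the relation `q` as a polynomial over the polynomial ring in the roots -/
noncomputable def TQ (a : Q → Pt → k) (β : ι → Pt → ℕ) (q : Q) :
    Polynomial (MvPolynomial ι k) :=
  ∑ p, C (MvPolynomial.C (a q p)) *
    rootPoly β (fun i => (MvPolynomial.X i : MvPolynomial ι k)) p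

theorem TQ_coeff (a : Q → Pt → k) (β : ι → Pt → ℕ) (q : Q) (d : ℕ) :
    (TQ a β q).coeff d = coefPoly a β q d := rfl

omit [Fintype Pt] in
theorem rootPoly_monic_deg {R : Type*} [CommRing R] [Nontrivial R] (β : ι → Pt → ℕ) (t : ι → R)
    (p : Pt) : (rootPoly β t p).Monic ∧ (rootPoly β t p).natDegree = ∑ i, β i p := by
  have h1 : ∀ i, ((X - C (t i)) ^ β i p).Monic := fun i => (monic_X_sub_C (t i)).pow _
  refine ⟨monic_prod_of_monic _ _ fun i _ => h1 i, ?_⟩
  show (∏ i, (X - C (t i)) ^ β i p).natDegree = _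
  rw [natDegree_prod_of_monic _ _ fun i _ => h1 i]
  apply Finset.sum_congr rfl
  intro i _
  rw [(monic_X_sub_C (t i)).natDegree_pow, natDegree_X_sub_C, mul_one]

theorem TQ_coeff_zero (a : Q → Pt → k) (hsum : ∀ q, ∑ p, a q p = 0) (β : ι → Pt → ℕ) (q : Q)
    (M : ℕ) (hM : ∀ p, a q p ≠ 0 → ∑ i, β i p = M) (d : ℕ) (hd : M ≤ d) :
    (TQ a β q).coeff d = 0 := by
  have h1 : (TQ a β q).coeff d = ∑ p, MvPolynomial.C (a q p) * (if d = M then 1 else 0) := by
    show (∑ p, C (MvPolynomial.C (a q p)) *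
      rootPoly β (fun i => (MvPolynomial.X i : MvPolynomial ι k)) p).coeff d = _
    rw [finsetSum_coeff]
    apply Finset.sum_congr rfl
    intro p _
    rw [coeff_C_mul]
    by_cases hp : a q p = 0
    · rw [hp, map_zero, zero_mul, zero_mul]
    · congr 1
      obtain ⟨hmon, hdeg⟩ := rootPoly_monic_deg β (fun i => (MvPolynomial.X i : MvPolynomial ι k)) p
      rw [hM p hp] at hdeg
      by_cases hdM : d = M
      · rw [if_pos hdM, hdM, ← hdeg]
        exact hmon
      · rw [if_neg hdM]
        apply coeff_eq_zero_of_natDegree_lt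
        omega
  rw [h1, ← Finset.sum_mul, ← map_sum, hsum q, map_zero, zero_mul]

theorem taylor_coeff (a : Q → Pt → k) (hsum : ∀ q, ∑ p, a q p = 0) (β : ι → Pt → ℕ) (q : Q)
    (M : ℕ) (hM : ∀ p, a q p ≠ 0 → ∑ i, β i p = M) (r : k) (j : ℕ) :
    ((TQ a β q).comp (X + C (MvPolynomial.C r))).coeff j
      = ∑ d : Fin M, MvPolynomial.C (((X + C r) ^ (d : ℕ)).coeff j) * coefPoly a β q d := by
  have h1 : TQ a β q = ∑ d : Fin M, C (coefPoly a β q d) * X ^ (d : ℕ) := by
    ext1 e
    rw [finsetSum_coeff]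
    by_cases he : e < M
    · rw [Finset.sum_eq_single (⟨e, he⟩ : Fin M)]
      · rw [coeff_C_mul, coeff_X_pow, if_pos rfl, mul_one, TQ_coeff]
      · intro d _ hd
        rw [coeff_C_mul, coeff_X_pow, if_neg, mul_zero]
        intro h
        exact hd (Fin.ext h.symm)
      · intro h
        exact absurd (Finset.mem_univ _) h
    · rw [TQ_coeff_zero a hsum β q M hM e (not_lt.mp he)]
      symm
      apply Finset.sum_eq_zero
      intro d _
      rw [coeff_C_mul, coeff_X_pow, if_neg, mul_zero]
      have := d.2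
      omega
  have h2 : (TQ a β q).comp (X + C (MvPolynomial.C r))
      = ∑ d : Fin M, C (coefPoly a β q d) * (((X + C r) ^ (d : ℕ)).map MvPolynomial.C) := by
    conv_lhs => rw [h1]
    rw [← Polynomial.coe_compRingHom_apply, map_sum]
    apply Finset.sum_congr rfl
    intro d _
    rw [Polynomial.coe_compRingHom_apply]
    simp
  rw [h2, finsetSum_coeff]
  apply Finset.sum_congr rfl
  intro d _
  rw [coeff_C_mul, coeff_map, mul_comm]

theorem coef_eq_sum [CharZero k] (a : Q → Pt → k) (hsum : ∀ q, ∑ p, a q p = 0) (β : ι → Pt → ℕ)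
    (q : Q) (m : ℕ) (hM : ∀ p, a q p ≠ 0 → ∑ i, β i p = 2 * m) (d : Fin (2 * m)) :
    ∃ u v : Fin m → k, coefPoly a β q d =
      ∑ j : Fin m, MvPolynomial.C (u j) *
        ((TQ a β q).comp (X + C (MvPolynomial.C 1))).coeff j +
      ∑ j : Fin m, MvPolynomial.C (v j) *
        ((TQ a β q).comp (X + C (MvPolynomial.C (-1)))).coeff j := by
  classical
  obtain ⟨g, hg⟩ := exists_left_inverse (k := k) m
  refine ⟨fun j => g d (Sum.inl j), fun j => g d (Sum.inr j), ?_⟩
  have h1 : ∀ j : Fin m, MvPolynomial.C (g d (Sum.inl j)) *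
        ((TQ a β q).comp (X + C (MvPolynomial.C 1))).coeff j
      = ∑ d' : Fin (2 * m), MvPolynomial.C (g d (Sum.inl j) * tay m (Sum.inl j) (d' : ℕ)) *
        coefPoly a β q d' := by
    intro j
    rw [taylor_coeff a hsum β q (2 * m) hM, Finset.mul_sum]
    apply Finset.sum_congr rfl
    intro d' _
    rw [map_mul, mul_assoc]
    rfl
  have h2 : ∀ j : Fin m, MvPolynomial.C (g d (Sum.inr j)) *
        ((TQ a β q).comp (X + C (MvPolynomial.C (-1)))).coeff j
      = ∑ d' : Fin (2 * m), MvPolynomial.C (g d (Sum.inr j) * tay m (Sum.inr j) (d' : ℕ)) *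
        coefPoly a β q d' := by
    intro j
    rw [taylor_coeff a hsum β q (2 * m) hM, Finset.mul_sum]
    apply Finset.sum_congr rfl
    intro d' _
    rw [map_mul, mul_assoc]
    rfl
  rw [Finset.sum_congr rfl fun j _ => h1 j, Finset.sum_congr rfl fun j _ => h2 j,
    Finset.sum_comm, Finset.sum_comm (s := (Finset.univ : Finset (Fin m))),
    ← Finset.sum_add_distrib]
  have h3 : ∀ d' : Fin (2 * m),
      (∑ j : Fin m, MvPolynomial.C (g d (Sum.inl j) * tay m (Sum.inl j) (d' : ℕ)) *
        coefPoly a β q d' +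
      ∑ j : Fin m, MvPolynomial.C (g d (Sum.inr j) * tay m (Sum.inr j) (d' : ℕ)) *
        coefPoly a β q d') = if d = d' then coefPoly a β q d' else 0 := by
    intro d'
    rw [← Finset.sum_mul, ← Finset.sum_mul, ← add_mul, ← map_sum, ← map_sum, ← map_add]
    have h4 := hg d d'
    rw [Fintype.sum_sum_type] at h4
    rw [h4]
    by_cases h : d = d'
    · rw [if_pos h, if_pos h, map_one, one_mul]
    · rw [if_neg h, if_neg h, map_zero, zero_mul]
  rw [Finset.sum_congr rfl fun d' _ => h3 d', Finset.sum_ite_eq Finset.univ d,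
    if_pos (Finset.mem_univ _)]

theorem shift_taylor [DecidableEq ι] (a : Q → Pt → k) (β : ι → Pt → ℕ) (q : Q) (H : Finset ι)
    (r : k) (x : ι → k) (hx : ∀ i ∈ H, x i = r) (hx' : ∀ i, i ∉ H → x i = -r) (j : ℕ) :
    shift x (((TQ a β q).comp (X + C (MvPolynomial.C r))).coeff j)
      = (locPoly (a q) β H (2 * r)).coeff j := by
  let σ : MvPolynomial ι k →+* MvPolynomial ι k :=
    (MvPolynomial.aeval fun i => MvPolynomial.X i + MvPolynomial.C (x i) :
      MvPolynomial ι k →ₐ[k] MvPolynomial ι k)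
  have h0 : ∀ P, shift x P = σ P := fun P => rfl
  have hC : ∀ c, σ (MvPolynomial.C c) = MvPolynomial.C c := fun c => MvPolynomial.aeval_C _ _
  have hX : ∀ i, σ (MvPolynomial.X i) = MvPolynomial.X i + MvPolynomial.C (x i) := fun i =>
    MvPolynomial.aeval_X _ _
  rw [h0, ← coeff_map]
  congr 1
  rw [Polynomial.map_comp, Polynomial.map_add, map_X, map_C, hC]
  have h1 : (TQ a β q).map σ = ∑ p, C (MvPolynomial.C (a q p)) *
      ∏ i, (X - C (MvPolynomial.X i + MvPolynomial.C (x i))) ^ β i p := by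
    show (∑ p, C (MvPolynomial.C (a q p)) *
      ∏ i, (X - C (MvPolynomial.X i)) ^ β i p).map σ = _
    rw [Polynomial.map_sum]
    apply Finset.sum_congr rfl
    intro p _
    rw [Polynomial.map_mul, map_C, hC, Polynomial.map_prod]
    congr 1
    apply Finset.prod_congr rfl
    intro i _
    rw [Polynomial.map_pow, Polynomial.map_sub, map_X, map_C, hX]
  rw [h1, ← Polynomial.coe_compRingHom_apply, map_sum]
  show _ = ∑ p, C (MvPolynomial.C (a q p)) * ((∏ i ∈ H, (X - C (MvPolynomial.X i)) ^ β i p) *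
    ∏ i ∈ Hᶜ, (X + C (MvPolynomial.C (2 * r)) - C (MvPolynomial.X i)) ^ β i p)
  apply Finset.sum_congr rfl
  intro p _
  rw [map_mul, Polynomial.coe_compRingHom_apply, C_comp]
  congr 1
  rw [map_prod, ← Finset.prod_mul_prod_compl H]
  congr 1
  · apply Finset.prod_congr rfl
    intro i hi
    rw [map_pow, Polynomial.coe_compRingHom_apply, sub_comp, X_comp, C_comp, hx i hi, map_add]
    congr 1
    ring
  · apply Finset.prod_congr rfl
    intro i hi
    rw [map_pow, Polynomial.coe_compRingHom_apply, sub_comp, X_comp, C_comp,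
      hx' i (Finset.mem_compl.mp hi)]
    congr 1
    simp only [map_add, map_neg, two_mul]
    ring

end TQ

end Pool.Agent.Work.Uni
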