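import Mathlib
import Pool.Agent.Work.MP_4329d7_ag_uni.Sys
import Pool.Agent.Work.MP_4329d7_ag_uni.Bezout
import Pool.Agent.Work.MP_4329d7_ag_uni.SpecAlg

/-!
M7: the Bezout count for twice a packing.
-/

open scoped Nat

namespace Pool.Agent.Work.Uni

open Polynomial

theorem prod_sub_eq_factorial (m : ℕ) : ∏ j ∈ Finset.range m, (m - j) = m ! := by
  induction m with
  | zero => simp
  | succ m ih =>
    rw [Finset.prod_range_succ', Nat.factorial_succ, ← ih]
    simp only [Nat.add_sub_add_right, Nat.sub_zero]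
    ring

theorem prod_fin_sub (m : ℕ) : ∏ j : Fin m, (m - (j : ℕ)) = m ! := by
  rw [Fin.prod_univ_eq_prod_range (fun j => m - j) m, prod_sub_eq_factorial]

theorem prod_fin_local (m : ℕ) :
    ∏ j : Fin (2 * m), (if (j : ℕ) < m then m - (j : ℕ) else 2 * m - (j : ℕ)) = (m !) ^ 2 := by
  rw [Fin.prod_univ_eq_prod_range (fun j => if j < m then m - j else 2 * m - j) (2 * m),
    two_mul, Finset.prod_range_add, sq]
  congr 1
  · rw [← prod_sub_eq_factorial]
    apply Finset.prod_congr rfl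
    intro j hj
    rw [if_pos (Finset.mem_range.mp hj)]
  · rw [← prod_sub_eq_factorial]
    apply Finset.prod_congr rfl
    intro j hj
    have := Finset.mem_range.mp hj
    rw [if_neg (by omega)]
    omega

section

variable {k ι Pt Q : Type} [Field k] [CharZero k] [Fintype ι] [DecidableEq ι] [Fintype Pt]

omit [CharZero k] [DecidableEq ι] in
/-- value of a sum over two halves -/
theorem sum_halves [DecidableEq ι] (G : Finset ι) (l : ℕ) (hG : G.card = l) (hGc : Gᶜ.card = l)
    (x : ι → k) (u v : k) (hu : ∀ i ∈ G, x i = u) (hv : ∀ i, i ∉ G → x i = v) :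
    ∑ i, x i = l * u + l * v := by
  rw [← Finset.sum_add_sum_compl G, Finset.sum_congr rfl hu,
    Finset.sum_congr rfl (fun i hi => hv i (Finset.mem_compl.mp hi)), Finset.sum_const,
    Finset.sum_const, hG, hGc, nsmul_eq_mul, nsmul_eq_mul]

omit [CharZero k] in
theorem isSol_restr (a : Q → Pt → k) (β : ι → Pt → ℕ) (G : Finset ι) (x : ι → k)
    (h : IsSol a (restr G β) x) : IsSol a (fun i : G => β i) (fun i : G => x i) := by
  intro q
  have h1 := h q
  rw [← h1]
  apply Finset.sum_congr rfl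
  intro p _
  congr 1
  rw [rootPoly_restr]
  show ∏ i : G, (X - C (x i)) ^ β i p = _
  exact Finset.prod_coe_sort G (fun i => (X - C (x i)) ^ β i p)

omit [DecidableEq ι] in
theorem sol_of_taylor (a : Q → Pt → k) (hsum : ∀ q, ∑ p, a q p = 0) (β : ι → Pt → ℕ) (mq : Q → ℕ)
    (hdeg2 : ∀ q p, a q p ≠ 0 → ∑ i, β i p = 2 * mq q) (x : ι → k)
    (h1 : ∀ q, ∀ j < mq q, MvPolynomial.eval x
      (((TQ a β q).comp (X + C (MvPolynomial.C 1))).coeff j) = 0)
    (h2 : ∀ q, ∀ j < mq q, MvPolynomial.eval x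
      (((TQ a β q).comp (X + C (MvPolynomial.C (-1)))).coeff j) = 0) :
    IsSol a β x := by
  rw [isSol_iff a hsum β (fun q => 2 * mq q) hdeg2]
  intro q d hd
  obtain ⟨u, v, huv⟩ := coef_eq_sum a hsum β q (mq q) (hdeg2 q) ⟨d, hd⟩
  rw [show coefPoly a β q d = coefPoly a β q ((⟨d, hd⟩ : Fin (2 * mq q)) : ℕ) from rfl, huv,
    map_add, map_sum, map_sum]
  rw [Finset.sum_eq_zero, Finset.sum_eq_zero, add_zero]
  · intro j _
    rw [map_mul, h2 q j j.2, mul_zero]
  · intro j _
    rw [map_mul, h1 q j j.2, mul_zero]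

/-- the point of a splitting -/
def splitPt (k : Type) [Field k] (G : Finset ι) (i : ι) : k := if i ∈ G then 1 else -1

omit [Fintype ι] [CharZero k] in
theorem splitPt_mem {G : Finset ι} {i : ι} (h : i ∈ G) : splitPt k G i = 1 := if_pos h

omit [Fintype ι] [CharZero k] in
theorem splitPt_not_mem {G : Finset ι} {i : ι} (h : i ∉ G) : splitPt k G i = -1 := if_neg h

/-- solutions with vanishing sum of the roots -/
theorem sol_cases (a : Q → Pt → k) (β : ι → Pt → ℕ) (l : ℕ) (hl : 0 < l)
    (Sp : Finset (Finset ι)) (hcard : Fintype.card ι = 2 * l)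
    (hSp : ∀ G ∈ Sp, G.card = l) (hcompl : ∀ G ∈ Sp, Gᶜ ∈ Sp)
    (H2 : ∀ t : ι → k, IsSol a β t →
      (∀ i j, t i = t j) ∨ ∃ G ∈ Sp, ∃ s1 s2 : k, s1 ≠ s2 ∧ (∀ i ∈ G, t i = s1) ∧
        ∀ i, i ∉ G → t i = s2) (x : ι → k) (hx : IsSol a β x) (hsx : ∑ i, x i = 0) :
    x = 0 ∨ ∃ G ∈ Sp, ∃ s : k, (∀ i ∈ G, x i = s) ∧ (∀ i, i ∉ G → x i = -s) := by
  have hl' : (l : k) ≠ 0 := by exact_mod_cast hl.ne'
  rcases H2 x hx with h | ⟨G, hG, s1, s2, _, h1, h2⟩
  · left
    funext i
    have h1 : ∑ j, x j = (2 * l : k) * x i := by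
      rw [Finset.sum_congr rfl fun j _ => h j i, Finset.sum_const, Finset.card_univ, hcard,
        nsmul_eq_mul]
      push_cast
      ring
    rw [hsx] at h1
    rcases mul_eq_zero.mp h1.symm with h2 | h2
    · exfalso
      rcases mul_eq_zero.mp h2 with h3 | h3
      · exact two_ne_zero h3
      · exact hl' h3
    · exact h2
  · right
    refine ⟨G, hG, s1, h1, ?_⟩
    have h3 := sum_halves G l (hSp G hG) (hSp _ (hcompl G hG)) x s1 s2 h1 h2
    rw [hsx] at h3
    have h4 : (l : k) * (s1 + s2) = 0 := by rw [mul_add]; exact h3.symm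
    have h5 : s1 + s2 = 0 := by
      rcases mul_eq_zero.mp h4 with h | h
      · exact absurd h hl'
      · exact h
    intro i hi
    rw [h2 i hi]
    exact (neg_eq_of_add_eq_zero_right h5).symm

omit [CharZero k] [DecidableEq ι] in
theorem hom_sumX : (∑ i, MvPolynomial.X i : MvPolynomial ι k).IsHomogeneous 1 := by
  apply MvPolynomial.IsHomogeneous.sum
  intro i _
  exact MvPolynomial.isHomogeneous_X k i

omit [CharZero k] [DecidableEq ι] in
theorem hom_sumX2 : (∑ i, MvPolynomial.X i ^ 2 : MvPolynomial ι k).IsHomogeneous 2 := by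
  apply MvPolynomial.IsHomogeneous.sum
  intro i _
  have := (MvPolynomial.isHomogeneous_X k i).pow 2
  simpa using this

omit [CharZero k] [DecidableEq ι] in
theorem hom_lin (c : ι → k) :
    (∑ i, MvPolynomial.C (c i) * MvPolynomial.X i : MvPolynomial ι k).IsHomogeneous 1 := by
  apply MvPolynomial.IsHomogeneous.sum
  intro i _
  have := (MvPolynomial.isHomogeneous_C ι (c i)).mul (MvPolynomial.isHomogeneous_X k i)
  simpa using this

omit [CharZero k] in
theorem shift_sumX (G : Finset ι) (l : ℕ) (hG : G.card = l) (hGc : Gᶜ.card = l) :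
    shift (splitPt k G) (∑ i, MvPolynomial.X i : MvPolynomial ι k) = ∑ i, MvPolynomial.X i := by
  unfold shift
  rw [map_sum]
  have h1 : ∑ i, splitPt k G i = 0 := by
    rw [sum_halves G l hG hGc (splitPt k G) 1 (-1) (fun i hi => splitPt_mem hi)
      (fun i hi => splitPt_not_mem hi)]
    ring
  have h2 : ∑ i, (MvPolynomial.aeval fun i => MvPolynomial.X i + MvPolynomial.C (splitPt k G i))
      (MvPolynomial.X i : MvPolynomial ι k) = ∑ i, MvPolynomial.X i
        + MvPolynomial.C (∑ i, splitPt k G i) := by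
    rw [map_sum, ← Finset.sum_add_distrib]
    apply Finset.sum_congr rfl
    intro i _
    rw [MvPolynomial.aeval_X]
  rw [h2, h1, map_zero, add_zero]

omit [CharZero k] in
theorem shift_sumX2 (G : Finset ι) (l : ℕ) (hG : G.card = l) (hGc : Gᶜ.card = l) :
    shift (splitPt k G) (∑ i : ι, (MvPolynomial.X i : MvPolynomial ι k) ^ 2
        - MvPolynomial.C (2 * l : k))
      = ∑ i : ι, (MvPolynomial.X i : MvPolynomial ι k) ^ 2
        + ∑ i, MvPolynomial.C (2 * splitPt k G i) * MvPolynomial.X i := by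
  unfold shift
  have h1 : ∑ i, splitPt k G i ^ 2 = 2 * l := by
    rw [sum_halves G l hG hGc (fun i => splitPt k G i ^ 2) 1 1
      (fun i hi => by simp only [splitPt_mem hi]; ring)
      (fun i hi => by simp only [splitPt_not_mem hi]; ring)]
    ring
  rw [map_sub, map_sum, MvPolynomial.aeval_C]
  have h2 : ∑ i, (MvPolynomial.aeval fun i => MvPolynomial.X i + MvPolynomial.C (splitPt k G i))
      ((MvPolynomial.X i : MvPolynomial ι k) ^ 2) = ∑ i, MvPolynomial.X i ^ 2
        + ∑ i, MvPolynomial.C (2 * splitPt k G i) * MvPolynomial.X i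
        + MvPolynomial.C (∑ i, splitPt k G i ^ 2) := by
    rw [map_sum, ← Finset.sum_add_distrib, ← Finset.sum_add_distrib]
    apply Finset.sum_congr rfl
    intro i _
    rw [map_pow, MvPolynomial.aeval_X, map_mul, map_pow]
    have : (MvPolynomial.C (2 : k) : MvPolynomial ι k) = 2 := map_ofNat MvPolynomial.C 2
    rw [this]
    ring
  rw [h2, h1, MvPolynomial.algebraMap_eq, add_sub_cancel_right]

end

end Pool.Agent.Work.Uni
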