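import Mathlib
import Pool.Agent.Work.MP_4329d7_ag_uni.Sys
import Pool.Agent.Work.MP_4329d7_ag_uni.Bezout
import Pool.Agent.Work.MP_4329d7_ag_uni.SpecX

/-!
M7: the Bezout count for twice a packing.
-/

open scoped Nat

namespace Pool.Agent.Work.Uni

open Polynomial

section fam

variable {k ι Pt Q : Type} [Field k] [CharZero k] [Fintype ι] [DecidableEq ι] [Fintype Pt]

/-- the family of the coefficients -/
noncomputable def famPhi (a : Q → Pt → k) (β : ι → Pt → ℕ) (mq : Q → ℕ) (l : ℕ) :
    ((Σ q, Fin (2 * mq q)) ⊕ Fin 2) → MvPolynomial ι k :=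
  Sum.elim (fun p => coefPoly a β p.1 p.2)
    ![∑ i : ι, MvPolynomial.X i,
      ∑ i : ι, (MvPolynomial.X i : MvPolynomial ι k) ^ 2 - MvPolynomial.C (2 * l : k)]

/-- the family of the Taylor coefficients -/
noncomputable def famPsi (a : Q → Pt → k) (β : ι → Pt → ℕ) (mq : Q → ℕ) (l : ℕ) :
    ((Σ q, Fin (2 * mq q)) ⊕ Fin 2) → MvPolynomial ι k :=
  Sum.elim (fun p => if (p.2 : ℕ) < mq p.1 then
      ((TQ a β p.1).comp (X + C (MvPolynomial.C 1))).coeff p.2
      else ((TQ a β p.1).comp (X + C (MvPolynomial.C (-1)))).coeff (p.2 - mq p.1))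
    ![∑ i : ι, MvPolynomial.X i,
      ∑ i : ι, (MvPolynomial.X i : MvPolynomial ι k) ^ 2 - MvPolynomial.C (2 * l : k)]

/-- degrees at infinity -/
def degInf (mq : Q → ℕ) : ((Σ q, Fin (2 * mq q)) ⊕ Fin 2) → ℕ :=
  Sum.elim (fun p => 2 * mq p.1 - p.2) ![1, 2]

/-- orders at the zeros -/
def degLoc (mq : Q → ℕ) : ((Σ q, Fin (2 * mq q)) ⊕ Fin 2) → ℕ :=
  Sum.elim (fun p => if (p.2 : ℕ) < mq p.1 then mq p.1 - p.2 else 2 * mq p.1 - p.2) ![1, 1]

theorem prod_degInf [Fintype Q] (mq : Q → ℕ) :
    ∏ s, degInf mq s = 2 * ∏ q, (2 * mq q)! := by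
  rw [Fintype.prod_sum_type, Fintype.prod_sigma]
  have h1 : ∀ q, ∏ j : Fin (2 * mq q), degInf mq (Sum.inl ⟨q, j⟩) = (2 * mq q)! := fun q =>
    prod_fin_sub (2 * mq q)
  rw [Finset.prod_congr rfl fun q _ => h1 q, Fin.prod_univ_two]
  show (∏ q, (2 * mq q)!) * (1 * 2) = _
  ring

theorem prod_degLoc [Fintype Q] (mq : Q → ℕ) :
    ∏ s, degLoc mq s = (∏ q, (mq q)!) ^ 2 := by
  rw [Fintype.prod_sum_type, Fintype.prod_sigma]
  have h1 : ∀ q, ∏ j : Fin (2 * mq q), degLoc mq (Sum.inl ⟨q, j⟩) = ((mq q)!) ^ 2 := fun q =>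
    prod_fin_local (mq q)
  rw [Finset.prod_congr rfl fun q _ => h1 q, Fin.prod_univ_two, Finset.prod_pow]
  show (∏ q, (mq q)!) ^ 2 * (1 * 1) = _
  ring

omit [DecidableEq ι] in
theorem adjoin_fam (a : Q → Pt → k) (hsum : ∀ q, ∑ p, a q p = 0) (β : ι → Pt → ℕ) (mq : Q → ℕ)
    (l : ℕ) (hdeg2 : ∀ q p, a q p ≠ 0 → ∑ i, β i p = 2 * mq q) :
    Algebra.adjoin k (Set.range (famPhi a β mq l)) =
      Algebra.adjoin k (Set.range (famPsi a β mq l)) := by
  apply le_antisymm
  · apply Algebra.adjoin_le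
    rintro _ ⟨s, rfl⟩
    rcases s with ⟨q, d⟩ | s
    · obtain ⟨u, v, huv⟩ := coef_eq_sum a hsum β q (mq q) (hdeg2 q) d
      have h0 : famPhi a β mq l (Sum.inl ⟨q, d⟩) = coefPoly a β q d := rfl
      rw [h0, huv]
      apply Subalgebra.add_mem
      · apply Subalgebra.sum_mem
        intro j _
        apply Subalgebra.mul_mem
        · exact Subalgebra.algebraMap_mem _ _
        · apply Algebra.subset_adjoin
          refine ⟨Sum.inl ⟨q, ⟨j, by have := j.2; omega⟩⟩, ?_⟩
          show (if (j : ℕ) < mq q then _ else _) = _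
          rw [if_pos j.2]
      · apply Subalgebra.sum_mem
        intro j _
        apply Subalgebra.mul_mem
        · exact Subalgebra.algebraMap_mem _ _
        · apply Algebra.subset_adjoin
          refine ⟨Sum.inl ⟨q, ⟨mq q + j, by have := j.2; omega⟩⟩, ?_⟩
          show (if mq q + (j : ℕ) < mq q then _ else
            ((TQ a β q).comp (X + C (MvPolynomial.C (-1)))).coeff (mq q + j - mq q)) = _
          rw [if_neg (by omega), Nat.add_sub_cancel_left]
    · apply Algebra.subset_adjoin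
      exact ⟨Sum.inr s, rfl⟩
  · apply Algebra.adjoin_le
    rintro _ ⟨s, rfl⟩
    have hmem : ∀ q, ∀ r : k, ∀ j : ℕ,
        ((TQ a β q).comp (X + C (MvPolynomial.C r))).coeff j ∈
          Algebra.adjoin k (Set.range (famPhi a β mq l)) := by
      intro q r j
      rw [taylor_coeff a hsum β q (2 * mq q) (hdeg2 q)]
      apply Subalgebra.sum_mem
      intro d _
      apply Subalgebra.mul_mem
      · exact Subalgebra.algebraMap_mem _ _
      · apply Algebra.subset_adjoin
        exact ⟨Sum.inl ⟨q, d⟩, rfl⟩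
    rcases s with ⟨q, d⟩ | s
    · show (if (d : ℕ) < mq q then _ else _) ∈ _
      by_cases hd : (d : ℕ) < mq q
      · rw [if_pos hd]
        exact hmem q 1 d
      · rw [if_neg hd]
        exact hmem q (-1) _
    · apply Algebra.subset_adjoin
      exact ⟨Sum.inr s, rfl⟩

omit [CharZero k] in
theorem fam_low (a : Q → Pt → k) (β : ι → Pt → ℕ) (mq : Q → ℕ) (l : ℕ) (G : Finset ι)
    (hG : G.card = l) (hGc : Gᶜ.card = l)
    (hdeg : ∀ q p, a q p ≠ 0 → ∑ i ∈ G, β i p = mq q)
    (hdegc : ∀ q p, a q p ≠ 0 → ∑ i ∈ Gᶜ, β i p = mq q)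
    (s : (Σ q, Fin (2 * mq q)) ⊕ Fin 2) (j : ℕ) (hj : j < degLoc mq s) :
    MvPolynomial.homogeneousComponent j (shift (splitPt k G) (famPsi a β mq l s)) = 0 := by
  rcases s with ⟨q, d⟩ | s
  · by_cases hd : (d : ℕ) < mq q
    · have h1 : famPsi a β mq l (Sum.inl ⟨q, d⟩)
          = ((TQ a β q).comp (X + C (MvPolynomial.C 1))).coeff d := if_pos hd
      have h2 : degLoc mq (Sum.inl ⟨q, d⟩) = mq q - d := if_pos hd
      rw [h2] at hj
      rw [h1, shift_taylor a β q G 1 (splitPt k G) (fun i hi => splitPt_mem hi)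
        (fun i hi => splitPt_not_mem hi)]
      exact loc_low a β G _ q (mq q) (hdeg q) (hdegc q) d j (by omega)
    · have h1 : famPsi a β mq l (Sum.inl ⟨q, d⟩)
          = ((TQ a β q).comp (X + C (MvPolynomial.C (-1)))).coeff (d - mq q) := if_neg hd
      have h2 : degLoc mq (Sum.inl ⟨q, d⟩) = 2 * mq q - d := if_neg hd
      rw [h2] at hj
      rw [h1, shift_taylor a β q Gᶜ (-1) (splitPt k G)
        (fun i hi => splitPt_not_mem (Finset.mem_compl.mp hi))
        (fun i hi => by rw [splitPt_mem (by simpa using hi), neg_neg])]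
      have := d.2
      exact loc_low a β Gᶜ _ q (mq q) (hdegc q) (by rw [compl_compl]; exact hdeg q)
        (d - mq q) j (by omega)
  · fin_cases s
    · have hj' : j = 0 := by
        have : j < 1 := hj
        omega
      show MvPolynomial.homogeneousComponent j (shift (splitPt k G)
        (∑ i : ι, MvPolynomial.X i : MvPolynomial ι k)) = 0
      rw [shift_sumX G l hG hGc, MvPolynomial.homogeneousComponent_of_mem hom_sumX, if_neg]
      omega
    · have hj' : j = 0 := by
        have : j < 1 := hj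
        omega
      show MvPolynomial.homogeneousComponent j (shift (splitPt k G)
        (∑ i : ι, (MvPolynomial.X i : MvPolynomial ι k) ^ 2
          - MvPolynomial.C (2 * l : k))) = 0
      rw [shift_sumX2 G l hG hGc, map_add, MvPolynomial.homogeneousComponent_of_mem hom_sumX2,
        MvPolynomial.homogeneousComponent_of_mem (hom_lin _), if_neg, if_neg, add_zero]
      · omega
      · omega

theorem fam_init (a : Q → Pt → k) (β : ι → Pt → ℕ) (mq : Q → ℕ) (l : ℕ) (G : Finset ι)
    (hdeg : ∀ q p, a q p ≠ 0 → ∑ i ∈ G, β i p = mq q)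
    (hdegc : ∀ q p, a q p ≠ 0 → ∑ i ∈ Gᶜ, β i p = mq q) (x : ι → k)
    (hx : ∀ s, MvPolynomial.eval x (MvPolynomial.homogeneousComponent (degLoc mq s)
        (shift (splitPt k G) (famPsi a β mq l s))) = 0) :
    (∀ q, ∀ d < mq q, MvPolynomial.eval x (coefPoly a (restr G β) q d) = 0) ∧
    (∀ q, ∀ d < mq q, MvPolynomial.eval x (coefPoly a (restr Gᶜ β) q d) = 0) := by
  constructor
  · intro q d hd
    have h0 := hx (Sum.inl ⟨q, ⟨d, by omega⟩⟩)
    have h1 : famPsi a β mq l (Sum.inl ⟨q, ⟨d, by omega⟩⟩)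
          = ((TQ a β q).comp (X + C (MvPolynomial.C 1))).coeff d := if_pos hd
    have h2 : degLoc mq (Sum.inl ⟨q, ⟨d, by omega⟩⟩) = mq q - d := if_pos hd
    rw [h1, h2, shift_taylor a β q G 1 (splitPt k G) (fun i hi => splitPt_mem hi)
        (fun i hi => splitPt_not_mem hi),
      loc_init a β G _ q (mq q) (hdeg q) (hdegc q) d hd, map_mul, MvPolynomial.eval_C] at h0
    rcases mul_eq_zero.mp h0 with h | h
    · exfalso
      have : (2 * (1 : k)) ≠ 0 := by rw [mul_one]; exact two_ne_zero
      exact pow_ne_zero _ this h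
    · exact h
  · intro q d hd
    have h0 := hx (Sum.inl ⟨q, ⟨mq q + d, by omega⟩⟩)
    have h1 : famPsi a β mq l (Sum.inl ⟨q, ⟨mq q + d, by omega⟩⟩)
          = ((TQ a β q).comp (X + C (MvPolynomial.C (-1)))).coeff (mq q + d - mq q) :=
      if_neg (by show ¬ (mq q + d < mq q); omega)
    have h2 : degLoc mq (Sum.inl ⟨q, ⟨mq q + d, by omega⟩⟩) = 2 * mq q - (mq q + d) :=
      if_neg (by show ¬ (mq q + d < mq q); omega)
    have h3 : 2 * mq q - (mq q + d) = mq q - d := by omega
    rw [h1, h2, Nat.add_sub_cancel_left, h3, shift_taylor a β q Gᶜ (-1) (splitPt k G)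
        (fun i hi => splitPt_not_mem (Finset.mem_compl.mp hi))
        (fun i hi => by rw [splitPt_mem (by simpa using hi), neg_neg]),
      loc_init a β Gᶜ _ q (mq q) (hdegc q) (by rw [compl_compl]; exact hdeg q) d hd, map_mul,
      MvPolynomial.eval_C] at h0
    rcases mul_eq_zero.mp h0 with h | h
    · exfalso
      have : (2 * (-1 : k)) ≠ 0 := mul_ne_zero two_ne_zero (neg_ne_zero.mpr one_ne_zero)
      exact pow_ne_zero _ this h
    · exact h

omit [CharZero k] in
theorem fam_init2 (a : Q → Pt → k) (β : ι → Pt → ℕ) (mq : Q → ℕ) (l : ℕ) (G : Finset ι)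
    (hG : G.card = l) (hGc : Gᶜ.card = l) (x : ι → k)
    (hx : ∀ s, MvPolynomial.eval x (MvPolynomial.homogeneousComponent (degLoc mq s)
        (shift (splitPt k G) (famPsi a β mq l s))) = 0) :
    ∑ i, x i = 0 ∧ ∑ i, 2 * splitPt k G i * x i = 0 := by
  constructor
  · have h1 : MvPolynomial.eval x (MvPolynomial.homogeneousComponent 1 (shift (splitPt k G)
        (∑ i : ι, MvPolynomial.X i : MvPolynomial ι k))) = 0 := hx (Sum.inr 0)
    rw [shift_sumX G l hG hGc, MvPolynomial.homogeneousComponent_eq_self hom_sumX, map_sum] at h1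
    simpa using h1
  · have h1 : MvPolynomial.eval x (MvPolynomial.homogeneousComponent 1 (shift (splitPt k G)
        (∑ i : ι, (MvPolynomial.X i : MvPolynomial ι k) ^ 2
          - MvPolynomial.C (2 * l : k)))) = 0 := hx (Sum.inr 1)
    rw [shift_sumX2 G l hG hGc, map_add, MvPolynomial.homogeneousComponent_of_mem hom_sumX2,
        MvPolynomial.homogeneousComponent_eq_self (hom_lin _), if_neg (by omega), zero_add,
        map_sum] at h1
    rw [← h1]
    apply Finset.sum_congr rfl
    intro i _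
    rw [map_mul, MvPolynomial.eval_C, MvPolynomial.eval_X]

end fam

theorem spec_bound {k ι Pt Q : Type} [Field k] [IsAlgClosed k] [CharZero k] [Fintype ι]
    [DecidableEq ι] [Fintype Pt] [Fintype Q] (a : Q → Pt → k) (hsum : ∀ q, ∑ p, a q p = 0)
    (β : ι → Pt → ℕ) (mq : Q → ℕ) (l : ℕ) (hl : ∑ q, mq q + 1 = l)
    (Sp : Finset (Finset ι)) (hcard : Fintype.card ι = 2 * l)
    (hSp : ∀ G ∈ Sp, G.card = l) (hcompl : ∀ G ∈ Sp, Gᶜ ∈ Sp)
    (hdeg2 : ∀ q p, a q p ≠ 0 → ∑ i, β i p = 2 * mq q)
    (hdeg : ∀ G ∈ Sp, ∀ q p, a q p ≠ 0 → ∑ i ∈ G, β i p = mq q)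
    (H1 : ∀ G ∈ Sp, ∀ t : G → k, IsSol a (fun i : G => β i) t → ∀ i j, t i = t j)
    (H2 : ∀ t : ι → k, IsSol a β t →
      (∀ i j, t i = t j) ∨ ∃ G ∈ Sp, ∃ s1 s2 : k, s1 ≠ s2 ∧ (∀ i ∈ G, t i = s1) ∧
        ∀ i, i ∉ G → t i = s2) :
    2 * ∏ q, (2 * mq q)! ≤ Sp.card * (∏ q, (mq q)!) ^ 2 := by
  classical
  have hl0 : 0 < l := by omega
  have hlk : (l : k) ≠ 0 := by exact_mod_cast hl0.ne'
  have hJ : Fintype.card ι = Fintype.card ((Σ q, Fin (2 * mq q)) ⊕ Fin 2) := by
    rw [Fintype.card_sum, Fintype.card_sigma, Fintype.card_fin, hcard, ← hl]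
    simp only [Fintype.card_fin]
    rw [← Finset.mul_sum]
    ring
  let e : ι ≃ ((Σ q, Fin (2 * mq q)) ⊕ Fin 2) := Fintype.equivOfCardEq hJ
  let Z : Finset (ι → k) := Sp.image (fun G => splitPt k G)
  have hcc : ∀ G ∈ Sp, Gᶜ.card = l := fun G hG => hSp _ (hcompl G hG)
  have hdegc : ∀ G ∈ Sp, ∀ q p, a q p ≠ 0 → ∑ i ∈ Gᶜ, β i p = mq q := fun G hG =>
    hdeg _ (hcompl G hG)
  have key := bezout_ineq (fun i => famPhi a β mq l (e i)) (fun i => famPsi a β mq l (e i))
    (fun i => degInf mq (e i)) (fun i => degLoc mq (e i)) ?_ ?_ ?_ ?_ ?_ Z ?_ ?_ ?_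
  · rw [Equiv.prod_comp e (degInf mq), Equiv.prod_comp e (degLoc mq), prod_degInf,
      prod_degLoc] at key
    exact key.trans (Nat.mul_le_mul_right _ Finset.card_image_le)
  · -- 1 ≤ d
    intro i
    show 1 ≤ degLoc mq (e i)
    rcases e i with ⟨q, d⟩ | s
    · show 1 ≤ (if (d : ℕ) < mq q then mq q - (d : ℕ) else 2 * mq q - (d : ℕ))
      have := d.2
      split_ifs with h
      · omega
      · omega
    · fin_cases s
      · exact le_refl 1
      · exact le_refl 1
  · -- 1 ≤ D
    intro i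
    show 1 ≤ degInf mq (e i)
    rcases e i with ⟨q, d⟩ | s
    · show 1 ≤ 2 * mq q - (d : ℕ)
      have := d.2
      omega
    · fin_cases s
      · exact le_refl 1
      · exact one_le_two
  · -- same algebra
    have h1 : Set.range (fun i => famPhi a β mq l (e i)) = Set.range (famPhi a β mq l) :=
      e.surjective.range_comp _
    have h2 : Set.range (fun i => famPsi a β mq l (e i)) = Set.range (famPsi a β mq l) :=
      e.surjective.range_comp _
    rw [h1, h2]
    exact adjoin_fam a hsum β mq l hdeg2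
  · -- total degrees
    intro i
    show (famPhi a β mq l (e i)).totalDegree ≤ degInf mq (e i)
    rcases e i with ⟨q, d⟩ | s
    · exact (coefPoly_homogeneous a β q (2 * mq q) (hdeg2 q) d d.2.le).totalDegree_le
    · fin_cases s
      · exact hom_sumX.totalDegree_le
      · show (∑ i : ι, (MvPolynomial.X i : MvPolynomial ι k) ^ 2
          - MvPolynomial.C (2 * l : k)).totalDegree ≤ 2
        refine (MvPolynomial.totalDegree_sub _ _).trans ?_
        rw [MvPolynomial.totalDegree_C]
        exact max_le hom_sumX2.totalDegree_le (Nat.zero_le _)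
  · -- zeros at infinity
    intro x hx
    have hx' : ∀ s, MvPolynomial.eval x (MvPolynomial.homogeneousComponent (degInf mq s)
        (famPhi a β mq l s)) = 0 := by
      intro s
      have := hx (e.symm s)
      simpa using this
    have hsol : IsSol a β x := by
      rw [isSol_iff a hsum β (fun q => 2 * mq q) hdeg2]
      intro q d hd
      have h1 := hx' (Sum.inl ⟨q, ⟨d, hd⟩⟩)
      have h2 : MvPolynomial.homogeneousComponent (2 * mq q - d) (coefPoly a β q d)
          = coefPoly a β q d :=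
        MvPolynomial.homogeneousComponent_eq_self
          (coefPoly_homogeneous a β q (2 * mq q) (hdeg2 q) d hd.le)
      rw [← h2]
      exact h1
    have hs1 : ∑ i, x i = 0 := by
      have h1 := hx' (Sum.inr 0)
      have h2 : MvPolynomial.homogeneousComponent 1 (∑ i : ι, MvPolynomial.X i : MvPolynomial ι k)
          = ∑ i : ι, MvPolynomial.X i := MvPolynomial.homogeneousComponent_eq_self hom_sumX
      have h3 : MvPolynomial.eval x (MvPolynomial.homogeneousComponent 1
        (∑ i : ι, MvPolynomial.X i : MvPolynomial ι k)) = 0 := h1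
      rw [h2, map_sum] at h3
      simpa using h3
    have hs2 : ∑ i, x i ^ 2 = 0 := by
      have h1 : MvPolynomial.eval x (MvPolynomial.homogeneousComponent 2
        (∑ i : ι, (MvPolynomial.X i : MvPolynomial ι k) ^ 2 - MvPolynomial.C (2 * l : k))) = 0 :=
        hx' (Sum.inr 1)
      rw [map_sub, MvPolynomial.homogeneousComponent_eq_self hom_sumX2] at h1
      have h2 : MvPolynomial.homogeneousComponent 2
          (MvPolynomial.C (2 * l : k) : MvPolynomial ι k) = 0 := by
        apply MvPolynomial.homogeneousComponent_eq_zero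
        rw [MvPolynomial.totalDegree_C]
        exact Nat.two_pos
      rw [h2, sub_zero, map_sum] at h1
      simpa using h1
    rcases sol_cases a β l hl0 Sp hcard hSp hcompl H2 x hsol hs1 with h | ⟨G, hG, s, h1, h2⟩
    · exact h
    · have h3 := sum_halves G l (hSp G hG) (hcc G hG) (fun i => x i ^ 2) (s ^ 2) (s ^ 2)
        (fun i hi => by simp only [h1 i hi]) (fun i hi => by simp only [h2 i hi]; ring)
      rw [hs2] at h3
      have h4 : (l : k) * (2 * s ^ 2) = 0 := by rw [h3]; ring
      have h5 : s = 0 := by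
        rcases mul_eq_zero.mp h4 with h | h
        · exact absurd h hlk
        · rcases mul_eq_zero.mp h with h' | h'
          · exact absurd h' two_ne_zero
          · exact pow_eq_zero_iff (two_ne_zero) |>.mp h'
      funext i
      by_cases hi : i ∈ G
      · rw [h1 i hi, h5]; rfl
      · rw [h2 i hi, h5, neg_zero]; rfl
  · -- zeros of Psi
    intro x hx
    have hx' : ∀ s, MvPolynomial.eval x (famPsi a β mq l s) = 0 := by
      intro s
      have := hx (e.symm s)
      simpa using this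
    have hsol : IsSol a β x := by
      apply sol_of_taylor a hsum β mq hdeg2
      · intro q j hj
        have h1 := hx' (Sum.inl ⟨q, ⟨j, by omega⟩⟩)
        have h2 : famPsi a β mq l (Sum.inl ⟨q, ⟨j, by omega⟩⟩)
            = ((TQ a β q).comp (X + C (MvPolynomial.C 1))).coeff j := if_pos hj
        rwa [h2] at h1
      · intro q j hj
        have h1 := hx' (Sum.inl ⟨q, ⟨mq q + j, by omega⟩⟩)
        have h2 : famPsi a β mq l (Sum.inl ⟨q, ⟨mq q + j, by omega⟩⟩)
            = ((TQ a β q).comp (X + C (MvPolynomial.C (-1)))).coeff (mq q + j - mq q) :=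
          if_neg (by show ¬ (mq q + j < mq q); omega)
        rw [h2, Nat.add_sub_cancel_left] at h1
        exact h1
    have hs1 : ∑ i, x i = 0 := by
      have h1 : MvPolynomial.eval x (∑ i : ι, MvPolynomial.X i : MvPolynomial ι k) = 0 :=
        hx' (Sum.inr 0)
      rw [map_sum] at h1
      simpa using h1
    have hs2 : ∑ i, x i ^ 2 = 2 * l := by
      have h1 : MvPolynomial.eval x (∑ i : ι, (MvPolynomial.X i : MvPolynomial ι k) ^ 2
          - MvPolynomial.C (2 * l : k)) = 0 := hx' (Sum.inr 1)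
      rw [map_sub, map_sum, MvPolynomial.eval_C, sub_eq_zero] at h1
      rw [← h1]
      apply Finset.sum_congr rfl
      intro i _
      rw [map_pow, MvPolynomial.eval_X]
    rcases sol_cases a β l hl0 Sp hcard hSp hcompl H2 x hsol hs1 with h | ⟨G, hG, s, h1, h2⟩
    · exfalso
      rw [h] at hs2
      have h3 : ∑ i : ι, (0 : ι → k) i ^ 2 = 0 := by
        apply Finset.sum_eq_zero
        intro i _
        simp
      rw [h3] at hs2
      rcases mul_eq_zero.mp hs2.symm with h4 | h4
      · exact two_ne_zero h4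
      · exact hlk h4
    · have h3 := sum_halves G l (hSp G hG) (hcc G hG) (fun i => x i ^ 2) (s ^ 2) (s ^ 2)
        (fun i hi => by simp only [h1 i hi]) (fun i hi => by simp only [h2 i hi]; ring)
      rw [hs2] at h3
      have h4 : (2 * l : k) * (s ^ 2 - 1) = 0 := by
        have : (2 * l : k) * (s ^ 2 - 1) = (l * s ^ 2 + l * s ^ 2) - 2 * l := by ring
        rw [this, ← h3, sub_self]
      have h5 : s ^ 2 = 1 := by
        rcases mul_eq_zero.mp h4 with h | h
        · exfalso
          rcases mul_eq_zero.mp h with h' | h'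
          · exact two_ne_zero h'
          · exact hlk h'
        · exact sub_eq_zero.mp h
      rcases sq_eq_sq_iff_eq_or_eq_neg.mp (show s ^ 2 = 1 ^ 2 by rw [h5, one_pow]) with h6 | h6
      · exact Finset.mem_image.mpr ⟨G, hG, by
          funext i
          by_cases hi : i ∈ G
          · rw [splitPt_mem hi, h1 i hi, h6]
          · rw [splitPt_not_mem hi, h2 i hi, h6]⟩
      · exact Finset.mem_image.mpr ⟨Gᶜ, hcompl G hG, by
          funext i
          by_cases hi : i ∈ G
          · rw [splitPt_not_mem (by simpa using hi), h1 i hi, h6]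
          · rw [splitPt_mem (Finset.mem_compl.mpr hi), h2 i hi, h6, neg_neg]⟩
  · -- low components
    intro p hp i j hj
    obtain ⟨G, hG, rfl⟩ := Finset.mem_image.mp hp
    exact fam_low a β mq l G (hSp G hG) (hcc G hG) (hdeg G hG) (hdegc G hG) (e i) j hj
  · -- local zeros
    intro p hp x hx
    obtain ⟨G, hG, rfl⟩ := Finset.mem_image.mp hp
    have hx' : ∀ s, MvPolynomial.eval x (MvPolynomial.homogeneousComponent (degLoc mq s)
        (shift (splitPt k G) (famPsi a β mq l s))) = 0 := by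
      intro s
      have := hx (e.symm s)
      simpa using this
    have hc1 := fam_init a β mq l G (hdeg G hG) (hdegc G hG) x hx'
    obtain ⟨hs1, hs2⟩ := fam_init2 a β mq l G (hSp G hG) (hcc G hG) x hx'
    have hG1 : IsSol a (restr G β) x := by
      rw [isSol_iff a hsum (restr G β) mq (fun q p hp => by
        rw [sum_restr]; exact hdeg G hG q p hp)]
      exact hc1.1
    have hG2 : IsSol a (restr Gᶜ β) x := by
      rw [isSol_iff a hsum (restr Gᶜ β) mq (fun q p hp => by
        rw [sum_restr]; exact hdegc G hG q p hp)]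
      exact hc1.2
    have k1 := H1 G hG _ (isSol_restr a β G x hG1)
    have k2 := H1 Gᶜ (hcompl G hG) _ (isSol_restr a β Gᶜ x hG2)
    have hne1 : G.Nonempty := Finset.card_pos.mp (by rw [hSp G hG]; exact hl0)
    have hne2 : Gᶜ.Nonempty := Finset.card_pos.mp (by rw [hcc G hG]; exact hl0)
    obtain ⟨i1, hi1⟩ := hne1
    obtain ⟨i2, hi2⟩ := hne2
    have m1 : ∀ i ∈ G, x i = x i1 := fun i hi => k1 ⟨i, hi⟩ ⟨i1, hi1⟩
    have m2 : ∀ i, i ∉ G → x i = x i2 := fun i hi =>
      k2 ⟨i, Finset.mem_compl.mpr hi⟩ ⟨i2, hi2⟩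
    have n1 := sum_halves G l (hSp G hG) (hcc G hG) x (x i1) (x i2) m1 m2
    have n2 := sum_halves G l (hSp G hG) (hcc G hG) (fun i => 2 * splitPt k G i * x i)
      (2 * x i1) (-2 * x i2)
      (fun i hi => by simp only [splitPt_mem hi, m1 i hi]; ring)
      (fun i hi => by simp only [splitPt_not_mem hi, m2 i hi]; ring)
    rw [hs1] at n1
    rw [hs2] at n2
    have n3 : (l : k) * (4 * x i1) = 0 := by
      have : (l : k) * (4 * x i1) = 2 * (l * x i1 + l * x i2)
        + (l * (2 * x i1) + l * (-2 * x i2)) := by ring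
      rw [this, ← n1, ← n2]
      ring
    have n4 : x i1 = 0 := by
      rcases mul_eq_zero.mp n3 with h | h
      · exact absurd h hlk
      · rcases mul_eq_zero.mp h with h' | h'
        · exact absurd h' (by norm_num)
        · exact h'
    have n5 : x i2 = 0 := by
      rw [n4, mul_zero, zero_add] at n1
      rcases mul_eq_zero.mp n1.symm with h | h
      · exact absurd h hlk
      · exact h
    funext i
    by_cases hi : i ∈ G
    · rw [m1 i hi, n4]; rfl
    · rw [m2 i hi, n5]; rfl

end Pool.Agent.Work.Uni
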