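import Mathlib
import Pool.Agent.Work.MP_4329d7_ag_uni.Spec
import Pool.Agent.Work.MP_4329d7_ag_uni.Num

/-!
The conclusion of the Bezout count: `Crit`.
-/

open scoped Nat

namespace Pool.Agent.Work.Uni

section

variable {k Pt Q I Ty ι : Type}

/-- a sum over the roots is a sum over the types -/
theorem sum_types [Fintype Ty] [DecidableEq Ty] (S : Finset ι) (τ : ι → Ty) (b : Ty → Pt → ℕ) (p : Pt) :
    ∑ i ∈ S, b (τ i) p = ∑ y, (S.filter fun i => τ i = y).card * b y p := by
  classical
  rw [← Finset.sum_fiberwise (s := S) (g := τ) (f := fun i => b (τ i) p)]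
  refine Finset.sum_congr rfl fun y _ => ?_
  rw [Finset.sum_congr rfl (g := fun _ => b y p), Finset.sum_const, smul_eq_mul]
  intro i hi
  rw [(Finset.mem_filter.1 hi).2]

variable [Field k] [DecidableEq k] [Fintype Pt] [Fintype Ty] [DecidableEq Ty] [Fintype ι]

/-- the groups of equal roots are multiples of the extreme packing -/
theorem groups (B : BlockData Pt) (f : Pt → I) (a : Q → Pt → k) (hstar : Star B f a)
    (b : Ty → Pt → ℕ) (lam : Ty → ℕ) (m : I → ℕ) (hb : ∀ y, B.IsBlock (b y))
    (hext : IsExt f b lam m) (τ : ι → Ty) (m' : I → ℕ) (hm' : ∀ p, ∑ i, b (τ i) p = m' (f p))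
    (t : ι → k) (ht : IsSol a (fun i => b (τ i)) t) (s : k) :
    ∃ j : ℕ, ∀ y, (Finset.univ.filter fun i => t i = s ∧ τ i = y).card = j * lam y := by
  classical
  have h1 := hstar ι (fun i => b (τ i)) m' (fun i => hb _) hm' t ht
  have h2 := fun p p' hp => group_pack f (fun i => b (τ i)) t h1 s p p' hp
  let m'' : I → ℕ := fun x => if h : ∃ p, f p = x then ∑ i with t i = s, b (τ i) h.choose else 0
  have h3 : ∀ p, ∑ i with t i = s, b (τ i) p = m'' (f p) := by
    intro p
    have h : ∃ p', f p' = f p := ⟨p, rfl⟩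
    simp only [m'', dif_pos h]
    exact h2 _ _ h.choose_spec.symm
  refine hext.uniq (fun y => (Finset.univ.filter fun i => t i = s ∧ τ i = y).card) m'' fun p => ?_
  rw [← h3, sum_types]
  refine Finset.sum_congr rfl fun y _ => ?_
  rw [Finset.filter_filter]

/-- if there are `lam y` roots of type `y` then all roots are equal -/
theorem const_of_lam (B : BlockData Pt) (f : Pt → I) (a : Q → Pt → k) (hstar : Star B f a)
    (b : Ty → Pt → ℕ) (lam : Ty → ℕ) (m : I → ℕ) (hb : ∀ y, B.IsBlock (b y))
    (hext : IsExt f b lam m) (τ : ι → Ty)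
    (hτ : ∀ y, (Finset.univ.filter fun i => τ i = y).card = lam y)
    (t : ι → k) (ht : IsSol a (fun i => b (τ i)) t) (i i' : ι) : t i = t i' := by
  classical
  have hm : ∀ p, ∑ i, b (τ i) p = m (f p) := by
    intro p
    rw [sum_types, ← hext.pack p]
    exact Finset.sum_congr rfl fun y _ => by rw [hτ]
  obtain ⟨j, hj⟩ := groups B f a hstar b lam m hb hext τ m hm t ht (t i')
  have hj1 : 1 ≤ j := by
    by_contra hcon
    have h0 : j = 0 := by omega
    have := hj (τ i')
    rw [h0, zero_mul, Finset.card_eq_zero] at this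
    have h5 : i' ∈ (Finset.univ.filter fun i => t i = t i' ∧ τ i = τ i') := by simp
    rw [this] at h5
    exact Finset.notMem_empty _ h5
  have h6 : (Finset.univ.filter fun l => t l = t i' ∧ τ l = τ i) =
      (Finset.univ.filter fun l => τ l = τ i) := by
    apply Finset.eq_of_subset_of_card_le
    · intro l hl
      rw [Finset.mem_filter] at hl ⊢
      exact ⟨hl.1, hl.2.2⟩
    · rw [hτ, hj]
      exact Nat.le_mul_of_pos_left _ hj1
  have h7 : i ∈ (Finset.univ.filter fun l => τ l = τ i) := by simp
  rw [← h6, Finset.mem_filter] at h7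
  exact h7.2.1


/-- a nonconstant solution with `2 * lam y` roots of type `y` is split -/
theorem split_of_two (B : BlockData Pt) (f : Pt → I) (a : Q → Pt → k) (hstar : Star B f a)
    (b : Ty → Pt → ℕ) (lam : Ty → ℕ) (m : I → ℕ) (hb : ∀ y, B.IsBlock (b y))
    (hext : IsExt f b lam m) (τ : ι → Ty)
    (hτ : ∀ y, (Finset.univ.filter fun i => τ i = y).card = 2 * lam y)
    (t : ι → k) (ht : IsSol a (fun i => b (τ i)) t) (i0 i1 : ι) (hne : t i0 ≠ t i1) :
    (∀ y, (Finset.univ.filter fun i => t i = t i0 ∧ τ i = y).card = lam y) ∧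
      ∀ i, t i ≠ t i0 → t i = t i1 := by
  classical
  have hm : ∀ p, ∑ i, b (τ i) p = 2 * m (f p) := by
    intro p
    rw [sum_types, ← hext.pack p, Finset.mul_sum]
    exact Finset.sum_congr rfl fun y _ => by rw [hτ]; ring
  have hgr := groups B f a hstar b lam m hb hext τ (fun x => 2 * m x) hm t ht
  obtain ⟨j0, hj0⟩ := hgr (t i0)
  obtain ⟨j1, hj1⟩ := hgr (t i1)
  have hpos : ∀ (i : ι) (j : ℕ),
      (∀ y, (Finset.univ.filter fun l => t l = t i ∧ τ l = y).card = j * lam y) → 1 ≤ j := by
    intro i j hj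
    by_contra hcon
    have h0 : j = 0 := by omega
    have := hj (τ i)
    rw [h0, zero_mul, Finset.card_eq_zero] at this
    have h5 : i ∈ (Finset.univ.filter fun l => t l = t i ∧ τ l = τ i) := by simp
    rw [this] at h5
    exact Finset.notMem_empty _ h5
  have hp0 := hpos i0 j0 hj0
  have hp1 := hpos i1 j1 hj1
  have hdisj : ∀ y, (Finset.univ.filter fun l => t l = t i0 ∧ τ l = y).card +
      (Finset.univ.filter fun l => t l = t i1 ∧ τ l = y).card +
      (Finset.univ.filter fun l => (t l ≠ t i0 ∧ t l ≠ t i1) ∧ τ l = y).card = 2 * lam y := by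
    intro y
    rw [← hτ y, ← Finset.card_union_of_disjoint, ← Finset.card_union_of_disjoint]
    · congr 1
      ext l
      simp only [Finset.mem_union, Finset.mem_filter, Finset.mem_univ, true_and]
      tauto
    · rw [Finset.disjoint_left]
      intro l hl hl'
      simp only [Finset.mem_union, Finset.mem_filter, Finset.mem_univ, true_and] at hl hl'
      rcases hl with h | h
      · exact hl'.1.1 h.1
      · exact hl'.1.2 h.1
    · rw [Finset.disjoint_left]
      intro l hl hl'
      simp only [Finset.mem_filter, Finset.mem_univ, true_and] at hl hl'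
      exact hne (hl.1.symm.trans hl'.1)
  have hle0 : ∀ y, lam y ≤ j0 * lam y := fun y => Nat.le_mul_of_pos_left _ hp0
  have hle1 : ∀ y, lam y ≤ j1 * lam y := fun y => Nat.le_mul_of_pos_left _ hp1
  have hy : ∀ y, j0 * lam y = lam y ∧
      (Finset.univ.filter fun l => (t l ≠ t i0 ∧ t l ≠ t i1) ∧ τ l = y).card = 0 := by
    intro y
    have h1 := hdisj y
    rw [hj0, hj1] at h1
    have h2 := hle0 y
    have h3 := hle1 y
    constructor <;> omega
  constructor
  · intro y
    rw [hj0]
    exact (hy y).1
  · intro i hi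
    by_contra hcon
    have h1 := (hy (τ i)).2
    rw [Finset.card_eq_zero] at h1
    have h2 : i ∈ (Finset.univ.filter fun l => (t l ≠ t i0 ∧ t l ≠ t i1) ∧ τ l = τ i) := by
      rw [Finset.mem_filter]
      exact ⟨Finset.mem_univ _, ⟨hi, hcon⟩, rfl⟩
    rw [h1] at h2
    exact Finset.notMem_empty _ h2

omit [DecidableEq k] [Fintype Ty] [Field k] [Fintype Pt] [Fintype ι] in
theorem card_by_types [Fintype Ty] (G : Finset ι) (τ : ι → Ty) :
    G.card = ∑ y, (G.filter fun i => τ i = y).card := by
  classical
  exact Finset.card_eq_sum_card_fiberwise (f := τ) (t := Finset.univ)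
    (fun _ _ => Finset.mem_coe.2 (Finset.mem_univ _))

omit [DecidableEq k] [Fintype Ty] [Field k] [Fintype Pt] in
theorem compl_types [DecidableEq ι] (G : Finset ι) (τ : ι → Ty) (y : Ty) :
    (G.filter fun i => τ i = y).card + (Gᶜ.filter fun i => τ i = y).card =
      (Finset.univ.filter fun i => τ i = y).card := by
  rw [← Finset.card_union_of_disjoint]
  · congr 1
    ext i
    simp only [Finset.mem_union, Finset.mem_filter, Finset.mem_compl, Finset.mem_univ,
      true_and]
    tauto
  · rw [Finset.disjoint_left]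
    intro i hi hi'
    rw [Finset.mem_filter] at hi hi'
    exact (Finset.mem_compl.1 hi'.1) hi.1

/-- the Bezout count -/
theorem bound_of_star [IsAlgClosed k] [CharZero k] [Fintype Q] [DecidableEq ι]
    (B : BlockData Pt) (f : Pt → I) (g : Q → I) (a : Q → Pt → k) (ha : Coef f g a)
    (hstar : Star B f a)
    (b : Ty → Pt → ℕ) (lam : Ty → ℕ) (m : I → ℕ) (hb : ∀ y, B.IsBlock (b y))
    (hext : IsExt f b lam m) (hsum : ∑ t, lam t = ∑ q, m (g q) + 1) (τ : ι → Ty)
    (hτ : ∀ y, (Finset.univ.filter fun i => τ i = y).card = 2 * lam y) :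
    2 * ∏ q, (2 * m (g q))! ≤
      (Finset.univ.filter fun G : Finset ι => ∀ y, (G.filter fun i => τ i = y).card = lam y).card *
        (∏ q, (m (g q))!) ^ 2 := by
  classical
  have hmem : ∀ G : Finset ι, G ∈ (Finset.univ.filter fun G : Finset ι =>
      ∀ y, (G.filter fun i => τ i = y).card = lam y) ↔
      ∀ y, (G.filter fun i => τ i = y).card = lam y := fun G => by
    rw [Finset.mem_filter]
    exact ⟨fun h => h.2, fun h => ⟨Finset.mem_univ _, h⟩⟩
  have hdeg : ∀ q p, a q p ≠ 0 → ∑ y, lam y * b y p = m (g q) := by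
    intro q p h
    rw [← ha.fac q p h]
    exact hext.pack p
  refine spec_bound a ha.sum (fun i => b (τ i)) (fun q => m (g q)) (∑ y, lam y) hsum.symm _
    ?_ ?_ ?_ ?_ ?_ ?_ ?_
  · rw [← Finset.card_univ, card_by_types Finset.univ τ, Finset.mul_sum]
    exact Finset.sum_congr rfl fun y _ => hτ y
  · intro G hG
    rw [hmem] at hG
    rw [card_by_types G τ]
    exact Finset.sum_congr rfl fun y _ => hG y
  · intro G hG
    rw [hmem] at hG ⊢
    intro y
    have h1 := hG y
    have h2 := hτ y
    have h3 := compl_types G τ y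
    omega
  · intro q p h
    rw [sum_types, ← hdeg q p h, Finset.mul_sum]
    exact Finset.sum_congr rfl fun y _ => by rw [hτ]; ring
  · intro G hG q p h
    rw [hmem] at hG
    rw [sum_types, ← hdeg q p h]
    exact Finset.sum_congr rfl fun y _ => by rw [hG y]
  · intro G hG t ht i j
    rw [hmem] at hG
    refine const_of_lam B f a hstar b lam m hb hext (fun i : G => τ i.1) ?_ t ht i j
    intro y
    rw [← hG y]
    refine Finset.card_bij (fun i _ => i.1) ?_ ?_ ?_
    · intro i hi
      rw [Finset.mem_filter] at hi ⊢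
      exact ⟨i.2, hi.2⟩
    · intro i _ j _ h
      exact Subtype.ext h
    · intro i hi
      rw [Finset.mem_filter] at hi
      refine ⟨⟨i, hi.1⟩, ?_, rfl⟩
      rw [Finset.mem_filter]
      exact ⟨Finset.mem_univ _, hi.2⟩
  · intro t ht
    by_cases hc : ∀ i j, t i = t j
    · exact Or.inl hc
    right
    push Not at hc
    obtain ⟨i0, i1, hne⟩ := hc
    obtain ⟨h1, h2⟩ := split_of_two B f a hstar b lam m hb hext τ hτ t ht i0 i1 hne
    refine ⟨Finset.univ.filter fun l => t l = t i0, ?_, t i0, t i1, hne, ?_, ?_⟩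
    · rw [hmem]
      intro y
      rw [Finset.filter_filter]
      exact h1 y
    · intro i hi
      exact (Finset.mem_filter.1 hi).2
    · intro i hi
      refine h2 i fun h => hi ?_
      rw [Finset.mem_filter]
      exact ⟨Finset.mem_univ _, h⟩

end

theorem count_fst {Ty : Type} [Fintype Ty] [DecidableEq Ty] (nu : Ty → ℕ) (y : Ty) :
    (Finset.univ.filter fun i : (Σ y, Fin (nu y)) => i.1 = y).card = nu y := by
  have h1 : (Finset.univ.filter fun i : (Σ y, Fin (nu y)) => i.1 = y) =
      (Finset.univ : Finset (Fin (nu y))).map (Function.Embedding.sigmaMk y) := by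
    ext ⟨z, l⟩
    simp only [Finset.mem_filter, Finset.mem_univ, true_and, Finset.mem_map,
      Function.Embedding.sigmaMk_apply]
    constructor
    · rintro rfl
      exact ⟨l, rfl⟩
    · rintro ⟨l', hl'⟩
      exact (congrArg Sigma.fst hl').symm
  rw [h1, Finset.card_map, Finset.card_univ, Fintype.card_fin]

theorem crit_of_star {k Pt Q I : Type} [Field k] [IsAlgClosed k] [CharZero k] [Fintype Pt]
    [DecidableEq Pt] [Fintype Q] [Fintype I] (B : BlockData Pt) (f : Pt → I) (g : Q → I)
    (a : Q → Pt → k) (ha : Coef f g a) (hstar : Star B f a) : Crit B f g := by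
  classical
  intro Ty _ b lam m hb hext
  have hdeg : ∀ q p, a q p ≠ 0 → ∑ y, lam y * b y p = m (g q) := by
    intro q p h
    rw [← ha.fac q p h]
    exact hext.pack p
  have hconst : ∀ t : (Σ y, Fin (lam y)) → k, IsSol a (fun i => b i.1) t → ∀ i j, t i = t j :=
    fun t ht i j => const_of_lam B f a hstar b lam m hb hext Sigma.fst (count_fst lam) t ht i j
  constructor
  · by_contra hcon
    push Not at hcon
    obtain ⟨t, ht, i, j, hij⟩ := exists_nonconst_sol a ha.sum
      (fun i : (Σ y, Fin (lam y)) => b i.1) (fun q => m (g q))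
      (fun q p h => by
        rw [sum_types Finset.univ (fun i : (Σ y, Fin (lam y)) => i.1) b p, ← hdeg q p h]
        exact Finset.sum_congr rfl fun y _ => by rw [count_fst lam y])
      (by
        rw [← Finset.card_univ, card_by_types Finset.univ (fun i : (Σ y, Fin (lam y)) => i.1)]
        rw [Finset.sum_congr rfl fun y _ => count_fst lam y]
        exact hcon)
    exact hij (hconst t ht i j)
  · intro hsum
    have hR : ∀ J, 1 ≤ J → ∑ q, min (m (g q)) J + 1 ≤ ∑ t, min (lam t) J := by
      intro J hJ
      have h1 := truncated a ha.sum b lam (fun q => m (g q)) hdeg J hJ hconst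
      have h2 : ∑ y, (lam y - min (lam y) J) + ∑ y, min (lam y) J = ∑ y, lam y := by
        rw [← Finset.sum_add_distrib]
        exact Finset.sum_congr rfl fun y _ => by omega
      have h3 : ∑ q, (m (g q) - min (m (g q)) J) + ∑ q, min (m (g q)) J = ∑ q, m (g q) := by
        rw [← Finset.sum_add_distrib]
        exact Finset.sum_congr rfl fun y _ => by omega
      omega
    by_contra hcon
    push Not at hcon
    obtain ⟨J, hJ, hne⟩ := hcon
    have hstrict : ∃ J, 1 ≤ J ∧ ∑ q, min (m (g q)) J + 2 ≤ ∑ y, min (lam y) J := by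
      refine ⟨J, hJ, ?_⟩
      have := hR J hJ
      omega
    have hlt := num_ineq lam (fun q => m (g q)) hsum hR hstrict
    have hbound := bound_of_star B f g a ha hstar b lam m hb hext hsum
      (fun i : (Σ y, Fin (2 * lam y)) => i.1) (count_fst fun y => 2 * lam y)
    rw [card_splittings lam] at hbound
    exact absurd hlt (not_lt.2 hbound)

end Pool.Agent.Work.Uni
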