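import Mathlib
import Pool.Agent.Work.MP_4329d7_ag_uni.Defs

/-!
M1 (helper25): extreme packings.
-/

namespace Pool.Agent.Work.Uni

/-- The core: among the nonnegative vectors of a lattice with a positive value of a linear form,
there is one such that all nonnegative vectors with the same support are multiples. -/
theorem ext_core {ι : Type*} [Fintype ι] [DecidableEq ι] (L : Submodule ℤ (ι → ℤ))
    (d : (ι → ℤ) →ₗ[ℤ] ℤ) (x0 : ι → ℤ) (hx0 : x0 ∈ L) (hn0 : ∀ i, 0 ≤ x0 i) (hd0 : 0 < d x0) :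
    ∃ x ∈ L, (∀ i, 0 ≤ x i) ∧ 0 < d x ∧ ∀ y ∈ L, (∀ i, 0 ≤ y i) → (∀ i, x i = 0 → y i = 0) →
      ∃ j : ℕ, ∀ i, y i = j * x i := by
  obtain ⟨x, ⟨hxL, hxn, hxd⟩, hmin⟩ := WellFounded.has_min
    (InvImage.wf (fun x : ι → ℤ => toLex ((Finset.univ.filter fun i => x i ≠ 0).card,
      (∑ i, x i).toNat)) wellFounded_lt)
    {x : ι → ℤ | x ∈ L ∧ (∀ i, 0 ≤ x i) ∧ 0 < d x} ⟨x0, hx0, hn0, hd0⟩
  -- smaller support
  have hA : ∀ z ∈ L, (∀ i, 0 ≤ z i) → (∀ i, x i = 0 → z i = 0) → (∃ i, x i ≠ 0 ∧ z i = 0) →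
      d z ≤ 0 := by
    intro z hz hzn hsub hex
    by_contra hcon
    refine hmin z ⟨hz, hzn, not_le.1 hcon⟩ (Prod.Lex.toLex_lt_toLex.2 (Or.inl ?_))
    apply Finset.card_lt_card
    rw [Finset.ssubset_iff_of_subset]
    · obtain ⟨i, h1, h2⟩ := hex
      exact ⟨i, by simp [h1], by simp [h2]⟩
    · intro i hi
      rw [Finset.mem_filter] at hi ⊢
      exact ⟨hi.1, fun h => hi.2 (hsub i h)⟩
  -- same support, smaller sum
  have hB : ∀ z ∈ L, (∀ i, 0 ≤ z i) → (∀ i, x i = 0 → z i = 0) → ∑ i, z i < ∑ i, x i →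
      d z ≤ 0 := by
    intro z hz hzn hsub hs
    by_contra hcon
    have h1 : (Finset.univ.filter fun i => z i ≠ 0).card ≤
        (Finset.univ.filter fun i => x i ≠ 0).card := by
      apply Finset.card_le_card
      intro i hi
      rw [Finset.mem_filter] at hi ⊢
      exact ⟨hi.1, fun h => hi.2 (hsub i h)⟩
    have h2 : (∑ i, z i).toNat < (∑ i, x i).toNat := by
      have : 0 ≤ ∑ i, z i := Finset.sum_nonneg fun i _ => hzn i
      omega
    refine hmin z ⟨hz, hzn, not_le.1 hcon⟩ (Prod.Lex.toLex_lt_toLex.2 ?_)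
    rcases h1.lt_or_eq with h | h
    · exact Or.inl h
    · exact Or.inr ⟨h, h2⟩
  refine ⟨x, hxL, hxn, hxd, fun y hyL hyn hsub => ?_⟩
  by_cases hy : ∀ i, y i = 0
  · exact ⟨0, fun i => by simp [hy i]⟩
  push Not at hy
  -- the first index
  obtain ⟨t0, ht0, hmin0⟩ := Finset.exists_min_image (Finset.univ.filter fun i => y i ≠ 0)
    (fun i => (x i : ℚ) / y i) (by obtain ⟨i, hi⟩ := hy; exact ⟨i, by simp [hi]⟩)
  have hy0 : 0 < y t0 := by
    have h1 := (Finset.mem_filter.1 ht0).2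
    have h2 := hyn t0
    omega
  have hx0' : 0 < x t0 := by
    have h1 : x t0 ≠ 0 := fun h => hy0.ne' (hsub t0 h)
    have h2 := hxn t0
    omega
  have hpa : ∀ i, x t0 * y i ≤ y t0 * x i := by
    intro i
    by_cases hi : y i = 0
    · rw [hi, mul_zero]
      exact mul_nonneg hy0.le (hxn i)
    · have h1 := hmin0 i (by simp [hi])
      have hyi : 0 < y i := by
        have h2 := hyn i
        omega
      have h3 : (0 : ℚ) < y t0 := by exact_mod_cast hy0
      have h4 : (0 : ℚ) < y i := by exact_mod_cast hyi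
      rw [div_le_div_iff₀ h3 h4] at h1
      have h5 : x t0 * y i ≤ x i * y t0 := by exact_mod_cast h1
      linarith
  have hd1 : y t0 * d x ≤ x t0 * d y := by
    have h1 := hA (y t0 • x - x t0 • y) (L.sub_mem (L.smul_mem _ hxL) (L.smul_mem _ hyL))
      (fun i => by
        have := hpa i
        simp only [Pi.sub_apply, Pi.smul_apply, smul_eq_mul]
        linarith)
      (fun i hi => by simp [hi, hsub i hi])
      ⟨t0, hx0'.ne', by
        simp only [Pi.sub_apply, Pi.smul_apply, smul_eq_mul]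
        ring⟩
    rw [map_sub, map_smul, map_smul, smul_eq_mul, smul_eq_mul] at h1
    linarith
  have hdy : 0 < d y := by
    have h1 : 0 < x t0 * d y := lt_of_lt_of_le (mul_pos hy0 hxd) hd1
    exact (mul_pos_iff_of_pos_left hx0').1 h1
  -- the second index
  obtain ⟨t1, ht1, hmin1⟩ := Finset.exists_min_image (Finset.univ.filter fun i => x i ≠ 0)
    (fun i => (y i : ℚ) / x i) ⟨t0, by simp [hx0'.ne']⟩
  have hx1 : 0 < x t1 := by
    have h1 := (Finset.mem_filter.1 ht1).2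
    have h2 := hxn t1
    omega
  have hpb : ∀ i, y t1 * x i ≤ x t1 * y i := by
    intro i
    by_cases hi : x i = 0
    · rw [hi, mul_zero]
      exact mul_nonneg hx1.le (hyn i)
    · have h1 := hmin1 i (by simp [hi])
      have hxi : 0 < x i := by
        have h2 := hxn i
        omega
      have h3 : (0 : ℚ) < x t1 := by exact_mod_cast hx1
      have h4 : (0 : ℚ) < x i := by exact_mod_cast hxi
      rw [div_le_div_iff₀ h3 h4] at h1
      have h5 : y t1 * x i ≤ y i * x t1 := by exact_mod_cast h1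
      linarith
  have hd2 : x t1 * d y ≤ y t1 * d x := by
    have h1 := hA (x t1 • y - y t1 • x) (L.sub_mem (L.smul_mem _ hyL) (L.smul_mem _ hxL))
      (fun i => by
        have := hpb i
        simp only [Pi.sub_apply, Pi.smul_apply, smul_eq_mul]
        linarith)
      (fun i hi => by simp [hi, hsub i hi])
      ⟨t1, hx1.ne', by
        simp only [Pi.sub_apply, Pi.smul_apply, smul_eq_mul]
        ring⟩
    rw [map_sub, map_smul, map_smul, smul_eq_mul, smul_eq_mul] at h1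
    linarith
  have hy1 : 0 < y t1 := by
    have h1 : 0 < y t1 * d x := lt_of_lt_of_le (mul_pos hx1 hdy) hd2
    exact (mul_pos_iff_of_pos_right hxd).1 h1
  have hc : y t0 * x t1 ≤ y t1 * x t0 := by
    have h1 : y t0 * (x t1 * d y) ≤ y t0 * (y t1 * d x) := mul_le_mul_of_nonneg_left hd2 hy0.le
    have h2 : y t1 * (y t0 * d x) ≤ y t1 * (x t0 * d y) := mul_le_mul_of_nonneg_left hd1 hy1.le
    have h3 : (y t0 * x t1) * d y ≤ (y t1 * x t0) * d y := by linarith
    exact le_of_mul_le_mul_right h3 hdy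
  have hprop : ∀ i, x t0 * y i = y t0 * x i := by
    intro i
    refine le_antisymm (hpa i) ?_
    have h1 : y t0 * (y t1 * x i) ≤ y t0 * (x t1 * y i) :=
      mul_le_mul_of_nonneg_left (hpb i) hy0.le
    have h2 : (y t0 * x t1) * y i ≤ (y t1 * x t0) * y i := mul_le_mul_of_nonneg_right hc (hyn i)
    have h3 : y t1 * (y t0 * x i) ≤ y t1 * (x t0 * y i) := by linarith
    exact le_of_mul_le_mul_left h3 hy1
  -- division with remainder
  obtain ⟨q, hq⟩ : ∃ q, q = y t0 / x t0 := ⟨_, rfl⟩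
  obtain ⟨r, hr⟩ : ∃ r, r = y t0 % x t0 := ⟨_, rfl⟩
  have hqr : y t0 = x t0 * q + r := by
    rw [hq, hr]
    exact (Int.mul_ediv_add_emod _ _).symm
  have hr0 : 0 ≤ r := by
    rw [hr]
    exact Int.emod_nonneg _ hx0'.ne'
  have hr1 : r < x t0 := by
    rw [hr]
    exact Int.emod_lt_of_pos _ hx0'
  have hq0 : 0 ≤ q := by
    rw [hq]
    exact Int.ediv_nonneg hy0.le hx0'.le
  have hz : ∀ i, x t0 * (y i - q * x i) = r * x i := by
    intro i
    have h1 := hprop i
    rw [hqr] at h1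
    linarith
  have hr2 : r = 0 := by
    by_contra hcon
    have hrpos : 0 < r := lt_of_le_of_ne hr0 (Ne.symm hcon)
    have hzn : ∀ i, 0 ≤ (y - q • x) i := by
      intro i
      simp only [Pi.sub_apply, Pi.smul_apply, smul_eq_mul]
      have h1 : 0 ≤ x t0 * (y i - q * x i) := by
        rw [hz i]
        exact mul_nonneg hr0 (hxn i)
      exact nonneg_of_mul_nonneg_right h1 hx0'
    have h1 := hB (y - q • x) (L.sub_mem hyL (L.smul_mem _ hxL)) hzn
      (fun i hi => by simp [hi, hsub i hi]) (by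
        have h2 : x t0 * ∑ i, (y - q • x) i = r * ∑ i, x i := by
          rw [Finset.mul_sum, Finset.mul_sum]
          exact Finset.sum_congr rfl fun i _ => by simpa using hz i
        have h3 : 0 < ∑ i, x i := by
          refine lt_of_lt_of_le hx0' ?_
          exact Finset.single_le_sum (f := x) (fun i _ => hxn i) (Finset.mem_univ t0)
        have h4 : x t0 * ∑ i, (y - q • x) i < x t0 * ∑ i, x i := by
          rw [h2]
          exact mul_lt_mul_of_pos_right hr1 h3
        exact lt_of_mul_lt_mul_left h4 hx0'.le)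
    have h2 : x t0 * d (y - q • x) = r * d x := by
      have h3 : x t0 • (y - q • x) = r • x := by
        funext i
        simpa using hz i
      have h4 := congrArg d h3
      rwa [map_smul, map_smul, smul_eq_mul, smul_eq_mul] at h4
    have h3 : 0 < r * d x := mul_pos hrpos hxd
    rw [← h2] at h3
    have h4 := (mul_pos_iff_of_pos_left hx0').1 h3
    omega
  refine ⟨q.toNat, fun i => ?_⟩
  rw [Int.toNat_of_nonneg hq0]
  have h1 := hz i
  rw [hr2, zero_mul] at h1
  have h2 := (mul_eq_zero.1 h1).resolve_left hx0'.ne'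
  omega

theorem exists_ext {Pt I : Type} [Fintype Pt] [DecidableEq Pt] [Fintype I] [DecidableEq I]
    (f : Pt → I) (hf : Function.Surjective f) (κ : I → ℕ) (Bs : Finset (Pt → ℕ))
    (_h0 : ∀ b ∈ Bs, b ≠ 0) (lam : (Pt → ℕ) → ℕ) (m : I → ℕ)
    (hpack : ∀ p, ∑ b ∈ Bs, lam b * b p = m (f p))
    (hdelta : ∑ i, κ i * m i < ∑ b ∈ Bs, lam b) :
    ∃ (Ty : Type) (_ : Fintype Ty) (b : Ty → Pt → ℕ) (lam' : Ty → ℕ) (m' : I → ℕ),
      (∀ t, b t ∈ Bs) ∧ IsExt f b lam' m' ∧ ∑ i, κ i * m' i < ∑ t, lam' t := by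
  classical
  obtain ⟨s, hs⟩ := hf.hasRightInverse
  -- the lattice
  let L : Submodule ℤ (Bs → ℤ) :=
    { carrier := {x | ∀ p, ∑ b : Bs, x b * ((b.1 p : ℕ) : ℤ) =
        ∑ b : Bs, x b * ((b.1 (s (f p)) : ℕ) : ℤ)}
      zero_mem' := fun p => by simp
      add_mem' := fun {x y} hx hy p => by
        simp only [Pi.add_apply, add_mul, Finset.sum_add_distrib]
        rw [hx p, hy p]
      smul_mem' := fun c x hx p => by
        simp only [Pi.smul_apply, smul_eq_mul, mul_assoc, ← Finset.mul_sum]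
        rw [hx p] }
  have hL : ∀ x : Bs → ℤ, x ∈ L ↔ ∀ p, ∑ b : Bs, x b * ((b.1 p : ℕ) : ℤ) =
        ∑ b : Bs, x b * ((b.1 (s (f p)) : ℕ) : ℤ) := fun x => Iff.rfl
  let d : (Bs → ℤ) →ₗ[ℤ] ℤ :=
    { toFun := fun x => ∑ b : Bs, x b - ∑ i, (κ i : ℤ) * ∑ b : Bs, x b * ((b.1 (s i) : ℕ) : ℤ)
      map_add' := fun x y => by
        simp only [Pi.add_apply, add_mul, Finset.sum_add_distrib, mul_add]
        ring
      map_smul' := fun c x => by
        simp only [Pi.smul_apply, smul_eq_mul, mul_assoc, ← Finset.mul_sum, RingHom.id_apply]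
        rw [mul_sub, Finset.mul_sum Finset.univ (fun i => (κ i : ℤ) * _) c]
        refine congrArg₂ _ rfl (Finset.sum_congr rfl fun i _ => ?_)
        rw [mul_left_comm] }
  have hd : ∀ x : Bs → ℤ, d x =
      ∑ b : Bs, x b - ∑ i, (κ i : ℤ) * ∑ b : Bs, x b * ((b.1 (s i) : ℕ) : ℤ) := fun x => rfl
  have hsum : ∀ g : (Pt → ℕ) → ℕ, ∑ b : Bs, g b.1 = ∑ b ∈ Bs, g b := fun g =>
    Finset.sum_coe_sort Bs g
  obtain ⟨x, hxL, hxn, hxd, huniq⟩ := ext_core L d (fun b => (lam b.1 : ℤ))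
    (by
      rw [hL]
      intro p
      have h1 : ∀ p, ∑ b : Bs, ((lam b.1 : ℕ) : ℤ) * ((b.1 p : ℕ) : ℤ) = (m (f p) : ℤ) := fun p => by
        rw [← hpack p, ← hsum fun b => lam b * b p]
        push_cast
        rfl
      rw [h1, h1, hs (f p)])
    (fun i => Int.natCast_nonneg _)
    (by
      rw [hd]
      have h1 : ∀ i, ∑ b : Bs, ((lam b.1 : ℕ) : ℤ) * ((b.1 (s i) : ℕ) : ℤ) = (m i : ℤ) := fun i => by
        have h2 := hpack (s i)
        rw [hs i] at h2
        rw [← h2, ← hsum fun b => lam b * b (s i)]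
        push_cast
        rfl
      have h3 : ∑ b : Bs, ((lam b.1 : ℕ) : ℤ) = ((∑ b ∈ Bs, lam b : ℕ) : ℤ) := by
        rw [← hsum lam]
        push_cast
        rfl
      have h5 : ∑ i, (κ i : ℤ) * ∑ b : Bs, ((lam b.1 : ℕ) : ℤ) * ((b.1 (s i) : ℕ) : ℤ) =
          ∑ i, (κ i : ℤ) * (m i : ℤ) := Finset.sum_congr rfl fun i _ => by rw [h1 i]
      rw [h3, h5]
      have h4 : ((∑ i, κ i * m i : ℕ) : ℤ) < ((∑ b ∈ Bs, lam b : ℕ) : ℤ) := by
        exact_mod_cast hdelta
      push_cast at h4 ⊢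
      linarith)
  -- the types
  have hTs : ∀ (F : Bs → ℤ), (∀ b, x b = 0 → F b = 0) →
      ∑ t : {b : Bs // x b ≠ 0}, F t.1 = ∑ b, F b := by
    intro F hF
    rw [← Finset.sum_subtype (Finset.univ.filter fun b => x b ≠ 0) (by simp) F]
    refine Finset.sum_subset (Finset.filter_subset _ _) fun b _ hb => hF b ?_
    by_contra hcon
    exact hb (Finset.mem_filter.2 ⟨Finset.mem_univ _, hcon⟩)
  -- the packing condition for the types
  have hxc : ∀ b, ((x b).toNat : ℤ) = x b := fun b => Int.toNat_of_nonneg (hxn b)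
  have hpk : ∀ p, ((∑ t : {b : Bs // x b ≠ 0}, (x t.1).toNat * t.1.1 p : ℕ) : ℤ) =
      ∑ b : Bs, x b * ((b.1 p : ℕ) : ℤ) := by
    intro p
    rw [← hTs (fun b => x b * ((b.1 p : ℕ) : ℤ)) fun b hb => by rw [hb, zero_mul]]
    push_cast
    exact Finset.sum_congr rfl fun t _ => by rw [← hxc]; rfl
  refine ⟨{b : Bs // x b ≠ 0}, inferInstance, fun t => t.1.1, fun t => (x t.1).toNat,
    fun i => ∑ t : {b : Bs // x b ≠ 0}, (x t.1).toNat * t.1.1 (s i), fun t => t.1.2,
    ⟨?_, ?_, ?_⟩, ?_⟩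
  · intro p
    have h1 : ((∑ t : {b : Bs // x b ≠ 0}, (x t.1).toNat * t.1.1 p : ℕ) : ℤ) =
        ((∑ t : {b : Bs // x b ≠ 0}, (x t.1).toNat * t.1.1 (s (f p)) : ℕ) : ℤ) := by
      rw [hpk, hpk]
      exact hxL p
    exact_mod_cast h1
  · intro t
    have h1 := hxc t.1
    have h2 := t.2
    show 1 ≤ (x t.1).toNat
    omega
  · intro nu m' hnu
    -- extension by zero
    let F : Bs → ℤ := fun b => if h : x b ≠ 0 then (nu ⟨b, h⟩ : ℤ) else 0
    have hF1 : ∀ t : {b : Bs // x b ≠ 0}, F t.1 = nu t := fun t => by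
      simp only [F]
      rw [dif_pos t.2]
    have hF0 : ∀ b, x b = 0 → F b = 0 := fun b hb => by
      simp only [F]
      rw [dif_neg (not_not.2 hb)]
    have hFs : ∀ p, ∑ b : Bs, F b * ((b.1 p : ℕ) : ℤ) = (m' (f p) : ℤ) := by
      intro p
      rw [← hTs (fun b => F b * ((b.1 p : ℕ) : ℤ)) fun b hb => by rw [hF0 b hb, zero_mul]]
      rw [← hnu p]
      push_cast
      exact Finset.sum_congr rfl fun t _ => by rw [hF1 t]
    obtain ⟨j, hj⟩ := huniq F
      (by
        rw [hL]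
        intro p
        rw [hFs, hFs, hs (f p)])
      (by
        intro b
        by_cases h : x b = 0
        · rw [hF0 b h]
        · rw [hF1 ⟨b, h⟩]
          exact Int.natCast_nonneg _)
      hF0
    refine ⟨j, fun t => ?_⟩
    have h1 := hj t.1
    rw [hF1 t, ← hxc t.1] at h1
    exact_mod_cast h1
  · have h1 : ((∑ i, κ i * ∑ t : {b : Bs // x b ≠ 0}, (x t.1).toNat * t.1.1 (s i) : ℕ) : ℤ) <
        ((∑ t : {b : Bs // x b ≠ 0}, (x t.1).toNat : ℕ) : ℤ) := by
      rw [hd] at hxd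
      have h2 : ((∑ t : {b : Bs // x b ≠ 0}, (x t.1).toNat : ℕ) : ℤ) = ∑ b, x b := by
        rw [← hTs x fun b hb => hb]
        push_cast
        exact Finset.sum_congr rfl fun t _ => by rw [← hxc]; rfl
      have h3 : ((∑ i, κ i * ∑ t : {b : Bs // x b ≠ 0}, (x t.1).toNat * t.1.1 (s i) : ℕ) : ℤ) =
          ∑ i, (κ i : ℤ) * ∑ b : Bs, x b * ((b.1 (s i) : ℕ) : ℤ) := by
        rw [Nat.cast_sum]
        refine Finset.sum_congr rfl fun i _ => ?_
        rw [Nat.cast_mul, hpk (s i)]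
      rw [h2, h3]
      linarith
    exact_mod_cast h1

end Pool.Agent.Work.Uni
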