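import Mathlib
import Pool.Agent.Work.MP_4329d7_ag_uni.Defs
import Pool.Agent.Work.MP_4329d7_ag_uni.LPExt

/-!
M1 (helper51): Farkas lemma over the rationals, the alternative weights / packing.
(Extreme packings: LPExt.)
-/

namespace Pool.Agent.Work.Uni

/-- Farkas lemma (Bartl). -/
theorem farkas {W : Type*} [AddCommGroup W] [Module ℚ W] {n : ℕ} (A : Fin n → W →ₗ[ℚ] ℚ)
    (b : W →ₗ[ℚ] ℚ) (h : ¬ ∃ x, (∀ i, A i x ≤ 0) ∧ 0 < b x) :
    ∃ c : Fin n → ℚ, (∀ i, 0 ≤ c i) ∧ b = ∑ i, c i • A i := by
  induction n generalizing b with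
  | zero =>
    refine ⟨fun i => i.elim0, fun i => i.elim0, ?_⟩
    ext x
    simp only [Finset.univ_eq_empty, Finset.sum_empty, LinearMap.zero_apply]
    have h1 : b x ≤ 0 := by
      by_contra hc
      exact h ⟨x, fun i => i.elim0, not_le.1 hc⟩
    have h2 : b (-x) ≤ 0 := by
      by_contra hc
      exact h ⟨-x, fun i => i.elim0, not_le.1 hc⟩
    rw [map_neg] at h2
    linarith
  | succ n ih =>
    by_cases h0 : ∃ x, (∀ i : Fin n, A i.castSucc x ≤ 0) ∧ 0 < b x
    · obtain ⟨x0, hx0, hb0⟩ := h0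
      have hl : 0 < A (Fin.last n) x0 := by
        by_contra hc
        refine h ⟨x0, fun i => ?_, hb0⟩
        refine Fin.lastCases (not_lt.1 hc) (fun j => hx0 j) i
      set a := A (Fin.last n) x0 with ha
      set y : W := a⁻¹ • x0 with hy
      have hy1 : A (Fin.last n) y = 1 := by
        rw [hy, map_smul, smul_eq_mul, ← ha, inv_mul_cancel₀ hl.ne']
      have hyA : ∀ i : Fin n, A i.castSucc y ≤ 0 := by
        intro i
        rw [hy, map_smul, smul_eq_mul]
        exact mul_nonpos_of_nonneg_of_nonpos (inv_nonneg.2 hl.le) (hx0 i)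
      have hyb : 0 < b y := by
        rw [hy, map_smul, smul_eq_mul]
        exact mul_pos (inv_pos.2 hl) hb0
      obtain ⟨c, hc0, hc⟩ := ih (fun i => A i.castSucc - (A i.castSucc y) • A (Fin.last n))
        (b - (b y) • A (Fin.last n)) (by
          rintro ⟨x, hx, hbx⟩
          refine h ⟨x - (A (Fin.last n) x) • y, fun i => ?_, ?_⟩
          · refine Fin.lastCases ?_ (fun j => ?_) i
            · rw [map_sub, map_smul, hy1, smul_eq_mul, mul_one, sub_self]
            · have h1 := hx j
              simp only [LinearMap.sub_apply, LinearMap.smul_apply, smul_eq_mul] at h1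
              rw [map_sub, map_smul, smul_eq_mul]
              linarith [mul_comm (A (Fin.last n) x) (A j.castSucc y)]
          · simp only [LinearMap.sub_apply, LinearMap.smul_apply, smul_eq_mul] at hbx
            rw [map_sub, map_smul, smul_eq_mul]
            linarith [mul_comm (A (Fin.last n) x) (b y)])
      refine ⟨Fin.snoc c (b y - ∑ i, c i * A i.castSucc y), fun i => ?_, ?_⟩
      · refine Fin.lastCases ?_ (fun j => ?_) i
        · rw [Fin.snoc_last]
          have : ∑ i, c i * A i.castSucc y ≤ 0 :=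
            Finset.sum_nonpos fun i _ => mul_nonpos_of_nonneg_of_nonpos (hc0 i) (hyA i)
          linarith
        · rw [Fin.snoc_castSucc]
          exact hc0 j
      · ext x
        have h1 := LinearMap.congr_fun hc x
        simp only [LinearMap.sub_apply, LinearMap.smul_apply, smul_eq_mul, LinearMap.sum_apply,
          mul_sub, Finset.sum_sub_distrib] at h1
        simp only [Fin.sum_univ_castSucc, Fin.snoc_castSucc, Fin.snoc_last, LinearMap.add_apply]
        simp only [LinearMap.sum_apply, LinearMap.smul_apply, smul_eq_mul]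
        have h2 : ∑ i, c i * (A i.castSucc y * A (Fin.last n) x) =
            (∑ i, c i * A i.castSucc y) * A (Fin.last n) x := by
          rw [Finset.sum_mul]
          exact Finset.sum_congr rfl fun i _ => by ring
        rw [h2] at h1
        linarith
    · obtain ⟨c, hc0, hc⟩ := ih (fun i => A i.castSucc) b h0
      refine ⟨Fin.snoc c 0, fun i => ?_, ?_⟩
      · refine Fin.lastCases ?_ (fun j => ?_) i
        · rw [Fin.snoc_last]
        · rw [Fin.snoc_castSucc]
          exact hc0 j
      · rw [hc, Fin.sum_univ_castSucc]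
        simp only [Fin.snoc_castSucc, Fin.snoc_last, zero_smul, add_zero]

/-- a common denominator -/
theorem lp_common_den {ι : Type*} [Fintype ι] (q : ι → ℚ) (hq : ∀ i, 0 ≤ q i) :
    ∃ (D : ℕ) (z : ι → ℕ), 0 < D ∧ ∀ i, (z i : ℚ) = q i * D := by
  classical
  refine ⟨∏ i, (q i).den, fun i => (q i).num.toNat * ∏ j ∈ Finset.univ.erase i, (q j).den,
    Finset.prod_pos fun i _ => (q i).den_pos, fun i => ?_⟩
  have h1 : (((q i).num.toNat : ℕ) : ℚ) = (q i).num := by
    have : (((q i).num.toNat : ℕ) : ℤ) = (q i).num :=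
      Int.toNat_of_nonneg (Rat.num_nonneg.2 (hq i))
    exact_mod_cast this
  rw [← Finset.mul_prod_erase Finset.univ _ (Finset.mem_univ i)]
  push_cast
  rw [h1, ← mul_assoc, Rat.mul_den_eq_num]

theorem weights_or_packing {Pt I : Type} [Fintype Pt] [DecidableEq Pt] [Fintype I] [DecidableEq I]
    (f : Pt → I) (κ : I → ℕ) (Bs : Finset (Pt → ℕ)) (N : ℕ) (hN : 0 < N)
    (hsing : ∀ p, (Pi.single p N : Pt → ℕ) ∈ Bs) :
    (∃ (M : ℕ) (A : Pt → ℕ), 0 < M ∧ (∀ i, ∑ p with f p = i, A p ≤ κ i * M) ∧
      ∀ b ∈ Bs, M ≤ ∑ p, A p * b p) ∨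
    (∃ (lam : (Pt → ℕ) → ℕ) (m : I → ℕ), (∀ p, ∑ b ∈ Bs, lam b * b p = m (f p)) ∧
      ∑ i, κ i * m i < ∑ b ∈ Bs, lam b) := by
  classical
  -- the functionals
  let e := Fintype.equivFin (I ⊕ Bs)
  let F : I ⊕ Bs → ((Pt → ℚ) × ℚ) →ₗ[ℚ] ℚ := fun s => match s with
    | Sum.inl i => (∑ p with f p = i, (LinearMap.proj p).comp (LinearMap.fst ℚ (Pt → ℚ) ℚ)) -
        (κ i : ℚ) • LinearMap.snd ℚ (Pt → ℚ) ℚ
    | Sum.inr b => LinearMap.snd ℚ (Pt → ℚ) ℚ -
        ∑ p, ((b.1 p : ℕ) : ℚ) • (LinearMap.proj p).comp (LinearMap.fst ℚ (Pt → ℚ) ℚ)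
  have hFl : ∀ i (x : (Pt → ℚ) × ℚ), F (Sum.inl i) x = ∑ p with f p = i, x.1 p - κ i * x.2 := by
    intro i x
    simp [F, LinearMap.sum_apply]
  have hFr : ∀ (b : Bs) (x : (Pt → ℚ) × ℚ), F (Sum.inr b) x = x.2 - ∑ p, (b.1 p : ℚ) * x.1 p := by
    intro b x
    simp [F, LinearMap.sum_apply]
  by_cases hex : ∃ x, (∀ i, F (e.symm i) x ≤ 0) ∧ 0 < LinearMap.snd ℚ (Pt → ℚ) ℚ x
  · left
    obtain ⟨⟨A, s⟩, h1, hs⟩ := hex
    have hs' : 0 < s := hs
    have hl : ∀ i, ∑ p with f p = i, A p ≤ κ i * s := by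
      intro i
      have := h1 (e (Sum.inl i))
      rw [Equiv.symm_apply_apply, hFl] at this
      simpa using this
    have hr : ∀ b ∈ Bs, s ≤ ∑ p, (b p : ℚ) * A p := by
      intro b hb
      have := h1 (e (Sum.inr ⟨b, hb⟩))
      rw [Equiv.symm_apply_apply, hFr] at this
      simpa using this
    have hA : ∀ p, 0 ≤ A p := by
      intro p
      have := hr _ (hsing p)
      rw [Finset.sum_eq_single p] at this
      · rw [Pi.single_eq_same] at this
        have hN' : (0 : ℚ) < N := by exact_mod_cast hN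
        by_contra hc
        have h3 : (N : ℚ) * A p < 0 := mul_neg_of_pos_of_neg hN' (not_le.1 hc)
        linarith
      · intro q _ hq
        rw [Pi.single_eq_of_ne hq]
        simp
      · intro h
        exact absurd (Finset.mem_univ p) h
    obtain ⟨D, z, hD, hz⟩ := lp_common_den (fun o : Option Pt => o.elim s A) (by
      intro o
      cases o with
      | none => exact hs'.le
      | some p => exact hA p)
    have hD' : (0 : ℚ) < D := by exact_mod_cast hD
    have hzs : ((z none : ℕ) : ℚ) = s * D := hz none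
    have hzp : ∀ p, ((z (some p) : ℕ) : ℚ) = A p * D := fun p => hz (some p)
    refine ⟨z none, fun p => z (some p), ?_, ?_, ?_⟩
    · have : (0 : ℚ) < (z none : ℕ) := by
        rw [hzs]
        exact mul_pos hs' hD'
      exact_mod_cast this
    · intro i
      have : ((∑ p with f p = i, z (some p) : ℕ) : ℚ) ≤ ((κ i * z none : ℕ) : ℚ) := by
        push_cast
        rw [hzs]
        calc (∑ p with f p = i, ((z (some p) : ℕ) : ℚ)) = (∑ p with f p = i, A p) * D := by
              rw [Finset.sum_mul]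
              exact Finset.sum_congr rfl fun p _ => hzp p
          _ ≤ (κ i * s) * D := mul_le_mul_of_nonneg_right (hl i) hD'.le
          _ = κ i * (s * D) := by ring
      exact_mod_cast this
    · intro b hb
      have : ((z none : ℕ) : ℚ) ≤ ((∑ p, z (some p) * b p : ℕ) : ℚ) := by
        push_cast
        rw [hzs]
        calc s * D ≤ (∑ p, (b p : ℚ) * A p) * D := mul_le_mul_of_nonneg_right (hr b hb) hD'.le
          _ = ∑ p, ((z (some p) : ℕ) : ℚ) * (b p : ℚ) := by
              rw [Finset.sum_mul]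
              exact Finset.sum_congr rfl fun p _ => by rw [hzp p]; ring
      exact_mod_cast this
  · right
    obtain ⟨c, hc0, hc⟩ := farkas (fun i => F (e.symm i)) (LinearMap.snd ℚ (Pt → ℚ) ℚ) hex
    -- the coefficients
    have hsum : LinearMap.snd ℚ (Pt → ℚ) ℚ =
        ∑ i, c (e (Sum.inl i)) • F (Sum.inl i) + ∑ b : Bs, c (e (Sum.inr b)) • F (Sum.inr b) := by
      rw [hc, ← Equiv.sum_comp e, Fintype.sum_sum_type]
      simp only [Equiv.symm_apply_apply]
    obtain ⟨D, z, hD, hz⟩ := lp_common_den (fun s : I ⊕ Bs => c (e s)) (fun s => hc0 _)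
    have hD' : (0 : ℚ) < D := by exact_mod_cast hD
    have hzl : ∀ i, ((z (Sum.inl i) : ℕ) : ℚ) = c (e (Sum.inl i)) * D := fun i => hz _
    have hzr : ∀ b, ((z (Sum.inr b) : ℕ) : ℚ) = c (e (Sum.inr b)) * D := fun b => hz _
    have hev : ∀ x : (Pt → ℚ) × ℚ, x.2 = ∑ i, c (e (Sum.inl i)) * (∑ p with f p = i, x.1 p -
        κ i * x.2) + ∑ b : Bs, c (e (Sum.inr b)) * (x.2 - ∑ p, (b.1 p : ℚ) * x.1 p) := by
      intro x
      have h1 := LinearMap.congr_fun hsum x
      simp only [LinearMap.add_apply, LinearMap.sum_apply, LinearMap.smul_apply, smul_eq_mul, hFl,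
        hFr] at h1
      exact h1
    let lam : (Pt → ℕ) → ℕ := fun b => if hb : b ∈ Bs then z (Sum.inr ⟨b, hb⟩) else 0
    have hlam : ∀ b : Bs, lam b.1 = z (Sum.inr b) := by
      intro b
      simp only [lam, dif_pos b.2, Subtype.coe_eta]
    refine ⟨lam, fun i => z (Sum.inl i), ?_, ?_⟩
    · intro p
      have h1 := hev (Pi.single p 1, 0)
      have h2 : ∀ i, (∑ q with f q = i, (Pi.single p 1 : Pt → ℚ) q) = if f p = i then 1 else 0 := by
        intro i
        rw [Finset.sum_filter, Finset.sum_eq_single p]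
        · rw [Pi.single_eq_same]
        · intro q _ hq
          rw [Pi.single_eq_of_ne hq]
          simp
        · intro h
          exact absurd (Finset.mem_univ p) h
      have h3 : ∀ b : Bs, (∑ q, (b.1 q : ℚ) * (Pi.single p 1 : Pt → ℚ) q) = b.1 p := by
        intro b
        rw [Finset.sum_eq_single p]
        · rw [Pi.single_eq_same, mul_one]
        · intro q _ hq
          rw [Pi.single_eq_of_ne hq]
          simp
        · intro h
          exact absurd (Finset.mem_univ p) h
      simp only [h2, h3, mul_zero, sub_zero, zero_sub, mul_neg, Finset.sum_neg_distrib, mul_ite,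
        mul_one, Finset.sum_ite_eq, Finset.mem_univ, if_true] at h1
      have h4 : ((∑ b ∈ Bs, lam b * b p : ℕ) : ℚ) = ((z (Sum.inl (f p)) : ℕ) : ℚ) := by
        rw [← Finset.sum_coe_sort Bs]
        push_cast
        rw [hzl]
        calc (∑ b : Bs, ((lam b.1 : ℕ) : ℚ) * (b.1 p : ℚ))
            = (∑ b : Bs, c (e (Sum.inr b)) * (b.1 p : ℚ)) * D := by
              rw [Finset.sum_mul]
              exact Finset.sum_congr rfl fun b _ => by rw [hlam, hzr]; ring
          _ = c (e (Sum.inl (f p))) * D := by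
              congr 1
              linarith
      exact_mod_cast h4
    · have h1 := hev (0, 1)
      simp only [Pi.zero_apply, Finset.sum_const_zero, zero_sub, mul_one, mul_zero, sub_zero]
        at h1
      have h4 : ((∑ i, κ i * z (Sum.inl i) : ℕ) : ℚ) < ((∑ b ∈ Bs, lam b : ℕ) : ℚ) := by
        rw [← Finset.sum_coe_sort Bs]
        push_cast
        have e1 : (∑ i, (κ i : ℚ) * ((z (Sum.inl i) : ℕ) : ℚ)) =
            (∑ i, c (e (Sum.inl i)) * κ i) * D := by
          rw [Finset.sum_mul]
          exact Finset.sum_congr rfl fun i _ => by rw [hzl]; ring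
        have e2 : (∑ b : Bs, ((lam b.1 : ℕ) : ℚ)) = (∑ b : Bs, c (e (Sum.inr b))) * D := by
          rw [Finset.sum_mul]
          exact Finset.sum_congr rfl fun b _ => by rw [hlam, hzr]
        rw [e1, e2]
        apply mul_lt_mul_of_pos_right _ hD'
        have e3 : (∑ i, c (e (Sum.inl i)) * -(κ i : ℚ)) = -∑ i, c (e (Sum.inl i)) * κ i := by
          rw [← Finset.sum_neg_distrib]
          exact Finset.sum_congr rfl fun i _ => by ring
        rw [e3] at h1
        linarith
      exact_mod_cast h4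

end Pool.Agent.Work.Uni
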