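import Mathlib

/-!
Uniform weights, part 1 (helper44): for every `v` there are finitely many rational vectors
`A' : Fin v → [0, 1]` that dominate all rational vectors `A : Fin v → [0, 1]`:
`1 ≤ A ⬝ b → 1 ≤ A' ⬝ b` for all `b : Fin v → ℕ`.  (Dickson and Higman.)
-/

namespace Pool.Agent.Work.Uni

theorem exists_finite_dom {α : Type*} {r : α → α → Prop} (h : WellQuasiOrdered r) :
    ∃ F : Finset α, ∀ a, ∃ b ∈ F, r b a := by
  by_contra hcon
  push Not at hcon
  obtain ⟨f, -, hr⟩ := exists_seq_of_forall_finset_exists (fun _ => True) (fun x y => ¬ r x y)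
    (fun s _ => by obtain ⟨a, ha⟩ := hcon s; exact ⟨a, trivial, ha⟩)
  obtain ⟨m, n, hmn, h2⟩ := h f
  exact hr m n hmn h2

theorem SublistForall₂.exists_of_mem {α β : Type*} {R : α → β → Prop} {l₁ : List α} {l₂ : List β}
    (h : List.SublistForall₂ R l₁ l₂) : ∀ x ∈ l₁, ∃ y ∈ l₂, R x y := by
  induction h with
  | nil => intro x hx; exact absurd hx List.not_mem_nil
  | cons hr _ ih =>
    intro x hx
    rcases List.mem_cons.1 hx with rfl | hx
    · exact ⟨_, List.mem_cons_self, hr⟩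
    · obtain ⟨y, hy, hxy⟩ := ih x hx
      exact ⟨y, List.mem_cons_of_mem _ hy, hxy⟩
  | cons_right _ ih =>
    intro x hx
    obtain ⟨y, hy, hxy⟩ := ih x hx
    exact ⟨y, List.mem_cons_of_mem _ hy, hxy⟩

section

variable {v : ℕ}

/-- the integer vectors on the support of `A` below the hyperplane `A ⬝ b = 1` -/
def below (A : Fin v → ℚ) : Set (Fin v → ℕ) :=
  {b | (∀ e, A e = 0 → b e = 0) ∧ ∑ e, A e * b e < 1}

theorem below_finite (A : Fin v → ℚ) (hA : ∀ e, 0 ≤ A e) : (below A).Finite := by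
  refine (Set.Finite.pi' fun e => Set.finite_Iic ⌊1 / A e⌋₊).subset ?_
  intro b hb e
  rw [Set.mem_Iic]
  by_cases h : A e = 0
  · rw [hb.1 e h]
    exact Nat.zero_le _
  · have h0 : 0 < A e := lt_of_le_of_ne (hA e) (Ne.symm h)
    refine Nat.le_floor ?_
    rw [le_div_iff₀ h0, mul_comm]
    refine le_trans ?_ hb.2.le
    exact Finset.single_le_sum (f := fun e => A e * (b e : ℚ))
      (fun e _ => mul_nonneg (hA e) (Nat.cast_nonneg _)) (Finset.mem_univ e)

/-- the vectors in `[0, 1] ^ v` -/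
abbrev Wt (v : ℕ) : Type := {A : Fin v → ℚ // ∀ e, 0 ≤ A e ∧ A e ≤ 1}

/-- finite information: the support and the inequalities `∑ e ∈ s, A e ≤ c` -/
noncomputable def info (A : Wt v) :
    (Fin v → Bool) × (Finset (Fin v) × Fin (v + 1) → Bool) :=
  (fun e => decide (A.1 e = 0), fun p => decide (∑ e ∈ p.1, A.1 e ≤ (p.2 : ℕ)))

/-- `A` dominates `A'` -/
def Dom (A A' : Wt v) : Prop :=
  info A = info A' ∧ ∀ b : Fin v → ℕ, 1 ≤ ∑ e, A'.1 e * b e → 1 ≤ ∑ e, A.1 e * b e

theorem wqo_dom : WellQuasiOrdered (Dom (v := v)) := by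
  intro f
  obtain ⟨g, hg⟩ := (Finite.wellQuasiOrdered
    (Eq : (Fin v → Bool) × (Finset (Fin v) × Fin (v + 1) → Bool) → _ → Prop)).exists_monotone_subseq
    (fun j => info (f j))
  let L : ℕ → List (Fin v → ℕ) := fun j =>
    (below_finite (f (g j)).1 fun e => ((f (g j)).2 e).1).toFinset.toList
  have hL : ∀ j b, b ∈ L j ↔ b ∈ below (f (g j)).1 := by
    intro j b
    simp only [L, Finset.mem_toList, Set.Finite.mem_toFinset]
  have hpwo : (Set.univ : Set (Fin v → ℕ)).PartiallyWellOrderedOn (· ≤ ·) := fun s =>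
    wellQuasiOrdered_le (fun n => (s n).1)
  obtain ⟨i, j, hij, h⟩ := Set.PartiallyWellOrderedOn.partiallyWellOrderedOn_sublistForall₂
    (· ≤ ·) hpwo (fun n => ⟨L n, fun _ _ => Set.mem_univ _⟩)
  have h' : ∀ x ∈ L i, ∃ y ∈ L j, x ≤ y := SublistForall₂.exists_of_mem h
  refine ⟨g i, g j, g.strictMono hij, hg i j hij.le, fun b hb => ?_⟩
  have hinfo := hg i j hij.le
  have hsupp : ∀ e, (f (g i)).1 e = 0 ↔ (f (g j)).1 e = 0 := by
    intro e
    have := congrFun (congrArg Prod.fst hinfo) e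
    simpa [info] using this
  by_contra hcon
  push Not at hcon
  let b' : Fin v → ℕ := fun e => if (f (g i)).1 e = 0 then 0 else b e
  have h1 : ∑ e, (f (g i)).1 e * (b' e : ℚ) = ∑ e, (f (g i)).1 e * (b e : ℚ) := by
    refine Finset.sum_congr rfl fun e _ => ?_
    by_cases h0 : (f (g i)).1 e = 0
    · rw [h0, zero_mul, zero_mul]
    · simp only [b', if_neg h0]
  have h2 : ∑ e, (f (g j)).1 e * (b' e : ℚ) = ∑ e, (f (g j)).1 e * (b e : ℚ) := by
    refine Finset.sum_congr rfl fun e _ => ?_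
    by_cases h0 : (f (g i)).1 e = 0
    · rw [(hsupp e).1 h0, zero_mul, zero_mul]
    · simp only [b', if_neg h0]
  have h3 : b' ∈ L i := by
    rw [hL]
    refine ⟨fun e he => if_pos he, ?_⟩
    rw [h1]
    exact hcon
  obtain ⟨y, hy, hle⟩ := h' b' h3
  rw [hL] at hy
  have h4 : ∑ e, (f (g j)).1 e * (b' e : ℚ) ≤ ∑ e, (f (g j)).1 e * (y e : ℚ) := by
    refine Finset.sum_le_sum fun e _ => ?_
    exact mul_le_mul_of_nonneg_left (by exact_mod_cast hle e) ((f (g j)).2 e).1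
  rw [h2] at h4
  exact absurd (hb.trans h4) (not_le.2 hy.2)

/-- a common denominator for a finite dominating set -/
theorem exists_denom (v : ℕ) : ∃ M : ℕ, 2 ≤ M ∧ ∀ A : Fin v → ℚ, (∀ e, 0 ≤ A e ∧ A e ≤ 1) →
    ∃ A' : Fin v → ℕ, (∀ e, A' e ≤ M) ∧
      (∀ b : Fin v → ℕ, 1 ≤ ∑ e, A e * b e → M ≤ ∑ e, A' e * b e) ∧
      (∀ e, 0 < A e → 0 < A' e) ∧
      ∀ (s : Finset (Fin v)) (c : ℕ), ∑ e ∈ s, A e ≤ c → ∑ e ∈ s, A' e ≤ M * c := by
  classical
  obtain ⟨F, hF⟩ := exists_finite_dom (wqo_dom (v := v))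
  have hMpos : 0 < ∏ A ∈ F, ∏ e, (A.1 e).den :=
    Finset.prod_pos fun A _ => Finset.prod_pos fun e _ => (A.1 e).den_pos
  refine ⟨2 * ∏ A ∈ F, ∏ e, (A.1 e).den, by omega, fun A hA => ?_⟩
  set M := 2 * ∏ A ∈ F, ∏ e, (A.1 e).den with hM
  obtain ⟨D, hD, hdom⟩ := hF ⟨A, hA⟩
  have hnat : ∀ e, ∃ k : ℕ, (k : ℚ) = M * D.1 e := by
    intro e
    have hdvd : (D.1 e).den ∣ M := by
      rw [hM]
      refine Dvd.dvd.mul_left ?_ _
      exact (Finset.dvd_prod_of_mem (fun e => (D.1 e).den) (Finset.mem_univ e)).trans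
        (Finset.dvd_prod_of_mem (fun A : Wt v => ∏ e, (A.1 e).den) hD)
    obtain ⟨c, hc⟩ := hdvd
    refine ⟨c * (D.1 e).num.toNat, ?_⟩
    have hnum : (((D.1 e).num.toNat : ℕ) : ℚ) = ((D.1 e).num : ℚ) := by
      have : 0 ≤ (D.1 e).num := Rat.num_nonneg.2 (D.2 e).1
      have h2 := Int.toNat_of_nonneg this
      exact_mod_cast h2
    rw [Nat.cast_mul, hnum, hc, Nat.cast_mul]
    have hden : ((D.1 e).den : ℚ) * D.1 e = (D.1 e).num := by
      rw [mul_comm]
      exact Rat.mul_den_eq_num _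
    rw [mul_comm ((D.1 e).den : ℚ) c, mul_assoc, hden]
  choose A' hA' using hnat
  have hM0 : (0 : ℚ) < M := by
    have : 0 < M := by omega
    exact_mod_cast this
  have hle : ∀ e, A' e ≤ M := by
    intro e
    have h1 : (A' e : ℚ) ≤ M := by
      rw [hA']
      exact mul_le_of_le_one_right hM0.le (D.2 e).2
    exact_mod_cast h1
  refine ⟨A', hle, ?_, ?_, ?_⟩
  · intro b hb
    have h1 := hdom.2 b hb
    have h2 : (M : ℚ) ≤ ∑ e, (A' e : ℚ) * b e := by
      calc (M : ℚ) = M * 1 := (mul_one _).symm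
        _ ≤ M * ∑ e, D.1 e * b e := mul_le_mul_of_nonneg_left h1 hM0.le
        _ = ∑ e, (A' e : ℚ) * b e := by
          rw [Finset.mul_sum]
          exact Finset.sum_congr rfl fun e _ => by rw [hA', mul_assoc]
    exact_mod_cast h2
  · intro e he
    have h1 := congrFun (congrArg Prod.fst hdom.1) e
    have h2 : D.1 e ≠ 0 := by
      intro h0
      simp only [info, h0, decide_true] at h1
      have := of_decide_eq_true h1.symm
      exact he.ne' this
    have h3 : (0 : ℚ) < A' e := by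
      rw [hA']
      exact mul_pos hM0 (lt_of_le_of_ne (D.2 e).1 (Ne.symm h2))
    exact_mod_cast h3
  · intro s c hs
    by_cases hc : c < v + 1
    · have h1 := congrFun (congrArg Prod.snd hdom.1) (s, ⟨c, hc⟩)
      have h2 : ∑ e ∈ s, D.1 e ≤ c := by
        simp only [info] at h1
        exact of_decide_eq_true (h1.trans (decide_eq_true hs))
      have h3 : ∑ e ∈ s, (A' e : ℚ) ≤ M * c := by
        calc ∑ e ∈ s, (A' e : ℚ) = M * ∑ e ∈ s, D.1 e := by
              rw [Finset.mul_sum]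
              exact Finset.sum_congr rfl fun e _ => hA' e
          _ ≤ M * c := mul_le_mul_of_nonneg_left h2 hM0.le
      exact_mod_cast h3
    · calc ∑ e ∈ s, A' e ≤ ∑ _e ∈ s, M := Finset.sum_le_sum fun e _ => hle e
        _ = s.card * M := by rw [Finset.sum_const, smul_eq_mul]
        _ ≤ v * M := Nat.mul_le_mul_right _ (by simpa using Finset.card_le_univ s)
        _ ≤ M * c := by
          rw [mul_comm]
          exact Nat.mul_le_mul_left _ (by omega)

end

/-- the same for all finite types with at most `v` elements -/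
theorem exists_denom' (v : ℕ) : ∃ M : ℕ, 2 ≤ M ∧ ∀ (V : Type) [Fintype V], Fintype.card V ≤ v →
    ∀ A : V → ℚ, (∀ e, 0 ≤ A e ∧ A e ≤ 1) →
    ∃ A' : V → ℕ, (∀ e, A' e ≤ M) ∧
      (∀ b : V → ℕ, 1 ≤ ∑ e, A e * b e → M ≤ ∑ e, A' e * b e) ∧
      (∀ e, 0 < A e → 0 < A' e) ∧
      ∀ (s : Finset V) (c : ℕ), ∑ e ∈ s, A e ≤ c → ∑ e ∈ s, A' e ≤ M * c := by
  classical
  obtain ⟨M, hM, h⟩ := exists_denom v
  refine ⟨M, hM, fun V _ hV A hA => ?_⟩
  let ι : V → Fin v := fun e => Fin.castLE hV (Fintype.equivFin V e)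
  have hι : Function.Injective ι := (Fin.castLE_injective hV).comp (Fintype.equivFin V).injective
  let A1 : Fin v → ℚ := Function.extend ι A 0
  have hA1 : ∀ e, A1 (ι e) = A e := fun e => hι.extend_apply _ _ _
  have hA1' : ∀ j, j ∉ Set.range ι → A1 j = 0 := fun j hj =>
    Function.extend_apply' _ _ _ (fun ⟨e, he⟩ => hj ⟨e, he⟩)
  obtain ⟨B, hB1, hB2, hB3, hB4⟩ := h A1 (fun j => by
    by_cases hj : j ∈ Set.range ι
    · obtain ⟨e, rfl⟩ := hj
      rw [hA1]
      exact hA e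
    · rw [hA1' j hj]
      norm_num)
  refine ⟨fun e => B (ι e), fun e => hB1 _, fun b hb => ?_, fun e he => hB3 _ (by rwa [hA1]),
    fun s c hs => ?_⟩
  · let b1 : Fin v → ℕ := Function.extend ι b 0
    have hb1 : ∀ e, b1 (ι e) = b e := fun e => hι.extend_apply _ _ _
    have hb1' : ∀ j, j ∉ Set.range ι → b1 j = 0 := fun j hj =>
      Function.extend_apply' _ _ _ (fun ⟨e, he⟩ => hj ⟨e, he⟩)
    have h1 : ∑ e, A e * (b e : ℚ) = ∑ j, A1 j * (b1 j : ℚ) :=
      Fintype.sum_of_injective ι hι _ _ (fun j hj => by rw [hA1' j hj, zero_mul])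
        (fun e => by rw [hA1, hb1])
    have h2 : ∑ e, B (ι e) * b e = ∑ j, B j * b1 j :=
      Fintype.sum_of_injective ι hι _ _ (fun j hj => by rw [hb1' j hj, mul_zero])
        (fun e => by rw [hb1])
    rw [h2]
    exact hB2 b1 (by rw [← h1]; exact hb)
  · have h1 := hB4 (s.map ⟨ι, hι⟩) c (by
      rw [Finset.sum_map]
      refine le_trans (le_of_eq (Finset.sum_congr rfl fun e _ => ?_)) hs
      exact hA1 e)
    rw [Finset.sum_map] at h1
    exact h1

end Pool.Agent.Work.Uni
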