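import Mathlib
import Pool.Agent.Work.MP_4329d7_ag_uni.Defs

/-!
M9 (helper7): auxiliary lemmas on polynomials for the equality case.
-/

set_option linter.unusedSectionVars false

namespace Pool.Agent.Work.Uni

open Polynomial

section Wr

variable {k : Type*} [Field k] [CharZero k]

/-- monic polynomials of the same degree with the same logarithmic derivative are equal -/
theorem eq_of_deriv {P R : k[X]} {n : ℕ} (hP : P.Monic) (hR : R.Monic) (hPn : P.natDegree = n)
    (hRn : R.natDegree = n) (h : derivative P * R = derivative R * P) : P = R := by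
  by_contra hne
  have hD : P - R ≠ 0 := sub_ne_zero.mpr hne
  obtain ⟨D, hDef⟩ : ∃ D, D = P - R := ⟨_, rfl⟩
  rw [← hDef] at hD
  rcases Nat.eq_zero_or_pos n with hn | hn
  · apply hne
    rw [hn] at hPn hRn
    rw [hP.natDegree_eq_zero.mp hPn, hR.natDegree_eq_zero.mp hRn]
  have hlt : D.natDegree < n := by
    have h1 : D.degree < P.degree := by
      rw [hDef]
      apply degree_sub_lt_left
      · rw [degree_eq_natDegree hP.ne_zero, degree_eq_natDegree hR.ne_zero, hPn, hRn]
      · exact hP.ne_zero
      · rw [hP.leadingCoeff, hR.leadingCoeff]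
    rw [degree_eq_natDegree hD, degree_eq_natDegree hP.ne_zero, hPn] at h1
    exact_mod_cast h1
  have hrel : derivative D * R = D * derivative R := by
    rw [hDef, map_sub]
    linear_combination h
  have hRc : R.coeff n = 1 := by rw [← hRn]; exact hR.coeff_natDegree
  have hR'c : (derivative R).coeff (n - 1) = n := by
    rw [coeff_derivative, Nat.sub_add_cancel hn, hRc, one_mul, Nat.cast_sub hn]
    push_cast
    ring
  have hR'd : (derivative R).natDegree ≤ n - 1 := by
    rw [← hRn]; exact natDegree_derivative_le R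
  have hlc : D.coeff D.natDegree ≠ 0 := by
    rw [coeff_natDegree, Ne, leadingCoeff_eq_zero]; exact hD
  have h2 : (D * derivative R).coeff (D.natDegree + (n - 1)) = D.coeff D.natDegree * n := by
    rw [coeff_mul_add_eq_of_natDegree_le le_rfl hR'd, hR'c]
  rcases Nat.eq_zero_or_pos D.natDegree with hd | hd
  · have h3 : derivative D = 0 := derivative_of_natDegree_zero hd
    rw [← hrel, h3, zero_mul, coeff_zero] at h2
    have h4 : (n : k) ≠ 0 := by exact_mod_cast hn.ne'
    exact (mul_ne_zero hlc h4) h2.symm
  · have h3 : (derivative D * R).coeff ((D.natDegree - 1) + n)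
        = D.coeff D.natDegree * D.natDegree := by
      rw [coeff_mul_add_eq_of_natDegree_le (natDegree_derivative_le D) hRn.le, hRc, mul_one,
        coeff_derivative, Nat.sub_add_cancel hd, Nat.cast_sub hd]
      push_cast
      ring
    rw [hrel, show D.natDegree - 1 + n = D.natDegree + (n - 1) by omega, h2] at h3
    have h4 := mul_left_cancel₀ hlc h3
    have h5 : n = D.natDegree := by exact_mod_cast h4
    omega

end Wr

section Root

variable {ι Pt k : Type*} [Fintype ι] [DecidableEq ι] [Field k]

/-- the product of the other linear factors -/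
noncomputable def coPoly (t : ι → k) (i : ι) : k[X] :=
  ∏ j ∈ Finset.univ.erase i, (X - C (t j))

theorem rootPoly_monic_eq (β : ι → Pt → ℕ) (t : ι → k) (p : Pt) : (rootPoly β t p).Monic := by
  unfold rootPoly
  exact monic_prod_of_monic _ _ fun i _ => (monic_X_sub_C _).pow _

theorem rootPoly_natDegree_eq (β : ι → Pt → ℕ) (t : ι → k) (p : Pt) :
    (rootPoly β t p).natDegree = ∑ i, β i p := by
  unfold rootPoly
  rw [natDegree_prod_of_monic _ _ fun i _ => (monic_X_sub_C _).pow _]
  apply Finset.sum_congr rfl
  intro i _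
  rw [(monic_X_sub_C (t i)).natDegree_pow, natDegree_X_sub_C, mul_one]

theorem derivative_rootPoly (β : ι → Pt → ℕ) (t : ι → k) (p : Pt) :
    (∏ j, (X - C (t j))) * derivative (rootPoly β t p)
      = rootPoly β t p * ∑ i, C (β i p : k) * coPoly t i := by
  unfold rootPoly
  rw [derivative_prod_finset, Finset.mul_sum, Finset.mul_sum]
  apply Finset.sum_congr rfl
  intro i _
  rw [← Finset.mul_prod_erase Finset.univ (fun j => X - C (t j)) (Finset.mem_univ i),
    ← Finset.mul_prod_erase Finset.univ (fun j => (X - C (t j)) ^ β j p) (Finset.mem_univ i)]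
  unfold coPoly
  rcases Nat.eq_zero_or_pos (β i p) with h | h
  · simp [h]
  · rw [derivative_X_sub_C_pow]
    obtain ⟨m, hm⟩ : ∃ m, β i p = m + 1 := ⟨β i p - 1, by omega⟩
    rw [hm, Nat.add_sub_cancel, pow_succ]
    push_cast
    simp only [map_add, map_one, map_natCast]
    ring

end Root

section Lead

variable {k Y Q : Type*} [Field k] [Fintype Y]

/-- kernels of polynomial matrices: if the matrix of the leading coefficients (of degree `n q` in
the row `q`) is injective then so is the polynomial matrix -/
theorem lead_injective (M : Q → Y → k[X]) (n : Q → ℕ) (hdeg : ∀ q y, (M q y).natDegree ≤ n q)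
    (hinj : ∀ x : Y → k, (∀ q, ∑ y, (M q y).coeff (n q) * x y = 0) → x = 0)
    (W : Y → k[X]) (hW : ∀ q, ∑ y, M q y * W y = 0) : W = 0 := by
  classical
  obtain ⟨d, hd⟩ : ∃ d, d = Finset.univ.sup fun y => (W y).natDegree := ⟨_, rfl⟩
  have hle : ∀ y, (W y).natDegree ≤ d := fun y => by
    rw [hd]; exact Finset.le_sup (f := fun y => (W y).natDegree) (Finset.mem_univ y)
  have hx : (fun y => (W y).coeff d) = 0 := by
    apply hinj
    intro q
    have h1 := congrArg (fun P : k[X] => P.coeff (n q + d)) (hW q)
    simp only [finsetSum_coeff, coeff_zero] at h1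
    rw [← h1]
    apply Finset.sum_congr rfl
    intro y _
    rw [coeff_mul_add_eq_of_natDegree_le (hdeg q y) (hle y)]
  have hx' : ∀ y, (W y).coeff d = 0 := fun y => congrFun hx y
  by_contra hne
  obtain ⟨y0, hy0⟩ : ∃ y, W y ≠ 0 := by
    by_contra hcon
    push Not at hcon
    exact hne (funext hcon)
  rcases Nat.eq_zero_or_pos d with h0 | h0
  · have h1 : (W y0).natDegree = 0 := by have := hle y0; omega
    have h2 := hx' y0
    rw [h0, ← h1, coeff_natDegree, leadingCoeff_eq_zero] at h2
    exact hy0 h2
  · obtain ⟨y1, -, hy1⟩ := Finset.exists_mem_eq_sup Finset.univ ⟨y0, Finset.mem_univ _⟩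
      (fun y => (W y).natDegree)
    rw [← hd] at hy1
    have h2 := hx' y1
    rw [hy1, coeff_natDegree, leadingCoeff_eq_zero] at h2
    rw [h2, natDegree_zero] at hy1
    omega

/-- a square system with a nontrivial kernel has dependent rows -/
theorem exists_row_dep [Fintype Q] (hcard : Fintype.card Y = Fintype.card Q) (M : Q → Y → k)
    (x : Y → k) (hx : x ≠ 0) (hMx : ∀ q, ∑ y, M q y * x y = 0) :
    ∃ c : Q → k, c ≠ 0 ∧ ∀ y, ∑ q, c q * M q y = 0 := by
  classical
  let A : (Y → k) →ₗ[k] (Q → k) := Matrix.mulVecLin (Matrix.of M)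
  have hA : ∀ v q, A v q = ∑ y, M q y * v y := by
    intro v q
    simp [A, Matrix.mulVec, dotProduct]
  have hninj : ¬ Function.Injective A := by
    intro hinj
    apply hx
    apply hinj
    rw [map_zero]
    funext q
    rw [hA]
    exact hMx q
  have hnsurj : ¬ Function.Surjective A := by
    intro hs
    apply hninj
    rwa [LinearMap.injective_iff_surjective_of_finrank_eq_finrank (by simp [hcard])]
  have hlt : LinearMap.range A < ⊤ := lt_top_iff_ne_top.mpr
    (fun h => hnsurj (LinearMap.range_eq_top.mp h))
  obtain ⟨φ, hφ, hle⟩ := Submodule.exists_le_ker_of_lt_top _ hlt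
  refine ⟨fun q => φ (Pi.single q 1), ?_, ?_⟩
  · intro h0
    apply hφ
    apply LinearMap.pi_ext'
    intro q
    ext
    simpa using congrFun h0 q
  · intro y
    have h1 : φ (A (Pi.single y 1)) = 0 := hle ⟨_, rfl⟩
    have h2 : A (Pi.single y 1) = ∑ q, M q y • (Pi.single q (1 : k) : Q → k) := by
      funext q
      rw [hA]
      simp [Finset.sum_apply, Pi.single_apply]
    rw [h2, map_sum] at h1
    rw [← h1]
    apply Finset.sum_congr rfl
    intro q _
    rw [map_smul, smul_eq_mul, mul_comm]

end Lead

end Pool.Agent.Work.Uni
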