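import Mathlib
import Pool.Agent.Work.MP_4329d7_ag_uni.EqAux

/-!
M9 (helper7): polynomial curves in a toric fibre of dimension zero are constant.
-/

set_option linter.unusedSectionVars false

namespace Pool.Agent.Work.Uni

open Polynomial

section

variable {k Pt Q I Y : Type*} [Field k] [CharZero k] [Fintype Pt] [DecidableEq Pt] [Fintype Y]
  [DecidableEq Y]

/-- the blocks of the modified system: `Ne` times the vector `e` and `ν y` times `v y` -/
def modBlocks (v : Y → Pt → ℕ) (ν : Y → ℕ) (e : Pt) (Ne : ℕ) :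
    (Fin Ne ⊕ (Σ y, Fin (ν y))) → Pt → ℕ :=
  Sum.elim (fun _ => Pi.single e 1) (fun x => v x.1)

theorem sum_modBlocks {M : Type*} [AddCommMonoid M] (v : Y → Pt → ℕ) (ν : Y → ℕ) (e : Pt)
    (Ne : ℕ) (F : (Pt → ℕ) → (Fin Ne ⊕ (Σ y, Fin (ν y))) → M) :
    ∑ i, F (modBlocks v ν e Ne i) i
      = (∑ i : Fin Ne, F (Pi.single e 1) (Sum.inl i))
        + ∑ y, ∑ j : Fin (ν y), F (v y) (Sum.inr ⟨y, j⟩) := by
  rw [Fintype.sum_sum_type, Fintype.sum_sigma]
  rfl

theorem sum_modBlocks_card (v : Y → Pt → ℕ) (ν : Y → ℕ) (e : Pt) (Ne : ℕ) (p : Pt) :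
    ∑ i, modBlocks v ν e Ne i p = (if p = e then Ne else 0) + ∑ y, ν y * v y p := by
  rw [sum_modBlocks v ν e Ne (fun b _ => b p)]
  congr 1
  · simp only [Finset.sum_const, Finset.card_univ, Fintype.card_fin, smul_eq_mul]
    by_cases h : p = e
    · subst h; simp
    · simp [h]
  · apply Finset.sum_congr rfl
    intro y _
    simp

theorem eq_curve_const {f : Pt → I} {g : Q → I} {a : Q → Pt → k} (ha : Coef f g a)
    (v : Y → Pt → ℕ) (ν : Y → ℕ) (e : Pt) (Ne : ℕ) (hNe : 0 < Ne) (μ : I → ℕ)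
    (hpack : ∀ p, (if p = e then Ne else 0) + ∑ y, ν y * v y p = μ (f p))
    (hinj : ∀ x : Y → k, (∀ q, 1 ≤ μ (g q) → ∑ y, (∑ p, a q p * (v y p : k)) * x y = 0) → x = 0)
    (t : (Fin Ne ⊕ (Σ y, Fin (ν y))) → k) (ht : IsSol a (modBlocks v ν e Ne) t) (p p' : Pt)
    (hpp : f p = f p') :
    rootPoly (modBlocks v ν e Ne) t p = rootPoly (modBlocks v ν e Ne) t p' := by
  classical
  obtain ⟨β, hβ⟩ : ∃ β, β = modBlocks v ν e Ne := ⟨_, rfl⟩
  rw [← hβ] at ht ⊢
  have hNe0 : (Ne : k) ≠ 0 := by exact_mod_cast hNe.ne'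
  -- degrees
  have hdegP : ∀ p, (rootPoly β t p).natDegree = μ (f p) := by
    intro p
    rw [rootPoly_natDegree_eq, hβ, sum_modBlocks_card, hpack]
  have hmon : ∀ p, (rootPoly β t p).Monic := rootPoly_monic_eq β t
  obtain ⟨P, hP⟩ : ∃ P : Pt → k[X], P = rootPoly β t := ⟨_, rfl⟩
  rw [← hP] at hdegP hmon ⊢
  have hsol : ∀ q, ∑ p, C (a q p) * P p = 0 := by
    intro q; rw [hP]; exact ht q
  obtain ⟨Pi0, hPi⟩ : ∃ Pi0 : k[X], Pi0 = ∏ j, (X - C (t j)) := ⟨_, rfl⟩
  have hPi0 : Pi0 ≠ 0 := by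
    rw [hPi]
    exact Finset.prod_ne_zero_iff.mpr fun j _ => X_sub_C_ne_zero _
  obtain ⟨Ss, hSs⟩ : ∃ Ss : k[X], Ss = ∑ i : Fin Ne, coPoly t (Sum.inl i) := ⟨_, rfl⟩
  obtain ⟨S, hS⟩ : ∃ S : Y → k[X], S = fun y => ∑ j : Fin (ν y), coPoly t (Sum.inr ⟨y, j⟩) :=
    ⟨_, rfl⟩
  have hE : ∀ p, ∑ i, C (β i p : k) * coPoly t i
      = C ((if p = e then 1 else 0 : ℕ) : k) * Ss + ∑ y, C (v y p : k) * S y := by
    intro p
    rw [hβ, sum_modBlocks v ν e Ne (fun b i => C (b p : k) * coPoly t i), hSs, hS,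
      ← Finset.mul_sum]
    congr 1
    · by_cases h : p = e
      · subst h; simp
      · simp [h]
    · apply Finset.sum_congr rfl
      intro y _
      rw [← Finset.mul_sum]
  have hder : ∀ p, Pi0 * derivative (P p)
      = P p * (C ((if p = e then 1 else 0 : ℕ) : k) * Ss + ∑ y, C (v y p : k) * S y) := by
    intro p
    rw [hPi, hP, derivative_rootPoly, hE]
  -- the polynomial matrix
  obtain ⟨M, hM⟩ : ∃ M : Q → Y → k[X], M = fun q y => ∑ p, C (a q p) * P p * C (v y p : k) :=
    ⟨_, rfl⟩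
  obtain ⟨T, hT⟩ : ∃ T : Q → k[X],
      T = fun q => ∑ p, C (a q p) * P p * C ((if p = e then 1 else 0 : ℕ) : k) := ⟨_, rfl⟩
  have hi : ∀ q, T q * Ss + ∑ y, M q y * S y = 0 := by
    intro q
    have h1 : Pi0 * derivative (∑ p, C (a q p) * P p) = 0 := by rw [hsol q]; simp
    rw [derivative_sum, Finset.mul_sum] at h1
    rw [← h1, hT, hM]
    simp only [Finset.sum_mul]
    rw [Finset.sum_comm, ← Finset.sum_add_distrib]
    apply Finset.sum_congr rfl
    intro p _
    rw [derivative_C_mul, show Pi0 * (C (a q p) * derivative (P p))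
      = C (a q p) * (Pi0 * derivative (P p)) by ring, hder, mul_add, mul_add, Finset.mul_sum,
      Finset.mul_sum]
    congr 1
    · ring
    · apply Finset.sum_congr rfl
      intro y _
      ring
  have hii : ∀ q, T q * C (Ne : k) + ∑ y, M q y * C (ν y : k) = 0 := by
    intro q
    have h1 : T q * C (Ne : k) + ∑ y, M q y * C (ν y : k)
        = ∑ p, C (a q p) * P p * C (μ (f p) : k) := by
      rw [hT, hM]
      simp only [Finset.sum_mul]
      rw [Finset.sum_comm, ← Finset.sum_add_distrib]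
      apply Finset.sum_congr rfl
      intro p _
      rw [← hpack p]
      push_cast
      simp only [map_add, map_sum, map_mul]
      rw [mul_add, Finset.mul_sum]
      congr 1
      · by_cases h : p = e <;> simp [h]
      · apply Finset.sum_congr rfl
        intro y _
        ring
    rw [h1]
    have h2 : ∀ p, C (a q p) * P p * C (μ (f p) : k) = C (μ (g q) : k) * (C (a q p) * P p) := by
      intro p
      by_cases h0 : a q p = 0
      · simp [h0]
      · rw [ha.fac q p h0]; ring
    simp only [h2]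
    rw [← Finset.mul_sum, hsol, mul_zero]
  -- the kernel
  have hW : (fun y => C (Ne : k) * S y - C (ν y : k) * Ss) = 0 := by
    apply lead_injective (Q := {q // 1 ≤ μ (g q)}) (fun q y => M q.1 y) (fun q => μ (g q.1))
    · rintro ⟨q, hq⟩ y
      rw [hM]
      apply natDegree_sum_le_of_forall_le
      intro p _
      by_cases h0 : a q p = 0
      · simp [h0]
      · refine (natDegree_mul_C_le _ _).trans ((natDegree_C_mul_le _ _).trans ?_)
        rw [hdegP, ha.fac q p h0]
    · intro x hx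
      apply hinj
      intro q hq
      rw [← hx ⟨q, hq⟩]
      apply Finset.sum_congr rfl
      intro y _
      congr 1
      rw [hM]
      simp only [finsetSum_coeff, coeff_mul_C, coeff_C_mul]
      apply Finset.sum_congr rfl
      intro p _
      by_cases h0 : a q p = 0
      · simp [h0]
      · have h1 : (P p).coeff (μ (g q)) = 1 := by
          rw [← ha.fac q p h0, ← hdegP p]; exact (hmon p).coeff_natDegree
        rw [h1, mul_one]
    · rintro ⟨q, hq⟩
      have h1 : ∑ y, M q y * (C (Ne : k) * S y - C (ν y : k) * Ss)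
          = C (Ne : k) * (∑ y, M q y * S y) - (∑ y, M q y * C (ν y : k)) * Ss := by
        rw [Finset.mul_sum, Finset.sum_mul, ← Finset.sum_sub_distrib]
        apply Finset.sum_congr rfl
        intro y _
        ring
      dsimp only
      rw [h1]
      linear_combination C (Ne : k) * hi q - Ss * hii q
  have hW' : ∀ y, C (Ne : k) * S y = C (ν y : k) * Ss := fun y => by
    have := congrFun hW y
    simp only [Pi.zero_apply] at this
    exact sub_eq_zero.mp this
  -- the logarithmic derivatives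
  have hEp : ∀ p, C (Ne : k) * (C ((if p = e then 1 else 0 : ℕ) : k) * Ss
      + ∑ y, C (v y p : k) * S y) = C (μ (f p) : k) * Ss := by
    intro p
    have h1 : ∀ y, C (Ne : k) * (C (v y p : k) * S y) = C ((ν y * v y p : ℕ) : k) * Ss := by
      intro y
      rw [show C (Ne : k) * (C (v y p : k) * S y) = C (v y p : k) * (C (Ne : k) * S y) by ring,
        hW' y]
      push_cast
      rw [map_mul]
      ring
    rw [mul_add, Finset.mul_sum, ← hpack p]
    simp only [h1]
    push_cast
    simp only [map_add, map_sum]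
    rw [add_mul, Finset.sum_mul]
    congr 1
    by_cases h : p = e <;> simp [h]
  have hC : C (Ne : k) ≠ 0 := C_ne_zero.mpr hNe0
  have hEE := mul_left_cancel₀ hC ((hEp p).trans (by rw [hpp]; exact (hEp p').symm))
  apply eq_of_deriv (hmon p) (hmon p') (hdegP p) (by rw [hdegP, hpp])
  apply mul_left_cancel₀ hPi0
  rw [← mul_assoc, hder p, ← mul_assoc, hder p', hEE]
  ring

end

end Pool.Agent.Work.Uni
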