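import Mathlib
import Pool.Agent.Work.MP_4329d7_ag_uni.EqConst
import Pool.Agent.Work.MP_4329d7_ag_uni.Sys

/-!
M9 (helper7): the packing `(N_e e, ν_i b_i)` with as many types `b_i` as relations is impossible.
-/

set_option linter.unusedSectionVars false

namespace Pool.Agent.Work.Uni

open Polynomial

/-- the vectors `v y` are independent modulo the vectors which are constant on the factors -/
def Indep {Pt I Y : Type*} [Fintype Y] (f : Pt → I) (v : Y → Pt → ℕ) : Prop :=
  ∀ (x : Y → ℤ) (z : I → ℤ), (∀ p, ∑ y, x y * (v y p : ℤ) = z (f p)) → x = 0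

theorem Indep.subtype {Pt I Y : Type*} [Fintype Y] {f : Pt → I} {v : Y → Pt → ℕ}
    (h : Indep f v) (P : Y → Prop) [DecidablePred P] :
    Indep f (fun y : {y // P y} => v y) := by
  classical
  intro x z hx
  have h1 : (fun y => if hy : P y then x ⟨y, hy⟩ else 0) = 0 := by
    apply h _ z
    intro p
    rw [← hx p]
    rw [← Finset.sum_filter_add_sum_filter_not Finset.univ P]
    have h2 : ∑ y ∈ Finset.univ.filter (fun y => ¬ P y),
        (if hy : P y then x ⟨y, hy⟩ else 0) * (v y p : ℤ) = 0 := by
      apply Finset.sum_eq_zero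
      intro y hy
      rw [dif_neg (Finset.mem_filter.mp hy).2, zero_mul]
    rw [h2, add_zero]
    rw [← Finset.sum_subtype_eq_sum_filter, Finset.subtype_univ]
    apply Finset.sum_congr rfl
    intro y _
    rw [dif_pos y.2]
  funext y
  have h2 := congrFun h1 y.1
  simp only [dif_pos y.2, Pi.zero_apply] at h2
  exact h2

theorem exists_factor {Pt I M : Type*} [Zero M] (f : Pt → I) (F : Pt → M)
    (h : ∀ p p', f p = f p' → F p = F p') : ∃ z : I → M, ∀ p, F p = z (f p) := by
  classical
  refine ⟨Function.extend f F 0, fun p => ?_⟩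
  have : Function.FactorsThrough F f := fun a b hab => h a b hab
  exact (this.extend_apply 0 p).symm

theorem sum_group {X Y : Type*} [Fintype Y] [DecidableEq Y] (s : Finset X) (τ : X → Y)
    (F : Y → ℕ) : ∑ x ∈ s, F (τ x) = ∑ y, (s.filter fun x => τ x = y).card * F y := by
  rw [← Finset.sum_fiberwise s τ]
  apply Finset.sum_congr rfl
  intro y _
  rw [Finset.sum_congr rfl (fun x hx => by rw [(Finset.mem_filter.mp hx).2] :
    ∀ x ∈ s.filter fun x => τ x = y, F (τ x) = F y), Finset.sum_const, smul_eq_mul]

/-- a group which is a packing of independent types is empty -/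
theorem group_empty {Pt I X Y : Type*} [Fintype Y] [DecidableEq Y] {f : Pt → I} {v : Y → Pt → ℕ}
    (hind : Indep f v) (s : Finset X) (τ : X → Y)
    (h : ∀ p p', f p = f p' → ∑ x ∈ s, v (τ x) p = ∑ x ∈ s, v (τ x) p') : s = ∅ := by
  classical
  obtain ⟨z, hz⟩ := exists_factor f (fun p => ∑ x ∈ s, v (τ x) p) h
  have h1 : (fun y => ((s.filter fun x => τ x = y).card : ℤ)) = 0 := by
    apply hind _ (fun i => (z i : ℤ))
    intro p
    rw [← hz p, sum_group s τ (fun y => v y p)]
    push_cast
    rfl
  rw [Finset.eq_empty_iff_forall_notMem]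
  intro x hx
  have h2 := congrFun h1 (τ x)
  simp only [Pi.zero_apply, Nat.cast_eq_zero, Finset.card_eq_zero] at h2
  have h3 : x ∈ s.filter fun x' => τ x' = τ x := Finset.mem_filter.mpr ⟨hx, rfl⟩
  rw [h2] at h3
  exact Finset.notMem_empty _ h3

section Key

variable {k Pt Q I : Type} [Field k] [IsAlgClosed k] [CharZero k] [Fintype Pt]
  [DecidableEq Pt] [Fintype Q] [Fintype I] [DecidableEq I]

/-- a function of the factor is in `L` -/
theorem factor_mem {B : BlockData Pt} {f : Pt → I}
    (hone : ∀ i, (fun p => if f p = i then (1 : ℤ) else 0) ∈ B.L) (z : I → ℤ) :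
    (fun p => z (f p)) ∈ B.L := by
  have h : (fun p => z (f p)) = ∑ i, z i • (fun p => if f p = i then (1 : ℤ) else 0) := by
    funext p
    rw [Finset.sum_apply]
    simp
  rw [h]
  exact AddSubgroup.sum_mem _ fun i _ => AddSubgroup.zsmul_mem _ (hone i) _

theorem key_inj {B : BlockData Pt} {f : Pt → I} {g : Q → I} {a : Q → Pt → k}
    (ha : Coef f g a) (hstar : Star B f a)
    {Y : Type} [Fintype Y] [DecidableEq Y] {v : Y → Pt → ℕ} {ν : Y → ℕ}
    (hv : ∀ y, B.IsBlock (v y)) {e : Pt} {n : ℕ}
    (hE : B.IsBlock (Pi.single e n)) {μ : I → ℕ}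
    (hpack : ∀ p, (if p = e then n else 0) + ∑ y, ν y * v y p = μ (f p))
    (hsum : ∑ y, ν y = ∑ q, μ (g q))
    (hcard : Fintype.card Y = Fintype.card {q // 1 ≤ μ (g q)})
    (hind : Indep f v) (x : Y → k)
    (hx : ∀ q, 1 ≤ μ (g q) → ∑ y, (∑ p, a q p * (v y p : k)) * x y = 0) : x = 0 := by
  classical
  by_contra hx0
  obtain ⟨c, hc, hcy⟩ := exists_row_dep (k := k) (Q := {q // 1 ≤ μ (g q)}) hcard
    (fun q y => ∑ p, a q.1 p * (v y p : k)) x hx0 (fun q => hx q.1 q.2)
  let c' : Q → k := fun q => if h : 1 ≤ μ (g q) then c ⟨q, h⟩ else 0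
  have hc'sum : ∀ F : Q → k, ∑ q, c' q * F q = ∑ q : {q // 1 ≤ μ (g q)}, c q * F q.1 := by
    intro F
    rw [← Finset.sum_filter_add_sum_filter_not Finset.univ (fun q => 1 ≤ μ (g q))]
    have h2 : ∑ q ∈ Finset.univ.filter (fun q => ¬ 1 ≤ μ (g q)), c' q * F q = 0 := by
      apply Finset.sum_eq_zero
      intro q hq
      simp only [c', dif_neg (Finset.mem_filter.mp hq).2, zero_mul]
    rw [h2, add_zero, ← Finset.sum_subtype_eq_sum_filter, Finset.subtype_univ]
    apply Finset.sum_congr rfl
    intro q _
    simp only [c', dif_pos q.2]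
  have hcv : ∀ y, ∑ q, c' q * ∑ p, a q p * (v y p : k) = 0 := by
    intro y
    rw [hc'sum]
    exact hcy y
  have hcE : ∑ q, c' q * ∑ p, a q p * ((Pi.single e n : Pt → ℕ) p : k) = 0 := by
    have h1 : ∀ q, ∑ p, a q p * ((Pi.single e n : Pt → ℕ) p : k)
        = - ∑ y, (ν y : k) * ∑ p, a q p * (v y p : k) := by
      intro q
      have h2 : ∑ p, a q p * (μ (f p) : k) = 0 := by
        have h3 : ∀ p, a q p * (μ (f p) : k) = (μ (g q) : k) * a q p := by
          intro p
          by_cases h0 : a q p = 0
          · simp [h0]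
          · rw [ha.fac q p h0]; ring
        simp only [h3]
        rw [← Finset.mul_sum, ha.sum q, mul_zero]
      have h4 : ∑ p, a q p * (μ (f p) : k) = ∑ p, a q p * ((Pi.single e n : Pt → ℕ) p : k)
          + ∑ y, (ν y : k) * ∑ p, a q p * (v y p : k) := by
        have h5 : ∀ p, (μ (f p) : k) = ((Pi.single e n : Pt → ℕ) p : k)
            + ∑ y, (ν y : k) * (v y p : k) := by
          intro p
          rw [← hpack p]
          push_cast
          congr 1
          by_cases h : p = e
          · subst h; simp
          · simp [h]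
        simp only [h5, mul_add, Finset.sum_add_distrib]
        congr 1
        simp only [Finset.mul_sum]
        rw [Finset.sum_comm]
        apply Finset.sum_congr rfl
        intro y _
        apply Finset.sum_congr rfl
        intro p _
        ring
      rw [h2] at h4
      linear_combination -h4
    simp only [h1, mul_neg, Finset.sum_neg_distrib, neg_eq_zero]
    simp only [Finset.mul_sum]
    rw [Finset.sum_comm]
    apply Finset.sum_eq_zero
    intro y _
    have h6 := hcv y
    have h7 : ∑ q, ∑ p, c' q * ((ν y : k) * (a q p * (v y p : k)))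
        = (ν y : k) * ∑ q, c' q * ∑ p, a q p * (v y p : k) := by
      simp only [Finset.mul_sum]
      apply Finset.sum_congr rfl
      intro q _
      apply Finset.sum_congr rfl
      intro p _
      ring
    rw [h7, h6, mul_zero]
  -- the system
  let β : Option (Σ y, Fin (ν y)) → Pt → ℕ := fun i => i.elim (Pi.single e n) (fun z => v z.1)
  have hβ0 : β none = Pi.single e n := rfl
  have hβ1 : ∀ z, β (some z) = v z.1 := fun _ => rfl
  have hsumβ : ∀ p, ∑ i, β i p = μ (f p) := by
    intro p
    rw [Fintype.sum_option, hβ0, Fintype.sum_sigma, ← hpack p]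
    congr 1
    · by_cases h : p = e
      · subst h; simp
      · simp [h]
    · apply Finset.sum_congr rfl
      intro y _
      simp [hβ1]
  have hblock : ∀ i, B.IsBlock (β i) := by
    rintro (_ | z)
    · exact hE
    · exact hv z.1
  obtain ⟨t, ht, i, j, hij⟩ := exists_nonconst_sol_of_dep a ha.sum β (fun q => μ (g q))
    (fun q p h => by rw [hsumβ p, ha.fac q p h])
    (by rw [Fintype.card_option, Fintype.card_sigma]; simp [hsum]) c'
    (by
      by_contra hcon
      push Not at hcon
      apply hc
      funext q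
      have := hcon q.1
      simp only [c', dif_pos q.2] at this
      exact this)
    (by
      intro q hq
      by_contra h
      apply hq
      simp only [c', dif_neg h])
    (by
      rintro (_ | z)
      · exact hcE
      · exact hcv z.1)
  have hconst := hstar _ β μ hblock hsumβ t ht
  have hgp := group_pack f β t hconst
  have hall : ∀ z, t (some z) = t none := by
    intro z
    by_contra hne
    have hemp := group_empty hind (Finset.univ.filter fun z' => t (some z') = t (some z))
      (fun z' : Σ y, Fin (ν y) => z'.1) (by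
        intro p p' hpp
        have h1 := hgp (t (some z)) p p' hpp
        have h2 : ∀ p, ∑ i with t i = t (some z), β i p
            = ∑ z' with t (some z') = t (some z), v z'.1 p := by
          intro p
          rw [Finset.sum_filter, Fintype.sum_option, if_neg (fun h => hne h.symm), zero_add,
            Finset.sum_filter]
          rfl
        rw [h2, h2] at h1
        exact h1)
    have : z ∈ (∅ : Finset (Σ y, Fin (ν y))) := by
      rw [← hemp]
      simp
    exact Finset.notMem_empty _ this
  have hall' : ∀ i, t i = t none := by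
    rintro (_ | z)
    · rfl
    · exact hall z
  exact hij ((hall' i).trans (hall' j).symm)

theorem key {B : BlockData Pt} {f : Pt → I} {g : Q → I} {a : Q → Pt → k}
    (ha : Coef f g a) (hstar : Star B f a)
    (hone : ∀ i, (fun p => if f p = i then (1 : ℤ) else 0) ∈ B.L)
    {Y : Type} [Fintype Y] [DecidableEq Y] {v : Y → Pt → ℕ} {ν : Y → ℕ}
    (hv : ∀ y, B.IsBlock (v y)) {e : Pt} {n : ℕ} (hn : 2 ≤ n)
    (hE : B.IsBlock (Pi.single e n))
    (hmin : ∀ c : ℕ, (Pi.single e (c : ℤ) : Pt → ℤ) ∈ B.L → n ∣ c) {μ : I → ℕ}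
    (hpack : ∀ p, (if p = e then n else 0) + ∑ y, ν y * v y p = μ (f p))
    (hsum : ∑ y, ν y = ∑ q, μ (g q))
    (hcard : Fintype.card Y = Fintype.card {q // 1 ≤ μ (g q)})
    (hind : Indep f v) : False := by
  classical
  have hinj := key_inj ha hstar hv hE hpack hsum hcard hind
  have hsumβ : ∀ p, ∑ i, modBlocks v ν e n i p = μ (f p) := by
    intro p
    rw [sum_modBlocks_card, hpack]
  obtain ⟨t, ht, i, j, hij⟩ := exists_nonconst_sol a ha.sum (modBlocks v ν e n)
    (fun q => μ (g q)) (fun q p h => by rw [hsumβ p, ha.fac q p h])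
    (by
      rw [Fintype.card_sum, Fintype.card_fin, Fintype.card_sigma]
      simp only [Fintype.card_fin]
      rw [hsum]
      omega)
  have hconst := eq_curve_const ha v ν e n (by omega) μ hpack hinj t ht
  have hgp := group_pack f (modBlocks v ν e n) t hconst
  have hsplit : ∀ s p, ∑ i with t i = s, modBlocks v ν e n i p
      = (if p = e then (Finset.univ.filter fun i : Fin n => t (Sum.inl i) = s).card else 0)
        + ∑ z with t (Sum.inr z) = s, v (z : Σ y, Fin (ν y)).1 p := by
    intro s p
    rw [Finset.sum_filter, Fintype.sum_sum_type]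
    congr 1
    · rw [← Finset.sum_filter]
      have : ∀ i : Fin n, modBlocks v ν e n (Sum.inl i) p = if p = e then 1 else 0 := by
        intro i
        simp only [modBlocks, Sum.elim_inl]
        by_cases h : p = e
        · subst h; simp
        · simp [h]
      simp only [this]
      by_cases h : p = e <;> simp [h]
    · rw [← Finset.sum_filter]
      rfl
  -- the number of copies of `e` in a group is divisible by `n`
  have hdvd : ∀ s, n ∣ (Finset.univ.filter fun i : Fin n => t (Sum.inl i) = s).card := by
    intro s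
    apply hmin
    obtain ⟨z, hz⟩ := exists_factor f (fun p => ∑ i with t i = s, modBlocks v ν e n i p)
      (hgp s)
    have h1 : (Pi.single e (((Finset.univ.filter fun i : Fin n => t (Sum.inl i) = s).card : ℕ)
          : ℤ) : Pt → ℤ)
        = (fun p => (z (f p) : ℤ)) - ∑ x with t (Sum.inr x) = s,
          (fun p => (v (x : Σ y, Fin (ν y)).1 p : ℤ)) := by
      funext p
      rw [Pi.sub_apply, Finset.sum_apply, ← hz p, hsplit]
      push_cast
      by_cases h : p = e
      · subst h; simp
      · simp [h]
    rw [h1]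
    apply AddSubgroup.sub_mem
    · exact factor_mem hone (fun i => (z i : ℤ))
    · exact AddSubgroup.sum_mem _ fun x _ => (hv x.1).2.1
  have hempty : ∀ s, (Finset.univ.filter fun i : Fin n => t (Sum.inl i) = s).card = 0 →
      ∀ z, t (Sum.inr z) ≠ s := by
    intro s hs z hz
    have hemp := group_empty hind (Finset.univ.filter fun z' => t (Sum.inr z') = s)
      (fun z' : Σ y, Fin (ν y) => z'.1) (by
        intro p p' hpp
        have h1 := hgp s p p' hpp
        rw [hsplit, hsplit, hs] at h1
        simpa using h1)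
    have : z ∈ (∅ : Finset (Σ y, Fin (ν y))) := by
      rw [← hemp]
      simp [hz]
    exact Finset.notMem_empty _ this
  obtain ⟨i0, hi0⟩ : ∃ i0 : Fin n, i0 = ⟨0, by omega⟩ := ⟨_, rfl⟩
  have hle : ∀ s, (Finset.univ.filter fun i : Fin n => t (Sum.inl i) = s).card ≤ n := by
    intro s
    refine (Finset.card_le_univ _).trans (by simp)
  have hfull : ∀ i : Fin n, t (Sum.inl i) = t (Sum.inl i0) := by
    have h1 : 0 < (Finset.univ.filter fun i : Fin n => t (Sum.inl i) = t (Sum.inl i0)).card :=
      Finset.card_pos.mpr ⟨i0, by simp⟩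
    have h2 := Nat.le_of_dvd h1 (hdvd (t (Sum.inl i0)))
    have h3 := hle (t (Sum.inl i0))
    have h4 : (Finset.univ.filter fun i : Fin n => t (Sum.inl i) = t (Sum.inl i0)).card
        = (Finset.univ : Finset (Fin n)).card := by
      rw [Finset.card_univ, Fintype.card_fin]; omega
    have h5 := (Finset.card_eq_iff_eq_univ _).mp (h4.trans (by simp))
    intro i
    have : i ∈ (Finset.univ.filter fun i : Fin n => t (Sum.inl i) = t (Sum.inl i0)) := by
      rw [h5]; exact Finset.mem_univ _
    exact (Finset.mem_filter.mp this).2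
  have hall : ∀ i, t i = t (Sum.inl i0) := by
    rintro (i | z)
    · exact hfull i
    · by_contra hne
      apply hempty (t (Sum.inr z)) _ z rfl
      rw [Finset.card_eq_zero, Finset.filter_eq_empty_iff]
      intro i _ h
      exact hne (h.symm.trans (hfull i))
  exact hij ((hall i).trans (hall j).symm)

end Key

end Pool.Agent.Work.Uni
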