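import Mathlib
import Pool.Agent.Work.MP_4329d7_ag_uni.EqKey

/-!
M9 (helper7): the equality case.
-/

set_option linter.unusedSectionVars false

namespace Pool.Agent.Work.Uni

section

variable {Pt I Ty Y : Type} [Fintype Pt] [Fintype Ty] [Fintype Y]

theorem indep_of_ext {f : Pt → I} {b : Ty → Pt → ℕ} {lam : Ty → ℕ} {m : I → ℕ}
    (hext : IsExt f b lam m) (y0 : Ty) [DecidablePred fun y => y ≠ y0] :
    Indep f (fun y : {y // y ≠ y0} => b y) := by
  classical
  intro x z hx
  obtain ⟨x', hx'⟩ : ∃ x' : Ty → ℤ, x' = fun y => if hy : y ≠ y0 then x ⟨y, hy⟩ else 0 :=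
    ⟨_, rfl⟩
  have hx'0 : x' y0 = 0 := by rw [hx']; simp
  have hx's : ∀ y : {y // y ≠ y0}, x' y = x y := by
    intro y
    rw [hx']
    simp only [dif_pos y.2]
  have hsum : ∀ p, ∑ y, x' y * (b y p : ℤ) = z (f p) := by
    intro p
    rw [← hx p, ← Finset.sum_filter_add_sum_filter_not Finset.univ (fun y => y ≠ y0)]
    have h2 : ∑ y ∈ Finset.univ.filter (fun y => ¬ y ≠ y0), x' y * (b y p : ℤ) = 0 := by
      apply Finset.sum_eq_zero
      intro y hy
      have : y = y0 := by simpa using (Finset.mem_filter.mp hy).2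
      rw [this, hx'0, zero_mul]
    rw [h2, add_zero, ← Finset.sum_subtype_eq_sum_filter, Finset.subtype_univ]
    apply Finset.sum_congr rfl
    intro y _
    rw [hx's]
  obtain ⟨n, hn⟩ : ∃ n : ℕ, n = ∑ y, (x' y).natAbs := ⟨_, rfl⟩
  have hnn : ∀ y, 0 ≤ (n : ℤ) * lam y + x' y := by
    intro y
    have h1 : (x' y).natAbs ≤ n := by
      rw [hn]
      exact Finset.single_le_sum (f := fun y => (x' y).natAbs) (fun _ _ => Nat.zero_le _)
        (Finset.mem_univ y)
    have h2 := hext.pos y
    have h3 : n * 1 ≤ n * lam y := Nat.mul_le_mul_left _ h2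
    have h4 : (n : ℤ) * 1 ≤ (n : ℤ) * lam y := by exact_mod_cast h3
    omega
  obtain ⟨nu, hnu⟩ : ∃ nu : Ty → ℕ, ∀ y, (nu y : ℤ) = (n : ℤ) * lam y + x' y :=
    ⟨fun y => ((n : ℤ) * lam y + x' y).toNat, fun y => Int.toNat_of_nonneg (hnn y)⟩
  have hpk : ∀ p, ((∑ y, nu y * b y p : ℕ) : ℤ) = (n : ℤ) * m (f p) + z (f p) := by
    intro p
    rw [← hext.pack p, ← hsum p]
    push_cast
    rw [Finset.mul_sum, ← Finset.sum_add_distrib]
    apply Finset.sum_congr rfl
    intro y _
    rw [hnu y]
    ring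
  have hpack : IsPack f b nu (fun i => ((n : ℤ) * m i + z i).toNat) := by
    intro p
    have h1 := hpk p
    have h2 : (0 : ℤ) ≤ (n : ℤ) * m (f p) + z (f p) := by rw [← h1]; positivity
    have h3 : (((((n : ℤ) * m (f p) + z (f p)).toNat : ℕ)) : ℤ) = (n : ℤ) * m (f p) + z (f p) :=
      Int.toNat_of_nonneg h2
    have h4 := h1.trans h3.symm
    exact_mod_cast h4
  obtain ⟨j, hj⟩ := hext.uniq nu _ hpack
  have hj0 : j = n := by
    have h1 := hnu y0
    rw [hj y0, hx'0, add_zero] at h1
    have h2 : j * lam y0 = n * lam y0 := by exact_mod_cast h1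
    exact Nat.eq_of_mul_eq_mul_right (by have := hext.pos y0; omega) h2
  funext y
  have h1 := hnu y.1
  rw [hj y.1, hj0, hx's y] at h1
  push_cast at h1
  simp only [Pi.zero_apply]
  linarith

theorem sum_subtype_pos (n : Y → ℕ) : ∑ y : {y // 1 ≤ n y}, n y = ∑ y, n y := by
  classical
  rw [← Finset.sum_filter_add_sum_filter_not Finset.univ (fun y => 1 ≤ n y)]
  have h2 : ∑ y ∈ Finset.univ.filter (fun y => ¬ 1 ≤ n y), n y = 0 := by
    apply Finset.sum_eq_zero
    intro y hy
    have := (Finset.mem_filter.mp hy).2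
    omega
  rw [h2, add_zero, ← Finset.sum_subtype_eq_sum_filter, Finset.subtype_univ]

theorem sum_subtype_mul (n F : Y → ℕ) : ∑ y : {y // 1 ≤ n y}, n y * F y = ∑ y, n y * F y := by
  classical
  rw [← Finset.sum_filter_add_sum_filter_not Finset.univ (fun y => 1 ≤ n y)]
  have h2 : ∑ y ∈ Finset.univ.filter (fun y => ¬ 1 ≤ n y), n y * F y = 0 := by
    apply Finset.sum_eq_zero
    intro y hy
    have := (Finset.mem_filter.mp hy).2
    have h3 : n y = 0 := by omega
    rw [h3, zero_mul]
  rw [h2, add_zero, ← Finset.sum_subtype_eq_sum_filter, Finset.subtype_univ]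

/-- a packing containing a vector once and otherwise independent types is extreme -/
theorem ext_option {f : Pt → I} {v : Y → Pt → ℕ} (hind : Indep f v) (n : Y → ℕ)
    (F : Pt → ℕ) (μ : I → ℕ) (h : ∀ p, F p + ∑ y, n y * v y p = μ (f p)) :
    IsExt f (fun o : Option {y // 1 ≤ n y} => o.elim F (fun y => v y))
      (fun o => o.elim 1 (fun y => n y)) μ := by
  classical
  refine ⟨?_, ?_, ?_⟩
  · intro p
    rw [Fintype.sum_option]
    simp only [Option.elim_none, Option.elim_some, one_mul]
    rw [sum_subtype_mul n (fun y => v y p), h]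
  · rintro (_ | y)
    · exact le_rfl
    · exact y.2
  · intro nu m' hpk
    refine ⟨nu none, ?_⟩
    have h1 : (fun y : {y // 1 ≤ n y} => (nu (some y) : ℤ) - nu none * n y) = 0 := by
      apply hind.subtype (fun y => 1 ≤ n y) _ (fun i => (m' i : ℤ) - nu none * μ i)
      intro p
      have h2 := hpk p
      rw [Fintype.sum_option] at h2
      simp only [Option.elim_none, Option.elim_some] at h2
      have h3 := h p
      rw [← sum_subtype_mul n (fun y => v y p)] at h3
      have h4 : ((nu none : ℤ)) * F p + ∑ y : {y // 1 ≤ n y}, (nu (some y) : ℤ) * v y p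
          = m' (f p) := by exact_mod_cast h2
      have h5 : (F p : ℤ) + ∑ y : {y // 1 ≤ n y}, (n y : ℤ) * v y p = μ (f p) := by
        exact_mod_cast h3
      rw [← h4, ← h5, mul_add, Finset.mul_sum]
      have h6 : ∑ y : {y // 1 ≤ n y}, ((nu (some y) : ℤ) - nu none * n y) * (v y p : ℤ)
          = ∑ y : {y // 1 ≤ n y}, (nu (some y) : ℤ) * v y p
            - ∑ y : {y // 1 ≤ n y}, (nu none : ℤ) * ((n y : ℤ) * v y p) := by
        rw [← Finset.sum_sub_distrib]
        apply Finset.sum_congr rfl
        intro y _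
        ring
      rw [h6]
      ring
    rintro (_ | y)
    · simp
    · have h2 := congrFun h1 y
      simp only [Pi.zero_apply] at h2
      simp only [Option.elim_some]
      have h3 : (nu (some y) : ℤ) = nu none * n y := by linarith
      exact_mod_cast h3

end

/-- the equality case -/
theorem eq_case {k Pt Q I : Type} [Field k] [IsAlgClosed k] [CharZero k] [Fintype Pt]
    [DecidableEq Pt] [Fintype Q] [Fintype I] [DecidableEq I] (B : BlockData Pt) (f : Pt → I)
    (g : Q → I) (a : Q → Pt → k) (ha : Coef f g a) (hstar : Star B f a) (hcrit : Crit B f g)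
    (hone : ∀ i, (fun p => if f p = i then (1 : ℤ) else 0) ∈ B.L) (N : ℕ) (hN : 0 < N)
    (hNL : ∀ p, (Pi.single p (N : ℤ) : Pt → ℤ) ∈ B.L) (hsmall : ∀ p, B.Small {p})
    (hbr : ∀ p, (Pi.single p (1 : ℤ) : Pt → ℤ) ∉ B.L)
    (Ty : Type) [Fintype Ty] (b : Ty → Pt → ℕ) (lam : Ty → ℕ) (m : I → ℕ)
    (hb : ∀ t, B.IsBlock (b t)) (hext : IsExt f b lam m) :
    ∑ t, lam t ≤ ∑ q, m (g q) := by
  classical
  by_contra hcon
  push Not at hcon
  obtain ⟨hle, hcr⟩ := hcrit Ty b lam m hb hext
  have heq : ∑ t, lam t = ∑ q, m (g q) + 1 := by omega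
  have hJ := hcr heq
  -- a type of multiplicity one
  obtain ⟨y0, hy0⟩ : ∃ y0, lam y0 = 1 := by
    by_contra hno
    push Not at hno
    have h2 : ∀ y, 2 ≤ lam y := fun y => by have := hext.pos y; have := hno y; omega
    have h3 := hJ 1 le_rfl
    have h4 := hJ 2 (by norm_num)
    have h5 : ∑ t, min (lam t) 1 = Fintype.card Ty := by
      rw [Finset.sum_congr rfl (fun t _ => min_eq_right (hext.pos t))]
      simp
    have h6 : ∑ t, min (lam t) 2 = 2 * Fintype.card Ty := by
      rw [Finset.sum_congr rfl (fun t _ => min_eq_right (h2 t))]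
      simp [mul_comm]
    have h7 : ∑ q, min (m (g q)) 2 ≤ ∑ q, 2 * min (m (g q)) 1 :=
      Finset.sum_le_sum fun q _ => by omega
    rw [← Finset.mul_sum] at h7
    omega
  -- a point in the support of `b y0`
  obtain ⟨e, he⟩ : ∃ e, b y0 e ≠ 0 := by
    by_contra hno
    push Not at hno
    exact (hb y0).1 (funext hno)
  -- the order of `e`
  have hex : ∃ c : ℕ, 0 < c ∧ (Pi.single e (c : ℤ) : Pt → ℤ) ∈ B.L := ⟨N, hN, hNL e⟩
  obtain ⟨n, hn⟩ : ∃ n, n = Nat.find hex := ⟨_, rfl⟩
  have hn0 : 0 < n := by rw [hn]; exact (Nat.find_spec hex).1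
  have hnL : (Pi.single e (n : ℤ) : Pt → ℤ) ∈ B.L := by rw [hn]; exact (Nat.find_spec hex).2
  have hmin : ∀ c : ℕ, (Pi.single e (c : ℤ) : Pt → ℤ) ∈ B.L → n ∣ c := by
    intro c hc
    by_contra hnd
    have hpos : 0 < c % n := Nat.pos_of_ne_zero fun h => hnd (Nat.dvd_of_mod_eq_zero h)
    have hlt : c % n < n := Nat.mod_lt _ hn0
    have hmem : (Pi.single e ((c % n : ℕ) : ℤ) : Pt → ℤ) ∈ B.L := by
      have h1 : (Pi.single e ((c % n : ℕ) : ℤ) : Pt → ℤ)
          = Pi.single e (c : ℤ) - ((c / n : ℕ) : ℤ) • Pi.single e (n : ℤ) := by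
        rw [← Pi.single_smul, ← Pi.single_sub]
        congr 1
        have h2 := Nat.mod_add_div c n
        have h3 : ((c % n : ℕ) : ℤ) + (n : ℤ) * ((c / n : ℕ) : ℤ) = c := by exact_mod_cast h2
        rw [smul_eq_mul]
        linarith
      rw [h1]
      exact AddSubgroup.sub_mem _ hc (AddSubgroup.zsmul_mem _ hnL _)
    have h4 := Nat.find_min' hex ⟨hpos, hmem⟩
    omega
  have hn2 : 2 ≤ n := by
    by_contra h
    have h1 : n = 1 := by omega
    apply hbr e
    have := hnL
    rw [h1] at this
    simpa using this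
  -- the two new blocks
  have hE : B.IsBlock (Pi.single e n) := by
    refine ⟨?_, ?_, ?_⟩
    · intro h
      have := congrFun h e
      simp at this
      omega
    · have h1 : (fun p => ((Pi.single e n : Pt → ℕ) p : ℤ)) = Pi.single e (n : ℤ) := by
        funext p
        by_cases h : p = e
        · subst h; simp
        · simp [h]
      rw [h1]
      exact hnL
    · apply B.mono _ _ _ (hsmall e)
      intro p hp
      simp only [Finset.mem_filter, Finset.mem_univ, true_and] at hp
      rw [Finset.mem_singleton]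
      by_contra h
      apply hp
      simp [h]
  obtain ⟨F, hF⟩ : ∃ F : Pt → ℕ, F = fun p => n * b y0 p - if p = e then n else 0 := ⟨_, rfl⟩
  have hFe : ∀ p, (if p = e then n else 0) + F p = n * b y0 p := by
    intro p
    rw [hF]
    dsimp only
    by_cases h : p = e
    · rw [if_pos h, h]
      have h1 : n * 1 ≤ n * b y0 e := Nat.mul_le_mul_left _ (Nat.one_le_iff_ne_zero.mpr he)
      omega
    · simp [h]
  have hFB : B.IsBlock F := by
    refine ⟨?_, ?_, ?_⟩
    · intro h0
      apply hbr e
      have h1 : (Pi.single e (1 : ℤ) : Pt → ℤ) = fun p => (b y0 p : ℤ) := by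
        funext p
        have h2 := hFe p
        rw [h0, Pi.zero_apply, add_zero] at h2
        by_cases h : p = e
        · rw [if_pos h] at h2
          have h3 : b y0 p = 1 := by
            have h4 : n * b y0 p = n * 1 := by rw [← h2, mul_one]
            exact Nat.eq_of_mul_eq_mul_left hn0 h4
          rw [h3, h]
          simp
        · rw [if_neg h] at h2
          have h3 : b y0 p = 0 := by
            rcases Nat.mul_eq_zero.mp h2.symm with h4 | h4
            · omega
            · exact h4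
          rw [h3]
          simp [h]
      rw [h1]
      exact (hb y0).2.1
    · have h1 : (fun p => (F p : ℤ)) = (n : ℤ) • (fun p => (b y0 p : ℤ)) - Pi.single e (n : ℤ) := by
        funext p
        have h2 : (((if p = e then n else 0) + F p : ℕ) : ℤ) = ((n * b y0 p : ℕ) : ℤ) := by
          rw [hFe]
        push_cast at h2
        rw [Pi.sub_apply, Pi.smul_apply, smul_eq_mul]
        by_cases h : p = e
        · rw [h] at h2 ⊢
          simp at h2 ⊢
          linarith
        · simp [h] at h2 ⊢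
          linarith
      rw [h1]
      exact AddSubgroup.sub_mem _ (AddSubgroup.zsmul_mem _ (hb y0).2.1 _) hnL
    · apply B.mono _ _ _ (hb y0).2.2
      intro p hp
      simp only [Finset.mem_filter, Finset.mem_univ, true_and] at hp ⊢
      intro h
      apply hp
      rw [hF]
      simp [h]
  -- the system
  have hind : Indep f (fun y : {y // y ≠ y0} => b y) := indep_of_ext hext y0
  let X : Type := Fin n × (Σ y : {y // y ≠ y0}, Fin (lam y))
  let τ : X → {y // y ≠ y0} := fun x => x.2.1
  let β : X ⊕ Bool → Pt → ℕ :=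
    Sum.elim (fun x => b (τ x)) (fun s => if s then Pi.single e n else F)
  have hβx : ∀ x, β (Sum.inl x) = b (τ x) := fun _ => rfl
  have hβt : β (Sum.inr true) = Pi.single e n := rfl
  have hβf : β (Sum.inr false) = F := rfl
  have hsumX : ∀ G : {y // y ≠ y0} → ℕ, ∑ x : X, G (τ x)
      = n * ∑ y : {y // y ≠ y0}, lam y * G y := by
    intro G
    rw [Fintype.sum_prod_type]
    simp only [τ]
    rw [Finset.sum_const, Finset.card_univ, Fintype.card_fin, smul_eq_mul, Fintype.sum_sigma]
    congr 1
    apply Finset.sum_congr rfl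
    intro y _
    simp
  have hsumy : ∀ G : Ty → ℕ, ∑ y, lam y * G y = G y0 + ∑ y : {y // y ≠ y0}, lam y * G y := by
    intro G
    rw [← Finset.sum_filter_add_sum_filter_not Finset.univ (fun y => y ≠ y0), add_comm]
    congr 1
    · have h1 : Finset.univ.filter (fun y => ¬ y ≠ y0) = {y0} := by
        ext y; simp
      rw [h1, Finset.sum_singleton, hy0, one_mul]
    · rw [← Finset.sum_subtype_eq_sum_filter, Finset.subtype_univ]
  have hsingle : ∀ p, (Pi.single e n : Pt → ℕ) p = if p = e then n else 0 := by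
    intro p
    by_cases h : p = e
    · subst h; simp
    · simp [h]
  have hsumβ : ∀ p, ∑ i, β i p = n * m (f p) := by
    intro p
    rw [Fintype.sum_sum_type, Fintype.sum_bool, hβt, hβf, hsingle, hFe]
    simp only [hβx]
    rw [hsumX (fun y => b y p), ← hext.pack p, hsumy (fun y => b y p)]
    ring
  have hblock : ∀ i, B.IsBlock (β i) := by
    rintro (x | s)
    · exact hb _
    · cases s
      · exact hFB
      · exact hE
  have hcardX : Fintype.card X = n * ∑ q, m (g q) := by
    have h1 := hsumX (fun _ => 1)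
    simp only [Finset.sum_const, Finset.card_univ, smul_eq_mul, mul_one] at h1
    have h2 := hsumy (fun _ => 1)
    simp only [mul_one] at h2
    rw [h1]
    congr 1
    omega
  obtain ⟨t, ht, i, j, hij⟩ := exists_nonconst_sol a ha.sum β (fun q => n * m (g q))
    (fun q p h => by rw [hsumβ p, ha.fac q p h])
    (by
      rw [Fintype.card_sum, hcardX, Fintype.card_bool, Finset.mul_sum])
  have hconst := hstar _ β (fun i => n * m i) hblock hsumβ t ht
  have hgp := group_pack f β t hconst
  have hsplit : ∀ s p, ∑ i with t i = s, β i p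
      = ∑ x with t (Sum.inl x) = s, b (τ x) p
        + ((if t (Sum.inr true) = s then (if p = e then n else 0) else 0)
          + (if t (Sum.inr false) = s then F p else 0)) := by
    intro s p
    rw [Finset.sum_filter, Fintype.sum_sum_type, Fintype.sum_bool, hβt, hβf, hsingle,
      ← Finset.sum_filter]
    rfl
  obtain ⟨s1, hs1⟩ : ∃ s1, s1 = t (Sum.inr true) := ⟨_, rfl⟩
  obtain ⟨s2, hs2⟩ : ∃ s2, s2 = t (Sum.inr false) := ⟨_, rfl⟩
  simp only [← hs1, ← hs2] at hsplit
  have hX : ∀ x, t (Sum.inl x) = s1 ∨ t (Sum.inl x) = s2 := by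
    intro x
    by_contra hcon
    push Not at hcon
    have hemp := group_empty hind (Finset.univ.filter fun x' => t (Sum.inl x') = t (Sum.inl x))
      τ (by
        intro p p' hpp
        have h1 := hgp (t (Sum.inl x)) p p' hpp
        rw [hsplit, hsplit] at h1
        simpa only [if_neg (Ne.symm hcon.1), if_neg (Ne.symm hcon.2), add_zero] using h1)
    have : x ∈ (∅ : Finset X) := by
      rw [← hemp]
      simp
    exact Finset.notMem_empty _ this
  have h12 : s1 ≠ s2 := by
    intro h
    have hall : ∀ i, t i = s1 := by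
      rintro (x | s)
      · rcases hX x with h1 | h1
        · exact h1
        · exact h1.trans h.symm
      · cases s
        · exact hs2.symm.trans h.symm
        · exact hs1.symm
    exact hij ((hall i).trans (hall j).symm)
  -- the two packings
  obtain ⟨ν1, hν1⟩ : ∃ ν1 : {y // y ≠ y0} → ℕ, ν1 = fun y =>
    ((Finset.univ.filter fun x => t (Sum.inl x) = s1).filter fun x => τ x = y).card := ⟨_, rfl⟩
  obtain ⟨ν2, hν2⟩ : ∃ ν2 : {y // y ≠ y0} → ℕ, ν2 = fun y =>
    ((Finset.univ.filter fun x => t (Sum.inl x) = s2).filter fun x => τ x = y).card := ⟨_, rfl⟩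
  have hg1 : ∀ p, ∑ i with t i = s1, β i p
      = (if p = e then n else 0) + ∑ y, ν1 y * b y p := by
    intro p
    rw [hsplit, if_pos rfl, if_neg (Ne.symm h12), add_zero,
      sum_group _ τ (fun y => b y p), hν1, add_comm]
  have hg2 : ∀ p, ∑ i with t i = s2, β i p = F p + ∑ y, ν2 y * b y p := by
    intro p
    rw [hsplit, if_neg h12, if_pos rfl, zero_add,
      sum_group _ τ (fun y => b y p), hν2, add_comm]
  have hg12 : ∀ p, ((if p = e then n else 0) + ∑ y, ν1 y * b y p)
      + (F p + ∑ y, ν2 y * b y p) = n * m (f p) := by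
    intro p
    rw [← hg1, ← hg2, ← hsumβ p, ← Finset.sum_union]
    · apply Finset.sum_congr _ fun _ _ => rfl
      ext i
      simp only [Finset.mem_union, Finset.mem_filter, Finset.mem_univ, true_and, iff_true]
      rcases i with x | s
      · exact hX x
      · cases s
        · right; exact hs2.symm
        · left; exact hs1.symm
    · rw [Finset.disjoint_filter]
      intro i _ h1 h2
      exact h12 (h1.symm.trans h2)
  have hcards : ∑ y, ν1 y + ∑ y, ν2 y = n * ∑ q, m (g q) := by
    have h1 : ∑ y, ν1 y = (Finset.univ.filter fun x => t (Sum.inl x) = s1).card := by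
      have := sum_group (Finset.univ.filter fun x => t (Sum.inl x) = s1) τ (fun _ => 1)
      simp only [Finset.sum_const, smul_eq_mul, mul_one] at this
      rw [this, hν1]
    have h2 : ∑ y, ν2 y = (Finset.univ.filter fun x => t (Sum.inl x) = s2).card := by
      have := sum_group (Finset.univ.filter fun x => t (Sum.inl x) = s2) τ (fun _ => 1)
      simp only [Finset.sum_const, smul_eq_mul, mul_one] at this
      rw [this, hν2]
    rw [h1, h2, ← hcardX, ← Finset.card_union_of_disjoint, ← Finset.card_univ]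
    · congr 1
      ext x
      simp only [Finset.mem_union, Finset.mem_filter, Finset.mem_univ, true_and, iff_true]
      exact hX x
    · rw [Finset.disjoint_filter]
      intro i _ h1 h2
      exact h12 (h1.symm.trans h2)
  obtain ⟨z1, hz1⟩ := exists_factor f (fun p => ∑ i with t i = s1, β i p) (hgp s1)
  obtain ⟨z2, hz2⟩ := exists_factor f (fun p => ∑ i with t i = s2, β i p) (hgp s2)
  obtain ⟨μ1, hμ1⟩ : ∃ μ1 : I → ℕ, μ1 = fun i => if ∃ p, f p = i then z1 i else n * m i :=
    ⟨_, rfl⟩
  obtain ⟨μ2, hμ2⟩ : ∃ μ2 : I → ℕ, μ2 = fun i => if ∃ p, f p = i then z2 i else 0 :=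
    ⟨_, rfl⟩
  have hp1 : ∀ p, (if p = e then n else 0) + ∑ y, ν1 y * b y p = μ1 (f p) := by
    intro p
    have h1 : μ1 (f p) = z1 (f p) := by rw [hμ1]; exact if_pos ⟨p, rfl⟩
    rw [h1, ← hz1 p, hg1]
  have hp2 : ∀ p, F p + ∑ y, ν2 y * b y p = μ2 (f p) := by
    intro p
    have h1 : μ2 (f p) = z2 (f p) := by rw [hμ2]; exact if_pos ⟨p, rfl⟩
    rw [h1, ← hz2 p, hg2]
  have hμ12 : ∀ i, μ1 i + μ2 i = n * m i := by
    intro i
    by_cases h : ∃ p, f p = i
    · obtain ⟨p, rfl⟩ := h
      rw [← hp1, ← hp2, hg12]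
    · rw [hμ1, hμ2]
      simp only [if_neg h, add_zero]
  have hp1' : ∀ p, (Pi.single e n : Pt → ℕ) p + ∑ y, ν1 y * b y p = μ1 (f p) := by
    intro p
    rw [hsingle, hp1]
  have hext1 := ext_option hind ν1 (Pi.single e n) μ1 hp1'
  have hext2 := ext_option hind ν2 F μ2 hp2
  obtain ⟨hc1, hc1'⟩ := hcrit _ _ _ _ (by
    rintro (_ | y)
    · exact hE
    · exact hb _) hext1
  obtain ⟨hc2, -⟩ := hcrit _ _ _ _ (by
    rintro (_ | y)
    · exact hFB
    · exact hb _) hext2
  rw [Fintype.sum_option] at hc1 hc2 hc1'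
  simp only [Option.elim_none, Option.elim_some] at hc1 hc2 hc1'
  rw [sum_subtype_pos] at hc1 hc2 hc1'
  have hμs : ∑ q, μ1 (g q) + ∑ q, μ2 (g q) = n * ∑ q, m (g q) := by
    rw [← Finset.sum_add_distrib, Finset.mul_sum]
    exact Finset.sum_congr rfl fun q _ => hμ12 _
  have hsum1 : ∑ y, ν1 y = ∑ q, μ1 (g q) := by omega
  have hJ1 := hc1' (by omega) 1 le_rfl
  have hcard1 : Fintype.card {y : {y // y ≠ y0} // 1 ≤ ν1 y}
      = Fintype.card {q // 1 ≤ μ1 (g q)} := by
    rw [Fintype.sum_option] at hJ1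
    simp only [Option.elim_none, Option.elim_some] at hJ1
    have h1 : ∑ y : {y : {y // y ≠ y0} // 1 ≤ ν1 y}, min (ν1 y) 1
        = Fintype.card {y : {y // y ≠ y0} // 1 ≤ ν1 y} := by
      rw [Finset.sum_congr rfl (fun y _ => min_eq_right y.2)]
      simp
    have h2 : ∑ q, min (μ1 (g q)) 1 = Fintype.card {q // 1 ≤ μ1 (g q)} := by
      rw [Fintype.card_subtype, Finset.card_filter]
      apply Finset.sum_congr rfl
      intro q _
      split_ifs with h
      · exact min_eq_right h
      · omega
    omega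
  refine key ha hstar hone (Y := {y : {y // y ≠ y0} // 1 ≤ ν1 y}) (v := fun y => b y.1.1)
    (ν := fun y => ν1 y.1) (fun y => hb _) hn2 hE hmin (μ := μ1) ?_ ?_ hcard1
    (hind.subtype fun y => 1 ≤ ν1 y)
  · intro p
    rw [sum_subtype_mul ν1 (fun y => b y p), hp1]
  · rw [sum_subtype_pos, hsum1]

end Pool.Agent.Work.Uni
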