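import Mathlib

/-!
Hensel's lemma in several variables: a system `F` of polynomial equations over an adically complete
ring, with an approximate zero at which the Jacobian matrix has a right inverse modulo `I`, has an
exact zero.  Special case: systems over `k⟦X⟧` (`X` = `ε`), with a zero over `k` at which the
Jacobian is onto.
-/

namespace Pool.Agent.Work.Uni

open MvPolynomial

section general

variable {R : Type*} [CommRing R] {ι κ : Type*} [Fintype ι] [Fintype κ]

omit [Fintype ι] in
theorem hmv_sub_mem (J : Ideal R) (F : MvPolynomial ι R) {a b : ι → R} (h : ∀ i, b i - a i ∈ J) :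
    eval b F - eval a F ∈ J := by
  induction F using MvPolynomial.induction_on with
  | C r => rw [eval_C, eval_C, sub_self]; exact J.zero_mem
  | add p q hp hq =>
    rw [map_add, map_add, add_sub_add_comm]
    exact J.add_mem hp hq
  | mul_X p i hp =>
    rw [map_mul, map_mul, eval_X, eval_X]
    have e : eval b p * b i - eval a p * a i =
        (eval b p - eval a p) * b i + eval a p * (b i - a i) := by ring
    rw [e]
    exact J.add_mem (J.mul_mem_right _ hp) (J.mul_mem_left _ (h i))

theorem hmv_taylor (J : Ideal R) (F : MvPolynomial ι R) (a h : ι → R) (hh : ∀ i, h i ∈ J) :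
    eval (fun i => a i + h i) F - eval a F - ∑ i, h i * eval a (pderiv i F) ∈ J * J := by
  classical
  induction F using MvPolynomial.induction_on with
  | C r => simp
  | add p q hp hq =>
    have e : eval (fun i => a i + h i) (p + q) - eval a (p + q) -
        ∑ i, h i * eval a (pderiv i (p + q)) =
        (eval (fun i => a i + h i) p - eval a p - ∑ i, h i * eval a (pderiv i p)) +
        (eval (fun i => a i + h i) q - eval a q - ∑ i, h i * eval a (pderiv i q)) := by
      simp only [map_add, mul_add, Finset.sum_add_distrib]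
      ring
    rw [e]
    exact (J * J).add_mem hp hq
  | mul_X p j hp =>
    have e1 : ∑ i, h i * eval a (pderiv i (p * X j)) =
        (∑ i, h i * eval a (pderiv i p)) * a j + h j * eval a p := by
      simp only [pderiv_mul, pderiv_X, map_add, map_mul, eval_X, mul_add, Finset.sum_add_distrib]
      rw [Finset.sum_mul]
      congr 1
      · exact Finset.sum_congr rfl fun i _ => by ring
      · rw [Finset.sum_eq_single j]
        · simp
        · intro i _ hi
          rw [Pi.single_eq_of_ne (Ne.symm hi), map_zero, mul_zero, mul_zero]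
        · intro hj
          exact absurd (Finset.mem_univ _) hj
    have e : eval (fun i => a i + h i) (p * X j) - eval a (p * X j) -
        ∑ i, h i * eval a (pderiv i (p * X j)) =
        (eval (fun i => a i + h i) p - eval a p - ∑ i, h i * eval a (pderiv i p)) * a j +
        (eval (fun i => a i + h i) p - eval a p) * h j := by
      rw [e1]
      simp only [map_mul, eval_X]
      ring
    rw [e]
    refine (J * J).add_mem ((J * J).mul_mem_right _ hp) (Ideal.mul_mem_mul ?_ (hh j))
    exact hmv_sub_mem J p fun i => by simpa using hh i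

/-- Hensel's lemma in several variables -/
theorem hensel_mv [DecidableEq κ] (I : Ideal R) [IsAdicComplete I R] (F : κ → MvPolynomial ι R)
    (a : ι → R) (h0 : ∀ q, eval a (F q) ∈ I) (M : ι → κ → R)
    (hM : ∀ q q', (∑ i, eval a (pderiv i (F q)) * M i q') - (if q = q' then 1 else 0) ∈ I) :
    ∃ t : ι → R, (∀ i, t i - a i ∈ I) ∧ ∀ q, eval t (F q) = 0 := by
  let T : ℕ → ι → R := fun n => Nat.rec a (fun _ s i => s i + -∑ q, M i q * eval s (F q)) n
  have hT0 : T 0 = a := rfl
  have hT1 : ∀ n, T (n + 1) = fun i => T n i + -∑ q, M i q * eval (T n) (F q) := fun n => rfl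
  have key : ∀ n, (∀ i, T n i - a i ∈ I) ∧ ∀ q, eval (T n) (F q) ∈ I ^ (n + 1) := by
    intro n
    induction n with
    | zero => exact ⟨fun i => by rw [hT0, sub_self]; exact I.zero_mem, fun q => by
        rw [hT0, zero_add, pow_one]; exact h0 q⟩
    | succ n ih =>
      obtain ⟨ih1, ih2⟩ := ih
      have hh : ∀ i, -∑ q, M i q * eval (T n) (F q) ∈ I ^ (n + 1) := fun i =>
        (I ^ (n + 1)).neg_mem ((I ^ (n + 1)).sum_mem fun q _ => Ideal.mul_mem_left _ _ (ih2 q))
      refine ⟨fun i => ?_, fun q => ?_⟩
      · rw [hT1]
        have e : T n i + -∑ q, M i q * eval (T n) (F q) - a i =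
            (T n i - a i) + -∑ q, M i q * eval (T n) (F q) := by ring
        rw [e]
        exact I.add_mem (ih1 i) (Ideal.pow_le_self (by omega) (hh i))
      · rw [hT1]
        have h1 := hmv_taylor (I ^ (n + 1)) (F q) (T n) _ hh
        have h2 : I ^ (n + 1) * I ^ (n + 1) ≤ I ^ (n + 1 + 1) := by
          rw [← pow_add]
          exact Ideal.pow_le_pow_right (by omega)
        have h3 := h2 h1
        have h4 : eval (T n) (F q) + ∑ i, -(∑ q, M i q * eval (T n) (F q)) *
            eval (T n) (pderiv i (F q)) ∈ I ^ (n + 1 + 1) := by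
          have e : eval (T n) (F q) + ∑ i, -(∑ q, M i q * eval (T n) (F q)) *
              eval (T n) (pderiv i (F q)) = -∑ q', ((∑ i, eval (T n) (pderiv i (F q)) * M i q') -
                (if q = q' then 1 else 0)) * eval (T n) (F q') := by
            simp only [sub_mul, Finset.sum_sub_distrib, Finset.sum_mul, neg_mul,
              Finset.sum_neg_distrib]
            rw [Finset.sum_comm (s := Finset.univ (α := κ))]
            simp only [ite_mul, one_mul, zero_mul, Finset.sum_ite_eq, Finset.mem_univ, if_true]
            have e2 : ∀ i, (∑ q', M i q' * eval (T n) (F q') * eval (T n) (pderiv i (F q))) =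
                ∑ q', eval (T n) (pderiv i (F q)) * M i q' * eval (T n) (F q') := fun i =>
              Finset.sum_congr rfl fun q' _ => by ring
            rw [Finset.sum_congr rfl fun i _ => e2 i]
            ring
          rw [e]
          refine Ideal.neg_mem_iff _ |>.2 (Ideal.sum_mem _ fun q' _ => ?_)
          rw [pow_succ' I (n + 1)]
          refine Ideal.mul_mem_mul ?_ (ih2 q')
          have e3 : (∑ i, eval (T n) (pderiv i (F q)) * M i q') - (if q = q' then 1 else 0) =
              ((∑ i, eval a (pderiv i (F q)) * M i q') - (if q = q' then 1 else 0)) +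
              ∑ i, (eval (T n) (pderiv i (F q)) - eval a (pderiv i (F q))) * M i q' := by
            simp only [sub_mul, Finset.sum_sub_distrib]
            ring
          rw [e3]
          refine I.add_mem (hM q q') (I.sum_mem fun i _ => I.mul_mem_right _ ?_)
          exact hmv_sub_mem I _ ih1
        have e5 := (I ^ (n + 1 + 1)).add_mem h3 h4
        have e6 : ∀ A B S : R, A - B - S + (B + S) = A := fun A B S => by ring
        rw [e6] at e5
        exact e5
  have step : ∀ n i, T (n + 1) i - T n i ∈ I ^ (n + 1) := by
    intro n i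
    rw [hT1]
    have e : T n i + -∑ q, M i q * eval (T n) (F q) - T n i =
        -∑ q, M i q * eval (T n) (F q) := by ring
    rw [e]
    exact (I ^ (n + 1)).neg_mem ((I ^ (n + 1)).sum_mem fun q _ =>
      Ideal.mul_mem_left _ _ ((key n).2 q))
  have cauchy : ∀ i m n, m ≤ n → T n i - T m i ∈ I ^ m := by
    intro i m n hmn
    induction n, hmn using Nat.le_induction with
    | base => rw [sub_self]; exact (I ^ m).zero_mem
    | succ n hmn ih =>
      have e : T (n + 1) i - T m i = (T (n + 1) i - T n i) + (T n i - T m i) := by ring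
      rw [e]
      exact (I ^ m).add_mem (Ideal.pow_le_pow_right (by omega) (step n i)) ih
  have hlim : ∀ i, ∃ L, ∀ n, T n i ≡ L [SMOD (I ^ n • ⊤ : Submodule R R)] := by
    intro i
    refine IsPrecomplete.prec (I := I) inferInstance fun {m n} hmn => ?_
    rw [SModEq.sub_mem, smul_eq_mul, Ideal.mul_top, ← Ideal.neg_mem_iff, neg_sub]
    exact cauchy i m n hmn
  choose t ht using hlim
  have ht' : ∀ i n, t i - T n i ∈ I ^ n := by
    intro i n
    have := ht i n
    rw [SModEq.sub_mem, smul_eq_mul, Ideal.mul_top, ← Ideal.neg_mem_iff, neg_sub] at this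
    exact this
  refine ⟨t, fun i => ?_, fun q => ?_⟩
  · have e : t i - a i = (t i - T 1 i) + (T 1 i - a i) := by ring
    rw [e]
    refine I.add_mem ?_ ((key 1).1 i)
    have := ht' i 1
    rwa [pow_one] at this
  · refine IsHausdorff.haus (I := I) (M := R) inferInstance _ fun n => ?_
    rw [SModEq.sub_mem, smul_eq_mul, Ideal.mul_top, sub_zero]
    have h1 := hmv_sub_mem (I ^ n) (F q) (fun i => ht' i n)
    have h2 := Ideal.pow_le_pow_right (by omega : n ≤ n + 1) ((key n).2 q)
    have h3 := (I ^ n).add_mem h1 h2
    rwa [sub_add_cancel] at h3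

end general

section powerSeries

variable {k : Type*} [Field k] {ι κ : Type*} [Fintype ι] [Fintype κ]

/-- the formal implicit function theorem: a zero over `k`, at which the Jacobian is onto, of the
reduction of a system over `k⟦X⟧` lifts to a zero over `k⟦X⟧` -/
theorem hensel_ps (F : κ → MvPolynomial ι (PowerSeries k)) (a : ι → k)
    (h0 : ∀ q, eval a (map (PowerSeries.constantCoeff (R := k)) (F q)) = 0)
    (hJ : ∀ y : κ → k, ∃ δ : ι → k, ∀ q,
      ∑ i, δ i * eval a (pderiv i (map (PowerSeries.constantCoeff (R := k)) (F q))) = y q) :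
    ∃ t : ι → PowerSeries k, (∀ i, PowerSeries.constantCoeff (t i) = a i) ∧
      ∀ q, eval t (F q) = 0 := by
  classical
  have hc : ∀ G : MvPolynomial ι (PowerSeries k),
      PowerSeries.constantCoeff (eval (fun i => PowerSeries.C (a i)) G) =
        eval a (map (PowerSeries.constantCoeff (R := k)) G) := by
    intro G
    rw [eval_map, ← MvPolynomial.coe_eval₂Hom, eval, MvPolynomial.coe_eval₂Hom,
      MvPolynomial.coe_eval₂Hom, MvPolynomial.eval₂_comp_left]
    congr 1
  have hI : ∀ z : PowerSeries k, z ∈ (Ideal.span {PowerSeries.X} : Ideal (PowerSeries k)) ↔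
      PowerSeries.constantCoeff z = 0 := by
    intro z
    rw [Ideal.mem_span_singleton, PowerSeries.X_dvd_iff]
  choose D hD using fun q' : κ => hJ (fun q => if q = q' then 1 else 0)
  obtain ⟨t, ht1, ht2⟩ := hensel_mv (Ideal.span {PowerSeries.X} : Ideal (PowerSeries k)) F
    (fun i => PowerSeries.C (a i)) (fun q => by rw [hI, hc, h0])
    (fun i q' => PowerSeries.C (D q' i)) (fun q q' => by
      rw [hI, map_sub, map_sum]
      have e : ∀ i, PowerSeries.constantCoeff (eval (fun i => PowerSeries.C (a i))
          (pderiv i (F q)) * PowerSeries.C (D q' i)) =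
          D q' i * eval a (pderiv i (map (PowerSeries.constantCoeff (R := k)) (F q))) := by
        intro i
        rw [map_mul, hc, pderiv_map, PowerSeries.constantCoeff_C, mul_comm]
      rw [Finset.sum_congr rfl fun i _ => e i, hD q' q]
      split_ifs <;> simp)
  refine ⟨t, fun i => ?_, ht2⟩
  have := ht1 i
  rw [hI, map_sub, PowerSeries.constantCoeff_C, sub_eq_zero] at this
  exact this

end powerSeries

section points

/-- a nonzero finitely generated algebra over an algebraically closed field has a point -/
theorem exists_algHom_of_finiteType (k A : Type*) [Field k] [IsAlgClosed k] [CommRing A]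
    [Algebra k A] [Nontrivial A] [Algebra.FiniteType k A] : Nonempty (A →ₐ[k] k) := by
  obtain ⟨m, hm⟩ := Ideal.exists_maximal A
  let _ : Field (A ⧸ m) := Ideal.Quotient.field m
  have h2 : Module.Finite k (A ⧸ m) := finite_of_finite_type_of_isJacobsonRing k (A ⧸ m)
  have h3 : Function.Bijective (algebraMap k (A ⧸ m)) :=
    IsAlgClosed.algebraMap_bijective_of_isIntegral
  exact ⟨(AlgEquiv.ofBijective (Algebra.ofId k (A ⧸ m)) h3).symm.toAlgHom.comp
    (Ideal.Quotient.mkₐ k m)⟩

/-- Nullstellensatz: if a system `F = 0`, `G ≠ 0` over an algebraically closed field `k` has a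
solution in an extension field, it has a solution over `k` -/
theorem exists_point {k : Type*} [Field k] [IsAlgClosed k] {σ κ : Type*} [Finite σ]
    (F : κ → MvPolynomial σ k) (G : MvPolynomial σ k) {L : Type*} [Field L] [Algebra k L]
    (z : σ → L) (hF : ∀ q, aeval z (F q) = 0) (hG : aeval z G ≠ 0) :
    ∃ s : σ → k, (∀ q, eval s (F q) = 0) ∧ eval s G ≠ 0 := by
  classical
  let S : Set L := Set.range z ∪ {(aeval z G)⁻¹}
  have hS : S.Finite := (Set.finite_range _).union (Set.finite_singleton _)
  let A := Algebra.adjoin k S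
  have : Algebra.FiniteType k A := (Subalgebra.fg_iff_finiteType _).1
    (Subalgebra.fg_adjoin_finset hS.toFinset |> fun h => by
      rw [hS.coe_toFinset] at h; exact h)
  obtain ⟨φ⟩ := exists_algHom_of_finiteType k A
  have hsub : S ⊆ A := Algebra.subset_adjoin
  have m1 : ∀ j, z j ∈ A := fun j => hsub (Or.inl ⟨j, rfl⟩)
  have m2 : (aeval z G)⁻¹ ∈ A := hsub (Or.inr rfl)
  let w : σ → A := fun j => ⟨z j, m1 j⟩
  have hinj : Function.Injective A.val := Subtype.val_injective
  have h1 : ∀ P : MvPolynomial σ k, A.val (aeval w P) = aeval z P := by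
    intro P
    rw [← AlgHom.comp_apply, MvPolynomial.comp_aeval]
    rfl
  have h2 : ∀ P : MvPolynomial σ k, eval (fun j => φ (w j)) P = φ (aeval w P) := by
    intro P
    rw [← AlgHom.comp_apply, MvPolynomial.comp_aeval, ← MvPolynomial.coe_aeval_eq_eval]
    rfl
  refine ⟨fun j => φ (w j), fun q => ?_, ?_⟩
  · rw [h2, hinj ((h1 (F q)).trans ((hF q).trans (map_zero _).symm)), map_zero]
  · rw [h2]
    have h3 : aeval w G * ⟨(aeval z G)⁻¹, m2⟩ = 1 := by
      apply hinj
      rw [map_mul, h1, map_one]
      exact mul_inv_cancel₀ hG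
    have h4 : φ (aeval w G) * φ ⟨(aeval z G)⁻¹, m2⟩ = 1 := by rw [← map_mul, h3, map_one]
    exact left_ne_zero_of_mul_eq_one h4

end points

end Pool.Agent.Work.Uni
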