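import Mathlib
import Pool.Agent.Work.MP_4329d7_ag_uni.Defs
import Pool.Agent.Work.MP_4329d7_ag_uni.CurveExt
import Pool.Agent.Work.MP_4329d7_ag_uni.CurveAlg

/-!
M3: if `K` is not uniruled then all rational curves given by roots are constant (`Star`).
-/

namespace Pool.Agent.Work.Uni

open Polynomial Pool.Agent.Work.MP_4329d7_ag.FF

/-- the forms are nonzero at the general point -/
theorem CoverData.lin_ne_zero {K : Type} [Field K] [Algebra ℂ K]
    {I : Type} [Fintype I]
    {n : I → ℕ} {E : I → Type} [∀ i, Fintype (E i)]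
    {α : (i : I) → E i → Fin (n i + 1) → ℂ} {N : ℕ} {x : (i : I) → Fin (n i) → K}
    {S : Set (K × ((i : I) → E i → ℕ))} (D : CoverData K I n E α N x S) (i : I) (e : E i) :
    lin (α i e) (x i) ≠ 0 := by
  classical
  intro h0
  -- the vector of coefficients is nonzero
  have hα : α i e ≠ 0 := by
    obtain ⟨s, hs, hsc⟩ := Finset.exists_superset_card_eq (s := {e}) (n := n i + 1)
      (by simp) (D.card i)
    have h1 := (D.gen_pos i s hsc).ne_zero ⟨e, hs (Finset.mem_singleton_self e)⟩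
    exact h1
  let P : MvPolynomial (Σ i, Fin (n i)) ℂ := MvPolynomial.C (α i e 0) +
    ∑ j : Fin (n i), MvPolynomial.C (α i e j.succ) * MvPolynomial.X ⟨i, j⟩
  have h1 : MvPolynomial.aeval (fun p : Σ i, Fin (n i) => x p.1 p.2) P = lin (α i e) (x i) := by
    rw [lin, Fin.sum_univ_succ]
    simp only [P, map_add, map_sum, map_mul, MvPolynomial.aeval_C, MvPolynomial.aeval_X,
      Fin.cons_zero, Fin.cons_succ, mul_one]
  have h2 : P = 0 := (algebraicIndependent_iff.1 D.alg_indep) P (by rw [h1, h0])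
  apply hα
  have h3 : α i e 0 = 0 := by
    have := congrArg (MvPolynomial.eval (fun _ => (0 : ℂ))) h2
    simpa [P] using this
  funext j
  refine Fin.cases h3 (fun j => ?_) j
  have := congrArg (MvPolynomial.eval (Pi.single (⟨i, j⟩ : Σ i, Fin (n i)) (1 : ℂ))) h2
  simp only [P, map_sum, map_mul, MvPolynomial.eval_C, MvPolynomial.eval_X, map_zero,
    h3, zero_add] at this
  rw [Finset.sum_eq_single j] at this
  · simpa using this
  · intro k _ hk
    rw [Pi.single_eq_of_ne, mul_zero]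
    intro h4
    apply hk
    have := (Sigma.mk.injEq _ _ _ _).mp h4
    exact eq_of_heq this.2
  · intro h4
    exact absurd (Finset.mem_univ _) h4

section main

variable {K : Type} [Field K] [Algebra ℂ K] {I : Type} [Fintype I]
  {n : I → ℕ} {E : I → Type} [∀ i, Fintype (E i)]
  {α : (i : I) → E i → Fin (n i + 1) → ℂ} {N : ℕ} {x : (i : I) → Fin (n i) → K}
  {S : Set (K × ((i : I) → E i → ℕ))}

/-- the curve: if `Y i j` are polynomials over a field `F` containing `K` with `Y i j (0) = x i j`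
such that the forms `∑ j, α i e j Y i j` are `l_e ∏ k, (1 - t k T) ^ (β k e)`, with `β k`
orthogonal to `S`, then all `Y i j` are constant multiples of `Y i 0`, or `K` is uniruled. -/
theorem curve_const' [Algebra.EssFiniteType ℂ K] (N_pos : 0 < N)
    (alg_indep : AlgebraicIndependent ℂ (fun p : Σ i, Fin (n i) => x p.1 p.2))
    (rad : ∀ z c, (z, c) ∈ S → z ^ N = ∏ i, ∏ e, lin (α i e) (x i) ^ c i e)
    (deg : ∀ z c, (z, c) ∈ S → ∀ i, N ∣ ∑ e, c i e)
    (gen : IntermediateField.adjoin ℂ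
      (Set.range (fun p : Σ i, Fin (n i) => x p.1 p.2) ∪ {z | ∃ c, (z, c) ∈ S}) = ⊤)
    (hK : ¬ Uniruled K) {F : Type}
    [Field F] [Algebra ℂ F] (h : K →ₐ[ℂ] F) {ι : Type} [Fintype ι] (β : ι → (Σ i, E i) → ℕ)
    (t : ι → F)
    (hβ : ∀ k z c, (z, c) ∈ S → N ∣ ∑ p : Σ i, E i, β k p * c p.1 p.2)
    (Y : (i : I) → Fin (n i + 1) → F[X])
    (hY0 : ∀ i j, (Y i j).eval 0 = (Fin.cons 1 (fun j => h (x i j)) : Fin (n i + 1) → F) j)
    (hY : ∀ i e, ∑ j, C (algebraMap ℂ F (α i e j)) * Y i j =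
      C (h (lin (α i e) (x i))) * revPoly β t ⟨i, e⟩) :
    ∀ i j, Y i j = C ((Fin.cons 1 (fun j => h (x i j)) : Fin (n i + 1) → F) j) * Y i 0 := by
  classical
  have hY00 : ∀ i, (Y i 0).eval 0 = 1 := fun i => by rw [hY0]; simp
  have hYne : ∀ i, Y i 0 ≠ 0 := by
    intro i h0
    have := hY00 i
    rw [h0, eval_zero] at this
    exact zero_ne_one this
  set am : F[X] →+* RatFunc F := algebraMap F[X] (RatFunc F) with ham
  have hinj : Function.Injective am := IsFractionRing.injective F[X] (RatFunc F)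
  have hane : ∀ i, am (Y i 0) ≠ 0 := by
    intro i h0
    exact hYne i (hinj (by rw [h0, map_zero]))
  let y : (Σ i, Fin (n i)) → RatFunc F := fun p => am (Y p.1 p.2.succ) / am (Y p.1 0)
  have hx' : AlgebraicIndependent ℂ (fun p : Σ i, Fin (n i) => h (x p.1 p.2)) :=
    alg_indep.map' (f := h) h.injective
  have hpl : ∀ p : Σ i, Fin (n i), Pl (y p) (h (x p.1 p.2)) := by
    intro p
    refine ⟨Y p.1 p.2.succ, Y p.1 0, ?_, ?_, ?_⟩
    · rw [hY00]; exact one_ne_zero
    · exact div_mul_cancel₀ _ (hane p.1)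
    · rw [hY0, hY00, mul_one, Fin.cons_succ]
  have hy : AlgebraicIndependent ℂ y := algebraicIndependent_of_pl hx' hpl
  -- the forms on the curve
  let G : (p : Σ i, E i) → MvPolynomial (Σ i, Fin (n i)) ℂ := fun p =>
    MvPolynomial.C (α p.1 p.2 0) + ∑ j : Fin (n p.1), MvPolynomial.C (α p.1 p.2 j.succ) *
      MvPolynomial.X ⟨p.1, j⟩
  have hGx : ∀ p : Σ i, E i, MvPolynomial.aeval (fun p : Σ i, Fin (n i) => x p.1 p.2) (G p) =
      lin (α p.1 p.2) (x p.1) := by
    intro p
    rw [lin, Fin.sum_univ_succ]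
    simp only [G, map_add, map_sum, map_mul, MvPolynomial.aeval_C, MvPolynomial.aeval_X,
      Fin.cons_zero, Fin.cons_succ, mul_one]
  have hcA : ∀ c : ℂ, algebraMap ℂ (RatFunc F) c = am (C (algebraMap ℂ F c)) := by
    intro c
    rw [MP_4329d7_ag_sq.algebraMap_ratFunc, ← RatFunc.algebraMap_C]
  have hGy : ∀ p : Σ i, E i, MvPolynomial.aeval y (G p) * am (Y p.1 0) =
      am (C (h (lin (α p.1 p.2) (x p.1))) * revPoly β t p) := by
    intro p
    have h1 := hY p.1 p.2
    rw [Fin.sum_univ_succ] at h1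
    change _ = am (C (h (lin (α p.1 p.2) (x p.1))) * revPoly β t ⟨p.1, p.2⟩)
    rw [← h1]
    simp only [G, map_add, map_sum, map_mul, MvPolynomial.aeval_C, MvPolynomial.aeval_X, add_mul,
      Finset.sum_mul, hcA]
    congr 1
    refine Finset.sum_congr rfl fun j _ => ?_
    rw [mul_assoc]
    congr 1
    exact div_mul_cancel₀ _ (hane p.1)
  obtain ⟨φ, hφ⟩ := exists_ext_kummer (R := RatFunc F) (N := N) alg_indep hy
    {z | ∃ c, (z, c) ∈ S} N_pos (by
      rintro z ⟨c, hzc⟩
      refine ⟨∏ i, ∏ e, G ⟨i, e⟩ ^ c i e, ?_, ?_⟩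
      · rw [rad z c hzc]
        simp only [map_prod, map_pow, hGx]
      -- the N-th root
      choose d hd using fun k => hβ k z c hzc
      choose m hm using deg z c hzc
      refine ⟨am (C (h z) * ∏ k, (1 - C (t k) * X) ^ d k) / ∏ i, am (Y i 0) ^ m i, ?_⟩
      have hne : ∏ i, am (Y i 0) ^ m i ≠ 0 :=
        Finset.prod_ne_zero_iff.2 fun i _ => pow_ne_zero _ (hane i)
      rw [div_pow, div_eq_iff (pow_ne_zero _ hne), ← Finset.prod_pow]
      have h1 : ∏ i, (am (Y i 0) ^ m i) ^ N = ∏ i, ∏ e : E i, am (Y i 0) ^ c i e := by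
        refine Finset.prod_congr rfl fun i _ => ?_
        rw [← pow_mul, mul_comm (m i) N, ← hm i, Finset.prod_pow_eq_pow_sum]
      rw [h1]
      simp only [map_prod, map_pow]
      rw [← Finset.prod_mul_distrib]
      have h2 : ∀ i, (∏ e, MvPolynomial.aeval y (G ⟨i, e⟩) ^ c i e) *
          ∏ e : E i, am (Y i 0) ^ c i e =
          ∏ e, am (C (h (lin (α i e) (x i))) * revPoly β t ⟨i, e⟩) ^ c i e := by
        intro i
        rw [← Finset.prod_mul_distrib]
        refine Finset.prod_congr rfl fun e _ => ?_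
        rw [← mul_pow, hGy ⟨i, e⟩]
      simp only [h2]
      rw [← map_pow]
      simp only [← map_pow, ← map_prod]
      congr 1
      simp only [mul_pow, Finset.prod_mul_distrib]
      congr 1
      · rw [← C_pow, ← map_pow, rad z c hzc]
        simp only [map_prod, map_pow]
      · rw [← Finset.prod_pow]
        have h3 : ∀ k, ((1 - C (t k) * X) ^ d k) ^ N =
            ∏ p : Σ i, E i, ((1 - C (t k) * X) ^ β k p) ^ c p.1 p.2 := by
          intro k
          rw [← pow_mul, mul_comm (d k) N, ← hd k, ← Finset.prod_pow_eq_pow_sum]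
          exact Finset.prod_congr rfl fun p _ => by rw [pow_mul]
        simp only [h3]
        rw [Finset.prod_comm, Fintype.prod_sigma]
        refine Finset.prod_congr rfl fun i _ => Finset.prod_congr rfl fun e _ => ?_
        rw [Finset.prod_pow]
        rfl) gen
  -- `K` is not uniruled: all values are constant
  have hconst : ∀ w : K, ∃ e : F, φ w = RatFunc.C e := by
    by_contra hcon
    push Not at hcon
    obtain ⟨w, hw⟩ := hcon
    exact hK (uniruled_of_hom φ w hw)
  intro i j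
  refine Fin.cases ?_ (fun j => ?_) j
  · simp
  · obtain ⟨e, he⟩ := hconst (x i j)
    have h1 := hφ ⟨i, j⟩
    simp only at h1
    rw [he] at h1
    have h2 : am (Y i j.succ) = am (C e * Y i 0) := by
      rw [map_mul, ham, RatFunc.algebraMap_C, h1]
      exact (div_mul_cancel₀ _ (hane i)).symm
    have h3 := hinj h2
    have h4 := congrArg (fun p => p.eval 0) h3
    simp only [eval_mul, eval_C, hY00, mul_one] at h4
    rw [h3, ← h4, hY0]

/-- the curve: `curve_const'` for the data of a cover -/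
theorem curve_const [Algebra.EssFiniteType ℂ K] (D : CoverData K I n E α N x S)
    (hK : ¬ Uniruled K) {F : Type}
    [Field F] [Algebra ℂ F] (h : K →ₐ[ℂ] F) {ι : Type} [Fintype ι] (β : ι → (Σ i, E i) → ℕ)
    (t : ι → F)
    (hβ : ∀ k z c, (z, c) ∈ S → N ∣ ∑ p : Σ i, E i, β k p * c p.1 p.2)
    (Y : (i : I) → Fin (n i + 1) → F[X])
    (hY0 : ∀ i j, (Y i j).eval 0 = (Fin.cons 1 (fun j => h (x i j)) : Fin (n i + 1) → F) j)
    (hY : ∀ i e, ∑ j, C (algebraMap ℂ F (α i e j)) * Y i j =
      C (h (lin (α i e) (x i))) * revPoly β t ⟨i, e⟩) :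
    ∀ i j, Y i j = C ((Fin.cons 1 (fun j => h (x i j)) : Fin (n i + 1) → F) j) * Y i 0 :=
  curve_const' D.N_pos D.alg_indep D.rad D.deg D.gen hK h β t hβ Y hY0 hY

end main

theorem star_of_not_uniruled {K : Type} [Field K] [Algebra ℂ K] [Algebra.EssFiniteType ℂ K]
    {I : Type} [Fintype I] [DecidableEq I]
    {n : I → ℕ} {E : I → Type} [∀ i, Fintype (E i)] [∀ i, DecidableEq (E i)]
    {α : (i : I) → E i → Fin (n i + 1) → ℂ} {N : ℕ} {x : (i : I) → Fin (n i) → K}
    {S : Set (K × ((i : I) → E i → ℕ))} (D : CoverData K I n E α N x S) (hK : ¬ Uniruled K) :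
    ∃ (Q : Type) (_ : Fintype Q) (g : Q → I) (a : Q → (Σ i, E i) → AlgebraicClosure K),
      Coef Sigma.fst g a ∧
      (∀ i, (Finset.univ.filter fun q => g q = i).card = Fintype.card (E i) - (n i + 1)) ∧
      Star (coverBlocks (n := n) N S) Sigma.fst a := by
  classical
  set F := AlgebraicClosure K with hF
  let h : K →ₐ[ℂ] F := IsScalarTower.toAlgHom ℂ K F
  have hBex : ∀ i, ∃ B : Finset (E i), B.card = n i + 1 := by
    intro i
    obtain ⟨B, _, hB⟩ := Finset.exists_subset_card_eq (s := (Finset.univ : Finset (E i)))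
      (n := n i + 1) (by rw [Finset.card_univ]; exact D.card i)
    exact ⟨B, hB⟩
  choose B hB using hBex
  have hne : ∀ i, Nonempty (B i) := by
    intro i
    rw [← Fintype.card_pos_iff, Fintype.card_coe, hB i]
    exact Nat.succ_pos _
  let b : (i : I) → Module.Basis (B i) ℂ (Fin (n i + 1) → ℂ) := fun i =>
    haveI := hne i
    basisOfLinearIndependentOfCardEqFinrank (D.gen_pos i (B i) (hB i))
      (by rw [Fintype.card_coe, hB i, Module.finrank_fin_fun])
  have hb : ∀ i (e : B i), b i e = α i e := by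
    intro i e
    have := hne i
    exact congrFun (coe_basisOfLinearIndependentOfCardEqFinrank (D.gen_pos i (B i) (hB i)) _) e
  let l : (Σ i, E i) → F := fun p => h (lin (α p.1 p.2) (x p.1))
  have hl : ∀ p, l p ≠ 0 := by
    intro p h0
    exact D.lin_ne_zero p.1 p.2 (h.injective (by rw [map_zero]; exact h0))
  let Q : Type := Σ i, {e : E i // e ∉ B i}
  let ρ : (q : Q) → B q.1 → F := fun q e' =>
    algebraMap ℂ F ((b q.1).repr (α q.1 q.2.1) e')
  let a : Q → (Σ i, E i) → F := fun q p =>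
    (if p = ⟨q.1, q.2.1⟩ then l p else 0) -
      ∑ e' : B q.1, if p = ⟨q.1, e'.1⟩ then ρ q e' * l p else 0
  have hasum : ∀ (M : Type) [AddCommGroup M] [Module F M] (q : Q) (R : (Σ i, E i) → M),
      ∑ p, a q p • R p = l ⟨q.1, q.2.1⟩ • R ⟨q.1, q.2.1⟩ -
        ∑ e' : B q.1, (ρ q e' * l ⟨q.1, e'.1⟩) • R ⟨q.1, e'.1⟩ := by
    intro M _ _ q R
    simp only [a, sub_smul, Finset.sum_sub_distrib, Finset.sum_smul, ite_smul, zero_smul]
    rw [Finset.sum_comm]
    simp
  have hbα : ∀ q : Q, α q.1 q.2.1 =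
      ∑ e' : B q.1, (b q.1).repr (α q.1 q.2.1) e' • α q.1 e'.1 := by
    intro q
    conv_lhs => rw [← (b q.1).sum_repr (α q.1 q.2.1)]
    exact Finset.sum_congr rfl fun e' _ => by rw [hb]
  have hlq : ∀ q : Q, l ⟨q.1, q.2.1⟩ = ∑ e' : B q.1, ρ q e' * l ⟨q.1, e'.1⟩ := by
    intro q
    simp only [l, ρ, ← linL_apply]
    conv_lhs => rw [hbα q]
    rw [map_sum, map_sum]
    refine Finset.sum_congr rfl fun e' _ => ?_
    rw [map_smul, map_smul, Algebra.smul_def]
  refine ⟨Q, inferInstance, Sigma.fst, a, ⟨?_, ?_⟩, ?_, ?_⟩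
  · -- only the factor of `q`
    intro q p hqp
    by_contra hne
    apply hqp
    have h1 : ∀ e : E q.1, p ≠ ⟨q.1, e⟩ := by
      rintro e rfl
      exact hne rfl
    simp only [a, h1, if_false, Finset.sum_const_zero, sub_zero]
  · intro q
    have h1 := hasum F q (fun _ => 1)
    simp only [smul_eq_mul, mul_one] at h1
    rw [h1, hlq q, sub_self]
  · intro i
    have h1 : (Finset.univ.filter fun q : Q => q.1 = i) =
        (Finset.univ : Finset {e : E i // e ∉ B i}).map
          ⟨Sigma.mk (β := fun i => {e : E i // e ∉ B i}) i, sigma_mk_injective⟩ := by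
      ext ⟨i', e⟩
      simp only [Finset.mem_filter, Finset.mem_univ, true_and, Finset.mem_map,
        Function.Embedding.coeFn_mk]
      constructor
      · rintro rfl
        exact ⟨e, rfl⟩
      · rintro ⟨e', h⟩
        exact (congrArg Sigma.fst h).symm
    rw [h1, Finset.card_map, Finset.card_univ, Fintype.card_subtype_compl, Fintype.card_coe, hB i]
  · intro ι _ β m hβ hpack t hsol p p' hpp'
    have hβ' : ∀ k z c, (z, c) ∈ S → N ∣ ∑ p : Σ i, E i, β k p * c p.1 p.2 := by
      intro k z c hzc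
      have h1 := (hβ k).2.1 z c hzc
      simp only [← Nat.cast_mul, ← Nat.cast_sum] at h1
      exact Int.natCast_dvd_natCast.1 h1
    -- the reversed relations
    have hrev : ∀ q : Q, l ⟨q.1, q.2.1⟩ • revPoly β t ⟨q.1, q.2.1⟩ =
        ∑ e' : B q.1, (ρ q e' * l ⟨q.1, e'.1⟩) • revPoly β t ⟨q.1, e'.1⟩ := by
      intro q
      have h1 := hasum F[X] q (rootPoly β t)
      have h2 := hsol q
      simp only [← smul_eq_C_mul] at h2
      rw [h2] at h1
      have h3 := congrArg (reflect (m q.1)) (sub_eq_zero.1 h1.symm)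
      rw [smul_eq_C_mul, reflect_C_mul, reflect_sum'] at h3
      have h4 : ∀ e : E q.1, reflect (m q.1) (rootPoly β t ⟨q.1, e⟩) = revPoly β t ⟨q.1, e⟩ := by
        intro e
        rw [← reflect_rootPoly, hpack]
      rw [h4] at h3
      rw [smul_eq_C_mul, h3]
      refine Finset.sum_congr rfl fun e' _ => ?_
      rw [smul_eq_C_mul, reflect_C_mul, h4, smul_eq_C_mul]
    have hfc : ∀ i, ∃ Y : Fin (n i + 1) → F[X],
        (∀ j, (Y j).eval 0 = (Fin.cons 1 (fun j => h (x i j)) : Fin (n i + 1) → F) j) ∧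
        ∀ e, ∑ j, C (algebraMap ℂ F (α i e j)) * Y j =
          C (h (lin (α i e) (x i))) * revPoly β t ⟨i, e⟩ := by
      intro i
      refine factor_curve (b i) (hb i) (fun j => h (x i j))
        (fun e => C (h (lin (α i e) (x i))) * revPoly β t ⟨i, e⟩) (fun e => ?_) (fun e he => ?_)
      · rw [eval_mul, eval_C, eval_revPoly, mul_one, lin_hom]
      · have h1 := hrev ⟨i, ⟨e, he⟩⟩
        simp only [smul_eq_C_mul, C_mul] at h1
        refine h1.trans (Finset.sum_congr rfl fun e' _ => ?_)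
        rw [mul_assoc]
    choose Y hY0 hY using hfc
    have hc := curve_const D hK h β t hβ' Y hY0 hY
    -- the forms on the curve are constant multiples of `Y i 0`
    have hV : ∀ i (e : E i), revPoly β t ⟨i, e⟩ = Y i 0 := by
      intro i e
      have h1 := hY i e
      have h2 : ∑ j, C (algebraMap ℂ F (α i e j)) * Y i j =
          C (h (lin (α i e) (x i))) * Y i 0 := by
        rw [← lin_hom, lin, map_sum, Finset.sum_mul]
        refine Finset.sum_congr rfl fun j _ => ?_
        rw [hc i j, C_mul, mul_assoc]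
      rw [h2] at h1
      exact (mul_left_cancel₀ (C_ne_zero.2 (hl ⟨i, e⟩)) h1).symm
    obtain ⟨i, e⟩ := p
    obtain ⟨i', e'⟩ := p'
    simp only at hpp'
    subst hpp'
    rw [← reflect_revPoly, ← reflect_revPoly, hpack, hpack, hV, hV]

end Pool.Agent.Work.Uni
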