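import Mathlib
import Pool.Agent.Work.MP_4329d7_ag_uni.Defs
import Pool.Agent.Work.MP_4329d7_ag_uni.FormsVal
import Pool.Agent.Work.MP_4329d7_ag_uni.Plur
import Pool.Agent.Work.MP_4329d7_ag_sq.Reduce

/-!
M2: the pluricanonical form `c (dx_1 ∧ … ∧ dx_n)^{⊗ M}`, `c = ∏ l_e ^ (A_e - M)`, is regular.
-/

set_option linter.style.haveILetI false

open scoped WithZero

namespace Pool.Agent.Work.Uni

open Pool.Agent.Work.MP_4329d7_ag.FF

section cover

variable {K : Type} [Field K] [Algebra ℂ K] {I : Type} [Fintype I] [DecidableEq I]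
    {n : I → ℕ} {E : I → Type} [∀ i, Fintype (E i)] [∀ i, DecidableEq (E i)]
    {α : (i : I) → E i → Fin (n i + 1) → ℂ} {N : ℕ} {x : (i : I) → Fin (n i) → K}
    {S : Set (K × ((i : I) → E i → ℕ))}

omit [DecidableEq I] [∀ i, DecidableEq (E i)] in
theorem CoverData.lin_ne_zero (D : CoverData K I n E α N x S) (i : I) (e : E i) :
    lin (α i e) (x i) ≠ 0 := by
  classical
  intro h0
  -- the coefficient vector is not zero
  have hα : α i e ≠ 0 := by
    obtain ⟨s, hs1, -, hs⟩ := Finset.exists_subsuperset_card_eq (Finset.subset_univ {e})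
      (n := n i + 1) (by simp) (by rw [Finset.card_univ]; exact D.card i)
    have h1 := (D.gen_pos i s hs).ne_zero ⟨e, hs1 (Finset.mem_singleton_self e)⟩
    exact h1
  apply hα
  -- the polynomial
  set P : MvPolynomial (Σ i, Fin (n i)) ℂ := MvPolynomial.C (α i e 0) +
    ∑ j : Fin (n i), MvPolynomial.C (α i e j.succ) * MvPolynomial.X ⟨i, j⟩ with hP
  have h1 : MvPolynomial.aeval (fun p : Σ i, Fin (n i) => x p.1 p.2) P = 0 := by
    rw [hP, map_add, map_sum, MvPolynomial.aeval_C]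
    rw [lin, Fin.sum_univ_succ] at h0
    simp only [Fin.cons_zero, mul_one, Fin.cons_succ] at h0
    rw [← h0]
    congr 1
    refine Finset.sum_congr rfl fun j _ => ?_
    rw [map_mul, MvPolynomial.aeval_C, MvPolynomial.aeval_X]
  have h2 : P = 0 := (injective_iff_map_eq_zero _).1 D.alg_indep P h1
  have hev : ∀ y : (Σ i, Fin (n i)) → ℂ,
      α i e 0 + ∑ j : Fin (n i), α i e j.succ * y ⟨i, j⟩ = 0 := by
    intro y
    have h3 := congrArg (MvPolynomial.eval y) h2
    rw [hP, map_add, map_sum, MvPolynomial.eval_C, map_zero] at h3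
    rw [← h3]
    congr 1
    refine Finset.sum_congr rfl fun j _ => ?_
    rw [map_mul, MvPolynomial.eval_C, MvPolynomial.eval_X]
  have h00 : α i e 0 = 0 := by
    have := hev 0
    simpa using this
  ext j
  refine Fin.cases h00 (fun j => ?_) j
  have h4 := hev (Pi.single ⟨i, j⟩ 1)
  rw [h00, zero_add, Finset.sum_eq_single j] at h4
  · simpa using h4
  · intro k _ hk
    have : (⟨i, k⟩ : Σ i, Fin (n i)) ≠ ⟨i, j⟩ := by
      intro h
      apply hk
      cases h
      rfl
    rw [Pi.single_eq_of_ne this, mul_zero]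
  · intro h
    exact absurd (Finset.mem_univ j) h

omit [DecidableEq I] [∀ i, DecidableEq (E i)] in
theorem CoverData.isTranscendenceBasis (D : CoverData K I n E α N x S) :
    IsTranscendenceBasis ℂ (fun p : Σ i, Fin (n i) => x p.1 p.2) := by
  rw [D.alg_indep.isTranscendenceBasis_iff_isAlgebraic]
  set X : (Σ i, Fin (n i)) → K := fun p => x p.1 p.2 with hX
  refine MP_4329d7_ag_sq.isAlgebraic_adjoin _ ?_
  have hmem : ∀ i j, x i j ∈ IntermediateField.adjoin ℂ (Set.range X) := fun i j =>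
    IntermediateField.subset_adjoin ℂ _ ⟨⟨i, j⟩, rfl⟩
  have hal : ∀ y ∈ IntermediateField.adjoin ℂ (Set.range X),
      IsAlgebraic (IntermediateField.adjoin ℂ (Set.range X)) y := by
    intro y hy
    have : y = algebraMap (IntermediateField.adjoin ℂ (Set.range X)) K ⟨y, hy⟩ := rfl
    rw [this]
    exact isAlgebraic_algebraMap _
  refine MP_4329d7_ag_sq.alg_of_gen _ D.gen fun t ht => ?_
  rcases ht with ⟨p, rfl⟩ | ⟨c, hc⟩
  · exact hal _ (hmem _ _)
  · refine IsAlgebraic.of_pow D.N_pos ?_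
    rw [D.rad t c hc]
    refine hal _ (prod_mem fun i _ => prod_mem fun e _ => pow_mem ?_ _)
    rw [lin]
    refine sum_mem fun j _ => mul_mem (IntermediateField.algebraMap_mem _ _) ?_
    refine Fin.cases ?_ (fun j => ?_) j
    · rw [Fin.cons_zero]
      exact one_mem _
    · rw [Fin.cons_succ]
      exact hmem _ _

/-- See the header of the file. -/
theorem exists_form (D : CoverData K I n E α N x S)
    (M : ℕ) (hM : 0 < M) (A : (Σ i, E i) → ℕ)
    (hA : ∀ i, ∑ e, A ⟨i, e⟩ ≤ (Fintype.card (E i) - (n i + 1)) * M)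
    (hb : ∀ b : (Σ i, E i) → ℕ, (coverBlocks (n := n) N S).IsBlock b → M ≤ ∑ p, A p * b p) :
    ∃ T : TensorForm K (M * ∑ i, n i), IsPluricanonical M (∑ i, n i) T ∧ IsRegular T ∧ T ≠ 0 := by
  classical
  have hl0 := D.lin_ne_zero
  -- weights with equality
  have hE : ∀ i, Nonempty (E i) := fun i => Fintype.card_pos_iff.1 (by have := D.card i; omega)
  obtain ⟨A', hAA', hA'⟩ : ∃ A' : (Σ i, E i) → ℕ, (∀ p, A p ≤ A' p) ∧
      ∀ i, ∑ e, A' ⟨i, e⟩ = (Fintype.card (E i) - (n i + 1)) * M := by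
    refine ⟨fun p => A p + if p.2 = (hE p.1).some then
      (Fintype.card (E p.1) - (n p.1 + 1)) * M - ∑ e, A ⟨p.1, e⟩ else 0,
      fun p => Nat.le_add_right _ _, fun i => ?_⟩
    rw [Finset.sum_add_distrib, Finset.sum_eq_single (f := fun e : E i =>
      if e = (hE i).some then (Fintype.card (E i) - (n i + 1)) * M - ∑ e, A ⟨i, e⟩ else 0)
      (hE i).some (fun e _ he => if_neg he) (fun h => absurd (Finset.mem_univ _) h), if_pos rfl]
    have := hA i
    omega
  have hb' : ∀ b : (Σ i, E i) → ℕ, (coverBlocks (n := n) N S).IsBlock b →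
      M ≤ ∑ p, A' p * b p := fun b h => (hb b h).trans
    (Finset.sum_le_sum fun p _ => Nat.mul_le_mul_right _ (hAA' p))
  set l : (Σ i, E i) → K := fun p => lin (α p.1 p.2) (x p.1) with hl
  have hlne : ∀ p, l p ≠ 0 := fun p => hl0 p.1 p.2
  set c : K := (∏ p, l p ^ A' p) / (∏ p, l p) ^ M with hc
  have hc0 : c ≠ 0 := div_ne_zero (Finset.prod_ne_zero_iff.2 fun p _ => pow_ne_zero _ (hlne p))
    (pow_ne_zero _ (Finset.prod_ne_zero_iff.2 fun p _ => hlne p))
  have hcardι : Fintype.card (Σ i, Fin (n i)) = ∑ i, n i := by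
    rw [Fintype.card_sigma]
    exact Finset.sum_congr rfl fun i _ => Fintype.card_fin _
  let e : Fin (M * ∑ i, n i) ≃ Fin M × (Σ i, Fin (n i)) :=
    finProdFinEquiv.symm.trans (Equiv.prodCongr (Equiv.refl _)
      (Fintype.equivFinOfCardEq hcardι).symm)
  refine ⟨mForm e (fun p : Σ i, Fin (n i) => x p.1 p.2) c,
    mForm_isPluricanonical M _ (Fintype.equivFinOfCardEq hcardι) _ c, ?_,
    mForm_ne_zero e _ D.isTranscendenceBasis c hc0⟩
  intro v hv
  have hloc := fun i => exists_local_factor v hv (α i) (D.card i) (D.gen_pos i)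
    (Fin.cons 1 (x i)) (Fin.cons_zero _ _)
  choose h β hh hdet hle hprod hsm using hloc
  have hle' : ∀ p : Σ i, E i, v (l p) ≤ v (h p.1) := fun p => hle p.1 p.2
  have hvh : ∀ i, v (h i) ≠ 0 := fun i => (v.ne_zero_iff).2 (hh i)
  have hvl : ∀ p, v (l p) ≠ 0 := fun p => (v.ne_zero_iff).2 (hlne p)
  set w : (Σ i, E i) → ℤᵐ⁰ := fun p => v (l p / h p.1) with hw
  have hw1 : ∀ p, w p ≤ 1 := by
    intro p
    rw [hw]
    simp only [map_div₀]
    exact div_le_one_of_le₀ (hle' p) zero_le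
  -- the value of the coefficient
  set g : (Σ i, Fin (n i + 1)) → K := fun s => l ⟨s.1, β s.1 s.2⟩ / h s.1 with hg
  have hg0 : ∀ s, g s ≠ 0 := fun s => div_ne_zero (hlne _) (hh _)
  have hgs : ∀ s : Σ i, Fin (n i + 1), h s.1 * g s = l ⟨s.1, β s.1 s.2⟩ := by
    intro s
    have := hh s.1
    rw [hg]
    field_simp
  have hval : v (c * (∏ s, (h (Sigma.fst s) * g s)) ^ M) = ∏ p, w p ^ A' p := by
    simp only [hgs]
    have e1 : ∏ p, v (l p) = (∏ s : (Σ i, Fin (n i + 1)), v (l ⟨s.1, β s.1 s.2⟩)) *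
        ∏ i, v (h i) ^ (Fintype.card (E i) - (n i + 1)) := by
      rw [Fintype.prod_sigma, Fintype.prod_sigma, ← Finset.prod_mul_distrib]
      exact Finset.prod_congr rfl fun i _ => hprod i
    have e2 : (∏ i, v (h i) ^ (Fintype.card (E i) - (n i + 1))) ^ M = ∏ p, v (h (Sigma.fst p)) ^ A' p := by
      rw [← Finset.prod_pow, Fintype.prod_sigma]
      refine Finset.prod_congr rfl fun i _ => ?_
      rw [← pow_mul, ← hA' i]
      exact (Finset.prod_pow_eq_pow_sum _ _ _).symm
    have e3 : (∏ s : (Σ i, Fin (n i + 1)), v (l ⟨s.1, β s.1 s.2⟩)) ≠ 0 :=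
      Finset.prod_ne_zero_iff.2 fun s _ => hvl _
    have e4 : (∏ i, v (h i) ^ (Fintype.card (E i) - (n i + 1))) ≠ 0 :=
      Finset.prod_ne_zero_iff.2 fun i _ => pow_ne_zero _ (hvh i)
    rw [hc, map_mul, map_div₀, map_pow, map_pow, map_prod, map_prod, map_prod, e1, mul_pow, e2]
    simp only [hw, map_div₀, map_pow, div_pow]
    rw [Finset.prod_div_distrib]
    rw [e2] at *
    have e5 := pow_ne_zero M e3
    rw [div_mul_eq_mul_div, mul_comm (_ ^ M) (∏ p, _), mul_div_mul_right _ _ e5]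
  refine mForm_regularAt e v hv x c (fun i => Matrix.of fun j j' => α i (β i j) j') hdet h hh g hg0
    (fun i j => hgs ⟨i, j⟩) ?_
  rw [hval]
  by_cases hall : ∀ p, w p = 1
  · left
    refine ⟨fun s => hall ⟨s.1, β s.1 s.2⟩, ?_⟩
    simp [hall]
  right
  push Not at hall
  obtain ⟨p0, hp0⟩ := hall
  have hp0' : w p0 < 1 := lt_of_le_of_ne (hw1 p0) hp0
  obtain ⟨t, ht0, ht1, htmax⟩ := MP_4329d7_ag_sq.exists_uniformizer v
    (div_ne_zero (hlne p0) (hh p0.1)) hp0'
  have hvt : v t ≠ 0 := (v.ne_zero_iff).2 ht0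
  refine ⟨t, ht0, ht1, htmax, ?_⟩
  have hinj := zpow_right_injective₀ (zero_lt_iff.2 hvt) ht1.ne
  have hex := fun p => repdet_exists_zpow v ht0 ht1 htmax (div_ne_zero (hlne p) (hh p.1))
  choose m u hu hmu using hex
  have hwm : ∀ p, w p = v t ^ (m p) := by
    intro p
    rw [hw]
    simp only
    rw [hmu p, map_mul, hu p, mul_one, map_zpow₀]
  have hm0 : ∀ p, 0 ≤ m p := by
    intro p
    by_contra hcon
    have h1 := one_lt_zpow_of_neg₀ (zero_lt_iff.2 hvt) ht1 (not_le.1 hcon)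
    rw [← hwm p] at h1
    exact absurd (hw1 p) (not_le.2 h1)
  set b : (Σ i, E i) → ℕ := fun p => (m p).toNat with hbdef
  have hbm : ∀ p, (b p : ℤ) = m p := fun p => Int.toNat_of_nonneg (hm0 p)
  have hwb : ∀ p, w p = v t ^ (b p) := by
    intro p
    rw [hwm p, ← hbm p, zpow_natCast]
  have hblock : (coverBlocks (n := n) N S).IsBlock b := by
    refine ⟨?_, ?_, ?_⟩
    · intro h0
      have h1 := hwb p0
      rw [h0, Pi.zero_apply, pow_zero] at h1
      exact hp0 h1
    · intro z c' hz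
      have hrad := D.rad z c' hz
      choose d hd using D.deg z c' hz
      have hz0 : z ≠ 0 := by
        intro h0
        rw [h0, zero_pow D.N_pos.ne'] at hrad
        exact (Finset.prod_ne_zero_iff.2 fun i _ => Finset.prod_ne_zero_iff.2 fun e _ =>
          pow_ne_zero _ (hl0 i e)) hrad.symm
      set H : K := ∏ i, h i ^ d i with hH
      have hH0 : H ≠ 0 := Finset.prod_ne_zero_iff.2 fun i _ => pow_ne_zero _ (hh i)
      obtain ⟨k, u', hu', hk⟩ := repdet_exists_zpow v ht0 ht1 htmax (div_ne_zero hz0 hH0)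
      have h1 : v (z / H) ^ N = ∏ p, w p ^ (c' (Sigma.fst p) p.2) := by
        rw [← map_pow, div_pow, hrad, hH, ← Finset.prod_pow, Fintype.prod_sigma,
          ← Finset.prod_div_distrib, map_prod]
        refine Finset.prod_congr rfl fun i _ => ?_
        rw [← pow_mul, mul_comm (d i) N, ← hd i, ← Finset.prod_pow_eq_pow_sum,
          ← Finset.prod_div_distrib, map_prod]
        refine Finset.prod_congr rfl fun e _ => ?_
        rw [← div_pow, map_pow]
      have h2 : v (z / H) = v t ^ k := by rw [hk, map_mul, hu', mul_one, map_zpow₀]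
      rw [h2] at h1
      have h3 : ∏ p, w p ^ (c' (Sigma.fst p) p.2) =
          v t ^ (∑ p : Σ i, E i, (b p : ℤ) * (c' p.1 p.2 : ℤ)) := by
        simp only [hwb]
        have h4 : ∑ p : Σ i, E i, (b p : ℤ) * (c' p.1 p.2 : ℤ) =
            ((∑ p : Σ i, E i, b p * c' p.1 p.2 : ℕ) : ℤ) := by push_cast; rfl
        rw [h4, zpow_natCast, ← Finset.prod_pow_eq_pow_sum]
        exact Finset.prod_congr rfl fun p _ => (pow_mul _ _ _).symm
      rw [h3, ← zpow_natCast, ← zpow_mul] at h1
      have h5 := hinj h1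
      exact ⟨k, by rw [← h5]; ring⟩
    · intro i
      refine le_trans ?_ (hsm i)
      refine Finset.card_le_card_of_surjOn (fun e : E i => (⟨i, e⟩ : Σ i, E i)) ?_
      intro p hp
      simp only [Finset.coe_filter, Finset.mem_filter, Finset.mem_univ, true_and,
        Set.mem_ofPred_eq] at hp
      obtain ⟨hbp, hpi⟩ := hp
      obtain ⟨i', e'⟩ := p
      simp only at hpi
      subst hpi
      refine ⟨e', ?_, rfl⟩
      simp only [Finset.coe_filter, Finset.mem_univ, true_and, Set.mem_ofPred_eq]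
      have h1 : w ⟨i', e'⟩ < 1 := by
        rw [hwb]
        exact pow_lt_one₀ zero_le ht1 hbp
      rw [hw] at h1
      simp only [map_div₀] at h1
      exact (div_lt_one₀ (zero_lt_iff.2 (hvh i'))).1 h1
  have hMb := hb' b hblock
  have h6 : ∏ p, w p ^ A' p = v t ^ (∑ p, A' p * b p) := by
    simp only [hwb]
    rw [← Finset.prod_pow_eq_pow_sum]
    refine Finset.prod_congr rfl fun p _ => ?_
    rw [← pow_mul, mul_comm]
  rw [h6]
  exact pow_le_pow_right_of_le_one' ht1.le hMb

end cover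

end Pool.Agent.Work.Uni
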