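import Mathlib
import Pool.Agent.Work.MP_4329d7_ag_uni.LP
import Pool.Agent.Work.MP_4329d7_ag_uni.Forms
import Pool.Agent.Work.MP_4329d7_ag_uni.Curve
import Pool.Agent.Work.MP_4329d7_ag_uni.Crit
import Pool.Agent.Work.MP_4329d7_ag_uni.EqCase

/-!
Assembly (helper5).
-/

namespace Pool.Agent.Work.Uni

open Pool.Agent.Work.MP_4329d7_ag.FF

section

variable {K : Type} [Field K] [Algebra ℂ K]
    {I : Type} [Fintype I] [DecidableEq I]
    {n : I → ℕ} {E : I → Type} [∀ i, Fintype (E i)] [∀ i, DecidableEq (E i)]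
    {α : (i : I) → E i → Fin (n i + 1) → ℂ} {N : ℕ} {x : (i : I) → Fin (n i) → K}
    {S : Set (K × ((i : I) → E i → ℕ))}

theorem mem_L (b : (Σ i, E i) → ℤ) :
    b ∈ (coverBlocks (n := n) N S).L ↔
      ∀ z c, (z, c) ∈ S → (N : ℤ) ∣ ∑ p : Σ i, E i, b p * (c p.1 p.2 : ℤ) := Iff.rfl

theorem single_mem_L (p : Σ i, E i) (r : ℤ)
    (h : ∀ z c, (z, c) ∈ S → (N : ℤ) ∣ r * (c p.1 p.2 : ℤ)) :
    (Pi.single p r : (Σ i, E i) → ℤ) ∈ (coverBlocks (n := n) N S).L := by
  rw [mem_L]
  intro z c hz
  rw [Finset.sum_eq_single p]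
  · rw [Pi.single_eq_same]
    exact h z c hz
  · intro p' _ hp
    rw [Pi.single_eq_of_ne hp, zero_mul]
  · intro hp
    exact absurd (Finset.mem_univ p) hp

theorem single_mem_L_N (p : Σ i, E i) :
    (Pi.single p (N : ℤ) : (Σ i, E i) → ℤ) ∈ (coverBlocks (n := n) N S).L :=
  single_mem_L p _ fun _ _ _ => dvd_mul_right _ _

theorem one_mem_L (D : CoverData K I n E α N x S) (i : I) :
    (fun p : Σ i, E i => if p.1 = i then (1 : ℤ) else 0) ∈ (coverBlocks (n := n) N S).L := by
  rw [mem_L]
  intro z c hz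
  rw [Fintype.sum_sigma, Finset.sum_eq_single i]
  · simp only [if_true, one_mul]
    have := D.deg z c hz i
    exact_mod_cast this
  · intro i' _ hi
    refine Finset.sum_eq_zero fun e _ => ?_
    rw [if_neg hi, zero_mul]
  · intro h
    exact absurd (Finset.mem_univ i) h

theorem single_one_notMem_L (D : CoverData K I n E α N x S) (p : Σ i, E i) :
    (Pi.single p (1 : ℤ) : (Σ i, E i) → ℤ) ∉ (coverBlocks (n := n) N S).L := by
  intro h
  obtain ⟨z, c, hz, hn⟩ := D.branch p.1 p.2
  have h1 := (mem_L _).1 h z c hz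
  rw [Finset.sum_eq_single p] at h1
  · rw [Pi.single_eq_same, one_mul] at h1
    exact hn (by exact_mod_cast h1)
  · intro p' _ hp
    rw [Pi.single_eq_of_ne hp, zero_mul]
  · intro hp
    exact absurd (Finset.mem_univ p) hp

theorem small_single (D : CoverData K I n E α N x S) (p : Σ i, E i) :
    (coverBlocks (n := n) N S).Small {p} := by
  intro i
  exact (Finset.card_le_card (Finset.filter_subset _ _)).trans
    (by rw [Finset.card_singleton]; exact D.n_pos i)

theorem single_isBlock (D : CoverData K I n E α N x S) (p : Σ i, E i) :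
    (coverBlocks (n := n) N S).IsBlock (Pi.single p N) := by
  refine ⟨?_, ?_, ?_⟩
  · intro h
    have := congrFun h p
    rw [Pi.single_eq_same] at this
    exact D.N_pos.ne' this
  · convert single_mem_L_N (n := n) (N := N) (S := S) p using 1
    ext p'
    by_cases h : p' = p
    · subst h
      rw [Pi.single_eq_same, Pi.single_eq_same]
    · rw [Pi.single_eq_of_ne h, Pi.single_eq_of_ne h]
      rfl
  · refine (coverBlocks (n := n) N S).mono _ {p} ?_ (small_single D p)
    intro p' hp'
    rw [Finset.mem_filter] at hp'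
    rw [Finset.mem_singleton]
    by_contra hne
    exact hp'.2 (Pi.single_eq_of_ne hne _)

end

/-- If `K` is not uniruled then there are weights `A` (with denominator `M`) with
`∑ e, A e ≤ κ M` on every factor and `A · b ≥ M` for all blocks `b`. -/
theorem weights_of_not_uniruled {K : Type} [Field K] [Algebra ℂ K] [Algebra.EssFiniteType ℂ K]
    {I : Type} [Fintype I] [DecidableEq I]
    {n : I → ℕ} {E : I → Type} [∀ i, Fintype (E i)] [∀ i, DecidableEq (E i)]
    {α : (i : I) → E i → Fin (n i + 1) → ℂ} {N : ℕ} {x : (i : I) → Fin (n i) → K}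
    {S : Set (K × ((i : I) → E i → ℕ))} (D : CoverData K I n E α N x S)
    (hK : ¬ Uniruled K) :
    ∃ (M : ℕ) (A : (Σ i, E i) → ℕ), 0 < M ∧
      (∀ i, ∑ e, A ⟨i, e⟩ ≤ (Fintype.card (E i) - (n i + 1)) * M) ∧
      ∀ b : (Σ i, E i) → ℕ, (coverBlocks (n := n) N S).IsBlock b → M ≤ ∑ p, A p * b p := by
  classical
  obtain ⟨Q, _, g, a, ha, hcardQ, hstar⟩ := star_of_not_uniruled D hK
  have : CharZero K := charZero_of_injective_algebraMap (algebraMap ℂ K).injective
  have hcrit := crit_of_star (coverBlocks (n := n) N S) Sigma.fst g a ha hstar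
  have hfin := eq_case (coverBlocks (n := n) N S) Sigma.fst g a ha hstar hcrit
    (one_mem_L D) N D.N_pos single_mem_L_N (small_single D) (single_one_notMem_L D)
  set Bs : Finset ((Σ i, E i) → ℕ) :=
    (Fintype.piFinset fun _ => Finset.range (N + 1)).filter
      fun b => (coverBlocks (n := n) N S).IsBlock b with hBs
  have hmem : ∀ b, b ∈ Bs ↔ (∀ p, b p ≤ N) ∧ (coverBlocks (n := n) N S).IsBlock b := by
    intro b
    rw [hBs, Finset.mem_filter, Fintype.mem_piFinset]
    simp only [Finset.mem_range, Nat.lt_succ_iff]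
  have hsing : ∀ p, (Pi.single p N : (Σ i, E i) → ℕ) ∈ Bs := by
    intro p
    rw [hmem]
    refine ⟨fun p' => ?_, single_isBlock D p⟩
    by_cases hp : p' = p
    · subst hp
      rw [Pi.single_eq_same]
    · rw [Pi.single_eq_of_ne hp]
      exact Nat.zero_le _
  rcases weights_or_packing (Sigma.fst : (Σ i, E i) → I)
    (fun i => Fintype.card (E i) - (n i + 1)) Bs N D.N_pos hsing with
    ⟨M, A, hM, hA, hAb⟩ | ⟨lam, m, hpack, hdelta⟩
  · refine ⟨M, A, hM, fun i => ?_, fun b hb => ?_⟩
    · refine le_trans (le_of_eq ?_) (hA i)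
      rw [Finset.sum_filter, Fintype.sum_sigma, Finset.sum_eq_single i]
      · simp
      · intro i' _ hi
        refine Finset.sum_eq_zero fun e _ => ?_
        rw [if_neg hi]
      · intro h
        exact absurd (Finset.mem_univ i) h
    · by_cases hle : ∀ p, b p ≤ N
      · exact hAb b ((hmem b).2 ⟨hle, hb⟩)
      · push Not at hle
        obtain ⟨p, hp⟩ := hle
        have h1 := hAb _ (hsing p)
        rw [Finset.sum_eq_single p] at h1
        · rw [Pi.single_eq_same] at h1
          calc M ≤ A p * N := h1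
            _ ≤ A p * b p := Nat.mul_le_mul_left _ hp.le
            _ ≤ ∑ p, A p * b p :=
              Finset.single_le_sum (f := fun p => A p * b p) (fun _ _ => Nat.zero_le _)
                (Finset.mem_univ p)
        · intro p' _ hp'
          rw [Pi.single_eq_of_ne hp', mul_zero]
        · intro hp
          exact absurd (Finset.mem_univ p) hp
  · have hf : Function.Surjective (Sigma.fst : (Σ i, E i) → I) := by
      intro i
      have h1 := D.card i
      have : Nonempty (E i) := Fintype.card_pos_iff.1 (by omega)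
      exact ⟨⟨i, Classical.arbitrary _⟩, rfl⟩
    obtain ⟨Ty, _, b, lam', m', hb, hext, hlt⟩ := exists_ext
      (Sigma.fst : (Σ i, E i) → I) hf (fun i => Fintype.card (E i) - (n i + 1)) Bs
      (fun b hb => ((hmem b).1 hb).2.1) lam m hpack hdelta
    have h1 := hfin Ty b lam' m' (fun t => ((hmem _).1 (hb t)).2) hext
    have h2 : ∑ q, m' (g q) = ∑ i, (Fintype.card (E i) - (n i + 1)) * m' i := by
      rw [← Finset.sum_fiberwise (s := Finset.univ) (g := g) (f := fun q => m' (g q))]
      refine Finset.sum_congr rfl fun i _ => ?_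
      rw [← hcardQ i, Finset.sum_congr rfl (g := fun _ => m' i), Finset.sum_const, smul_eq_mul]
      intro q hq
      rw [(Finset.mem_filter.1 hq).2]
    rw [h2] at h1
    exact absurd hlt (not_lt.2 h1)

theorem main {K : Type} [Field K] [Algebra ℂ K] [Algebra.EssFiniteType ℂ K]
    {I : Type} [Fintype I] [DecidableEq I]
    {n : I → ℕ} {E : I → Type} [∀ i, Fintype (E i)] [∀ i, DecidableEq (E i)]
    {α : (i : I) → E i → Fin (n i + 1) → ℂ} {N : ℕ} {x : (i : I) → Fin (n i) → K}
    {S : Set (K × ((i : I) → E i → ℕ))} (D : CoverData K I n E α N x S)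
    (h : ∀ M, 0 < M → ∀ T : TensorForm K (M * ∑ i, n i),
      IsPluricanonical M (∑ i, n i) T → IsRegular T → T = 0) : Uniruled K := by
  by_contra hK
  obtain ⟨M, A, hM, hA, hAb⟩ := weights_of_not_uniruled D hK
  obtain ⟨T, hTp, hT, hT0⟩ := exists_form D M hM A hA hAb
  exact hT0 (h M hM T hTp hT)

end Pool.Agent.Work.Uni
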