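import Mathlib
import Pool.Agent.Work.MP_4329d7_ag_uni.Wqo

/-!
Uniform weights, part 2 (helper44): if there are weights then there are weights whose common
denominator depends only on the dimensions `n i` of the factors (not on the number of
hyperplanes nor on the set of blocks).
-/

namespace Pool.Agent.Work.Uni

open Finset

section

variable {I E : Type} [Fintype I] [DecidableEq I] [Fintype E] [DecidableEq E]

/-- rational weights, in terms of the deficits `1 - A` -/
structure RatWt (n : I → ℕ) (f : E → I) (B : Set (E → ℕ)) (A : E → ℚ) : Prop where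
  box : ∀ e, 0 ≤ A e ∧ A e ≤ 1
  fac : ∀ i, (n i + 1 : ℚ) ≤ ∑ e with f e = i, (1 - A e)
  blk : ∀ b ∈ B, 1 ≤ ∑ e, A e * (b e : ℚ)

/-- weights with denominator `M` -/
structure NatWt (n : I → ℕ) (f : E → I) (B : Set (E → ℕ)) (M : ℕ) (A : E → ℕ) : Prop where
  box : ∀ e, A e ≤ M
  fac : ∀ i, (n i + 1) * M + ∑ e with f e = i, A e ≤ (univ.filter fun e => f e = i).card * M
  blk : ∀ b ∈ B, M ≤ ∑ e, A e * b e

omit [Fintype I] [DecidableEq E] in
theorem NatWt.smul {n : I → ℕ} {f : E → I} {B : Set (E → ℕ)} {M : ℕ} {A : E → ℕ}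
    (h : NatWt n f B M A) (k : ℕ) : NatWt n f B (k * M) (fun e => k * A e) where
  box := fun e => Nat.mul_le_mul_left _ (h.box e)
  fac := fun i => by
    rw [← mul_sum]
    calc (n i + 1) * (k * M) + k * ∑ e with f e = i, A e
        = k * ((n i + 1) * M + ∑ e with f e = i, A e) := by ring
      _ ≤ k * ((univ.filter fun e => f e = i).card * M) := Nat.mul_le_mul_left _ (h.fac i)
      _ = _ := by ring
  blk := fun b hb => by
    calc k * M ≤ k * ∑ e, A e * b e := Nat.mul_le_mul_left _ (h.blk b hb)
      _ = _ := by rw [mul_sum]; exact sum_congr rfl fun e _ => by ring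

theorem sum_split (V : Finset E) (g : E → ℕ) : ∑ e, g e = ∑ e ∈ V, g e + ∑ e ∈ Vᶜ, g e :=
  (sum_add_sum_compl V g).symm

omit [Fintype I] in
/-- the case in which every factor that still counts outside `V` has many elements with a small
deficit -/
theorem case_many {v M : ℕ} (hM2 : 2 ≤ M)
    (hM : ∀ (V : Type) [Fintype V], Fintype.card V ≤ v → ∀ A : V → ℚ,
      (∀ e, 0 ≤ A e ∧ A e ≤ 1) → ∃ A' : V → ℕ, (∀ e, A' e ≤ M) ∧
      (∀ b : V → ℕ, 1 ≤ ∑ e, A e * b e → M ≤ ∑ e, A' e * b e) ∧
      (∀ e, 0 < A e → 0 < A' e) ∧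
      ∀ (s : Finset V) (c : ℕ), ∑ e ∈ s, A e ≤ c → ∑ e ∈ s, A' e ≤ M * c)
    (n : I → ℕ) (f : E → I) (B : Set (E → ℕ))
    (A : E → ℚ) (hA : RatWt n f B A) (V : Finset E) (J : Finset I) (hV : V.card ≤ v)
    (hVJ : ∀ e, e ∉ V → A e < 1 → f e ∈ J)
    (hmany : ∀ i ∈ J, (n i + 1) * M ≤ (univ.filter fun e => e ∉ V ∧ f e = i ∧ A e < 1).card) :
    ∃ A' : E → ℕ, NatWt n f B M A' := by
  classical
  obtain ⟨C, hC1, hC2, hC3, hC4⟩ := hM V (by rwa [Fintype.card_coe]) (fun e => A e.1)
    (fun e => hA.box _)
  choose! U hU1 hU2 using fun i (hi : i ∈ J) => exists_subset_card_eq (hmany i hi)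
  let W : Finset E := J.biUnion U
  have hWmem : ∀ e, e ∈ W → e ∉ V ∧ A e < 1 := by
    intro e he
    obtain ⟨i, hi, hei⟩ := mem_biUnion.1 he
    have := hU1 i hi hei
    rw [mem_filter] at this
    exact ⟨this.2.1, this.2.2.2⟩
  let A' : E → ℕ := fun e => if h : e ∈ V then C ⟨e, h⟩ else if e ∈ W then M - 1 else M
  have hAV : ∀ e (h : e ∈ V), A' e = C ⟨e, h⟩ := fun e h => by simp only [A', dif_pos h]
  have hAW : ∀ e, e ∉ V → e ∈ W → A' e = M - 1 := fun e h h' => by
    simp only [A', dif_neg h, if_pos h']
  have hAO : ∀ e, e ∉ V → e ∉ W → A' e = M := fun e h h' => by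
    simp only [A', dif_neg h, if_neg h']
  have hle : ∀ e, A' e ≤ M := by
    intro e
    by_cases h : e ∈ V
    · rw [hAV e h]
      exact hC1 _
    · by_cases h' : e ∈ W
      · rw [hAW e h h']
        omega
      · rw [hAO e h h']
  have hge : ∀ e, e ∉ V → M - 1 ≤ A' e := by
    intro e h
    by_cases h' : e ∈ W
    · rw [hAW e h h']
    · rw [hAO e h h']
      omega
  refine ⟨A', hle, fun i => ?_, fun b hb => ?_⟩
  · by_cases hi : i ∈ J
    · -- many elements
      have hsub : U i ⊆ univ.filter fun e => f e = i := by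
        intro e he
        have := hU1 i hi he
        rw [mem_filter] at this ⊢
        exact ⟨mem_univ _, this.2.2.1⟩
      have h1 : ∑ e ∈ U i, A' e = (U i).card * (M - 1) := by
        rw [sum_congr rfl (g := fun _ => M - 1), sum_const, smul_eq_mul]
        intro e he
        have h2 : e ∈ W := mem_biUnion.2 ⟨i, hi, he⟩
        exact hAW e (hWmem e h2).1 h2
      have h2 : ∑ e ∈ (univ.filter fun e => f e = i) \ U i, A' e ≤
          ((univ.filter fun e => f e = i) \ U i).card * M := by
        rw [← smul_eq_mul, ← sum_const]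
        exact sum_le_sum fun e _ => hle e
      have h3 := sum_sdiff (f := A') hsub
      have h4 := card_sdiff_add_card_eq_card hsub
      rw [← h3, ← h4, h1, hU2 i hi]
      rw [add_mul ((univ.filter fun e => f e = i) \ U i).card]
      have h5 : (n i + 1) * M * M = (n i + 1) * M + (n i + 1) * M * (M - 1) := by
        obtain ⟨M', rfl⟩ : ∃ M', M = M' + 1 := ⟨M - 1, by omega⟩
        rw [Nat.add_sub_cancel]
        ring
      omega
    · -- all weights outside `V` are `1`
      have h1 : ∀ e, e ∉ V → f e = i → A e = 1 := by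
        intro e he hfe
        by_contra hne
        exact hi (hfe ▸ hVJ e he (lt_of_le_of_ne (hA.box e).2 hne))
      set P := univ.filter fun e => f e = i with hP
      have hsplit : ∀ g : E → ℚ, ∑ e ∈ P, g e =
          ∑ e ∈ P.filter (fun e => e ∈ V), g e + ∑ e ∈ P.filter (fun e => e ∉ V), g e := fun g =>
        (sum_filter_add_sum_filter_not P (fun e => e ∈ V) g).symm
      have h2 : (n i + 1 : ℚ) ≤ ∑ e ∈ P.filter (fun e => e ∈ V), (1 - A e) := by
        have := hA.fac i
        rw [← hP, hsplit, sum_eq_zero (s := P.filter (fun e => e ∉ V)), add_zero] at this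
        · exact this
        · intro e he
          rw [mem_filter, hP, mem_filter] at he
          rw [h1 e he.2 he.1.2, sub_self]
      have hcard : ((P.filter (fun e => e ∈ V)).card : ℚ) =
          ∑ e ∈ P.filter (fun e => e ∈ V), (1 - A e) + ∑ e ∈ P.filter (fun e => e ∈ V), A e := by
        rw [← sum_add_distrib]
        simp
      have h3 : n i + 1 ≤ (P.filter (fun e => e ∈ V)).card := by
        have h4 : (0 : ℚ) ≤ ∑ e ∈ P.filter (fun e => e ∈ V), A e :=
          sum_nonneg fun e _ => (hA.box e).1
        have h5 : ((n i + 1 : ℕ) : ℚ) ≤ ((P.filter (fun e => e ∈ V)).card : ℚ) := by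
          push_cast
          linarith
        exact_mod_cast h5
      obtain ⟨c, hc⟩ := Nat.exists_eq_add_of_le h3
      have h6 : ∑ e ∈ P.filter (fun e => e ∈ V), A e ≤ c := by
        rw [hc] at hcard
        push_cast at hcard
        linarith
      have h7 : ∑ e ∈ P.filter (fun e => e ∈ V), A' e ≤ M * c := by
        let s : Finset V := univ.filter fun e : V => f e.1 = i
        have hs : ∀ {β : Type} [AddCommMonoid β] (g : E → β), ∑ e ∈ s, g e.1 =
            ∑ e ∈ P.filter (fun e => e ∈ V), g e := by
          intro β _ g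
          refine sum_bij (fun e _ => e.1) ?_ ?_ ?_ ?_
          · intro e he
            rw [mem_filter] at he
            rw [mem_filter, hP, mem_filter]
            exact ⟨⟨mem_univ _, he.2⟩, e.2⟩
          · intro e _ e' _ h
            exact Subtype.ext h
          · intro e he
            rw [mem_filter, hP, mem_filter] at he
            exact ⟨⟨e, he.2⟩, by rw [mem_filter]; exact ⟨mem_univ _, he.1.2⟩, rfl⟩
          · intro e _
            rfl
        have := hC4 s c (by rw [hs fun e => A e]; exact h6)
        rw [← hs A']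
        refine le_trans (le_of_eq (sum_congr rfl fun e _ => ?_)) this
        exact hAV e.1 e.2
      have h8 : ∑ e ∈ P.filter (fun e => e ∉ V), A' e ≤ (P.filter (fun e => e ∉ V)).card * M := by
        rw [← smul_eq_mul, ← sum_const]
        exact sum_le_sum fun e _ => hle e
      have h9 := sum_filter_add_sum_filter_not P (fun e => e ∈ V) A'
      have h10 := card_filter_add_card_filter_not (s := P) (fun e => e ∈ V)
      have h11 : (n i + 1 + c + (P.filter (fun e => e ∉ V)).card) * M =
          (n i + 1) * M + M * c + (P.filter (fun e => e ∉ V)).card * M := by ring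
      rw [← h9, ← h10, hc, h11]
      omega
  · rw [sum_split V]
    rcases Nat.lt_or_ge 1 (∑ e ∈ Vᶜ, b e) with h2 | h2
    · -- at least two outside `V`
      have h3 : (M - 1) * ∑ e ∈ Vᶜ, b e ≤ ∑ e ∈ Vᶜ, A' e * b e := by
        rw [mul_sum]
        refine sum_le_sum fun e he => Nat.mul_le_mul_right _ (hge e (mem_compl.1 he))
      have h4 : (M - 1) * 2 ≤ (M - 1) * ∑ e ∈ Vᶜ, b e := Nat.mul_le_mul_left _ h2
      omega
    · have hAb := hA.blk b hb
      rw [← sum_add_sum_compl V] at hAb
      rcases Nat.eq_zero_or_pos (∑ e ∈ Vᶜ, b e) with h0 | h0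
      · -- supported on `V`
        have hz : ∀ e ∈ Vᶜ, b e = 0 := sum_eq_zero_iff.1 h0
        rw [sum_eq_zero (s := Vᶜ) (fun e he => by rw [hz e he, Nat.cast_zero, mul_zero]),
          add_zero, ← sum_coe_sort V] at hAb
        have := hC2 (fun e => b e.1) hAb
        refine le_trans this (le_trans (le_of_eq ?_) (Nat.le_add_right _ _))
        rw [← sum_coe_sort V]
        exact sum_congr rfl fun e _ => by rw [hAV e.1 e.2]
      · -- exactly one outside `V`
        have h1 : ∑ e ∈ Vᶜ, b e = 1 := by omega
        obtain ⟨e0, he0, hbe0⟩ : ∃ e ∈ Vᶜ, 0 < b e := by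
          by_contra hcon
          push Not at hcon
          rw [sum_eq_zero fun e he => Nat.le_zero.1 (hcon e he)] at h1
          exact absurd h1 (by norm_num)
        have hle1 : b e0 ≤ ∑ e ∈ Vᶜ, b e := single_le_sum (fun _ _ => Nat.zero_le _) he0
        have hb1 : b e0 = 1 := by omega
        have hother : ∀ e ∈ Vᶜ, e ≠ e0 → b e = 0 := by
          intro e he hne
          have := add_le_sum (f := b) (s := Vᶜ) (fun _ _ => Nat.zero_le _) he0 he hne.symm
          omega
        have hs1 : ∑ e ∈ Vᶜ, A' e * b e = A' e0 := by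
          rw [sum_eq_single_of_mem e0 he0 fun e he hne => by rw [hother e he hne, mul_zero],
            hb1, mul_one]
        have hs2 : ∑ e ∈ Vᶜ, A e * (b e : ℚ) = A e0 := by
          rw [sum_eq_single_of_mem e0 he0 fun e he hne => by
            rw [hother e he hne, Nat.cast_zero, mul_zero], hb1, Nat.cast_one, mul_one]
        rw [hs1]
        rw [hs2] at hAb
        have heV : e0 ∉ V := mem_compl.1 he0
        by_cases hW : e0 ∈ W
        · rw [hAW e0 heV hW]
          have h5 : 0 < ∑ e ∈ V, A e * (b e : ℚ) := by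
            have := (hWmem e0 hW).2
            linarith
          obtain ⟨e1, he1, hp⟩ : ∃ e ∈ V, 0 < A e * (b e : ℚ) := by
            by_contra hcon
            push Not at hcon
            exact absurd (sum_nonpos hcon) (not_le.2 h5)
          have hb0 : (0 : ℚ) ≤ b e1 := Nat.cast_nonneg _
          have hAe : 0 < A e1 := by
            by_contra hcon
            push Not at hcon
            exact absurd hp (not_lt.2 (mul_nonpos_of_nonpos_of_nonneg hcon hb0))
          have hbe : 0 < b e1 := by
            by_contra hcon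
            have : b e1 = 0 := by omega
            rw [this, Nat.cast_zero, mul_zero] at hp
            exact absurd hp (lt_irrefl _)
          have hC := hC3 ⟨e1, he1⟩ hAe
          have h6 : 1 ≤ A' e1 * b e1 := by
            rw [hAV e1 he1]
            exact Nat.mul_pos hC hbe
          have h7 : A' e1 * b e1 ≤ ∑ e ∈ V, A' e * b e :=
            single_le_sum (f := fun e => A' e * b e) (fun _ _ => Nat.zero_le _) he1
          omega
        · rw [hAO e0 heV hW]
          exact Nat.le_add_left _ _

end

/-- the induction on the number of the factors that count outside `V` -/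
theorem unif_step {I : Type} [Fintype I] [DecidableEq I] (n : I → ℕ) (j : ℕ) :
    ∀ v : ℕ, ∃ M : ℕ, 0 < M ∧ ∀ (E : Type) [Fintype E] [DecidableEq E] (f : E → I)
      (B : Set (E → ℕ)) (A : E → ℚ), RatWt n f B A →
      ∀ (V : Finset E) (J : Finset I), J.card ≤ j → V.card ≤ v →
      (∀ e, e ∉ V → A e < 1 → f e ∈ J) → ∃ A' : E → ℕ, NatWt n f B M A' := by
  classical
  induction j with
  | zero =>
    intro v
    obtain ⟨M, hM2, hM⟩ := exists_denom' v
    refine ⟨M, by omega, fun E _ _ f B A hA V J hJ hV hVJ => ?_⟩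
    have hJ0 : J = ∅ := card_eq_zero.1 (by omega)
    exact case_many hM2 hM n f B A hA V J hV hVJ (by
      rw [hJ0]
      intro i hi
      exact absurd hi (notMem_empty _))
  | succ j ih =>
    intro v
    obtain ⟨M, hM2, hM⟩ := exists_denom' v
    obtain ⟨M', hM', ih'⟩ := ih (v + ∑ i, (n i + 1) * M)
    refine ⟨M' * M, Nat.mul_pos hM' (by omega), fun E _ _ f B A hA V J hJ hV hVJ => ?_⟩
    by_cases hmany : ∀ i ∈ J, (n i + 1) * M ≤
        (univ.filter fun e => e ∉ V ∧ f e = i ∧ A e < 1).card
    · obtain ⟨A', hA'⟩ := case_many hM2 hM n f B A hA V J hV hVJ hmany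
      exact ⟨_, hA'.smul M'⟩
    · push Not at hmany
      obtain ⟨i, hi, hlt⟩ := hmany
      obtain ⟨A', hA'⟩ := ih' E f B A hA
        (V ∪ univ.filter fun e => e ∉ V ∧ f e = i ∧ A e < 1) (J.erase i)
        (by rw [card_erase_of_mem hi]; omega)
        (by
          refine (card_union_le _ _).trans (Nat.add_le_add hV (hlt.le.trans ?_))
          exact single_le_sum (f := fun i => (n i + 1) * M) (fun _ _ => Nat.zero_le _) (mem_univ i))
        (by
          intro e he hAe
          rw [mem_union, not_or] at he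
          have h1 := hVJ e he.1 hAe
          refine mem_erase.2 ⟨fun h => he.2 ?_, h1⟩
          rw [mem_filter]
          exact ⟨mem_univ _, he.1, h, hAe⟩)
      refine ⟨fun e => M * A' e, ?_⟩
      rw [mul_comm M' M]
      exact hA'.smul M

/-- uniform weights: the denominator depends only on the dimensions of the factors -/
theorem unif_weights {I : Type} [Fintype I] [DecidableEq I] (n : I → ℕ) :
    ∃ M : ℕ, 0 < M ∧ ∀ (E : Type) [Fintype E] [DecidableEq E] (f : E → I)
      (B : Set (E → ℕ)) (A : E → ℚ), RatWt n f B A →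
      ∃ A' : E → ℕ, NatWt n f B M A' := by
  classical
  obtain ⟨M, hM, h⟩ := unif_step n (Fintype.card I) (∑ i, 2 * (n i + 1))
  refine ⟨M, hM, fun E _ _ f B A hA => ?_⟩
  -- the elements with deficit at least `1 / 2`
  let H : I → Finset E := fun i => univ.filter fun e => f e = i ∧ A e ≤ 1 / 2
  have hU : ∀ i, ∃ U : Finset E, U ⊆ H i ∧ (2 * (n i + 1) ≤ (H i).card → U.card = 2 * (n i + 1)) := by
    intro i
    by_cases hi : 2 * (n i + 1) ≤ (H i).card
    · obtain ⟨U, hU1, hU2⟩ := exists_subset_card_eq hi
      exact ⟨U, hU1, fun _ => hU2⟩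
    · exact ⟨∅, empty_subset _, fun h => absurd h hi⟩
  choose U hU1 hU2 using hU
  let A2 : E → ℚ := fun e => if 2 * (n (f e) + 1) ≤ (H (f e)).card then
    (if e ∈ U (f e) then 1 / 2 else 1) else A e
  have hge : ∀ e, A e ≤ A2 e := by
    intro e
    simp only [A2]
    split_ifs with h1 h2
    · have := hU1 _ h2
      rw [mem_filter] at this
      exact this.2.2
    · exact (hA.box e).2
    · exact le_rfl
  have hA2 : RatWt n f B A2 := by
    refine ⟨fun e => ⟨(hA.box e).1.trans (hge e), ?_⟩, fun i => ?_, fun b hb => ?_⟩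
    · simp only [A2]
      split_ifs
      · norm_num
      · exact le_rfl
      · exact (hA.box e).2
    · by_cases hi : 2 * (n i + 1) ≤ (H i).card
      · have hsub : U i ⊆ univ.filter fun e => f e = i := by
          intro e he
          have := hU1 i he
          rw [mem_filter] at this ⊢
          exact ⟨mem_univ _, this.2.1⟩
        rw [← sum_sdiff hsub]
        have h1 : ∑ e ∈ (univ.filter fun e => f e = i) \ U i, (1 - A2 e) = 0 := by
          refine sum_eq_zero fun e he => ?_
          rw [mem_sdiff, mem_filter] at he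
          have hfe := he.1.2
          simp only [A2, hfe, if_pos hi, if_neg he.2]
          norm_num
        have h2 : ∑ e ∈ U i, (1 - A2 e) = ∑ _e ∈ U i, (1 / 2 : ℚ) := by
          refine sum_congr rfl fun e he => ?_
          have hfe := (mem_filter.1 (hsub he)).2
          simp only [A2, hfe, if_pos hi, if_pos he]
          norm_num
        rw [h1, h2, sum_const, hU2 i hi, zero_add, nsmul_eq_mul]
        push_cast
        linarith
      · refine (hA.fac i).trans (le_of_eq (sum_congr rfl fun e he => ?_))
        have hfe := (mem_filter.1 he).2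
        simp only [A2, hfe, if_neg hi]
    · refine (hA.blk b hb).trans (sum_le_sum fun e _ => ?_)
      exact mul_le_mul_of_nonneg_right (hge e) (Nat.cast_nonneg _)
  obtain ⟨A', hA'⟩ := h E f B A2 hA2 (univ.filter fun e => A2 e ≤ 1 / 2) univ
    (by rw [card_univ]) (by
      rw [card_eq_sum_card_fiberwise (f := f) (t := univ) (fun _ _ => mem_coe.2 (mem_univ _))]
      refine sum_le_sum fun i _ => ?_
      rw [filter_filter]
      by_cases hi : 2 * (n i + 1) ≤ (H i).card
      · rw [← hU2 i hi]
        refine card_le_card fun e he => ?_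
        rw [mem_filter] at he
        obtain ⟨-, h1, h2⟩ := he
        by_contra hne
        simp only [A2, h2, if_pos hi, if_neg hne] at h1
        norm_num at h1
      · push Not at hi
        refine le_trans (card_le_card fun e he => ?_) hi.le
        rw [mem_filter] at he ⊢
        obtain ⟨-, h1, h2⟩ := he
        simp only [A2, h2, if_neg (not_le.2 hi)] at h1
        exact ⟨mem_univ _, h2, h1⟩)
    (fun e _ _ => mem_univ _)
  exact ⟨A', hA'⟩

/-- uniform weights: the denominator depends only on the total dimension -/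
theorem unif_weights_dim (D : ℕ) :
    ∃ M : ℕ, 0 < M ∧ ∀ (I : Type) [Fintype I] [DecidableEq I] (n : I → ℕ), (∀ i, 0 < n i) →
      ∑ i, n i = D → ∀ (E : Type) [Fintype E] [DecidableEq E] (f : E → I)
      (B : Set (E → ℕ)) (A : E → ℚ), RatWt n f B A → ∃ A' : E → ℕ, NatWt n f B M A' := by
  classical
  choose Mf hpos hMf using fun (r : ℕ) (m : Fin r → ℕ) => unif_weights m
  refine ⟨∏ r ∈ range (D + 1), ∏ m : Fin r → Fin (D + 1), Mf r fun i => m i,
    prod_pos fun r _ => prod_pos fun m _ => hpos _ _, fun I _ _ n hn hD E _ _ f B A hA => ?_⟩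
  set M := ∏ r ∈ range (D + 1), ∏ m : Fin r → Fin (D + 1), Mf r fun i => m i with hM
  let e : I ≃ Fin (Fintype.card I) := Fintype.equivFin I
  have hr : Fintype.card I < D + 1 := by
    rw [← hD, Nat.lt_succ_iff, ← card_univ, card_eq_sum_ones]
    exact sum_le_sum fun i _ => hn i
  have hm : ∀ i, n i < D + 1 := by
    intro i
    rw [← hD, Nat.lt_succ_iff]
    exact single_le_sum (fun _ _ => Nat.zero_le _) (mem_univ i)
  let m : Fin (Fintype.card I) → Fin (D + 1) := fun j => ⟨n (e.symm j), hm _⟩
  have hfil : ∀ j, (univ.filter fun x => (e ∘ f) x = j) = univ.filter fun x => f x = e.symm j := by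
    intro j
    ext x
    simp only [mem_filter, mem_univ, true_and, Function.comp_apply]
    rw [e.eq_symm_apply]
  obtain ⟨A', hA'⟩ := hMf (Fintype.card I) (fun j => (m j : ℕ)) E (e ∘ f) B A
    ⟨hA.box, fun j => by rw [hfil]; exact hA.fac _, hA.blk⟩
  have h1 : NatWt n f B (Mf (Fintype.card I) fun j => (m j : ℕ)) A' := by
    refine ⟨hA'.box, fun i => ?_, hA'.blk⟩
    have := hA'.fac (e i)
    rw [hfil, e.symm_apply_apply] at this
    simpa only [m, e.symm_apply_apply] using this
  have hdvd : (Mf (Fintype.card I) fun j => (m j : ℕ)) ∣ M := by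
    rw [hM]
    exact (dvd_prod_of_mem (fun m : Fin (Fintype.card I) → Fin (D + 1) =>
      Mf (Fintype.card I) fun i => (m i : ℕ)) (mem_univ m)).trans
      (dvd_prod_of_mem (fun r => ∏ m : Fin r → Fin (D + 1), Mf r fun i => (m i : ℕ))
        (mem_range.2 hr))
  obtain ⟨k, hk⟩ := hdvd
  refine ⟨fun e => k * A' e, ?_⟩
  rw [hk, mul_comm]
  exact h1.smul k

end Pool.Agent.Work.Uni
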