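import Mathlib
import Pool.Agent.Work.MP_4329d7_ag_uni.Main
import Pool.Agent.Work.MP_4329d7_ag_uni.Unif

/-!
Theorem U with one exponent for all covers of a given dimension (helper44).
-/

namespace Pool.Agent.Work.Uni

open Pool.Agent.Work.MP_4329d7_ag.FF

/-- natural weights give rational weights with entries at most `1` -/
theorem ratWt_of_nat {I E : Type} [Fintype I] [DecidableEq I] [Fintype E] [DecidableEq E]
    (n : I → ℕ) (f : E → I) (B : Set (E → ℕ))
    (hcard : ∀ i, n i + 1 ≤ (Finset.univ.filter fun e => f e = i).card)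
    (M : ℕ) (hM : 0 < M) (A : E → ℕ)
    (hA : ∀ i, ∑ e with f e = i, A e ≤
      ((Finset.univ.filter fun e => f e = i).card - (n i + 1)) * M)
    (hb : ∀ b ∈ B, M ≤ ∑ e, A e * b e) :
    RatWt n f B (fun e => min ((A e : ℚ) / M) 1) := by
  have hM0 : (0 : ℚ) < M := by exact_mod_cast hM
  have h0 : ∀ e, (0 : ℚ) ≤ (A e : ℚ) / M := fun e => div_nonneg (Nat.cast_nonneg _) hM0.le
  refine ⟨fun e => ⟨le_min (h0 e) zero_le_one, min_le_right _ _⟩, fun i => ?_, fun b hbB => ?_⟩
  · have h1 : ∑ e with f e = i, (1 - (A e : ℚ) / M) ≤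
        ∑ e with f e = i, (1 - min ((A e : ℚ) / M) 1) :=
      Finset.sum_le_sum fun e _ => sub_le_sub_left (min_le_left _ _) _
    refine le_trans ?_ h1
    obtain ⟨c, hc⟩ := Nat.exists_eq_add_of_le (hcard i)
    have h2 := hA i
    rw [hc, Nat.add_sub_cancel_left] at h2
    have h3 : ∑ e with f e = i, (A e : ℚ) ≤ c * M := by exact_mod_cast h2
    rw [Finset.sum_sub_distrib, ← Finset.sum_div, Finset.sum_const, nsmul_eq_mul, mul_one, hc]
    have h4 : (∑ e with f e = i, (A e : ℚ)) / M ≤ c := (div_le_iff₀ hM0).2 h3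
    push_cast
    linarith
  · by_cases hex : ∃ e, 0 < b e ∧ 1 ≤ (A e : ℚ) / M
    · obtain ⟨e, he, h1⟩ := hex
      have h2 : min ((A e : ℚ) / M) 1 * (b e : ℚ) ≤
          ∑ e, min ((A e : ℚ) / M) 1 * (b e : ℚ) :=
        Finset.single_le_sum (f := fun e => min ((A e : ℚ) / M) 1 * (b e : ℚ))
          (fun e _ => mul_nonneg (le_min (h0 e) zero_le_one) (Nat.cast_nonneg _))
          (Finset.mem_univ e)
      refine le_trans ?_ h2
      rw [min_eq_right h1, one_mul]
      exact_mod_cast he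
    · push Not at hex
      have h1 : ∑ e, min ((A e : ℚ) / M) 1 * (b e : ℚ) = ∑ e, (A e : ℚ) / M * (b e : ℚ) := by
        refine Finset.sum_congr rfl fun e _ => ?_
        rcases Nat.eq_zero_or_pos (b e) with h2 | h2
        · rw [h2, Nat.cast_zero, mul_zero, mul_zero]
        · rw [min_eq_left (hex e h2).le]
      rw [h1]
      have h2 : (M : ℚ) ≤ ∑ e, (A e : ℚ) * (b e : ℚ) := by exact_mod_cast hb b hbB
      have h3 : ∑ e, (A e : ℚ) / M * (b e : ℚ) = (∑ e, (A e : ℚ) * (b e : ℚ)) / M := by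
        rw [Finset.sum_div]
        exact Finset.sum_congr rfl fun e _ => by ring
      rw [h3, le_div_iff₀ hM0, one_mul]
      exact h2

/-- one exponent for all abelian covers of products of projective spaces of total dimension `d` -/
theorem main_dim (d : ℕ) : ∃ M : ℕ, 0 < M ∧
    ∀ (K : Type) [Field K] [Algebra ℂ K] [Algebra.EssFiniteType ℂ K]
    (I : Type) [Fintype I] [DecidableEq I]
    (n : I → ℕ) (E : I → Type) [∀ i, Fintype (E i)] [∀ i, DecidableEq (E i)]
    (α : (i : I) → E i → Fin (n i + 1) → ℂ) (N : ℕ) (x : (i : I) → Fin (n i) → K)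
    (S : Set (K × ((i : I) → E i → ℕ))), CoverData K I n E α N x S → ∑ i, n i = d →
    (∀ T : TensorForm K (M * ∑ i, n i),
      IsPluricanonical M (∑ i, n i) T → IsRegular T → T = 0) → Uniruled K := by
  classical
  obtain ⟨M, hM, hunif⟩ := unif_weights_dim d
  refine ⟨M, hM, fun K _ _ _ I _ _ n E _ _ α N x S D hd h => ?_⟩
  by_contra hK
  obtain ⟨M0, A0, hM0, hA0, hb0⟩ := weights_of_not_uniruled D hK
  have hcard : ∀ i, (Finset.univ.filter fun p : Σ i, E i => p.1 = i).card =
      Fintype.card (E i) := by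
    intro i
    rw [Finset.card_filter, Fintype.sum_sigma, Finset.sum_eq_single i]
    · simp
    · intro i' _ hi
      exact Finset.sum_eq_zero fun e _ => if_neg hi
    · intro h
      exact absurd (Finset.mem_univ i) h
  have hsum : ∀ (A : (Σ i, E i) → ℕ) i, ∑ p : Σ i, E i with p.1 = i, A p = ∑ e, A ⟨i, e⟩ := by
    intro A i
    rw [Finset.sum_filter, Fintype.sum_sigma, Finset.sum_eq_single i]
    · simp
    · intro i' _ hi
      exact Finset.sum_eq_zero fun e _ => if_neg hi
    · intro h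
      exact absurd (Finset.mem_univ i) h
  have hrat := ratWt_of_nat n (Sigma.fst : (Σ i, E i) → I)
    {b | (coverBlocks (n := n) N S).IsBlock b} (fun i => by rw [hcard]; exact D.card i)
    M0 hM0 A0 (fun i => by rw [hcard, hsum]; exact hA0 i) hb0
  obtain ⟨A, hA⟩ := hunif I n D.n_pos hd (Σ i, E i) Sigma.fst _ _ hrat
  obtain ⟨T, hTp, hT, hT0⟩ := exists_form D M hM A
    (fun i => by
      have h1 := hA.fac i
      rw [hcard, hsum] at h1
      rw [Nat.sub_mul]
      omega)
    hA.blk
  exact hT0 (h T hTp hT)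

end Pool.Agent.Work.Uni
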