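import Mathlib
import Pool.Agent.Work.MP_4329d7_ag_uni.MainUnif

/-!
Covers with at most `n i` hyperplanes in some factor are uniruled: translate along a direction on
which all these hyperplanes vanish.  Then the final theorem (helper44).
-/

namespace Pool.Agent.Work.Uni

open Polynomial Pool.Agent.Work.MP_4329d7_ag.FF

theorem uniruled_of_few {K : Type} [Field K] [Algebra ℂ K] [Algebra.EssFiniteType ℂ K]
    {I : Type} [Fintype I]
    {n : I → ℕ} {E : I → Type} [∀ i, Fintype (E i)]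
    {α : (i : I) → E i → Fin (n i + 1) → ℂ} {N : ℕ} {x : (i : I) → Fin (n i) → K}
    {S : Set (K × ((i : I) → E i → ℕ))} (N_pos : 0 < N)
    (alg_indep : AlgebraicIndependent ℂ (fun p : Σ i, Fin (n i) => x p.1 p.2))
    (rad : ∀ z c, (z, c) ∈ S → z ^ N = ∏ i, ∏ e, lin (α i e) (x i) ^ c i e)
    (deg : ∀ z c, (z, c) ∈ S → ∀ i, N ∣ ∑ e, c i e)
    (gen : IntermediateField.adjoin ℂ
      (Set.range (fun p : Σ i, Fin (n i) => x p.1 p.2) ∪ {z | ∃ c, (z, c) ∈ S}) = ⊤)
    (i₀ : I) (hn : 0 < n i₀) (hi₀ : Fintype.card (E i₀) ≤ n i₀) : Uniruled K := by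
  classical
  by_contra hK
  -- the direction
  obtain ⟨w, hw, hw0⟩ : ∃ w : Fin (n i₀ + 1) → ℂ, (∀ e, ∑ j, α i₀ e j * w j = 0) ∧ w ≠ 0 := by
    let L : (Fin (n i₀ + 1) → ℂ) →ₗ[ℂ] (E i₀ → ℂ) :=
      LinearMap.pi fun e => ∑ j, α i₀ e j • LinearMap.proj j
    have hL : LinearMap.ker L ≠ ⊥ := LinearMap.ker_ne_bot_of_finrank_lt (by
      rw [Module.finrank_fin_fun, Module.finrank_fintype_fun_eq_card]
      omega)
    obtain ⟨w, hw, hw0⟩ := (Submodule.ne_bot_iff _).1 hL
    refine ⟨w, fun e => ?_, hw0⟩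
    have := congrFun (LinearMap.mem_ker.1 hw) e
    simpa [L, LinearMap.sum_apply] using this
  let X0 : (i : I) → Fin (n i + 1) → K := fun i => Fin.cons 1 (x i)
  let Y : (i : I) → Fin (n i + 1) → K[X] := fun i j =>
    C (X0 i j) + if h : i = i₀ then C (algebraMap ℂ K (w (Fin.cast (by rw [h]) j))) * X else 0
  have hY₀ : ∀ j, Y i₀ j = C (X0 i₀ j) + C (algebraMap ℂ K (w j)) * X := by
    intro j
    simp only [Y, dif_pos]
    rfl
  have hc := curve_const' (α := α) N_pos alg_indep rad deg gen hK (AlgHom.id ℂ K)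
    (ι := Empty) (fun k => k.elim) (fun k => k.elim) (fun k => k.elim) Y
    (fun i j => by
      simp only [Y, eval_add, eval_C]
      by_cases h : i = i₀
      · rw [dif_pos h]
        simp [X0]
      · rw [dif_neg h]
        simp [X0])
    (fun i e => by
      have h1 : revPoly (F := K) (fun k : Empty => (k.elim : (Σ i, E i) → ℕ)) (fun k => k.elim)
          ⟨i, e⟩ = 1 := by
        simp [revPoly]
      rw [h1, mul_one]
      by_cases h : i = i₀
      · subst h
        simp only [hY₀, mul_add, Finset.sum_add_distrib]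
        have h2 : ∑ j, C (algebraMap ℂ K (α i e j)) * (C (algebraMap ℂ K (w j)) * X) =
            (0 : K[X]) := by
          have h3 : ∑ j, C (algebraMap ℂ K (α i e j)) * (C (algebraMap ℂ K (w j)) * X) =
              C (algebraMap ℂ K (∑ j, α i e j * w j)) * (X : K[X]) := by
            rw [map_sum, map_sum, Finset.sum_mul]
            exact Finset.sum_congr rfl fun j _ => by rw [map_mul, C_mul, mul_assoc]
          rw [h3, hw e, map_zero, C_0, zero_mul]
        rw [h2, add_zero, AlgHom.id_apply, lin, map_sum]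
        exact Finset.sum_congr rfl fun j _ => by rw [C_mul]
      · simp only [Y, dif_neg h, add_zero]
        rw [AlgHom.id_apply, lin, map_sum]
        exact Finset.sum_congr rfl fun j _ => by rw [C_mul])
  -- compare the coefficients
  have hcoef : ∀ j, algebraMap ℂ K (w j) = X0 i₀ j * algebraMap ℂ K (w 0) := by
    intro j
    have h1 := hc i₀ j
    rw [hY₀, hY₀] at h1
    have h2 := congrArg (fun p => p.coeff 1) h1
    simp only [coeff_add, coeff_C_mul, coeff_X_one, mul_one, coeff_C_ne_zero one_ne_zero,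
      zero_add] at h2
    exact h2
  have hw00 : w 0 ≠ 0 := by
    intro h0
    apply hw0
    funext j
    have := hcoef j
    rw [h0, map_zero, mul_zero] at this
    exact (map_eq_zero _).1 this
  have h1 := hcoef (Fin.succ ⟨0, hn⟩)
  have hx : x i₀ ⟨0, hn⟩ = algebraMap ℂ K (w (Fin.succ ⟨0, hn⟩) / w 0) := by
    rw [map_div₀, eq_div_iff ((_root_.map_ne_zero _).2 hw00), h1]
    rfl
  have htr : Transcendental ℂ (x i₀ ⟨0, hn⟩) := alg_indep.transcendental ⟨i₀, ⟨0, hn⟩⟩
  exact htr (hx ▸ isAlgebraic_algebraMap _)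

/-- **Theorem.** One exponent for all abelian covers of dimension `d` of products of projective
spaces branched along hyperplanes of the factors in general position. -/
theorem main_all (d : ℕ) : ∃ M : ℕ, 0 < M ∧
    ∀ (K : Type) [Field K] [Algebra ℂ K] [Algebra.EssFiniteType ℂ K]
    (I : Type) [Fintype I] (n : I → ℕ) (_ : ∀ i, 0 < n i) (_ : ∑ i, n i = d)
    (E : I → Type) [∀ i, Fintype (E i)] (α : (i : I) → E i → Fin (n i + 1) → ℂ)
    (_ : ∀ i (s : Finset (E i)), s.card = n i + 1 → LinearIndependent ℂ (fun e : s => α i e))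
    (x : (i : I) → Fin (n i) → K)
    (_ : AlgebraicIndependent ℂ (fun p : Σ i, Fin (n i) => x p.1 p.2))
    (N : ℕ) (_ : 0 < N) (S : Set (K × ((i : I) → E i → ℕ)))
    (_ : ∀ z c, (z, c) ∈ S → z ^ N = ∏ i, ∏ e, lin (α i e) (x i) ^ c i e)
    (_ : ∀ z c, (z, c) ∈ S → ∀ i, N ∣ ∑ e, c i e)
    (_ : IntermediateField.adjoin ℂ
      (Set.range (fun p : Σ i, Fin (n i) => x p.1 p.2) ∪ {z | ∃ c, (z, c) ∈ S}) = ⊤)
    (_ : ∀ i (e : E i), ∃ z c, (z, c) ∈ S ∧ ¬ N ∣ c i e)
    (_ : ∀ T : TensorForm K (M * d), IsPluricanonical M d T → IsRegular T → T = 0),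
    Uniruled K := by
  classical
  obtain ⟨M, hM, h⟩ := main_dim d
  refine ⟨M, hM, ?_⟩
  intro K _ _ _ I _ n hn hd E _ α hα x hx N hN S hS hdeg hgen hbr hvan
  by_cases hcard : ∀ i, n i + 1 ≤ Fintype.card (E i)
  · subst hd
    exact h K I n E α N x S ⟨hN, hn, hcard, hα, hx, hS, hdeg, hgen, hbr⟩ rfl hvan
  · push Not at hcard
    obtain ⟨i, hi⟩ := hcard
    exact uniruled_of_few (α := α) hN hx hS hdeg hgen i (hn i) (by omega)

end Pool.Agent.Work.Uni
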