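import Mathlib
import Pool.Agent.Work.MP_4329d7_ag_uni.Few

/-!
One exponent for the abelian covers of products of projective spaces: for every `d` there is
`M > 0` such that every function field `K` of an abelian cover of a product of projective spaces
of total dimension `d`, branched along hyperplanes of the factors which are in general position in
every factor, is uniruled as soon as its pluricanonical forms of order `M` are all zero.
-/

namespace Pool.Agent.Results.MP_4329d7_ag.AbelianCovers

open Pool.Agent.Work.MP_4329d7_ag.FF Pool.Agent.Work.Uni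

theorem result (d : ℕ) : ∃ M : ℕ, 0 < M ∧
    ∀ (K : Type) [Field K] [Algebra ℂ K] [Algebra.EssFiniteType ℂ K]
    (I : Type) [Fintype I] (n : I → ℕ) (_ : ∀ i, 0 < n i) (_ : ∑ i, n i = d)
    (E : I → Type) [∀ i, Fintype (E i)] (α : (i : I) → E i → Fin (n i + 1) → ℂ)
    (_ : ∀ i (s : Finset (E i)), s.card = n i + 1 → LinearIndependent ℂ (fun e : s => α i e))
    (x : (i : I) → Fin (n i) → K)
    (_ : AlgebraicIndependent ℂ (fun p : Σ i, Fin (n i) => x p.1 p.2))
    (N : ℕ) (_ : 0 < N) (S : Set (K × ((i : I) → E i → ℕ)))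
    (_ : ∀ z c, (z, c) ∈ S → z ^ N = ∏ i, ∏ e, lin (α i e) (x i) ^ c i e)
    (_ : ∀ z c, (z, c) ∈ S → ∀ i, N ∣ ∑ e, c i e)
    (_ : IntermediateField.adjoin ℂ
      (Set.range (fun p : Σ i, Fin (n i) => x p.1 p.2) ∪ {z | ∃ c, (z, c) ∈ S}) = ⊤)
    (_ : ∀ i (e : E i), ∃ z c, (z, c) ∈ S ∧ ¬ N ∣ c i e)
    (_ : ∀ T : TensorForm K (M * d), IsPluricanonical M d T → IsRegular T → T = 0),
    Uniruled K :=
  main_all d

end Pool.Agent.Results.MP_4329d7_ag.AbelianCovers
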