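import Mathlib

/-!
# Elementary Bezout inequality, part A: homogeneous decompositions, expansion at infinity and locally
-/

namespace Pool.Agent.Uni8

open MvPolynomial

/-- weight of an exponent vector -/
def wt {ι : Type*} [Fintype ι] (w : ι → ℕ) (a : ι →₀ ℕ) : ℕ := ∑ i, w i * a i

lemma wt_zero {ι : Type*} [Fintype ι] (w : ι → ℕ) : wt w 0 = 0 := by simp [wt]

lemma wt_add {ι : Type*} [Fintype ι] (w : ι → ℕ) (a b : ι →₀ ℕ) :
    wt w (a + b) = wt w a + wt w b := by
  simp [wt, mul_add, Finset.sum_add_distrib]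

lemma wt_single {ι : Type*} [Fintype ι] (w : ι → ℕ) (i : ι) (n : ℕ) :
    wt w (Finsupp.single i n) = w i * n := by
  classical
  simp only [wt]
  rw [Finset.sum_eq_single i]
  · simp
  · intro b _ hb
    simp [hb.symm]
  · simp

section

variable {k : Type*} [Field k] {σ : Type*}

/-- homogeneous component of a product with a homogeneous polynomial -/
lemma hc_mul (c θ : MvPolynomial σ k) {w N : ℕ} (hθ : θ.IsHomogeneous w) (hw : w ≤ N) :
    homogeneousComponent N (c * θ) = homogeneousComponent (N - w) c * θ := by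
  conv_lhs => rw [← sum_homogeneousComponent c, Finset.sum_mul, map_sum]
  have h1 : ∀ j, homogeneousComponent N (homogeneousComponent j c * θ)
      = if j = N - w then homogeneousComponent (N - w) c * θ else 0 := by
    intro j
    have h2 : (homogeneousComponent j c * θ).IsHomogeneous (j + w) :=
      (homogeneousComponent_isHomogeneous j c).mul hθ
    rw [homogeneousComponent_of_mem h2]
    by_cases hj : j = N - w
    · rw [if_pos hj, if_pos (by omega), hj]
    · rw [if_neg hj, if_neg (by omega)]
  simp_rw [h1]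
  rw [Finset.sum_ite_eq']
  split_ifs with h3
  · rfl
  · rw [Finset.mem_range, not_lt] at h3
    rw [homogeneousComponent_eq_zero _ _ (by omega), zero_mul]

lemma mem_pow_of_isHomogeneous {f : MvPolynomial σ k} {N n : ℕ} (hf : f.IsHomogeneous N)
    (h : n ≤ N) : f ∈ idealOfVars σ k ^ n := by
  rw [mem_pow_idealOfVars_iff]
  intro x hx
  rw [mem_support_iff] at hx
  have := hf hx
  rw [show (1 : σ → ℕ) = fun _ => 1 from rfl, ← Finsupp.degree_eq_weight_one] at this
  omega

/-- Nullstellensatz for the origin -/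
lemma exists_pow_le_span [IsAlgClosed k] [Finite σ] {ι : Type*} (θ : ι → MvPolynomial σ k)
    (h0 : ∀ x : σ → k, (∀ i, eval x (θ i) = 0) → x = 0) :
    ∃ c0, idealOfVars σ k ^ c0 ≤ Ideal.span (Set.range θ) := by
  have h1 : idealOfVars σ k ≤ (Ideal.span (Set.range θ)).radical := by
    rw [← vanishingIdeal_zeroLocus_eq_radical (K := k), Ideal.span_le]
    rintro _ ⟨j, rfl⟩
    rw [SetLike.mem_coe, mem_vanishingIdeal_iff]
    intro x hx
    have h2 : x = 0 := by
      apply h0
      intro i
      have := hx (θ i) (Ideal.subset_span ⟨i, rfl⟩)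
      rwa [aeval_eq_eval] at this
    rw [h2]
    simp
  obtain ⟨n, hn⟩ := Ideal.exists_pow_le_of_le_radical_of_fg h1 (idealOfVars_fg σ k)
  exact ⟨n, hn⟩

/-- homogeneous decomposition -/
lemma homdec {ι : Type*} [Fintype ι] (θ : ι → MvPolynomial σ k) (w : ι → ℕ) (c0 : ℕ)
    (hθ : ∀ i, (θ i).IsHomogeneous (w i)) (hc : idealOfVars σ k ^ c0 ≤ Ideal.span (Set.range θ))
    (N : ℕ) (hN : c0 ≤ N) (hw : ∀ i, w i ≤ N) (f : MvPolynomial σ k) (hf : f.IsHomogeneous N) :
    ∃ g : ι → MvPolynomial σ k, (∀ i, (g i).IsHomogeneous (N - w i)) ∧ f = ∑ i, g i * θ i := by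
  have h1 : f ∈ Ideal.span (Set.range θ) := hc (mem_pow_of_isHomogeneous hf hN)
  rw [Ideal.mem_span_range_iff_exists_fun] at h1
  obtain ⟨c, hc⟩ := h1
  refine ⟨fun i => homogeneousComponent (N - w i) (c i),
    fun i => homogeneousComponent_isHomogeneous _ _, ?_⟩
  have h2 : homogeneousComponent N f = f := homogeneousComponent_eq_self hf
  rw [← h2, ← hc, map_sum]
  exact Finset.sum_congr rfl fun i _ => hc_mul _ _ (hθ i) (hw i)

end

section pw

variable {k : Type*} [Field k] {σ ι : Type*} [Fintype ι]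

/-- the power product `Φ^a` -/
noncomputable def pw (Φ : ι → MvPolynomial σ k) (a : ι →₀ ℕ) : MvPolynomial σ k := ∏ i, Φ i ^ a i

lemma pw_zero (Φ : ι → MvPolynomial σ k) : pw Φ 0 = 1 := by simp [pw]

lemma pw_add (Φ : ι → MvPolynomial σ k) (a b : ι →₀ ℕ) : pw Φ (a + b) = pw Φ a * pw Φ b := by
  simp [pw, pow_add, Finset.prod_mul_distrib]

lemma pw_single (Φ : ι → MvPolynomial σ k) (i : ι) (n : ℕ) :
    pw Φ (Finsupp.single i n) = Φ i ^ n := by
  classical
  simp only [pw]
  rw [Finset.prod_eq_single i]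
  · simp
  · intro b _ hb
    simp [hb.symm]
  · simp

lemma aeval_monomial_pw (Φ : ι → MvPolynomial σ k) (a : ι →₀ ℕ) (r : k) :
    aeval Φ (monomial a r) = r • pw Φ a := by
  rw [aeval_monomial, Algebra.smul_def, pw, Finsupp.prod_fintype _ _ (fun _ => pow_zero _)]

end pw

section inf

variable {k : Type*} [Field k] {σ ι : Type*} [Fintype ι]

lemma degree_le_totalDegree {f : MvPolynomial σ k} {x : σ →₀ ℕ} (h : coeff x f ≠ 0) :
    x.degree ≤ f.totalDegree := le_totalDegree (mem_support_iff.mpr h)

lemma totalDegree_le_of {f : MvPolynomial σ k} {N : ℕ} (h : ∀ x, coeff x f ≠ 0 → x.degree ≤ N) :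
    f.totalDegree ≤ N := Finset.sup_le fun x hx => h x (mem_support_iff.mp hx)

/-- the span of the elements `Φ^a x^μ` with `wt a ≤ N`, `|μ| < c` -/
noncomputable def TT (Φ : ι → MvPolynomial σ k) (D : ι → ℕ) (c N : ℕ) :
    Submodule k (MvPolynomial σ k) :=
  Submodule.span k {q | ∃ (a : ι →₀ ℕ) (μ : σ →₀ ℕ), wt D a ≤ N ∧ μ.degree < c ∧
    q = pw Φ a * monomial μ 1}

lemma TT_mul (Φ : ι → MvPolynomial σ k) (D : ι → ℕ) (c N N' : ℕ) (i : ι) (hN : N + D i ≤ N')
    (f : MvPolynomial σ k) (hf : f ∈ TT Φ D c N) : f * Φ i ∈ TT Φ D c N' := by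
  classical
  unfold TT at hf
  induction hf using Submodule.span_induction with
  | mem q hq =>
    obtain ⟨a, μ, h1, h2, rfl⟩ := hq
    apply Submodule.subset_span
    refine ⟨a + Finsupp.single i 1, μ, ?_, h2, ?_⟩
    · rw [wt_add, wt_single]; omega
    · rw [pw_add, pw_single]; ring
  | zero => rw [zero_mul]; exact Submodule.zero_mem _
  | add x y _ _ hx hy => rw [add_mul]; exact Submodule.add_mem _ hx hy
  | smul r x _ hx => rw [smul_mul_assoc]; exact Submodule.smul_mem _ _ hx

/-- every polynomial of degree `≤ N` is in `TT`, expansion at infinity -/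
lemma inf_expand (Φ : ι → MvPolynomial σ k) (D : ι → ℕ) (hD : ∀ i, 1 ≤ D i)
    (hdeg : ∀ i, (Φ i).totalDegree ≤ D i) (c0 c : ℕ)
    (hc0 : idealOfVars σ k ^ c0 ≤
      Ideal.span (Set.range fun i => homogeneousComponent (D i) (Φ i)))
    (hc : c0 ≤ c) (hcD : ∀ i, D i ≤ c) (hc1 : 1 ≤ c) (N : ℕ) :
    ∀ f : MvPolynomial σ k, f.totalDegree ≤ N → f ∈ TT Φ D c N := by
  induction N using Nat.strong_induction_on with
  | _ N ih =>
    intro f hf
    by_cases hN : N < c
    · rw [f.as_sum]
      apply Submodule.sum_mem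
      intro μ hμ
      have h1 : monomial μ (coeff μ f) = coeff μ f • monomial μ (1 : k) := by
        rw [smul_monomial, smul_eq_mul, mul_one]
      rw [h1]
      apply Submodule.smul_mem
      apply Submodule.subset_span
      refine ⟨0, μ, ?_, ?_, ?_⟩
      · rw [wt_zero]; omega
      · have h2 : μ.degree ≤ f.totalDegree := le_totalDegree hμ
        omega
      · rw [pw_zero, one_mul]
    · rw [not_lt] at hN
      obtain ⟨g, hg, hfg⟩ := homdec (fun i => homogeneousComponent (D i) (Φ i)) D c0
        (fun i => homogeneousComponent_isHomogeneous _ _) hc0 N (hc.trans hN)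
        (fun i => (hcD i).trans hN) (homogeneousComponent N f) (homogeneousComponent_isHomogeneous _ _)
      have h1 : f = (f - ∑ i, g i * Φ i) + ∑ i, g i * Φ i := by ring
      rw [h1]
      have hgdeg : ∀ i, (g i).totalDegree ≤ N - D i := fun i => (hg i).totalDegree_le
      have h2 : (f - ∑ i, g i * Φ i).totalDegree ≤ N := by
        refine (totalDegree_sub _ _).trans (max_le hf ?_)
        refine totalDegree_finsetSum_le fun i _ => ?_
        refine (totalDegree_mul _ _).trans ?_
        have := hgdeg i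
        have := hdeg i
        have := hcD i
        omega
      have h3 : homogeneousComponent N (f - ∑ i, g i * Φ i) = 0 := by
        rw [map_sub, map_sum, hfg, sub_eq_zero]
        refine Finset.sum_congr rfl fun i _ => ?_
        rw [mul_comm (g i) (Φ i)]
        have h7 := hcD i
        rw [hc_mul (Φ i) (g i) (hg i) (by omega), mul_comm, show N - (N - D i) = D i by omega]
      have h4 : (f - ∑ i, g i * Φ i).totalDegree ≤ N - 1 := by
        apply totalDegree_le_of
        intro x hx
        have h5 := degree_le_totalDegree hx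
        have h6 : x.degree ≠ N := by
          intro h6
          apply hx
          have h7 := congrArg (coeff x) h3
          rw [coeff_homogeneousComponent, if_pos h6] at h7
          exact h7
        omega
      apply Submodule.add_mem
      · have h5 := ih (N - 1) (by omega) _ h4
        refine Submodule.span_mono ?_ h5
        rintro q ⟨a, μ, h1, h2, h3⟩
        exact ⟨a, μ, by omega, h2, h3⟩
      · apply Submodule.sum_mem
        intro i _
        have := hcD i
        have := hD i
        exact TT_mul Φ D c (N - D i) N i (by omega) _ (ih _ (by omega) _ (hgdeg i))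

end inf

section loc

variable {k : Type*} [Field k] {σ ι : Type*} [Fintype ι]

/-- the ideal generated by the power products of weight at least `E` -/
noncomputable def WI (Ψ : ι → MvPolynomial σ k) (d : ι → ℕ) (E : ℕ) : Ideal (MvPolynomial σ k) :=
  Ideal.span {q | ∃ a : ι →₀ ℕ, E ≤ wt d a ∧ q = pw Ψ a}

lemma WI_zero (Ψ : ι → MvPolynomial σ k) (d : ι → ℕ) : WI Ψ d 0 = ⊤ := by
  rw [Ideal.eq_top_iff_one]
  exact Ideal.subset_span ⟨0, Nat.zero_le _, (pw_zero _).symm⟩

lemma WI_mul (Ψ : ι → MvPolynomial σ k) (d : ι → ℕ) (E E' : ℕ) (i : ι) (hE : E' ≤ E + d i)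
    (f : MvPolynomial σ k) (hf : f ∈ WI Ψ d E) : f * Ψ i ∈ WI Ψ d E' := by
  classical
  have h1 : WI Ψ d E ≤
      Submodule.comap (LinearMap.mulRight (MvPolynomial σ k) (Ψ i)) (WI Ψ d E') := by
    rw [WI, Ideal.span_le]
    rintro q ⟨a, h1, rfl⟩
    change _ ∈ WI Ψ d E'
    apply Ideal.subset_span
    refine ⟨a + Finsupp.single i 1, ?_, ?_⟩
    · rw [wt_add, wt_single]; omega
    · rw [pw_add, pw_single]; simp
  exact h1 hf

/-- local expansion, one step -/
lemma loc_step (Ψ : ι → MvPolynomial σ k) (d : ι → ℕ) (hd : ∀ i, 1 ≤ d i)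
    (hlow : ∀ i, ∀ j < d i, homogeneousComponent j (Ψ i) = 0) (c0 c : ℕ)
    (hc0 : idealOfVars σ k ^ c0 ≤
      Ideal.span (Set.range fun i => homogeneousComponent (d i) (Ψ i)))
    (hc : c0 ≤ c) (hcD : ∀ i, d i ≤ c) (E : ℕ) :
    ∀ N, E + c ≤ N → idealOfVars σ k ^ N ≤ WI Ψ d E ⊔ idealOfVars σ k ^ (N + 1) := by
  have hΨ : ∀ i, Ψ i ∈ idealOfVars σ k ^ d i := by
    intro i
    rw [mem_pow_idealOfVars_iff']
    intro x hx
    have h7 := congrArg (coeff x) (hlow i x.degree hx)
    rw [coeff_homogeneousComponent, if_pos rfl] at h7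
    exact h7
  have hΨ2 : ∀ i, Ψ i - homogeneousComponent (d i) (Ψ i) ∈ idealOfVars σ k ^ (d i + 1) := by
    intro i
    rw [mem_pow_idealOfVars_iff']
    intro x hx
    rw [coeff_sub, coeff_homogeneousComponent]
    split_ifs with h
    · exact sub_self _
    · rw [sub_zero]
      have h7 := congrArg (coeff x) (hlow i x.degree (by omega))
      rw [coeff_homogeneousComponent, if_pos rfl] at h7
      exact h7
  induction E using Nat.strong_induction_on with
  | _ E ih =>
    intro N hN f hf
    rcases Nat.eq_zero_or_pos E with hE | hE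
    · rw [hE, WI_zero, top_sup_eq]; trivial
    have h1 : f = homogeneousComponent N f + (f - homogeneousComponent N f) := by ring
    rw [h1]
    apply Ideal.add_mem
    · obtain ⟨g, hg, hfg⟩ := homdec (fun i => homogeneousComponent (d i) (Ψ i)) d c0
        (fun i => homogeneousComponent_isHomogeneous _ _) hc0 N (by omega)
        (fun i => by have := hcD i; omega) (homogeneousComponent N f)
        (homogeneousComponent_isHomogeneous _ _)
      rw [hfg]
      apply Ideal.sum_mem
      intro i _
      have h2 := hcD i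
      have h3 := hd i
      have hgV : g i ∈ idealOfVars σ k ^ (N - d i) := mem_pow_of_isHomogeneous (hg i) le_rfl
      have h4 : g i ∈ WI Ψ d (E - d i) ⊔ idealOfVars σ k ^ (N - d i + 1) := by
        rcases Nat.eq_zero_or_pos (E - d i) with h5 | h5
        · rw [h5, WI_zero, top_sup_eq]; trivial
        · exact ih (E - d i) (by omega) (N - d i) (by omega) hgV
      obtain ⟨u, hu, v, hv, huv⟩ := Submodule.mem_sup.mp h4
      have h5 : g i * homogeneousComponent (d i) (Ψ i) = u * Ψ i +
          (v * Ψ i - g i * (Ψ i - homogeneousComponent (d i) (Ψ i))) := by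
        rw [← huv]; ring
      rw [h5]
      apply Submodule.add_mem_sup
      · exact WI_mul Ψ d _ _ i (by omega) u hu
      · apply Ideal.sub_mem
        · have := Ideal.mul_mem_mul hv (hΨ i)
          rw [← pow_add] at this
          exact Ideal.pow_le_pow_right (by omega) this
        · have := Ideal.mul_mem_mul hgV (hΨ2 i)
          rw [← pow_add] at this
          exact Ideal.pow_le_pow_right (by omega) this
    · apply Ideal.mem_sup_right
      rw [mem_pow_idealOfVars_iff'] at hf ⊢
      intro x hx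
      rw [coeff_sub, coeff_homogeneousComponent]
      split_ifs with h
      · exact sub_self _
      · rw [sub_zero]; exact hf x (by omega)

/-- local expansion -/
lemma loc_expand (Ψ : ι → MvPolynomial σ k) (d : ι → ℕ) (hd : ∀ i, 1 ≤ d i)
    (hlow : ∀ i, ∀ j < d i, homogeneousComponent j (Ψ i) = 0) (c0 c : ℕ)
    (hc0 : idealOfVars σ k ^ c0 ≤
      Ideal.span (Set.range fun i => homogeneousComponent (d i) (Ψ i)))
    (hc : c0 ≤ c) (hcD : ∀ i, d i ≤ c) (E M : ℕ) :
    idealOfVars σ k ^ (E + c) ≤ WI Ψ d E ⊔ idealOfVars σ k ^ M := by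
  have h1 : ∀ m, idealOfVars σ k ^ (E + c) ≤ WI Ψ d E ⊔ idealOfVars σ k ^ (E + c + m) := by
    intro m
    induction m with
    | zero => exact le_sup_right
    | succ m ihm =>
      refine ihm.trans (sup_le le_sup_left ?_)
      exact loc_step Ψ d hd hlow c0 c hc0 hc hcD E _ (by omega)
  refine (h1 M).trans (sup_le_sup_left ?_ _)
  exact Ideal.pow_le_pow_right (by omega)

end loc

end Pool.Agent.Uni8
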