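import Pool.Agent.Work.MP_4329d7_ag_uni.BezA

/-!
# Elementary Bezout inequality, part B: high order at all zeros implies membership
-/

namespace Pool.Agent.Uni8

open MvPolynomial Function

lemma prod_sup_le {R α : Type*} [CommRing R] (I : Ideal R) (s : Finset α) (Q : α → Ideal R) :
    ∏ i ∈ s, (I ⊔ Q i) ≤ I ⊔ ∏ i ∈ s, Q i := by
  classical
  induction s using Finset.induction with
  | empty => simp
  | insert a s ha ih =>
    rw [Finset.prod_insert ha, Finset.prod_insert ha]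
    refine (Ideal.mul_mono_right ih).trans ?_
    rw [Ideal.mul_sup]
    refine sup_le (Ideal.mul_le_right.trans le_sup_left) ?_
    rw [Ideal.sup_mul]
    exact sup_le (Ideal.mul_le_left.trans le_sup_left) le_sup_right

lemma crt_le {R α : Type*} [CommRing R] (I : Ideal R) (s : Finset α) (P : α → Ideal R) (M : ℕ)
    (hcop : (s : Set α).Pairwise (IsCoprime on P)) (hle : (∏ i ∈ s, P i) ^ M ≤ I) :
    ⨅ i ∈ s, (I ⊔ P i ^ M) ≤ I := by
  have h1 : (s : Set α).Pairwise (IsCoprime on fun i => I ⊔ P i ^ M) := by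
    intro i hi j hj hij
    have h2 : IsCoprime (P i ^ M) (P j ^ M) := (hcop hi hj hij).pow
    change IsCoprime (I ⊔ P i ^ M) (I ⊔ P j ^ M)
    rw [Ideal.isCoprime_iff_sup_eq] at h2 ⊢
    rw [eq_top_iff, ← h2]
    exact sup_le_sup le_sup_right le_sup_right
  rw [← Ideal.prod_eq_iInf_of_pairwise_isCoprime h1]
  refine (prod_sup_le I s fun i => P i ^ M).trans (sup_le le_rfl ?_)
  rw [Finset.prod_pow]
  exact hle

section

variable {k : Type*} [Field k] {σ ι : Type*}

/-- translation by `p` -/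
noncomputable def tr (p : σ → k) : MvPolynomial σ k →ₐ[k] MvPolynomial σ k :=
  aeval fun j => X j + C (p j)

lemma tr_X (p : σ → k) (j : σ) : tr p (X j) = X j + C (p j) := by simp [tr]

lemma tr_neg_tr (p : σ → k) (f : MvPolynomial σ k) : tr (-p) (tr p f) = f := by
  have : (tr (-p)).comp (tr p) = AlgHom.id k (MvPolynomial σ k) := by
    apply algHom_ext
    intro j
    simp [tr]
  exact congrArg (fun φ : MvPolynomial σ k →ₐ[k] MvPolynomial σ k => φ f) this

lemma eval_tr (p x : σ → k) (f : MvPolynomial σ k) : eval x (tr p f) = eval (x + p) f := by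
  have : ((aeval x : MvPolynomial σ k →ₐ[k] k).comp (tr p)) = aeval (x + p) := by
    apply algHom_ext
    intro j
    simp [tr]
  have h := congrArg (fun φ : MvPolynomial σ k →ₐ[k] k => φ f) this
  simpa [aeval_eq_eval] using h

lemma tr_injective (p : σ → k) : Function.Injective (tr p) :=
  Function.LeftInverse.injective (tr_neg_tr p)

/-- the ideal of the point `p` -/
noncomputable def PI (p : σ → k) : Ideal (MvPolynomial σ k) :=
  Ideal.map (tr (-p)) (idealOfVars σ k)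

lemma PI_pow (p : σ → k) (M : ℕ) : PI p ^ M = Ideal.map (tr (-p)) (idealOfVars σ k ^ M) := by
  rw [PI, Ideal.map_pow]

lemma X_sub_mem_PI (p : σ → k) (j : σ) : X j - C (p j) ∈ PI p := by
  have h1 : X j - C (p j) = tr (-p) (X j) := by rw [tr_X]; simp [sub_eq_add_neg]
  rw [h1]
  exact Ideal.mem_map_of_mem _ (Ideal.subset_span ⟨j, rfl⟩)

lemma mem_PI_of_eval (p : σ → k) (f : MvPolynomial σ k) (hf : eval p f = 0) : f ∈ PI p := by
  rw [← tr_neg_tr p f]
  apply Ideal.mem_map_of_mem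
  have h1 : tr p f ∈ idealOfVars σ k ^ 1 := by
    rw [mem_pow_idealOfVars_iff']
    intro x hx
    have h2 : x = 0 := by
      rw [Nat.lt_one_iff] at hx
      exact (Finsupp.degree_eq_zero_iff x).mp hx
    rw [h2, ← constantCoeff_eq, ← eval_zero]
    rw [eval_tr, zero_add, hf]
  simpa using h1

lemma eval_of_mem_PI (p : σ → k) (f : MvPolynomial σ k) (hf : f ∈ PI p) : eval p f = 0 := by
  have h1 : PI p ≤ RingHom.ker (eval p) := by
    rw [PI, Ideal.map_le_iff_le_comap, Ideal.span_le]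
    rintro _ ⟨j, rfl⟩
    simp [RingHom.mem_ker, tr_X]
  exact h1 hf

lemma PI_coprime {p q : σ → k} (h : p ≠ q) : IsCoprime (PI p) (PI q) := by
  obtain ⟨j, hj⟩ := Function.ne_iff.mp h
  rw [Ideal.isCoprime_iff_exists]
  have h1 : q j - p j ≠ 0 := sub_ne_zero.mpr hj.symm
  refine ⟨C (q j - p j)⁻¹ * (X j - C (p j)), Ideal.mul_mem_left _ _ (X_sub_mem_PI p j),
    - C (q j - p j)⁻¹ * (X j - C (q j)), Ideal.mul_mem_left _ _ (X_sub_mem_PI q j), ?_⟩
  have h2 : (C (q j - p j)⁻¹ * (X j - C (p j)) + - C (q j - p j)⁻¹ * (X j - C (q j)) :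
      MvPolynomial σ k) = C ((q j - p j)⁻¹ * (q j - p j)) := by
    rw [C_mul, C_sub]; ring
  rw [h2, inv_mul_cancel₀ h1, C_1]

variable [Fintype ι]

lemma tr_pw (p : σ → k) (Φ : ι → MvPolynomial σ k) (a : ι →₀ ℕ) :
    tr p (pw Φ a) = pw (fun i => tr p (Φ i)) a := by
  simp [pw, map_prod]

lemma map_WI_le (p : σ → k) (Φ : ι → MvPolynomial σ k) (d : ι → ℕ) (E : ℕ) :
    Ideal.map (tr (-p)) (WI (fun i => tr p (Φ i)) d E) ≤ WI Φ d E := by
  rw [Ideal.map_le_iff_le_comap, WI, Ideal.span_le]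
  rintro _ ⟨a, ha, rfl⟩
  rw [SetLike.mem_coe, Ideal.mem_comap, tr_pw]
  apply Ideal.subset_span
  refine ⟨a, ha, ?_⟩
  congr 1
  funext i
  exact tr_neg_tr p (Φ i)

/-- order at least `E + c` at the point `p` implies membership modulo powers of the ideal of `p` -/
lemma mem_sup_PI (p : σ → k) (Φ : ι → MvPolynomial σ k) (d : ι → ℕ) (hd : ∀ i, 1 ≤ d i)
    (hlow : ∀ i, ∀ j < d i, homogeneousComponent j (tr p (Φ i)) = 0) (c0 c : ℕ)
    (hc0 : idealOfVars σ k ^ c0 ≤
      Ideal.span (Set.range fun i => homogeneousComponent (d i) (tr p (Φ i))))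
    (hc : c0 ≤ c) (hcD : ∀ i, d i ≤ c) (E M : ℕ) (f : MvPolynomial σ k)
    (hf : tr p f ∈ idealOfVars σ k ^ (E + c)) : f ∈ WI Φ d E ⊔ PI p ^ M := by
  have h1 := loc_expand (fun i => tr p (Φ i)) d hd hlow c0 c hc0 hc hcD E M hf
  have h2 := Ideal.mem_map_of_mem (tr (-p)) h1
  rw [tr_neg_tr, Ideal.map_sup] at h2
  rw [PI_pow]
  exact sup_le_sup_right (map_WI_le p Φ d E) _ h2

lemma zeroLocus_WI (Φ : ι → MvPolynomial σ k) (d : ι → ℕ) (hd : ∀ i, 1 ≤ d i) (E : ℕ)
    (x : σ → k) (hx : ∀ f ∈ WI Φ d E, eval x f = 0) (i : ι) : eval x (Φ i) = 0 := by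
  have h1 : Φ i ^ E ∈ WI Φ d E := by
    apply Ideal.subset_span
    refine ⟨Finsupp.single i E, ?_, (pw_single _ _ _).symm⟩
    rw [wt_single]
    exact Nat.le_mul_of_pos_left _ (hd i)
  have h2 := hx _ h1
  rw [map_pow] at h2
  by_contra h
  exact pow_ne_zero E h h2

/-- membership from orders at all zeros -/
lemma mem_WI [IsAlgClosed k] [Finite σ] (Φ : ι → MvPolynomial σ k) (d : ι → ℕ) (hd : ∀ i, 1 ≤ d i)
    (Z : Finset (σ → k)) (hZ : ∀ x, (∀ i, eval x (Φ i) = 0) → x ∈ Z)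
    (hlow : ∀ p ∈ Z, ∀ i, ∀ j < d i, homogeneousComponent j (tr p (Φ i)) = 0) (c : ℕ)
    (hc0 : ∀ p ∈ Z, idealOfVars σ k ^ c ≤
      Ideal.span (Set.range fun i => homogeneousComponent (d i) (tr p (Φ i))))
    (hcD : ∀ i, d i ≤ c) (E : ℕ) (f : MvPolynomial σ k)
    (hf : ∀ p ∈ Z, tr p f ∈ idealOfVars σ k ^ (E + c)) : f ∈ WI Φ d E := by
  have hcop : (Z : Set (σ → k)).Pairwise (IsCoprime on PI) := fun p _ q _ h => PI_coprime h
  have h1 : ∏ p ∈ Z, PI p ≤ (WI Φ d E).radical := by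
    rw [← vanishingIdeal_zeroLocus_eq_radical (K := k)]
    intro g hg
    rw [mem_vanishingIdeal_iff]
    intro x hx
    rw [mem_zeroLocus_iff] at hx
    simp only [aeval_eq_eval] at hx ⊢
    have h2 : x ∈ Z := hZ x fun i => zeroLocus_WI Φ d hd E x hx i
    rw [Ideal.prod_eq_iInf_of_pairwise_isCoprime hcop] at hg
    simp only [Ideal.mem_iInf] at hg
    exact eval_of_mem_PI x g (hg x h2)
  obtain ⟨M, hM⟩ := Ideal.exists_pow_le_of_le_radical_of_fg h1
    (IsNoetherian.noetherian _)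
  apply crt_le (WI Φ d E) Z PI M hcop hM
  simp only [Ideal.mem_iInf]
  intro p hp
  exact mem_sup_PI p Φ d hd (hlow p hp) c c (hc0 p hp) le_rfl hcD E M f (hf p hp)

end

end Pool.Agent.Uni8
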