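import Pool.Agent.Work.MP_4329d7_ag_uni.DegB

set_option autoImplicit false

/-!
Growth at infinity: the rank of the polynomial ring over the ring generated by `Φ` is at least the
product of the degrees, when the top forms have only the trivial common zero.
-/

namespace Pool.Agent.Work.Bezout

open MvPolynomial Finset

variable {σ k : Type} [Fintype σ] [Field k]

theorem gpow_mem (Φ : σ → MvPolynomial σ k) (a : σ → ℕ) :
    gpow Φ a ∈ Algebra.adjoin k (Set.range Φ) := by
  unfold gpow
  exact Subalgebra.prod_mem _ fun j _ => Subalgebra.pow_mem _ (Algebra.subset_adjoin (Set.mem_range_self j)) _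

/-- The monomials of degree at most `t`. -/
noncomputable def mons (σ k : Type) [Fintype σ] [Field k] (t : ℕ) :
    Finset (MvPolynomial σ k) := by
  classical
  exact (wset (fun _ : σ => 1) t).image fun b =>
    (monomial (Finsupp.equivFunOnFinite.symm b) 1 : MvPolynomial σ k)

theorem mem_mons {t : ℕ} {β : σ →₀ ℕ} (h : β.degree ≤ t) :
    (monomial β 1 : MvPolynomial σ k) ∈ mons σ k t := by
  classical
  unfold mons
  rw [mem_image]
  refine ⟨β, ?_, ?_⟩
  · rw [mem_wset fun _ => one_pos]
    rw [Finsupp.degree_eq_sum] at h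
    simpa using h
  · rw [Finsupp.equivFunOnFinite_symm_coe]

theorem card_mons_le (t : ℕ) : (mons σ k t).card ≤ (wset (fun _ : σ => 1) t).card := by
  classical
  unfold mons
  exact card_image_le

theorem mem_span_mons {t : ℕ} {f : MvPolynomial σ k} (h : f.totalDegree ≤ t) :
    f ∈ Submodule.span k (mons σ k t : Set (MvPolynomial σ k)) := by
  rw [f.as_sum]
  refine Submodule.sum_mem _ fun β hβ => ?_
  have h2 : (monomial β (coeff β f) : MvPolynomial σ k) = coeff β f • monomial β 1 := by
    rw [smul_monomial, smul_eq_mul, mul_one]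
  rw [h2]
  exact Submodule.smul_mem _ _ (Submodule.subset_span
    (mem_coe.2 (mem_mons (totalDegree_le_iff_degree.1 h β hβ))))

theorem finite_alg [IsAlgClosed k] {Φ : σ → MvPolynomial σ k} {D : σ → ℕ} (hD : ∀ j, 1 ≤ D j)
    (hΦ : ∀ j, (Φ j).totalDegree ≤ D j)
    (htop : ∀ x : σ → k, (∀ j, eval x (homogeneousComponent (D j) (Φ j)) = 0) → x = 0) :
    Module.Finite (Algebra.adjoin k (Set.range Φ)) (MvPolynomial σ k) := by
  obtain ⟨e, he0, he⟩ := exists_bound htop
  refine ⟨⟨mons σ k e, ?_⟩⟩
  rw [eq_top_iff]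
  intro f _
  have h1 := mem_spn hD hΦ he0 he _ f le_rfl
  have h2 : spn Φ D e f.totalDegree ≤
      (Submodule.span (Algebra.adjoin k (Set.range Φ))
        (mons σ k e : Set (MvPolynomial σ k))).restrictScalars k := by
    unfold spn
    rw [Submodule.span_le]
    rintro p ⟨a, β, _, h4, rfl⟩
    have h5 : gpow Φ a * monomial β 1 =
        (⟨gpow Φ a, gpow_mem Φ a⟩ : Algebra.adjoin k (Set.range Φ)) •
          (monomial β 1 : MvPolynomial σ k) := rfl
    rw [h5]
    exact Submodule.smul_mem _ _ (Submodule.subset_span (mem_coe.2 (mem_mons h4.le)))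
  exact h2 h1

theorem algIndep {Ψ : σ → MvPolynomial σ k}
    [Module.Finite (Algebra.adjoin k (Set.range Ψ)) (MvPolynomial σ k)] :
    AlgebraicIndependent k Ψ := by
  have h1 : Algebra.IsIntegral (Algebra.adjoin k (Set.range Ψ)) (MvPolynomial σ k) :=
    Algebra.IsIntegral.of_finite _ _
  have h2 : Algebra.IsAlgebraic (Algebra.adjoin k (Set.range Ψ)) (MvPolynomial σ k) :=
    inferInstance
  have h3 := Algebra.IsAlgebraic.isTranscendenceBasis_of_le_trdeg_of_finite k Ψ
    (by rw [MvPolynomial.trdeg_of_isDomain, Cardinal.lift_id])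
  exact h3.1

theorem gpow_indep {Ψ : σ → MvPolynomial σ k} (h : AlgebraicIndependent k Ψ) :
    LinearIndependent k (gpow Ψ) := by
  have h1 : LinearIndependent k fun m : σ →₀ ℕ => aeval Ψ (monomial m (1 : k)) :=
    ((basisMonomials σ k).linearIndependent).map' (aeval Ψ).toLinearMap
      (LinearMap.ker_eq_bot.2 h)
  have h2 : gpow Ψ = (fun m : σ →₀ ℕ => aeval Ψ (monomial m (1 : k))) ∘
      (fun a : σ → ℕ => Finsupp.equivFunOnFinite.symm a) := by
    funext a
    rw [Function.comp_apply, aeval_monomial, map_one, one_mul,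
      Finsupp.prod_fintype _ _ fun _ => pow_zero _]
    rfl
  rw [h2]
  exact h1.comp _ Finsupp.equivFunOnFinite.symm.injective

section Frame

variable (A : Subalgebra k (MvPolynomial σ k))

theorem exists_frame [Module.Finite A (MvPolynomial σ k)] :
    ∃ s : Fin (Module.finrank A (MvPolynomial σ k)) → MvPolynomial σ k, LinearIndependent A s ∧
      ∃ h : A, h ≠ 0 ∧ ∀ x : MvPolynomial σ k, h • x ∈ Submodule.span A (Set.range s) := by
  classical
  obtain ⟨s, hs⟩ := exists_linearIndependent_of_le_finrank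
    (le_refl (Module.finrank A (MvPolynomial σ k)))
  refine ⟨s, hs, ?_⟩
  have h1 : ∀ x : MvPolynomial σ k, ∃ h : A, h ≠ 0 ∧ h • x ∈ Submodule.span A (Set.range s) := by
    intro x
    have h2 : ¬ LinearIndependent A (fun o : Option (Fin (Module.finrank A (MvPolynomial σ k))) =>
        o.elim x s) := by
      intro h3
      have h4 := h3.fintype_card_le_finrank
      rw [Fintype.card_option, Fintype.card_fin] at h4
      omega
    rw [Fintype.not_linearIndependent_iff] at h2
    obtain ⟨g, hg1, hg2⟩ := h2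
    rw [Fintype.sum_option] at hg1
    simp only [Option.elim_none, Option.elim_some] at hg1
    refine ⟨g none, ?_, ?_⟩
    · intro h0
      rw [h0, zero_smul, zero_add] at hg1
      have h5 := Fintype.linearIndependent_iff.1 hs (fun i => g (some i)) hg1
      obtain ⟨o, ho⟩ := hg2
      cases o with
      | none => exact ho h0
      | some i => exact ho (h5 i)
    · have h6 : g none • x = -∑ i, g (some i) • s i := eq_neg_of_add_eq_zero_left hg1
      rw [h6]
      exact Submodule.neg_mem _ (Submodule.sum_mem _ fun i _ =>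
        Submodule.smul_mem _ _ (Submodule.subset_span ⟨i, rfl⟩))
  obtain ⟨S, hS⟩ := (Module.Finite.fg_top : (⊤ : Submodule A (MvPolynomial σ k)).FG)
  choose h h0 hh using h1
  refine ⟨∏ x ∈ S, h x, Finset.prod_ne_zero_iff.2 fun x _ => h0 x, fun x => ?_⟩
  have hx : x ∈ Submodule.span A (S : Set (MvPolynomial σ k)) := by
    rw [hS]
    exact Submodule.mem_top
  induction hx using Submodule.span_induction with
  | mem y hy =>
    rw [← Finset.prod_erase_mul S h (mem_coe.1 hy), mul_smul]
    exact Submodule.smul_mem _ _ (hh y)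
  | zero =>
    rw [smul_zero]
    exact Submodule.zero_mem _
  | add y z _ _ hy hz =>
    rw [smul_add]
    exact Submodule.add_mem _ hy hz
  | smul c y _ hy =>
    rw [smul_comm]
    exact Submodule.smul_mem _ _ hy

end Frame

/-- The span of the products of powers of weight at most `t`. -/
noncomputable def asp (Φ : σ → MvPolynomial σ k) (D : σ → ℕ) (t : ℕ) :
    Submodule k (MvPolynomial σ k) :=
  Submodule.span k {p | ∃ a : σ → ℕ, ∑ j, a j * D j ≤ t ∧ p = gpow Φ a}

theorem asp_mono (Φ : σ → MvPolynomial σ k) (D : σ → ℕ) {t t' : ℕ} (h : t ≤ t') :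
    asp Φ D t ≤ asp Φ D t' := by
  refine Submodule.span_mono ?_
  rintro p ⟨a, h1, h2⟩
  exact ⟨a, h1.trans h, h2⟩

theorem asp_mul (Φ : σ → MvPolynomial σ k) (D : σ → ℕ) {t t' : ℕ} {f g : MvPolynomial σ k}
    (hf : f ∈ asp Φ D t) (hg : g ∈ asp Φ D t') : f * g ∈ asp Φ D (t + t') := by
  have h1 := Submodule.mul_mem_mul hf hg
  unfold asp at h1
  rw [Submodule.span_mul_span] at h1
  refine Submodule.span_mono ?_ h1
  rintro p ⟨x, ⟨a, ha, rfl⟩, y, ⟨b, hb, rfl⟩, rfl⟩
  refine ⟨a + b, ?_, (gpow_add Φ a b).symm⟩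
  simp only [Pi.add_apply, add_mul, sum_add_distrib]
  omega

theorem exists_asp (Φ : σ → MvPolynomial σ k) (D : σ → ℕ) {f : MvPolynomial σ k}
    (hf : f ∈ Algebra.adjoin k (Set.range Φ)) : ∃ t, f ∈ asp Φ D t := by
  classical
  induction hf using Algebra.adjoin_induction with
  | mem x hx =>
    obtain ⟨j, rfl⟩ := hx
    exact ⟨_, Submodule.subset_span ⟨Pi.single j 1, le_rfl, (gpow_single Φ j).symm⟩⟩
  | algebraMap r =>
    refine ⟨0, ?_⟩
    have h1 : algebraMap k (MvPolynomial σ k) r = r • gpow Φ 0 := by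
      rw [gpow_zero, Algebra.algebraMap_eq_smul_one]
    rw [h1]
    refine Submodule.smul_mem _ _ (Submodule.subset_span ⟨0, ?_, rfl⟩)
    simp
  | add x y _ _ hx hy =>
    obtain ⟨t, ht⟩ := hx
    obtain ⟨t', ht'⟩ := hy
    exact ⟨t + t', Submodule.add_mem _ (asp_mono Φ D (Nat.le_add_right _ _) ht)
      (asp_mono Φ D (Nat.le_add_left _ _) ht')⟩
  | mul x y _ _ hx hy =>
    obtain ⟨t, ht⟩ := hx
    obtain ⟨t', ht'⟩ := hy
    exact ⟨t + t', asp_mul Φ D ht ht'⟩

theorem prod_le_of_frame [IsAlgClosed k] {Φ : σ → MvPolynomial σ k} {D : σ → ℕ}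
    (hD : ∀ j, 1 ≤ D j) (hΦ : ∀ j, (Φ j).totalDegree ≤ D j)
    (htop : ∀ x : σ → k, (∀ j, eval x (homogeneousComponent (D j) (Φ j)) = 0) → x = 0) {r : ℕ}
    {s : Fin r → MvPolynomial σ k} {h : Algebra.adjoin k (Set.range Φ)} (h0 : h ≠ 0)
    (hh : ∀ x : MvPolynomial σ k, h • x ∈
      Submodule.span (Algebra.adjoin k (Set.range Φ)) (Set.range s)) :
    ∏ j, D j ≤ r := by
  classical
  obtain ⟨e, he0, he⟩ := exists_bound htop
  -- the coordinates of the small monomials
  have h1 : ∀ x : MvPolynomial σ k, ∃ q : Fin r → Algebra.adjoin k (Set.range Φ),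
      (h : MvPolynomial σ k) * x = ∑ i, (q i : MvPolynomial σ k) * s i := by
    intro x
    obtain ⟨q, hq⟩ := (Submodule.mem_span_range_iff_exists_fun _).1 (hh x)
    exact ⟨q, hq.symm⟩
  choose q hq using h1
  have h2 : ∀ (x : MvPolynomial σ k) (i : Fin r), ∃ t, (q x i : MvPolynomial σ k) ∈ asp Φ D t :=
    fun x i => exists_asp Φ D (q x i).2
  choose c hc using h2
  set C := ∑ x ∈ mons σ k e, ∑ i, c x i with hC
  have h3 : ∀ x ∈ mons σ k e, ∀ i, (q x i : MvPolynomial σ k) ∈ asp Φ D C := by
    intro x hx i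
    refine asp_mono Φ D ?_ (hc x i)
    calc c x i ≤ ∑ i, c x i := single_le_sum (f := c x) (fun _ _ => Nat.zero_le _) (mem_univ i)
      _ ≤ C := single_le_sum (f := fun x => ∑ i, c x i) (fun _ _ => Nat.zero_le _) hx
  -- the finite spanning set
  let W : ℕ → Finset (MvPolynomial σ k) := fun t =>
    ((univ : Finset (Fin r)) ×ˢ wset D t).image fun z => gpow Φ z.2 * s z.1
  have hWcard : ∀ t, (W t).card ≤ r * (wset D t).card := by
    intro t
    refine card_image_le.trans ?_
    rw [card_product, card_univ, Fintype.card_fin]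
  have hWasp : ∀ (t : ℕ) (f : MvPolynomial σ k) (i : Fin r), f ∈ asp Φ D t →
      f * s i ∈ Submodule.span k (W t : Set (MvPolynomial σ k)) := by
    intro t f i hf
    unfold asp at hf
    induction hf using Submodule.span_induction with
    | mem p hp =>
      obtain ⟨a, ha, rfl⟩ := hp
      refine Submodule.subset_span (mem_coe.2 (mem_image.2 ⟨(i, a), ?_, rfl⟩))
      rw [mem_product]
      exact ⟨mem_univ _, (mem_wset hD).2 ha⟩
    | zero =>
      rw [zero_mul]
      exact Submodule.zero_mem _
    | add x y _ _ hx hy =>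
      rw [add_mul]
      exact Submodule.add_mem _ hx hy
    | smul u x _ hx =>
      rw [smul_mul_assoc]
      exact Submodule.smul_mem _ _ hx
  have h4 : ∀ (t : ℕ) (f : MvPolynomial σ k), f ∈ spn Φ D e t →
      (h : MvPolynomial σ k) * f ∈ Submodule.span k (W (t + C) : Set (MvPolynomial σ k)) := by
    intro t f hf
    unfold spn at hf
    induction hf using Submodule.span_induction with
    | mem p hp =>
      obtain ⟨a, β, ha, hβ, rfl⟩ := hp
      have h5 : (h : MvPolynomial σ k) * (gpow Φ a * monomial β 1) =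
          ∑ i, (gpow Φ a * (q (monomial β 1) i : MvPolynomial σ k)) * s i := by
        have h6 := hq (monomial β 1)
        calc (h : MvPolynomial σ k) * (gpow Φ a * monomial β 1) =
            gpow Φ a * ((h : MvPolynomial σ k) * monomial β 1) := by ring
          _ = _ := by
            rw [h6, Finset.mul_sum]
            exact Finset.sum_congr rfl fun i _ => by ring
      rw [h5]
      refine Submodule.sum_mem _ fun i _ => hWasp _ _ i ?_
      refine asp_mul Φ D (Submodule.subset_span ⟨a, ?_, rfl⟩) (h3 _ (mem_mons hβ.le) i)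
      omega
    | zero =>
      rw [mul_zero]
      exact Submodule.zero_mem _
    | add x y _ _ hx hy =>
      rw [mul_add]
      exact Submodule.add_mem _ hx hy
    | smul u x _ hx =>
      rw [mul_smul_comm]
      exact Submodule.smul_mem _ _ hx
  have h0' : (h : MvPolynomial σ k) ≠ 0 := by
    intro h5
    exact h0 (Subtype.ext h5)
  -- comparison of dimensions
  have h5 : ∀ t, (wset (fun _ : σ => 1) t).card ≤ r * (wset D (t + C)).card := by
    intro t
    have h6 : LinearIndependent k (fun b : ↥(wset (fun _ : σ => 1) t) =>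
        (h : MvPolynomial σ k) * monomial (Finsupp.equivFunOnFinite.symm (b : σ → ℕ)) 1) := by
      have h7 : LinearIndependent k (fun b : ↥(wset (fun _ : σ => 1) t) =>
          (monomial (Finsupp.equivFunOnFinite.symm (b : σ → ℕ)) 1 : MvPolynomial σ k)) :=
        (basisMonomials σ k).linearIndependent.comp
          (fun b : ↥(wset (fun _ : σ => 1) t) => Finsupp.equivFunOnFinite.symm (b : σ → ℕ))
          (Finsupp.equivFunOnFinite.symm.injective.comp Subtype.val_injective)
      refine h7.map' (LinearMap.mulLeft k (h : MvPolynomial σ k)) ?_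
      rw [LinearMap.ker_eq_bot]
      intro x y hxy
      exact mul_left_cancel₀ h0' hxy
    have h8 := linearIndependent_le_span_aux' _ h6 (W (t + C) : Set (MvPolynomial σ k)) ?_
    · rw [Fintype.card_coe] at h8
      refine h8.trans ?_
      have h9 : Fintype.card ↑(W (t + C) : Set (MvPolynomial σ k)) = (W (t + C)).card := by
        simp
      rw [h9]
      exact hWcard _
    · rintro _ ⟨b, rfl⟩
      refine h4 t _ (mem_spn hD hΦ he0 he t _ ?_)
      rw [totalDegree_monomial _ one_ne_zero]
      have h10 := (mem_wset fun _ => one_pos).1 b.2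
      simp only [mul_one] at h10
      rw [Finsupp.sum_fintype _ _ fun _ => rfl]
      exact h10
  refine growth (P := fun t => (wset D t).card) (card_wset_zero hD) (card_wset_le D)
    (c := ∑ j, D j + C) fun t => ?_
  calc (∏ j, D j) * (wset D t).card ≤ (wset (fun _ : σ => 1) (t + ∑ j, D j)).card :=
        le_wset_one hD t
    _ ≤ r * (wset D (t + ∑ j, D j + C)).card := h5 _
    _ = r * (wset D (t + (∑ j, D j + C))).card := by rw [add_assoc]

/-- the lower bound for the rank -/
theorem prod_le_finrank [IsAlgClosed k] {Φ : σ → MvPolynomial σ k} {D : σ → ℕ}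
    (hD : ∀ j, 1 ≤ D j) (hΦ : ∀ j, (Φ j).totalDegree ≤ D j)
    (htop : ∀ x : σ → k, (∀ j, eval x (homogeneousComponent (D j) (Φ j)) = 0) → x = 0) :
    ∏ j, D j ≤ Module.finrank (Algebra.adjoin k (Set.range Φ)) (MvPolynomial σ k) := by
  have hfin := finite_alg hD hΦ htop
  obtain ⟨s, hs, h, h0, hh⟩ := exists_frame (Algebra.adjoin k (Set.range Φ))
  exact prod_le_of_frame hD hΦ htop h0 hh

end Pool.Agent.Work.Bezout
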