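import Pool.Agent.Work.MP_4329d7_ag_uni.BezB
import Pool.Agent.Work.MP_4329d7_ag_uni.Inf

/-!
# Elementary Bezout inequality, part C: the upper bound for the rank
-/

set_option autoImplicit false

namespace Pool.Agent.Uni8

open MvPolynomial Function

section order

variable {k σ : Type} [Field k] [Fintype σ]

lemma weight_eq_wt (w : σ → ℕ) (a : σ →₀ ℕ) : Finsupp.weight w a = wt w a := by
  rw [Finsupp.weight_eq_sum, wt]
  exact Finset.sum_congr rfl fun i _ => by rw [smul_eq_mul, mul_comm]

/-- order of a product -/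
lemma order_mul (w : σ → ℕ) (η : MvPolynomial σ k) (hη : η ≠ 0) :
    ∃ a0, ∀ (E : ℕ) (u : MvPolynomial σ k), (∀ a, coeff a (η * u) ≠ 0 → E ≤ wt w a) →
      (∀ a, coeff a u ≠ 0 → wt w a + a0 < E) → u = 0 := by
  have hη' : (η : MvPowerSeries σ k) ≠ 0 := by
    simpa using hη
  obtain ⟨p, hp⟩ : ∃ p : ℕ, ((η : MvPowerSeries σ k).weightedOrder w) = p := by
    have := (MvPowerSeries.ne_zero_iff_weightedOrder_finite (w := w)).mp hη'
    exact ⟨_, this.symm⟩
  refine ⟨p, fun E u h1 h2 => ?_⟩
  by_contra hu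
  have hu' : (u : MvPowerSeries σ k) ≠ 0 := by
    simpa using hu
  obtain ⟨q, hq⟩ : ∃ q : ℕ, ((u : MvPowerSeries σ k).weightedOrder w) = q := by
    have := (MvPowerSeries.ne_zero_iff_weightedOrder_finite (w := w)).mp hu'
    exact ⟨_, this.symm⟩
  have h3 := MvPowerSeries.weightedHomogeneousComponent_mul_of_le_weightedOrder
    (w := w) (f := (η : MvPowerSeries σ k)) (g := (u : MvPowerSeries σ k)) (p := p) (q := q)
    hp.ge hq.ge
  have h4 : MvPowerSeries.weightedHomogeneousComponent w p (η : MvPowerSeries σ k) ≠ 0 :=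
    MvPowerSeries.weightedHomogeneousComponent_of_weightedOrder hp.symm
  have h5 : MvPowerSeries.weightedHomogeneousComponent w q (u : MvPowerSeries σ k) ≠ 0 :=
    MvPowerSeries.weightedHomogeneousComponent_of_weightedOrder hq.symm
  have h6 : MvPowerSeries.weightedHomogeneousComponent w (p + q)
      ((η * u : MvPolynomial σ k) : MvPowerSeries σ k) ≠ 0 := by
    rw [MvPolynomial.coe_mul, h3]
    exact mul_ne_zero h4 h5
  obtain ⟨c, hc⟩ := (MvPowerSeries.ne_zero_iff_exists_coeff_ne_zero _).mp h6
  rw [MvPowerSeries.coeff_weightedHomogeneousComponent] at hc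
  split_ifs at hc with h7
  · rw [MvPolynomial.coeff_coe] at hc
    have h8 := h1 c hc
    rw [weight_eq_wt] at h7
    obtain ⟨b, hb1, hb2⟩ := MvPowerSeries.exists_coeff_ne_zero_and_weightedOrder (w := w)
      ((MvPowerSeries.ne_zero_iff_weightedOrder_finite (w := w)).mp hu')
    rw [MvPolynomial.coeff_coe] at hb1
    rw [hq, Nat.cast_inj, weight_eq_wt] at hb2
    have h9 := h2 b hb1
    omega
  · exact hc rfl

end order

section main

variable {k σ : Type} [Field k] [Fintype σ]

/-- elements of the ideal of weight `≥ E`, times the denominator, have coordinates of weight `≥ E` -/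
lemma coords_of_mem_WI (Ψ : σ → MvPolynomial σ k) (d : σ → ℕ) (E : ℕ) {r : ℕ}
    (s : Fin r → MvPolynomial σ k) (η : MvPolynomial σ k)
    (hη : ∀ x, ∃ q : Fin r → MvPolynomial σ k, aeval Ψ η * x = ∑ i, aeval Ψ (q i) * s i)
    (f : MvPolynomial σ k) (hf : f ∈ WI Ψ d E) :
    ∃ q : Fin r → MvPolynomial σ k, (∀ i a, coeff a (q i) ≠ 0 → E ≤ wt d a) ∧
      aeval Ψ η * f = ∑ i, aeval Ψ (q i) * s i := by
  classical
  have key : ∀ g, ∃ q : Fin r → MvPolynomial σ k, (∀ i a, coeff a (q i) ≠ 0 → E ≤ wt d a) ∧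
      aeval Ψ η * (g * f) = ∑ i, aeval Ψ (q i) * s i := by
    unfold WI at hf
    induction hf using Submodule.span_induction with
    | mem x hx =>
      obtain ⟨a, ha, rfl⟩ := hx
      intro g
      obtain ⟨q, hq⟩ := hη g
      refine ⟨fun i => monomial a 1 * q i, ?_, ?_⟩
      · intro i b hb
        rw [coeff_monomial_mul'] at hb
        split_ifs at hb with h
        · have h1 : b = a + (b - a) := (add_tsub_cancel_of_le h).symm
          rw [h1, wt_add]
          omega
        · exact absurd rfl hb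
      · have h1 : aeval Ψ η * (g * pw Ψ a) = pw Ψ a * (aeval Ψ η * g) := by ring
        rw [h1, hq, Finset.mul_sum]
        refine Finset.sum_congr rfl fun i _ => ?_
        rw [map_mul, aeval_monomial_pw, one_smul, mul_assoc]
    | zero =>
      intro g
      exact ⟨fun _ => 0, fun i a h => absurd (coeff_zero a) h, by simp⟩
    | add x y _ _ hx hy =>
      intro g
      obtain ⟨q, hq1, hq2⟩ := hx g
      obtain ⟨q', hq1', hq2'⟩ := hy g
      refine ⟨fun i => q i + q' i, ?_, ?_⟩
      · intro i a h
        rw [coeff_add] at h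
        by_cases h1 : coeff a (q i) = 0
        · rw [h1, zero_add] at h
          exact hq1' i a h
        · exact hq1 i a h1
      · rw [mul_add, mul_add, hq2, hq2', ← Finset.sum_add_distrib]
        refine Finset.sum_congr rfl fun i _ => ?_
        rw [map_add, add_mul]
    | smul c x _ hx =>
      intro g
      obtain ⟨q, hq1, hq2⟩ := hx (g * c)
      refine ⟨q, hq1, ?_⟩
      rw [← hq2, smul_eq_mul]
      ring
  obtain ⟨q, hq1, hq2⟩ := key 1
  exact ⟨q, hq1, by rw [← hq2, one_mul]⟩

open Pool.Agent.Work.Bezout in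
/-- the upper bound for the rank -/
theorem finrank_le [IsAlgClosed k] (Ψ : σ → MvPolynomial σ k) (d : σ → ℕ) (hd : ∀ i, 1 ≤ d i)
    (Z : Finset (σ → k)) (hZ : ∀ x, (∀ i, eval x (Ψ i) = 0) → x ∈ Z)
    (hlow : ∀ p ∈ Z, ∀ i, ∀ j < d i, homogeneousComponent j (tr p (Ψ i)) = 0)
    (hloc : ∀ p ∈ Z, ∀ x : σ → k,
      (∀ i, eval x (homogeneousComponent (d i) (tr p (Ψ i))) = 0) → x = 0)
    [Module.Finite (Algebra.adjoin k (Set.range Ψ)) (MvPolynomial σ k)] :
    Module.finrank (Algebra.adjoin k (Set.range Ψ)) (MvPolynomial σ k) ≤ Z.card * ∏ i, d i := by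
  classical
  have hind : AlgebraicIndependent k Ψ := algIndep
  have hinj : Function.Injective (aeval Ψ : MvPolynomial σ k →ₐ[k] MvPolynomial σ k) := hind
  have hA : Algebra.adjoin k (Set.range Ψ) = (aeval Ψ : MvPolynomial σ k →ₐ[k] _).range :=
    Algebra.adjoin_range_eq_range_aeval k Ψ
  -- the constant of the local expansions
  obtain ⟨c, hc0, hcD⟩ : ∃ c, (∀ p ∈ Z, idealOfVars σ k ^ c ≤
      Ideal.span (Set.range fun i => homogeneousComponent (d i) (tr p (Ψ i)))) ∧
      ∀ i, d i ≤ c := by
    have h1 : ∀ p : Z, ∃ c0, idealOfVars σ k ^ c0 ≤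
        Ideal.span (Set.range fun i => homogeneousComponent (d i) (tr p.1 (Ψ i))) :=
      fun p => exists_pow_le_span _ (hloc p.1 p.2)
    choose c0 hc0 using h1
    refine ⟨∑ p, c0 p + ∑ i, d i, fun p hp => ?_, fun i => ?_⟩
    · refine le_trans (Ideal.pow_le_pow_right ?_) (hc0 ⟨p, hp⟩)
      have := Finset.single_le_sum (f := c0) (fun _ _ => Nat.zero_le _) (Finset.mem_univ ⟨p, hp⟩)
      omega
    · have := Finset.single_le_sum (f := d) (fun _ _ => Nat.zero_le _) (Finset.mem_univ i)
      omega
  -- the frame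
  obtain ⟨s, hs, h, h0, hh⟩ := exists_frame (Algebra.adjoin k (Set.range Ψ))
  have hpre : ∀ y : Algebra.adjoin k (Set.range Ψ), ∃ q : MvPolynomial σ k,
      aeval Ψ q = (y : MvPolynomial σ k) := by
    intro y
    exact hA.le y.2
  obtain ⟨η, hη⟩ := hpre h
  have hη0 : η ≠ 0 := by
    rintro rfl
    rw [map_zero] at hη
    exact h0 (Subtype.ext hη.symm)
  have hηx : ∀ x, ∃ q : Fin (Module.finrank (Algebra.adjoin k (Set.range Ψ)) (MvPolynomial σ k)) →
      MvPolynomial σ k, aeval Ψ η * x = ∑ i, aeval Ψ (q i) * s i := by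
    intro x
    obtain ⟨y, hy⟩ := (Submodule.mem_span_range_iff_exists_fun _).1 (hh x)
    choose q hq using fun i => hpre (y i)
    refine ⟨q, ?_⟩
    rw [hη]
    simp_rw [hq]
    exact hy.symm
  generalize Module.finrank (Algebra.adjoin k (Set.range Ψ)) (MvPolynomial σ k) = r at *
  have hindep : ∀ q : Fin r → MvPolynomial σ k, ∑ i, aeval Ψ (q i) * s i = 0 → ∀ i, q i = 0 := by
    intro q hq i
    have hm : ∀ i, aeval Ψ (q i) ∈ Algebra.adjoin k (Set.range Ψ) := by
      intro i
      rw [hA]
      exact ⟨q i, rfl⟩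
    have h1 := Fintype.linearIndependent_iff.1 hs (fun i => ⟨aeval Ψ (q i), hm i⟩) hq i
    have h2 : aeval Ψ (q i) = 0 := congrArg Subtype.val h1
    rw [← map_zero (aeval Ψ : MvPolynomial σ k →ₐ[k] MvPolynomial σ k)] at h2
    exact hinj h2
  obtain ⟨a0, ha0⟩ := order_mul d η hη0
  -- the jet map
  have hcount : ∀ t, r * (wset d t).card ≤
      Z.card * (wset (fun _ : σ => 1) (t + (a0 + c))).card := by
    intro t
    let L1 : ((Fin r × ↥(wset d t)) → k) →ₗ[k] MvPolynomial σ k :=
      Fintype.linearCombination k fun z : Fin r × ↥(wset d t) => gpow Ψ z.2 * s z.1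
    let L : ((Fin r × ↥(wset d t)) → k) →ₗ[k]
        ((↥Z × ↥(wset (fun _ : σ => 1) (t + (a0 + c)))) → k) :=
      LinearMap.pi fun z => (lcoeff k (Finsupp.equivFunOnFinite.symm (z.2 : σ → ℕ))) ∘ₗ
        (tr (z.1 : σ → k)).toLinearMap ∘ₗ L1
    have hL : Function.Injective L := by
      rw [← LinearMap.ker_eq_bot, LinearMap.ker_eq_bot']
      intro v hv
      set f := L1 v with hf
      have hf1 : f = ∑ z, v z • (gpow Ψ z.2 * s z.1) := rfl
      let u : Fin r → MvPolynomial σ k := fun i =>
        ∑ a : ↥(wset d t), monomial (Finsupp.equivFunOnFinite.symm (a : σ → ℕ)) (v (i, a))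
      have hcoeff : ∀ i (b : σ →₀ ℕ), coeff b (u i) =
          ∑ a : ↥(wset d t), if Finsupp.equivFunOnFinite.symm (a : σ → ℕ) = b then v (i, a)
            else 0 := by
        intro i b
        simp only [u, coeff_sum, coeff_monomial]
      have hfu : f = ∑ i, aeval Ψ (u i) * s i := by
        rw [hf1, Fintype.sum_prod_type]
        refine Finset.sum_congr rfl fun i _ => ?_
        simp only [u, map_sum, Finset.sum_mul]
        refine Finset.sum_congr rfl fun a _ => ?_
        rw [aeval_monomial_pw, smul_mul_assoc]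
        rfl
      have hjet : ∀ p ∈ Z, tr p f ∈ idealOfVars σ k ^ (t + a0 + 1 + c) := by
        intro p hp
        rw [mem_pow_idealOfVars_iff']
        intro x hx
        have hx' : (x : σ → ℕ) ∈ wset (fun _ : σ => 1) (t + (a0 + c)) := by
          rw [mem_wset fun _ => one_pos]
          rw [Finsupp.degree_eq_sum] at hx
          simp only [mul_one]
          omega
        have h1 := congrFun hv (⟨p, hp⟩, ⟨x, hx'⟩)
        simp only [L, LinearMap.pi_apply, LinearMap.comp_apply, AlgHom.toLinearMap_apply,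
          lcoeff_apply, Pi.zero_apply, Finsupp.equivFunOnFinite_symm_coe] at h1
        exact h1
      have hmem := mem_WI Ψ d hd Z hZ hlow c hc0 hcD (t + a0 + 1) f hjet
      obtain ⟨q, hq1, hq2⟩ := coords_of_mem_WI Ψ d (t + a0 + 1) s η hηx f hmem
      have h2 : ∀ i, η * u i = q i := by
        intro i
        have h3 : ∑ i, aeval Ψ (η * u i - q i) * s i = 0 := by
          simp only [map_sub, map_mul, sub_mul, Finset.sum_sub_distrib]
          rw [← hq2, hfu, Finset.mul_sum, sub_eq_zero]
          exact Finset.sum_congr rfl fun i _ => by rw [mul_assoc]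
        exact sub_eq_zero.1 (hindep _ h3 i)
      have h4 : ∀ i, u i = 0 := by
        intro i
        refine ha0 (t + a0 + 1) (u i) (fun a ha => hq1 i a (by rwa [← h2 i])) fun a ha => ?_
        rw [hcoeff] at ha
        obtain ⟨b, _, hb⟩ := Finset.exists_ne_zero_of_sum_ne_zero ha
        split_ifs at hb with h5
        · have h6 := (mem_wset hd).1 b.2
          have h7 : wt d a ≤ t := by
            rw [← h5, wt]
            refine le_trans (le_of_eq ?_) h6
            exact Finset.sum_congr rfl fun j _ => mul_comm _ _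
          omega
        · exact absurd rfl hb
      funext z
      have h5 := congrArg (coeff (Finsupp.equivFunOnFinite.symm (z.2 : σ → ℕ))) (h4 z.1)
      rw [hcoeff, coeff_zero, Finset.sum_eq_single z.2] at h5
      · rw [if_pos rfl] at h5
        exact h5
      · intro b _ hb
        rw [if_neg]
        intro h6
        exact hb (Subtype.ext (Finsupp.equivFunOnFinite.symm.injective h6))
      · intro h6
        exact absurd (Finset.mem_univ _) h6
    have h1 := LinearMap.finrank_le_finrank_of_injective hL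
    rw [Module.finrank_fintype_fun_eq_card, Module.finrank_fintype_fun_eq_card] at h1
    simpa using h1
  rw [mul_comm]
  refine growth (P := fun t => (wset (fun _ : σ => 1) t).card) (card_wset_zero fun _ => one_pos)
    (card_wset_le _) (c := a0 + c) fun t => ?_
  calc r * (wset (fun _ : σ => 1) t).card ≤ r * ((∏ j, d j) * (wset d t).card) :=
        Nat.mul_le_mul_left _ (wset_one_le hd t)
    _ = (∏ j, d j) * (r * (wset d t).card) := by ring
    _ ≤ (∏ j, d j) * (Z.card * (wset (fun _ : σ => 1) (t + (a0 + c))).card) :=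
        Nat.mul_le_mul_left _ (hcount t)
    _ = _ := by ring

end main

end Pool.Agent.Uni8
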