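import Mathlib

/-!
# Counting lattice points of bounded weight
-/

set_option autoImplicit false

namespace Pool.Agent.Work.MP_4329d7_ag_uni.Bez

open Finsupp

variable {ι : Type*} [Fintype ι]

/-- the exponents of weighted degree at most `D` -/
def wt (d : ι → ℕ) (D : ℕ) : Set (ι →₀ ℕ) := {α | ∑ j, α j * d j ≤ D}

theorem wt_finite {d : ι → ℕ} (hd : ∀ j, 0 < d j) (D : ℕ) : (wt d D).Finite := by
  classical
  have h : wt d D ⊆ Set.Iic (Finsupp.equivFunOnFinite.symm fun _ : ι => D) := by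
    intro α hα
    rw [Set.mem_Iic]
    intro j
    have h1 : α j * d j ≤ ∑ i, α i * d i :=
      Finset.single_le_sum (f := fun i => α i * d i) (fun _ _ => Nat.zero_le _)
        (Finset.mem_univ j)
    have h2 : α j ≤ α j * d j := Nat.le_mul_of_pos_right _ (hd j)
    simp only [Finsupp.equivFunOnFinite_symm_apply_apply]
    exact h2.trans (h1.trans hα)
  exact (Set.finite_Iic _).subset h

theorem wt_one_ncard_le (D : ℕ) :
    (wt (fun _ : ι => 1) D).ncard ≤ (D + 1) ^ Fintype.card ι := by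
  classical
  let f : (ι →₀ ℕ) → (ι → Fin (D + 1)) := fun α j => Fin.ofNat (D + 1) (α j)
  have h : (wt (fun _ : ι => 1) D).ncard ≤ (Set.univ : Set (ι → Fin (D + 1))).ncard := by
    apply Set.ncard_le_ncard_of_injOn f (fun _ _ => Set.mem_univ _) _ Set.finite_univ
    intro α hα β hβ hab
    have key : ∀ γ : ι →₀ ℕ, γ ∈ wt (fun _ : ι => 1) D → ∀ j, γ j < D + 1 := by
      intro γ hγ j
      have h1 : γ j * 1 ≤ ∑ i, γ i * 1 :=
        Finset.single_le_sum (f := fun i => γ i * 1) (fun _ _ => Nat.zero_le _)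
          (Finset.mem_univ j)
      have h2 : ∑ i, γ i * 1 ≤ D := hγ
      omega
    ext j
    have h1 := congrFun hab j
    simp only [f] at h1
    have h2 := congrArg Fin.val h1
    simp only [Fin.ofNat, Fin.val_mk] at h2
    rwa [Nat.mod_eq_of_lt (key α hα j), Nat.mod_eq_of_lt (key β hβ j)] at h2
  refine h.trans ?_
  rw [Set.ncard_univ, Nat.card_eq_fintype_card]
  simp

theorem wt_zero_pos (d : ι → ℕ) (hd : ∀ j, 0 < d j) (D : ℕ) : 0 < (wt d D).ncard := by
  rw [Set.ncard_pos (wt_finite hd D)]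
  exact ⟨0, by simp [wt]⟩

/-- division with remainder -/
theorem wt_one_le {d : ι → ℕ} (hd : ∀ j, 0 < d j) (D : ℕ) :
    (wt (fun _ : ι => 1) D).ncard ≤ (∏ j, d j) * (wt d D).ncard := by
  classical
  let q : (ι →₀ ℕ) → (ι →₀ ℕ) := fun α => Finsupp.equivFunOnFinite.symm fun j => α j / d j
  let r : (ι →₀ ℕ) → (∀ j, Fin (d j)) := fun α j => ⟨α j % d j, Nat.mod_lt _ (hd j)⟩
  have h : (wt (fun _ : ι => 1) D).ncard ≤
      ((Set.univ : Set (∀ j, Fin (d j))) ×ˢ wt d D).ncard := by
    apply Set.ncard_le_ncard_of_injOn (fun α => (r α, q α)) _ _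
      (Set.finite_univ.prod (wt_finite hd D))
    · intro α hα
      refine ⟨Set.mem_univ _, ?_⟩
      have h1 : ∑ j, α j * 1 ≤ D := hα
      refine le_trans (Finset.sum_le_sum fun j _ => ?_) h1
      simp only [q, Finsupp.equivFunOnFinite_symm_apply_apply, mul_one]
      exact Nat.div_mul_le_self _ _
    · intro α _ β _ hab
      ext j
      have h1 := congrArg Prod.fst hab
      have h2 := congrArg Prod.snd hab
      have h3 := congrArg Fin.val (congrFun h1 j)
      have h4 := DFunLike.congr_fun h2 j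
      simp only [q, Finsupp.equivFunOnFinite_symm_apply_apply] at h4
      simp only [r] at h3
      rw [← Nat.div_add_mod (α j) (d j), ← Nat.div_add_mod (β j) (d j), h3, h4]
  refine h.trans (le_of_eq ?_)
  rw [Set.ncard_prod, Set.ncard_univ, Nat.card_eq_fintype_card]
  simp

theorem le_wt_one {d : ι → ℕ} (hd : ∀ j, 0 < d j) (D : ℕ) :
    (∏ j, d j) * (wt d D).ncard ≤ (wt (fun _ : ι => 1) (D + ∑ j, d j)).ncard := by
  classical
  let f : (∀ j, Fin (d j)) × (ι →₀ ℕ) → (ι →₀ ℕ) := fun p =>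
    Finsupp.equivFunOnFinite.symm fun j => p.2 j * d j + (p.1 j : ℕ)
  have h : ((Set.univ : Set (∀ j, Fin (d j))) ×ˢ wt d D).ncard ≤
      (wt (fun _ : ι => 1) (D + ∑ j, d j)).ncard := by
    apply Set.ncard_le_ncard_of_injOn f _ _ (wt_finite (fun _ => one_pos) _)
    · rintro ⟨ρ, α⟩ ⟨-, hα⟩
      have h1 : ∑ j, α j * d j ≤ D := hα
      change ∑ j, (f (ρ, α)) j * 1 ≤ D + ∑ j, d j
      have h2 : ∑ j, (f (ρ, α)) j * 1 = ∑ j, α j * d j + ∑ j, (ρ j : ℕ) := by
        rw [← Finset.sum_add_distrib]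
        apply Finset.sum_congr rfl
        intro j _
        simp [f]
      rw [h2]
      exact add_le_add h1 (Finset.sum_le_sum fun j _ => (ρ j).2.le)
    · rintro ⟨ρ, α⟩ _ ⟨ρ', α'⟩ _ hab
      have key : ∀ j, α j * d j + (ρ j : ℕ) = α' j * d j + (ρ' j : ℕ) := by
        intro j
        have := DFunLike.congr_fun hab j
        simpa [f] using this
      have h1 : ∀ j, (ρ j : ℕ) = (ρ' j : ℕ) := by
        intro j
        have := congrArg (· % d j) (key j)
        simp only [Nat.mul_add_mod_self_right, Nat.mod_eq_of_lt (ρ j).2,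
          Nat.mod_eq_of_lt (ρ' j).2] at this
        exact this
      have h2 : ∀ j, α j = α' j := by
        intro j
        have h3 := key j
        rw [h1 j] at h3
        exact Nat.eq_of_mul_eq_mul_right (hd j) (Nat.add_right_cancel h3)
      rw [Prod.mk.injEq]
      exact ⟨funext fun j => Fin.ext (h1 j), Finsupp.ext h2⟩
  refine le_trans (le_of_eq ?_) h
  rw [Set.ncard_prod, Set.ncard_univ, Nat.card_eq_fintype_card]
  simp

/-- a polynomially bounded sequence does not grow exponentially -/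
theorem no_exp_growth {p q c n : ℕ} (hpq : p < q) (B : ℕ → ℕ) (hB0 : 0 < B 0)
    (hB : ∀ D, B D ≤ (D + 1) ^ n) (h : ∀ D, q * B D ≤ p * B (D + c)) : False := by
  have key : ∀ j : ℕ, q ^ j * B 0 ≤ p ^ j * B (j * c) := by
    intro j
    induction j with
    | zero => simp
    | succ j ih =>
      calc q ^ (j + 1) * B 0 = q * (q ^ j * B 0) := by ring
        _ ≤ q * (p ^ j * B (j * c)) := Nat.mul_le_mul_left _ ih
        _ = p ^ j * (q * B (j * c)) := by ring
        _ ≤ p ^ j * (p * B (j * c + c)) := Nat.mul_le_mul_left _ (h _)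
        _ = p ^ (j + 1) * B ((j + 1) * c) := by
          rw [show (j + 1) * c = j * c + c by ring]; ring
  have hp : 0 < p := by
    rcases Nat.eq_zero_or_pos p with rfl | hp
    · have := h 0
      simp only [zero_mul, nonpos_iff_eq_zero, mul_eq_zero] at this
      omega
    · exact hp
  have hr : (1 : ℝ) < (q : ℝ) / p := by
    rw [one_lt_div (by exact_mod_cast hp)]
    exact_mod_cast hpq
  have hlim := tendsto_pow_const_div_const_pow_of_one_lt n hr
  have hlim2 : Filter.Tendsto (fun j : ℕ => ((c : ℝ) + 1) ^ n * ((j : ℝ) ^ n / ((q : ℝ) / p) ^ j))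
      Filter.atTop (nhds (((c : ℝ) + 1) ^ n * 0)) := hlim.const_mul _
  rw [mul_zero] at hlim2
  obtain ⟨N, hN⟩ := Filter.eventually_atTop.mp ((tendsto_order.1 hlim2).2 1 one_pos)
  obtain ⟨j, hj⟩ : ∃ j, j = N + 1 := ⟨_, rfl⟩
  have h1 := hN j (by omega)
  have h2 := key j
  have h3 : (q : ℝ) ^ j ≤ (p : ℝ) ^ j * ((c + 1) * j) ^ n := by
    have h4 : q ^ j ≤ p ^ j * ((c + 1) * j) ^ n := by
      calc q ^ j ≤ q ^ j * B 0 := Nat.le_mul_of_pos_right _ hB0
        _ ≤ p ^ j * B (j * c) := h2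
        _ ≤ p ^ j * (j * c + 1) ^ n := Nat.mul_le_mul_left _ (hB _)
        _ ≤ p ^ j * ((c + 1) * j) ^ n := by
          apply Nat.mul_le_mul_left
          apply Nat.pow_le_pow_left
          have : 1 ≤ j := by omega
          nlinarith
    exact_mod_cast h4
  have hpos : (0 : ℝ) < ((q : ℝ) / p) ^ j := by positivity
  rw [← mul_div_assoc, div_lt_one hpos, div_pow] at h1
  have hpj : (0 : ℝ) < (p : ℝ) ^ j := by positivity
  rw [lt_div_iff₀ hpj] at h1
  rw [mul_pow] at h3
  nlinarith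

end Pool.Agent.Work.MP_4329d7_ag_uni.Bez
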