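import Pool.Agent.Work.MP_4329d7_ag_uni.BezCount

/-!
# The polynomial ring is a finite graded module over the ring of forms without common zero
-/

set_option autoImplicit false
set_option linter.unusedSectionVars false

namespace Pool.Agent.Work.MP_4329d7_ag_uni.Bez

open MvPolynomial

variable {k : Type*} [Field k] {σ ι : Type*} [Fintype σ] [Fintype ι]

section

attribute [local instance] MvPolynomial.gradedAlgebra

omit [Fintype σ] in
theorem hc_mul_of_le {p q : MvPolynomial σ k} {i n : ℕ} (hq : q.IsHomogeneous i) (h : i ≤ n) :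
    homogeneousComponent n (p * q) = homogeneousComponent (n - i) p * q := by
  have := DirectSum.coe_decompose_mul_of_right_mem_of_le (homogeneousSubmodule σ k) (a := p)
    (b := q) (n := n) (i := i) hq h
  simpa [← decomposition.decompose'_apply] using this

omit [Fintype σ] in
theorem hc_mul_of_not_le {p q : MvPolynomial σ k} {i n : ℕ} (hq : q.IsHomogeneous i)
    (h : ¬ i ≤ n) : homogeneousComponent n (p * q) = 0 := by
  have := DirectSum.coe_decompose_mul_of_right_mem_of_not_le (homogeneousSubmodule σ k) (a := p)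
    (b := q) (n := n) (i := i) hq h
  simpa [← decomposition.decompose'_apply] using this

end

/-- forms of large degree are in the ideal -/
theorem exists_large [IsAlgClosed k] (G : ι → MvPolynomial σ k)
    (h0 : ∀ x : σ → k, (∀ j, eval x (G j) = 0) → x = 0) :
    ∃ D0 : ℕ, ∀ D, D0 ≤ D → ∀ p : MvPolynomial σ k, p.IsHomogeneous D →
      p ∈ Ideal.span (Set.range G) := by
  classical
  have hX : ∀ i : σ, ∃ N : ℕ, (X i : MvPolynomial σ k) ^ N ∈ Ideal.span (Set.range G) := by
    intro i
    have h1 : (X i : MvPolynomial σ k) ∈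
        vanishingIdeal k (zeroLocus k (Ideal.span (Set.range G))) := by
      rw [mem_vanishingIdeal_iff]
      intro x hx
      have hx0 : x = 0 := by
        apply h0
        intro j
        rw [mem_zeroLocus_iff] at hx
        have := hx (G j) (Ideal.subset_span ⟨j, rfl⟩)
        rwa [MvPolynomial.aeval_eq_eval] at this
      simp [hx0]
    rw [vanishingIdeal_zeroLocus_eq_radical] at h1
    exact h1
  choose N hN using hX
  obtain ⟨M, hM⟩ : ∃ M, ∀ i, N i ≤ M := ⟨∑ i, N i, fun i =>
    Finset.single_le_sum (fun _ _ => Nat.zero_le _) (Finset.mem_univ i)⟩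
  refine ⟨Fintype.card σ * M + 1, ?_⟩
  intro D hD p hp
  rw [p.as_sum]
  apply Ideal.sum_mem
  intro β hβ
  have hdeg : β.degree = D := by
    by_contra hne
    exact (mem_support_iff.mp hβ) (hp.coeff_eq_zero hne)
  have hex : ∃ i, M ≤ β i := by
    by_contra hcon
    push Not at hcon
    have h1 : β.degree ≤ Fintype.card σ * M := by
      rw [Finsupp.degree_eq_sum]
      calc ∑ i, β i ≤ ∑ _i : σ, M := Finset.sum_le_sum fun i _ => (hcon i).le
        _ = Fintype.card σ * M := by simp
    omega
  obtain ⟨i, hi⟩ := hex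
  have h2 : monomial β (coeff β p)
      = monomial (β - Finsupp.single i (N i)) (coeff β p) * X i ^ N i := by
    rw [X_pow_eq_monomial, monomial_mul, mul_one, tsub_add_cancel_of_le]
    rw [Finsupp.single_le_iff]
    exact (hM i).trans hi
  rw [h2]
  exact Ideal.mul_mem_left _ _ (hN i)

/-- expansions over the forms `G`, of weight at most `D` -/
def Good (d : ι → ℕ) (G : ι → MvPolynomial σ k) (B : Finset (σ →₀ ℕ)) (D : ℕ)
    (p : MvPolynomial σ k) : Prop :=
  ∃ w : (σ →₀ ℕ) → MvPolynomial ι k, (∀ β, w β ∈ restrictSupport k (wt d D)) ∧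
    p = ∑ β ∈ B, monomial β 1 * aeval G (w β)

theorem Good.add {d : ι → ℕ} {G : ι → MvPolynomial σ k} {B : Finset (σ →₀ ℕ)} {D : ℕ}
    {p q : MvPolynomial σ k} (hp : Good d G B D p) (hq : Good d G B D q) :
    Good d G B D (p + q) := by
  obtain ⟨w, hw, rfl⟩ := hp
  obtain ⟨v, hv, rfl⟩ := hq
  refine ⟨fun β => w β + v β, fun β => Submodule.add_mem _ (hw β) (hv β), ?_⟩
  rw [← Finset.sum_add_distrib]
  apply Finset.sum_congr rfl
  intro β _
  rw [map_add, mul_add]

theorem Good.zero {d : ι → ℕ} {G : ι → MvPolynomial σ k} {B : Finset (σ →₀ ℕ)} {D : ℕ} :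
    Good d G B D 0 :=
  ⟨fun _ => 0, fun _ => Submodule.zero_mem _, by simp⟩

theorem Good.sum {d : ι → ℕ} {G : ι → MvPolynomial σ k} {B : Finset (σ →₀ ℕ)} {D : ℕ}
    {τ : Type*} (s : Finset τ) (f : τ → MvPolynomial σ k) (h : ∀ i ∈ s, Good d G B D (f i)) :
    Good d G B D (∑ i ∈ s, f i) := by
  classical
  induction s using Finset.induction_on with
  | empty => simpa using Good.zero
  | insert a s ha ih =>
    rw [Finset.sum_insert ha]
    exact (h a (Finset.mem_insert_self _ _)).add
      (ih fun i hi => h i (Finset.mem_insert_of_mem hi))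

theorem wt_mono {d : ι → ℕ} {D D' : ℕ} (h : D ≤ D') : wt d D ⊆ wt d D' :=
  fun _ hα => le_trans hα h

theorem Good.mono {d : ι → ℕ} {G : ι → MvPolynomial σ k} {B : Finset (σ →₀ ℕ)} {D D' : ℕ}
    (h : D ≤ D') {p : MvPolynomial σ k} (hp : Good d G B D p) : Good d G B D' p := by
  obtain ⟨w, hw, rfl⟩ := hp
  exact ⟨w, fun β => restrictSupport_mono k (wt_mono h) (hw β), rfl⟩

theorem restrict_mul_X {d : ι → ℕ} {D : ℕ} {w : MvPolynomial ι k}
    (hw : w ∈ restrictSupport k (wt d D)) (j : ι) :
    w * X j ∈ restrictSupport k (wt d (D + d j)) := by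
  classical
  rw [mem_restrictSupport_iff] at hw ⊢
  intro α hα
  rw [support_mul_X] at hα
  simp only [Finset.coe_map, Set.mem_image, Finset.mem_coe, addRightEmbedding_apply] at hα
  obtain ⟨β, hβ, rfl⟩ := hα
  have h1 : ∑ i, β i * d i ≤ D := hw hβ
  change ∑ i, (β + Finsupp.single j 1 : ι →₀ ℕ) i * d i ≤ D + d j
  have h2 : ∑ i, (β + Finsupp.single j 1 : ι →₀ ℕ) i * d i = ∑ i, β i * d i + d j := by
    simp only [Finsupp.add_apply, add_mul, Finset.sum_add_distrib]
    congr 1
    rw [Finset.sum_eq_single j]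
    · simp
    · intro i _ hij
      simp [Finsupp.single_apply, Ne.symm hij]
    · intro h
      exact absurd (Finset.mem_univ j) h
  rw [h2]
  exact Nat.add_le_add_right h1 _

theorem Good.mul_G {d : ι → ℕ} {G : ι → MvPolynomial σ k} {B : Finset (σ →₀ ℕ)} {D : ℕ}
    {p : MvPolynomial σ k} (hp : Good d G B D p) (j : ι) :
    Good d G B (D + d j) (p * G j) := by
  obtain ⟨w, hw, rfl⟩ := hp
  refine ⟨fun β => w β * X j, fun β => restrict_mul_X (hw β) j, ?_⟩
  rw [Finset.sum_mul]
  apply Finset.sum_congr rfl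
  intro β _
  rw [map_mul, aeval_X, mul_assoc]

/-- every form is an expansion over `G` with coefficients in a fixed finite set of monomials -/
theorem good_of_homogeneous {d : ι → ℕ} (hd : ∀ j, 0 < d j) {G : ι → MvPolynomial σ k}
    (hG : ∀ j, (G j).IsHomogeneous (d j)) {D0 : ℕ}
    (hD0 : ∀ D, D0 ≤ D → ∀ p : MvPolynomial σ k, p.IsHomogeneous D →
      p ∈ Ideal.span (Set.range G)) {B : Finset (σ →₀ ℕ)}
    (hB : ∀ β : σ →₀ ℕ, β.degree < D0 → β ∈ B) (D : ℕ) :
    ∀ p : MvPolynomial σ k, p.IsHomogeneous D → Good d G B D p := by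
  classical
  induction D using Nat.strong_induction_on with
  | _ D ih =>
    intro p hp
    rcases Nat.lt_or_ge D D0 with hlt | hge
    · rw [p.as_sum]
      apply Good.sum
      intro β hβ
      have hdeg : β.degree = D := by
        by_contra hne
        exact (mem_support_iff.mp hβ) (hp.coeff_eq_zero hne)
      refine ⟨fun γ => if γ = β then C (coeff β p) else 0, ?_, ?_⟩
      · intro γ
        dsimp only
        split_ifs
        · rw [C_apply, monomial_mem_restrictSupport]
          left
          simp [wt]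
        · exact Submodule.zero_mem _
      · rw [Finset.sum_eq_single β]
        · dsimp only
          rw [if_pos rfl, MvPolynomial.algHom_C, algebraMap_eq, mul_comm, C_mul_monomial, mul_one]
        · intro γ _ hγ
          dsimp only
          rw [if_neg hγ, map_zero, mul_zero]
        · intro h
          exact absurd (hB β (by omega)) h
    · obtain ⟨c, hc⟩ := (Ideal.mem_span_range_iff_exists_fun).mp (hD0 D hge p hp)
      have h1 : p = ∑ j, homogeneousComponent D (c j * G j) := by
        rw [← map_sum, hc, homogeneousComponent_eq_self hp]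
      rw [h1]
      apply Good.sum
      intro j _
      by_cases hj : d j ≤ D
      · rw [hc_mul_of_le (hG j) hj]
        have h2 := ih (D - d j) (by have := hd j; omega) (homogeneousComponent (D - d j) (c j))
          (homogeneousComponent_isHomogeneous _ _)
        have h3 := h2.mul_G (B := B) j
        rwa [Nat.sub_add_cancel hj] at h3
      · rw [hc_mul_of_not_le (hG j) hj]
        exact Good.zero

theorem good_of_totalDegree_le {d : ι → ℕ} (hd : ∀ j, 0 < d j) {G : ι → MvPolynomial σ k}
    (hG : ∀ j, (G j).IsHomogeneous (d j)) {D0 : ℕ}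
    (hD0 : ∀ D, D0 ≤ D → ∀ p : MvPolynomial σ k, p.IsHomogeneous D →
      p ∈ Ideal.span (Set.range G)) {B : Finset (σ →₀ ℕ)}
    (hB : ∀ β : σ →₀ ℕ, β.degree < D0 → β ∈ B) {D : ℕ} {p : MvPolynomial σ k}
    (hp : p.totalDegree ≤ D) : Good d G B D p := by
  rw [← sum_homogeneousComponent p]
  apply Good.sum
  intro i hi
  rw [Finset.mem_range] at hi
  exact (good_of_homogeneous hd hG hD0 hB i _ (homogeneousComponent_isHomogeneous _ _)).mono
    (by omega)

end Pool.Agent.Work.MP_4329d7_ag_uni.Bez
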