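import Mathlib

set_option autoImplicit false

/-!
Degree formula, part A: weighted counting of exponents and comparison of polynomial growth.
-/

namespace Pool.Agent.Work.Bezout

open Finset

variable {σ : Type*} [Fintype σ]

/-- exponents of weight at most `t` -/
noncomputable def wset (d : σ → ℕ) (t : ℕ) : Finset (σ → ℕ) := by
  classical
  exact (Fintype.piFinset fun _ : σ => range (t + 1)).filter fun a => ∑ j, a j * d j ≤ t

theorem mem_wset {d : σ → ℕ} (hd : ∀ j, 0 < d j) {t : ℕ} {a : σ → ℕ} :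
    a ∈ wset d t ↔ ∑ j, a j * d j ≤ t := by
  classical
  unfold wset
  rw [mem_filter, Fintype.mem_piFinset]
  refine ⟨fun h => h.2, fun h => ⟨fun j => ?_, h⟩⟩
  rw [mem_range]
  have h1 : a j * d j ≤ ∑ j, a j * d j :=
    single_le_sum (f := fun j => a j * d j) (fun i _ => Nat.zero_le _) (mem_univ j)
  have h2 : a j ≤ a j * d j := Nat.le_mul_of_pos_right _ (hd j)
  omega

theorem card_wset_le (d : σ → ℕ) (t : ℕ) : (wset d t).card ≤ (t + 1) ^ Fintype.card σ := by
  classical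
  unfold wset
  refine (card_filter_le _ _).trans ?_
  rw [Fintype.card_piFinset]
  simp

theorem card_wset_zero {d : σ → ℕ} (hd : ∀ j, 0 < d j) : 1 ≤ (wset d 0).card := by
  classical
  rw [Nat.one_le_iff_ne_zero, ← Nat.pos_iff_ne_zero, card_pos]
  refine ⟨0, ?_⟩
  rw [mem_wset hd]
  simp

theorem wset_one_le {d : σ → ℕ} (hd : ∀ j, 0 < d j) (t : ℕ) :
    (wset (fun _ : σ => 1) t).card ≤ (∏ j, d j) * (wset d t).card := by
  classical
  have h1 : (∏ j, d j) * (wset d t).card =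
      ((Fintype.piFinset fun j : σ => range (d j)) ×ˢ wset d t).card := by
    rw [card_product, Fintype.card_piFinset]
    simp
  rw [h1]
  refine card_le_card_of_injOn (fun b => (fun j => b j % d j, fun j => b j / d j)) ?_ ?_
  · intro b hb
    have hb' : ∑ j, b j * 1 ≤ t := (mem_wset fun _ => one_pos).1 (mem_coe.1 hb)
    simp only [coe_product, Set.mem_prod, mem_coe, Fintype.mem_piFinset, mem_range]
    refine ⟨fun j => Nat.mod_lt _ (hd j), ?_⟩
    rw [mem_wset hd]
    refine le_trans (sum_le_sum fun j _ => ?_) hb'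
    rw [mul_one]
    exact Nat.div_mul_le_self _ _
  · intro b _ c _ hbc
    simp only [Prod.mk.injEq] at hbc
    funext j
    rw [← Nat.div_add_mod (b j) (d j), ← Nat.div_add_mod (c j) (d j), congrFun hbc.1 j,
      congrFun hbc.2 j]

theorem le_wset_one {d : σ → ℕ} (hd : ∀ j, 0 < d j) (t : ℕ) :
    (∏ j, d j) * (wset d t).card ≤ (wset (fun _ : σ => 1) (t + ∑ j, d j)).card := by
  classical
  have h1 : (∏ j, d j) * (wset d t).card =
      ((Fintype.piFinset fun j : σ => range (d j)) ×ˢ wset d t).card := by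
    rw [card_product, Fintype.card_piFinset]
    simp
  rw [h1]
  refine card_le_card_of_injOn (fun x => fun j => x.2 j * d j + x.1 j) ?_ ?_
  · rintro ⟨r, a⟩ h
    simp only [coe_product, Set.mem_prod, mem_coe, Fintype.mem_piFinset, mem_range] at h
    rw [mem_coe, mem_wset fun _ => one_pos]
    have h2 := (mem_wset hd).1 h.2
    simp only [mul_one, sum_add_distrib]
    have h3 : ∑ j, r j ≤ ∑ j, d j := sum_le_sum fun j _ => (h.1 j).le
    omega
  · rintro ⟨r, a⟩ h ⟨r', a'⟩ h' hbc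
    simp only [coe_product, Set.mem_prod, mem_coe, Fintype.mem_piFinset, mem_range] at h h'
    simp only at hbc
    have h4 : ∀ j, r j = r' j ∧ a j = a' j := by
      intro j
      have h5 : a j * d j + r j = a' j * d j + r' j := congrFun hbc j
      have h6 : (a j * d j + r j) % d j = (a' j * d j + r' j) % d j := by rw [h5]
      have h7 : (a j * d j + r j) / d j = (a' j * d j + r' j) / d j := by rw [h5]
      rw [mul_comm (a j), mul_comm (a' j), Nat.mul_add_mod, Nat.mul_add_mod,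
        Nat.mod_eq_of_lt (h.1 j), Nat.mod_eq_of_lt (h'.1 j)] at h6
      rw [mul_comm (a j), mul_comm (a' j), Nat.mul_add_div (hd j), Nat.mul_add_div (hd j),
        Nat.div_eq_of_lt (h.1 j), Nat.div_eq_of_lt (h'.1 j)] at h7
      omega
    rw [Prod.mk.injEq]
    exact ⟨funext fun j => (h4 j).1, funext fun j => (h4 j).2⟩

/-- Comparison of growth. -/
theorem growth {P : ℕ → ℕ} (h0 : 1 ≤ P 0) {n : ℕ} (hP : ∀ t, P t ≤ (t + 1) ^ n) {E₁ E₂ c : ℕ}
    (h : ∀ t, E₁ * P t ≤ E₂ * P (t + c)) : E₁ ≤ E₂ := by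
  by_contra hcon
  push Not at hcon
  have h' : ∀ t, (E₂ + 1) * P t ≤ E₂ * P (t + c) := fun t =>
    (Nat.mul_le_mul_right _ hcon).trans (h t)
  have h1 : ∀ m, (E₂ + 1) ^ m ≤ E₂ ^ m * P (m * c) := by
    intro m
    induction m with
    | zero => simpa using h0
    | succ m ih =>
      calc (E₂ + 1) ^ (m + 1) = (E₂ + 1) * (E₂ + 1) ^ m := by ring
        _ ≤ (E₂ + 1) * (E₂ ^ m * P (m * c)) := Nat.mul_le_mul_left _ ih
        _ = E₂ ^ m * ((E₂ + 1) * P (m * c)) := by ring
        _ ≤ E₂ ^ m * (E₂ * P (m * c + c)) := Nat.mul_le_mul_left _ (h' _)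
        _ = E₂ ^ (m + 1) * P ((m + 1) * c) := by
          rw [Nat.succ_mul]
          ring
  set r : ℝ := (E₂ : ℝ) / (E₂ + 1) with hr
  have hE : (0 : ℝ) < (E₂ : ℝ) + 1 := by positivity
  have hr0 : 0 ≤ r := by positivity
  have hr1 : r < 1 := by
    rw [hr, div_lt_one hE]
    linarith
  have h2 : ∀ m : ℕ, 1 ≤ m → 1 / ((c : ℝ) + 1) ^ n ≤ (m : ℝ) ^ n * r ^ m := by
    intro m hm
    have h3 : ((E₂ + 1 : ℕ) : ℝ) ^ m ≤ (E₂ : ℝ) ^ m * (((m * c + 1 : ℕ) : ℝ) ^ n) := by
      exact_mod_cast (h1 m).trans (Nat.mul_le_mul_left _ (hP _))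
    have h4 : ((m * c + 1 : ℕ) : ℝ) ≤ (m : ℝ) * (c + 1) := by
      have : m * c + 1 ≤ m * (c + 1) := by
        rw [Nat.mul_succ]
        omega
      exact_mod_cast this
    have h5 : ((E₂ : ℝ) + 1) ^ m ≤ (E₂ : ℝ) ^ m * ((m : ℝ) * (c + 1)) ^ n := by
      push_cast at h3
      refine h3.trans (mul_le_mul_of_nonneg_left ?_ (by positivity))
      refine pow_le_pow_left₀ (by positivity) ?_ _
      exact_mod_cast h4
    rw [hr, div_pow, div_le_iff₀ (by positivity)]
    have h9 : (m : ℝ) ^ n * ((E₂ : ℝ) ^ m / ((E₂ : ℝ) + 1) ^ m) * ((c : ℝ) + 1) ^ n =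
        (E₂ : ℝ) ^ m * ((m : ℝ) * (c + 1)) ^ n / ((E₂ : ℝ) + 1) ^ m := by
      rw [mul_pow]
      ring
    rw [h9, le_div_iff₀ (by positivity), one_mul]
    exact h5
  have h6 := tendsto_pow_const_mul_const_pow_of_abs_lt_one n (r := r) (by rwa [abs_of_nonneg hr0])
  have h7 : (1 : ℝ) / ((c : ℝ) + 1) ^ n ≤ 0 := by
    refine ge_of_tendsto h6 ?_
    filter_upwards [Filter.eventually_ge_atTop 1] with m hm
    exact h2 m hm
  have h8 : (0 : ℝ) < 1 / ((c : ℝ) + 1) ^ n := by positivity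
  linarith

end Pool.Agent.Work.Bezout
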