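import Pool.Agent.Work.MP_4329d7_ag_uni.DegA

set_option autoImplicit false

/-!
Degree formula, part B: forms whose only common zero is the origin; the polynomial ring is a
finite module over the ring generated by them, with degrees under control.
-/

namespace Pool.Agent.Work.Bezout

open MvPolynomial Finset

variable {σ k : Type*} [Fintype σ] [Field k]

/-- Products of powers of the given forms. -/
noncomputable def gpow (G : σ → MvPolynomial σ k) (a : σ → ℕ) : MvPolynomial σ k :=
  ∏ j, G j ^ a j

theorem gpow_add (G : σ → MvPolynomial σ k) (a b : σ → ℕ) :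
    gpow G (a + b) = gpow G a * gpow G b := by
  unfold gpow
  rw [← Finset.prod_mul_distrib]
  exact Finset.prod_congr rfl fun j _ => pow_add _ _ _

theorem gpow_zero (G : σ → MvPolynomial σ k) : gpow G 0 = 1 := by
  unfold gpow
  simp

theorem gpow_single [DecidableEq σ] (G : σ → MvPolynomial σ k) (j : σ) :
    gpow G (Pi.single j 1) = G j := by
  unfold gpow
  rw [Finset.prod_eq_single j]
  · simp
  · intro i _ hi
    rw [Pi.single_eq_of_ne hi, pow_zero]
  · intro h
    exact absurd (mem_univ j) h

theorem X_pow_mem [IsAlgClosed k] {G : σ → MvPolynomial σ k}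
    (h0 : ∀ x : σ → k, (∀ j, eval x (G j) = 0) → x = 0) :
    ∃ N, ∀ i, (X i : MvPolynomial σ k) ^ N ∈ Ideal.span (Set.range G) := by
  have h1 : ∀ i, ∃ n, (X i : MvPolynomial σ k) ^ n ∈ Ideal.span (Set.range G) := by
    intro i
    have h2 : (X i : MvPolynomial σ k) ∈ vanishingIdeal k (zeroLocus k (Ideal.span (Set.range G))) := by
      rw [mem_vanishingIdeal_iff]
      intro x hx
      rw [mem_zeroLocus_iff] at hx
      have h3 : x = 0 := by
        refine h0 x fun j => ?_
        have h4 := hx (G j) (Ideal.subset_span ⟨j, rfl⟩)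
        rwa [aeval_eq_eval] at h4
      rw [h3, aeval_X, Pi.zero_apply]
    rw [vanishingIdeal_zeroLocus_eq_radical] at h2
    exact h2
  choose n hn using h1
  refine ⟨∑ i, n i, fun i => ?_⟩
  exact Ideal.pow_mem_of_pow_mem _ (hn i)
    (single_le_sum (f := n) (fun _ _ => Nat.zero_le _) (mem_univ i))

theorem exists_bound [IsAlgClosed k] {G : σ → MvPolynomial σ k}
    (h0 : ∀ x : σ → k, (∀ j, eval x (G j) = 0) → x = 0) :
    ∃ e, 0 < e ∧ ∀ β : σ →₀ ℕ, e ≤ β.degree →
      (monomial β 1 : MvPolynomial σ k) ∈ Ideal.span (Set.range G) := by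
  classical
  obtain ⟨N, hN⟩ := X_pow_mem h0
  refine ⟨Fintype.card σ * N + 1, Nat.succ_pos _, fun β hβ => ?_⟩
  obtain ⟨i, hi⟩ : ∃ i, N ≤ β i := by
    by_contra hcon
    push Not at hcon
    have h1 : β.degree ≤ Fintype.card σ * N := by
      rw [Finsupp.degree_eq_sum]
      calc ∑ i, β i ≤ ∑ _i : σ, N := sum_le_sum fun i _ => (hcon i).le
        _ = Fintype.card σ * N := by rw [sum_const, card_univ, smul_eq_mul]
    omega
  have h2 : (monomial β 1 : MvPolynomial σ k) =
      monomial (β - Finsupp.single i N) 1 * X i ^ N := by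
    rw [X_pow_eq_monomial, monomial_mul, mul_one, tsub_add_cancel_of_le]
    rwa [Finsupp.single_le_iff]
  rw [h2]
  exact Ideal.mul_mem_left _ _ (hN i)

theorem hcomp_mul {a b : MvPolynomial σ k} {i : ℕ} (hb : b.IsHomogeneous i) (n : ℕ) :
    homogeneousComponent n (a * b) =
      if i ≤ n then homogeneousComponent (n - i) a * b else 0 := by
  classical
  have h1 : a * b = ∑ m ∈ range (a.totalDegree + 1), homogeneousComponent m a * b := by
    rw [← Finset.sum_mul, sum_homogeneousComponent]
  have h2 : ∀ m, homogeneousComponent n (homogeneousComponent m a * b) =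
      if n = m + i then homogeneousComponent m a * b else 0 := by
    intro m
    exact homogeneousComponent_of_mem
      ((mem_homogeneousSubmodule _ _).2 ((homogeneousComponent_isHomogeneous m a).mul hb))
  rw [h1, map_sum]
  simp only [h2]
  split_ifs with hn
  · have h3 : ∀ m, (n = m + i) = (m = n - i) := fun m => by
      rw [eq_iff_iff]
      omega
    simp only [h3]
    rw [Finset.sum_ite_eq']
    split_ifs with h4
    · rfl
    · rw [mem_range] at h4
      rw [homogeneousComponent_eq_zero _ _ (by omega), zero_mul]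
  · exact Finset.sum_eq_zero fun m _ => if_neg (by omega)

theorem exists_homog {G : σ → MvPolynomial σ k} {d : σ → ℕ}
    (hG : ∀ j, (G j).IsHomogeneous (d j)) {f : MvPolynomial σ k} {D : ℕ}
    (hf : f.IsHomogeneous D) (hmem : f ∈ Ideal.span (Set.range G)) :
    ∃ c : σ → MvPolynomial σ k, (∀ j, (c j).IsHomogeneous (D - d j)) ∧
      (∀ j, D < d j → c j = 0) ∧ f = ∑ j, c j * G j := by
  classical
  rw [Ideal.mem_span_range_iff_exists_fun] at hmem
  obtain ⟨c', hc'⟩ := hmem
  refine ⟨fun j => if d j ≤ D then homogeneousComponent (D - d j) (c' j) else 0, ?_, ?_, ?_⟩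
  · intro j
    dsimp only
    split_ifs
    · exact homogeneousComponent_isHomogeneous _ _
    · exact isHomogeneous_zero _ _ _
  · intro j hj
    exact if_neg (by omega)
  · have h1 : f = homogeneousComponent D f := (homogeneousComponent_eq_self hf).symm
    rw [h1, ← hc', map_sum]
    refine Finset.sum_congr rfl fun j _ => ?_
    dsimp only
    rw [hcomp_mul (hG j)]
    split_ifs
    · rfl
    · rw [zero_mul]

/-- The span of the products of small monomials and powers of the forms, of degree at most `t`. -/
noncomputable def spn (G : σ → MvPolynomial σ k) (d : σ → ℕ) (e t : ℕ) :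
    Submodule k (MvPolynomial σ k) :=
  Submodule.span k {p | ∃ (a : σ → ℕ) (β : σ →₀ ℕ), ∑ j, a j * d j + β.degree ≤ t ∧
    β.degree < e ∧ p = gpow G a * monomial β 1}

theorem spn_mono (G : σ → MvPolynomial σ k) (d : σ → ℕ) (e : ℕ) {t t' : ℕ} (h : t ≤ t') :
    spn G d e t ≤ spn G d e t' := by
  refine Submodule.span_mono ?_
  rintro p ⟨a, β, h1, h2, h3⟩
  exact ⟨a, β, h1.trans h, h2, h3⟩

theorem mul_spn (G : σ → MvPolynomial σ k) (d : σ → ℕ) (e t : ℕ) (j : σ)
    {f : MvPolynomial σ k} (hf : f ∈ spn G d e t) : f * G j ∈ spn G d e (t + d j) := by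
  classical
  unfold spn at hf
  induction hf using Submodule.span_induction with
  | mem p hp =>
    obtain ⟨a, β, h1, h2, rfl⟩ := hp
    refine Submodule.subset_span ⟨a + Pi.single j 1, β, ?_, h2, ?_⟩
    · have h3 : ∑ i, (a + Pi.single j 1 : σ → ℕ) i * d i = ∑ i, a i * d i + d j := by
        simp only [Pi.add_apply, add_mul, sum_add_distrib]
        congr 1
        rw [Finset.sum_eq_single j]
        · simp
        · intro i _ hi
          rw [Pi.single_eq_of_ne hi, zero_mul]
        · intro h
          exact absurd (mem_univ j) h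
      rw [h3]
      omega
    · rw [gpow_add, gpow_single]
      ring
  | zero =>
    rw [zero_mul]
    exact Submodule.zero_mem _
  | add p q _ _ hp hq =>
    rw [add_mul]
    exact Submodule.add_mem _ hp hq
  | smul c p _ hp =>
    rw [smul_mul_assoc]
    exact Submodule.smul_mem _ _ hp

theorem totalDegree_le_iff_degree {f : MvPolynomial σ k} {t : ℕ} :
    f.totalDegree ≤ t ↔ ∀ β ∈ f.support, β.degree ≤ t := by
  rw [totalDegree, Finset.sup_le_iff]
  rfl

theorem totalDegree_lt_of_hcomp {f : MvPolynomial σ k} {t : ℕ} (h : f.totalDegree ≤ t + 1)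
    (h' : homogeneousComponent (t + 1) f = 0) : f.totalDegree ≤ t := by
  rw [totalDegree_le_iff_degree] at h ⊢
  intro β hβ
  have h1 := h β hβ
  have h2 : β.degree ≠ t + 1 := by
    intro h3
    have h4 : coeff β (homogeneousComponent (t + 1) f) = 0 := by rw [h', coeff_zero]
    rw [coeff_homogeneousComponent, if_pos h3] at h4
    rw [mem_support_iff] at hβ
    exact hβ h4
  omega

theorem homog_mem_span {G : σ → MvPolynomial σ k} {e : ℕ}
    (he : ∀ β : σ →₀ ℕ, e ≤ β.degree →
      (monomial β 1 : MvPolynomial σ k) ∈ Ideal.span (Set.range G))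
    {f : MvPolynomial σ k} {t : ℕ} (hf : f.IsHomogeneous t) (ht : e ≤ t) :
    f ∈ Ideal.span (Set.range G) := by
  rw [f.as_sum]
  refine Ideal.sum_mem _ fun β hβ => ?_
  have h1 : β.degree = t := by
    by_contra hne
    rw [mem_support_iff] at hβ
    exact hβ (hf.coeff_eq_zero hne)
  have h2 : (monomial β (coeff β f) : MvPolynomial σ k) = C (coeff β f) * monomial β 1 := by
    rw [C_mul_monomial, mul_one]
  rw [h2]
  exact Ideal.mul_mem_left _ _ (he β (by omega))

theorem mem_spn {Φ : σ → MvPolynomial σ k} {D : σ → ℕ} (hD : ∀ j, 0 < D j)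
    (hΦ : ∀ j, (Φ j).totalDegree ≤ D j) {e : ℕ} (he0 : 0 < e)
    (he : ∀ β : σ →₀ ℕ, e ≤ β.degree →
      (monomial β 1 : MvPolynomial σ k) ∈
        Ideal.span (Set.range fun j => homogeneousComponent (D j) (Φ j))) :
    ∀ (t : ℕ) (f : MvPolynomial σ k), f.totalDegree ≤ t → f ∈ spn Φ D e t := by
  intro t
  induction t using Nat.strong_induction_on with
  | _ t ih =>
    intro f hf
    by_cases ht : t < e
    · rw [f.as_sum]
      refine Submodule.sum_mem _ fun β hβ => ?_
      have h1 : β.degree ≤ t := totalDegree_le_iff_degree.1 hf β hβ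
      have h2 : (monomial β (coeff β f) : MvPolynomial σ k) = coeff β f • monomial β 1 := by
        rw [smul_monomial, smul_eq_mul, mul_one]
      rw [h2]
      refine Submodule.smul_mem _ _ (Submodule.subset_span ⟨0, β, ?_, by omega, ?_⟩)
      · simpa using h1
      · rw [gpow_zero, one_mul]
    · obtain ⟨c, hc1, hc2, hc3⟩ := exists_homog
        (G := fun j => homogeneousComponent (D j) (Φ j)) (d := D)
        (fun j => homogeneousComponent_isHomogeneous _ _)
        (homogeneousComponent_isHomogeneous t f)
        (homog_mem_span he (homogeneousComponent_isHomogeneous t f) (not_lt.1 ht))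
      have hc4 : ∀ j, (c j * Φ j).totalDegree ≤ t := by
        intro j
        by_cases hj : t < D j
        · rw [hc2 j hj, zero_mul, totalDegree_zero]
          exact Nat.zero_le _
        · refine (totalDegree_mul _ _).trans ?_
          have h1 := (hc1 j).totalDegree_le
          have h2 := hΦ j
          omega
      have hc5 : ∀ j, homogeneousComponent t (c j * Φ j) =
          c j * homogeneousComponent (D j) (Φ j) := by
        intro j
        by_cases hj : t < D j
        · rw [hc2 j hj, zero_mul, zero_mul, map_zero]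
        · rw [mul_comm, hcomp_mul (hc1 j), if_pos (Nat.sub_le _ _), Nat.sub_sub_self (not_lt.1 hj),
            mul_comm]
      obtain ⟨t', rfl⟩ : ∃ t', t = t' + 1 := ⟨t - 1, by omega⟩
      have hg : (f - ∑ j, c j * Φ j).totalDegree ≤ t' := by
        refine totalDegree_lt_of_hcomp ?_ ?_
        · refine (totalDegree_sub _ _).trans (max_le hf ?_)
          exact (totalDegree_finset_sum _ _).trans (Finset.sup_le fun j _ => hc4 j)
        · rw [map_sub, map_sum]
          simp only [hc5]
          rw [hc3, sub_self]
      have h1 : f = (f - ∑ j, c j * Φ j) + ∑ j, c j * Φ j := by ring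
      rw [h1]
      refine Submodule.add_mem _ (spn_mono Φ D e (Nat.le_succ t') (ih t' (Nat.lt_succ_self _) _ hg))
        (Submodule.sum_mem _ fun j _ => ?_)
      by_cases hj : t' + 1 < D j
      · rw [hc2 j hj, zero_mul]
        exact Submodule.zero_mem _
      · have h2 := ih (t' + 1 - D j) (by have := hD j; omega) (c j) (hc1 j).totalDegree_le
        have h3 := mul_spn Φ D e (t' + 1 - D j) j h2
        rwa [Nat.sub_add_cancel (by omega)] at h3

end Pool.Agent.Work.Bezout
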