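import Mathlib

/-!
Counting lattice points: comparison of weighted and unweighted simplices.
-/

namespace Pool.Agent.Work.Uni4329

open Finset

variable {σ : Type*} [Fintype σ] [DecidableEq σ]

/-- lattice points `a` with `sum w a ≤ d` -/
def pts (w : σ → ℕ) (d : ℕ) : Finset (σ → ℕ) :=
  (Fintype.piFinset fun _ => range (d + 1)).filter fun a => ∑ i, w i * a i ≤ d

theorem mem_pts {w : σ → ℕ} (hw : ∀ i, 0 < w i) {d : ℕ} {a : σ → ℕ} :
    a ∈ pts w d ↔ ∑ i, w i * a i ≤ d := by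
  unfold pts
  rw [mem_filter, Fintype.mem_piFinset]
  constructor
  · exact fun h => h.2
  · intro h
    refine ⟨fun i => ?_, h⟩
    rw [mem_range]
    have h1 : w i * a i ≤ ∑ i, w i * a i :=
      Finset.single_le_sum (f := fun i => w i * a i) (fun _ _ => Nat.zero_le _) (mem_univ i)
    have h2 : a i ≤ w i * a i := Nat.le_mul_of_pos_left _ (hw i)
    omega

theorem mem_pts_one {d : ℕ} {a : σ → ℕ} :
    a ∈ pts (fun _ => 1) d ↔ ∑ i, a i ≤ d := by
  rw [mem_pts (fun _ => Nat.one_pos)]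
  simp

theorem card_pts_le (w : σ → ℕ) (d : ℕ) : (pts w d).card ≤ (d + 1) ^ Fintype.card σ := by
  unfold pts
  refine (card_filter_le _ _).trans ?_
  rw [Fintype.card_piFinset]
  simp

theorem card_pts_pos (w : σ → ℕ) (d : ℕ) : 0 < (pts w d).card := by
  apply card_pos.mpr
  refine ⟨fun _ => 0, ?_⟩
  unfold pts
  simp

theorem prod_mul_card_le {w : σ → ℕ} (hw : ∀ i, 0 < w i) (d : ℕ) :
    (∏ i, w i) * (pts w d).card ≤ (pts (fun _ : σ => 1) (d + ∑ i, w i)).card := by
  classical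
  have h1 : (∏ i, w i) * (pts w d).card
      = ((Fintype.piFinset fun i => range (w i)) ×ˢ (pts w d)).card := by
    rw [card_product, Fintype.card_piFinset]
    simp
  rw [h1]
  apply card_le_card_of_injOn (fun p => fun i => w i * p.2 i + p.1 i)
  · rintro ⟨r, a⟩ hp
    have hp' := mem_product.mp hp
    have hr : ∀ i, r i < w i := fun i => mem_range.mp (Fintype.mem_piFinset.mp hp'.1 i)
    have ha : ∑ i, w i * a i ≤ d := (mem_pts hw).mp hp'.2
    show _ ∈ pts (fun _ : σ => 1) (d + ∑ i, w i)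
    rw [mem_pts_one]
    show ∑ i, (w i * a i + r i) ≤ _
    rw [sum_add_distrib]
    exact Nat.add_le_add ha (sum_le_sum fun i _ => (hr i).le)
  · rintro ⟨r, a⟩ hp ⟨r', a'⟩ hp' heq
    have hr : ∀ i, r i < w i := fun i =>
      mem_range.mp (Fintype.mem_piFinset.mp (mem_product.mp hp).1 i)
    have hr' : ∀ i, r' i < w i := fun i =>
      mem_range.mp (Fintype.mem_piFinset.mp (mem_product.mp hp').1 i)
    have key : ∀ i, r i = r' i ∧ a i = a' i := by
      intro i
      have h := congrFun heq i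
      simp only at h
      have hm := congrArg (· % w i) h
      simp only [Nat.mul_add_mod, Nat.mod_eq_of_lt (hr i), Nat.mod_eq_of_lt (hr' i)] at hm
      refine ⟨hm, ?_⟩
      rw [hm] at h
      exact Nat.eq_of_mul_eq_mul_left (hw i) (Nat.add_right_cancel h)
    exact Prod.ext (funext fun i => (key i).1) (funext fun i => (key i).2)

theorem card_le_prod_mul {w : σ → ℕ} (hw : ∀ i, 0 < w i) (d : ℕ) :
    (pts (fun _ : σ => 1) d).card ≤ (∏ i, w i) * (pts w d).card := by
  classical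
  have h1 : (∏ i, w i) * (pts w d).card
      = ((Fintype.piFinset fun i => range (w i)) ×ˢ (pts w d)).card := by
    rw [card_product, Fintype.card_piFinset]
    simp
  rw [h1]
  apply card_le_card_of_injOn (fun a => (fun i => a i % w i, fun i => a i / w i))
  · intro a ha
    have ha' : ∑ i, a i ≤ d := mem_pts_one.mp ha
    apply mem_product.mpr
    refine ⟨Fintype.mem_piFinset.mpr fun i => mem_range.mpr (Nat.mod_lt _ (hw i)), ?_⟩
    rw [mem_pts hw]
    refine (sum_le_sum fun i _ => ?_).trans ha'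
    exact Nat.mul_div_le (a i) (w i)
  · intro a _ a' _ heq
    funext i
    have h1 := congrFun (congrArg Prod.fst heq) i
    have h2 := congrFun (congrArg Prod.snd heq) i
    simp only at h1 h2
    rw [← Nat.div_add_mod (a i) (w i), ← Nat.div_add_mod (a' i) (w i), h1, h2]

/-- comparison of growth -/
theorem le_of_growth {X Y c : ℕ}
    (h : ∀ d, X * (pts (fun _ : σ => 1) d).card ≤ Y * (pts (fun _ : σ => 1) (d + c)).card) :
    X ≤ Y := by
  by_contra hlt
  push Not at hlt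
  set n := Fintype.card σ
  have hY : 0 < Y := by
    rcases Nat.eq_zero_or_pos Y with h0 | h0
    · exfalso
      have := h 0
      rw [h0, zero_mul] at this
      have h2 := card_pts_pos (fun _ : σ => 1) 0
      have h3 : 0 < X * (pts (fun _ : σ => 1) 0).card := Nat.mul_pos (by omega) h2
      omega
    · exact h0
  have key : ∀ j : ℕ, X ^ j ≤ Y ^ j * (pts (fun _ : σ => 1) (c * j)).card := by
    intro j
    induction j with
    | zero =>
      have := card_pts_pos (fun _ : σ => 1) (c * 0)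
      simpa using this
    | succ j ih =>
      calc X ^ (j + 1) = X * X ^ j := by ring
        _ ≤ X * (Y ^ j * (pts (fun _ : σ => 1) (c * j)).card) := Nat.mul_le_mul_left _ ih
        _ = Y ^ j * (X * (pts (fun _ : σ => 1) (c * j)).card) := by ring
        _ ≤ Y ^ j * (Y * (pts (fun _ : σ => 1) (c * j + c)).card) :=
            Nat.mul_le_mul_left _ (h _)
        _ = Y ^ (j + 1) * (pts (fun _ : σ => 1) (c * (j + 1))).card := by
            rw [show c * (j + 1) = c * j + c by ring]; ring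
  have key2 : ∀ j : ℕ, ((Y + 1 : ℝ) / Y) ^ j ≤ ((c + 1 : ℝ) ^ n) * ((j : ℝ) + 1) ^ n := by
    intro j
    have h1 : (Y + 1) ^ j ≤ Y ^ j * ((c + 1) * (j + 1)) ^ n := by
      calc (Y + 1) ^ j ≤ X ^ j := Nat.pow_le_pow_left hlt j
        _ ≤ Y ^ j * (pts (fun _ : σ => 1) (c * j)).card := key j
        _ ≤ Y ^ j * (c * j + 1) ^ n := Nat.mul_le_mul_left _ (card_pts_le _ _)
        _ ≤ Y ^ j * ((c + 1) * (j + 1)) ^ n := by
            apply Nat.mul_le_mul_left
            apply Nat.pow_le_pow_left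
            nlinarith
    have h2 : ((Y + 1 : ℝ)) ^ j ≤ (Y : ℝ) ^ j * (((c : ℝ) + 1) * ((j : ℝ) + 1)) ^ n := by
      exact_mod_cast h1
    have hYr : (0 : ℝ) < (Y : ℝ) ^ j := by positivity
    rw [div_pow, div_le_iff₀ hYr]
    calc ((Y + 1 : ℝ)) ^ j ≤ (Y : ℝ) ^ j * (((c : ℝ) + 1) * ((j : ℝ) + 1)) ^ n := h2
      _ = ((c + 1 : ℝ) ^ n) * ((j : ℝ) + 1) ^ n * (Y : ℝ) ^ j := by rw [mul_pow]; ring
  have hr : 1 < ((Y + 1 : ℝ) / Y) := by
    have : (0 : ℝ) < Y := by exact_mod_cast hY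
    rw [lt_div_iff₀ this]
    linarith
  have ht := tendsto_pow_const_div_const_pow_of_one_lt n hr
  -- j^n / r^j -> 0
  have ht2 := ht.comp (Filter.tendsto_add_atTop_nat 1)
  have hpos : (0 : ℝ) < 1 / (((c + 1 : ℝ) ^ n) * (((Y + 1 : ℝ) / Y) + 1)) := by positivity
  obtain ⟨j, hj⟩ := ((ht2.eventually (gt_mem_nhds hpos)).exists)
  simp only [Function.comp] at hj
  have hj2 := key2 j
  have hrp : (0 : ℝ) < ((Y + 1 : ℝ) / Y) ^ (j + 1) := by positivity
  rw [div_lt_iff₀ hrp, pow_succ] at hj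
  push_cast at hj
  have hcp : (0 : ℝ) < ((c + 1 : ℝ) ^ n) := by positivity
  have h5 : ((c + 1 : ℝ) ^ n) * ((j : ℝ) + 1) ^ n
      < ((c + 1 : ℝ) ^ n) * (1 / (((c + 1 : ℝ) ^ n) * (((Y + 1 : ℝ) / Y) + 1)) *
        (((Y + 1 : ℝ) / Y) ^ j * ((Y + 1 : ℝ) / Y))) :=
    mul_lt_mul_of_pos_left hj hcp
  have h6 : ((c + 1 : ℝ) ^ n) * (1 / (((c + 1 : ℝ) ^ n) * (((Y + 1 : ℝ) / Y) + 1)) *
        (((Y + 1 : ℝ) / Y) ^ j * ((Y + 1 : ℝ) / Y)))
      = ((Y + 1 : ℝ) / Y) ^ j * (((Y + 1 : ℝ) / Y) / (((Y + 1 : ℝ) / Y) + 1)) := by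
    field_simp
  have h7 : ((Y + 1 : ℝ) / Y) / (((Y + 1 : ℝ) / Y) + 1) ≤ 1 := by
    rw [div_le_one (by positivity)]
    linarith
  have h8 : ((Y + 1 : ℝ) / Y) ^ j * (((Y + 1 : ℝ) / Y) / (((Y + 1 : ℝ) / Y) + 1))
      ≤ ((Y + 1 : ℝ) / Y) ^ j := by
    apply mul_le_of_le_one_right (by positivity) h7
  rw [h6] at h5
  linarith

end Pool.Agent.Work.Uni4329
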