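import Mathlib
import Pool.Agent.Work.MP_4329d7_ag_uni.Growth

/-!
Upper bound for the number of points in the fibre of a polynomial map over a generic target.
-/

namespace Pool.Agent.Work.Uni4329

open Finset MvPolynomial

variable {σ : Type*} [Fintype σ] [DecidableEq σ] {k : Type*} [Field k]

omit [DecidableEq σ] in
theorem sum_finsupp (n : σ →₀ ℕ) : (n.sum fun _ e => e) = ∑ i, n i :=
  Finsupp.sum_fintype _ _ (fun _ => rfl)

theorem finrank_restrict (m : ℕ) :
    Module.finrank k (restrictTotalDegree σ k m) = (pts (fun _ : σ => 1) m).card := by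
  classical
  have b : Module.Basis { n : σ →₀ ℕ | (n.sum fun _ e => e) ≤ m } k
      (restrictTotalDegree σ k m) := basisRestrictSupport k _
  rw [Module.finrank_eq_nat_card_basis b, ← Nat.card_eq_finsetCard]
  apply Nat.card_congr
  refine Equiv.subtypeEquiv Finsupp.equivFunOnFinite ?_
  intro n
  show (n.sum fun _ e => e) ≤ m ↔ _ ∈ pts (fun _ : σ => 1) m
  rw [mem_pts_one, sum_finsupp]
  rfl

/-- the monomial `G^a` as a polynomial -/
theorem aeval_mono (G : σ → MvPolynomial σ k) (a : σ → ℕ) (r : k) :
    aeval G (monomial (Finsupp.equivFunOnFinite.symm a) r) = C r * ∏ i, G i ^ a i := by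
  rw [aeval_monomial, Finsupp.prod_fintype _ _ (fun _ => pow_zero _)]
  rfl

theorem totalDegree_prod_pow {G : σ → MvPolynomial σ k} {w : σ → ℕ}
    (hG : ∀ i, (G i).totalDegree ≤ w i) (a : σ → ℕ) :
    (∏ i, G i ^ a i).totalDegree ≤ ∑ i, w i * a i := by
  refine (totalDegree_finsetProd _ _).trans ?_
  refine sum_le_sum fun i _ => ?_
  refine (totalDegree_pow _ _).trans ?_
  rw [mul_comm]
  exact Nat.mul_le_mul_right _ (hG i)

theorem card_le_prod_of_linIndep {κ : Type*} [Fintype κ] (G : σ → MvPolynomial σ k)
    {w : σ → ℕ} (hw : ∀ i, 0 < w i) (hG : ∀ i, (G i).totalDegree ≤ w i)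
    (e : κ → MvPolynomial σ k)
    (hlin : ∀ a : κ → MvPolynomial σ k, ∑ j, aeval G (a j) * e j = 0 → a = 0) :
    Fintype.card κ ≤ ∏ i, w i := by
  classical
  set D := ∑ j, (e j).totalDegree with hD
  have hDj : ∀ j, (e j).totalDegree ≤ D := fun j =>
    single_le_sum (f := fun j => (e j).totalDegree) (fun _ _ => Nat.zero_le _) (mem_univ j)
  have key : ∀ d, Fintype.card κ * (pts w d).card ≤ (pts (fun _ : σ => 1) (d + D)).card := by
    intro d
    rw [← finrank_restrict (k := k) (d + D)]
    have hmem : ∀ p : κ × {x // x ∈ pts w d}, (∏ i, G i ^ (p.2 : σ → ℕ) i) * e p.1 ∈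
        restrictTotalDegree σ k (d + D) := by
      intro p
      rw [mem_restrictTotalDegree]
      refine (totalDegree_mul _ _).trans ?_
      refine Nat.add_le_add ((totalDegree_prod_pow hG _).trans ?_) (hDj _)
      exact (mem_pts hw).mp p.2.2
    let v : κ × {x // x ∈ pts w d} → restrictTotalDegree σ k (d + D) :=
      fun p => ⟨(∏ i, G i ^ (p.2 : σ → ℕ) i) * e p.1, hmem p⟩
    have hv : LinearIndependent k v := by
      rw [Fintype.linearIndependent_iff]
      intro c hc
      let a : κ → MvPolynomial σ k := fun j =>
        ∑ x : {x // x ∈ pts w d}, monomial (Finsupp.equivFunOnFinite.symm (x : σ → ℕ)) (c (j, x))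
      have ha : a = 0 := by
        apply hlin
        have h1 := congrArg Subtype.val hc
        rw [Submodule.coe_sum, Submodule.coe_zero] at h1
        rw [← h1, Fintype.sum_prod_type]
        refine sum_congr rfl fun j _ => ?_
        show aeval G (∑ x : {x // x ∈ pts w d}, monomial _ (c (j, x))) * e j = _
        rw [map_sum, sum_mul]
        refine sum_congr rfl fun x _ => ?_
        rw [aeval_mono, Submodule.coe_smul, smul_eq_C_mul, mul_assoc]
      rintro ⟨j, x⟩
      have h2 := congrArg (coeff (Finsupp.equivFunOnFinite.symm (x : σ → ℕ))) (congrFun ha j)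
      show c (j, x) = 0
      have h3 : coeff (Finsupp.equivFunOnFinite.symm (x : σ → ℕ)) (a j) = c (j, x) := by
        show coeff _ (∑ y : {x // x ∈ pts w d}, monomial _ (c (j, y))) = _
        rw [coeff_sum, sum_eq_single x]
        · rw [coeff_monomial, if_pos rfl]
        · intro y _ hyx
          rw [coeff_monomial, if_neg]
          intro h
          exact hyx (Subtype.ext (Finsupp.equivFunOnFinite.symm.injective h))
        · intro h
          exact absurd (mem_univ _) h
      rw [← h3, h2]
      rfl
    have := hv.fintype_card_le_finrank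
    rwa [Fintype.card_prod, Fintype.card_coe] at this
  apply le_of_growth (σ := σ) (c := D)
  intro d
  calc Fintype.card κ * (pts (fun _ : σ => 1) d).card
      ≤ Fintype.card κ * ((∏ i, w i) * (pts w d).card) :=
        Nat.mul_le_mul_left _ (card_le_prod_mul hw d)
    _ = (∏ i, w i) * (Fintype.card κ * (pts w d).card) := by ring
    _ ≤ (∏ i, w i) * (pts (fun _ : σ => 1) (d + D)).card := Nat.mul_le_mul_left _ (key d)

/-- a linear form over the small field separating finitely many points -/
theorem exists_separating [Infinite k] {L : Type*} [Field L] [Algebra k L]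
    (S : Finset (σ → L)) :
    ∃ c : σ → k, Set.InjOn (fun t : σ → L => ∑ i, algebraMap k L (c i) * t i) S := by
  classical
  let f : (σ → L) → ((σ → k) →ₗ[k] L) := fun t =>
    { toFun := fun c => ∑ i, algebraMap k L (c i) * t i
      map_add' := by
        intro c c'
        rw [← sum_add_distrib]
        refine sum_congr rfl fun i _ => ?_
        rw [Pi.add_apply, map_add, add_mul]
      map_smul' := by
        intro r c
        simp only [RingHom.id_apply, Pi.smul_apply, smul_eq_mul, map_mul, mul_assoc]
        rw [← mul_sum, Algebra.smul_def] }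
  let P : Finset (Subspace k (σ → k)) :=
    ((S ×ˢ S).filter fun p => p.1 ≠ p.2).image fun p => LinearMap.ker (f p.1 - f p.2)
  have hP : ⊤ ∉ P := by
    intro h
    obtain ⟨p, hp, hpe⟩ := mem_image.mp h
    apply (mem_filter.mp hp).2
    funext i
    have h1 : (Pi.single i 1 : σ → k) ∈ LinearMap.ker (f p.1 - f p.2) := by
      rw [hpe]; trivial
    rw [LinearMap.mem_ker, LinearMap.sub_apply, sub_eq_zero] at h1
    have h2 : ∀ t : σ → L, f t (Pi.single i 1) = t i := by
      intro t
      show ∑ j, algebraMap k L ((Pi.single i 1 : σ → k) j) * t j = t i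
      rw [sum_eq_single i]
      · rw [Pi.single_eq_same, map_one, one_mul]
      · intro j _ hj
        rw [Pi.single_eq_of_ne hj, map_zero, zero_mul]
      · intro h
        exact absurd (mem_univ _) h
    rwa [h2, h2] at h1
  obtain ⟨c, hc⟩ := (Set.ne_univ_iff_exists_notMem _).mp
    (Subspace.biUnion_ne_univ_of_top_notMem hP)
  refine ⟨c, ?_⟩
  intro t ht t' ht' heq
  by_contra hne
  apply hc
  rw [Set.mem_iUnion₂]
  refine ⟨LinearMap.ker (f t - f t'), mem_image.mpr ⟨(t, t'), mem_filter.mpr
    ⟨mem_product.mpr ⟨ht, ht'⟩, hne⟩, rfl⟩, ?_⟩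
  show c ∈ LinearMap.ker (f t - f t')
  rw [LinearMap.mem_ker, LinearMap.sub_apply, sub_eq_zero]
  exact heq

omit [Fintype σ] [DecidableEq σ] in
theorem aeval_aeval' {L : Type*} [Field L] [Algebra k L] (G : σ → MvPolynomial σ k)
    (t : σ → L) (p : MvPolynomial σ k) :
    aeval t (aeval G p) = aeval (fun i => aeval t (G i)) p := by
  rw [← AlgHom.comp_apply, comp_aeval]

theorem fibre_card_le [Infinite k] {L : Type*} [Field L] [Algebra k L]
    (G : σ → MvPolynomial σ k)
    {w : σ → ℕ} (hw : ∀ i, 0 < w i) (hG : ∀ i, (G i).totalDegree ≤ w i)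
    {g : σ → L} (hg : AlgebraicIndependent k g)
    (S : Finset (σ → L)) (hS : ∀ t ∈ S, ∀ i, aeval t (G i) = g i) :
    S.card ≤ ∏ i, w i := by
  classical
  obtain ⟨c, hc⟩ := exists_separating (k := k) S
  let lam : MvPolynomial σ k := ∑ i, C (c i) * X i
  have hlam : ∀ t : σ → L, aeval t lam = ∑ i, algebraMap k L (c i) * t i := by
    intro t
    show aeval t (∑ i, C (c i) * X i) = _
    rw [map_sum]
    refine sum_congr rfl fun i _ => ?_
    rw [map_mul, aeval_C, aeval_X]
  have h := card_le_prod_of_linIndep (κ := Fin S.card) G hw hG (fun j => lam ^ (j : ℕ)) ?_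
  · rwa [Fintype.card_fin] at h
  · intro a ha
    have h1 : ∀ t ∈ S, ∑ j : Fin S.card, aeval g (a j) *
        (∑ i, algebraMap k L (c i) * t i) ^ (j : ℕ) = 0 := by
      intro t ht
      have h2 := congrArg (aeval t) ha
      rw [map_sum, map_zero] at h2
      rw [← h2]
      refine sum_congr rfl fun j _ => ?_
      have h3 : (fun i => aeval t (G i)) = g := funext (hS t ht)
      rw [map_mul, map_pow, hlam, aeval_aeval', h3]
    let P : Polynomial L := ∑ j : Fin S.card, Polynomial.monomial (j : ℕ) (aeval g (a j))
    have hPev : ∀ x, P.eval x = ∑ j : Fin S.card, aeval g (a j) * x ^ (j : ℕ) := by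
      intro x
      show (∑ j : Fin S.card, Polynomial.monomial (j : ℕ) (aeval g (a j))).eval x = _
      rw [Polynomial.eval_finsetSum]
      refine sum_congr rfl fun j _ => ?_
      rw [Polynomial.eval_monomial]
    have hP0 : P = 0 := by
      by_contra hne
      have hdeg : P.natDegree < S.card ∨ S.card = 0 := by
        rcases Nat.eq_zero_or_pos S.card with h0 | h0
        · exact Or.inr h0
        left
        refine lt_of_le_of_lt (Polynomial.natDegree_sum_le_of_forall_le (n := S.card - 1)
          _ _ ?_) (by omega)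
        intro j _
        refine (Polynomial.natDegree_monomial_le _).trans ?_
        have := j.2
        omega
      rcases hdeg with hdeg | h0
      · have h3 : (S.image fun t : σ → L => ∑ i, algebraMap k L (c i) * t i).card
            ≤ P.natDegree := by
          apply Polynomial.card_le_degree_of_subset_roots
          intro x hx
          have hx' := (Multiset.mem_of_le (le_refl _) hx)
          obtain ⟨t, ht, rfl⟩ := mem_image.mp (by simpa using hx')
          rw [Polynomial.mem_roots hne, Polynomial.IsRoot.def, hPev]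
          exact h1 t ht
        rw [card_image_of_injOn hc] at h3
        omega
      · apply hne
        show ∑ j : Fin S.card, Polynomial.monomial (j : ℕ) (aeval g (a j)) = 0
        apply sum_eq_zero
        intro j _
        exact absurd j.2 (by omega)
    funext j
    have h4 : aeval g (a j) = 0 := by
      have h5 : P.coeff (j : ℕ) = 0 := by rw [hP0, Polynomial.coeff_zero]
      have h6 : P.coeff (j : ℕ) = aeval g (a j) := by
        show (∑ i : Fin S.card, Polynomial.monomial (i : ℕ) (aeval g (a i))).coeff (j : ℕ) = _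
        rw [Polynomial.finsetSum_coeff, sum_eq_single j]
        · rw [Polynomial.coeff_monomial, if_pos rfl]
        · intro i _ hij
          rw [Polynomial.coeff_monomial, if_neg]
          exact fun h => hij (Fin.ext h)
        · intro h
          exact absurd (mem_univ _) h
      rw [← h6, h5]
    exact hg.eq_zero_of_aeval_eq_zero _ h4

end Pool.Agent.Work.Uni4329
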